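import Pool.Agent.Lib.MP_2d1e68_al.Kz.Spec

/-!
# Existence of the image of a representative
-/

open Finset Filter Topology

noncomputable section

namespace SoficAct.Kz

private lemma olap_eq {A : Type} (Y Z : Finset A) [DecidablePred (fun a => a ∈ Z)] :
    olap Y Z = ((Y.filter (fun a => a ∈ Z)).card : ℝ) := by
  unfold olap
  congr

private lemma pass2_eq {N A : Type} (φ : N → Equiv.Perm A) (g w : N) (γ γ' : Finset (A × A))
    [DecidablePred (fun p : A × A => (φ g p.1, φ w p.2) ∈ γ')] :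
    pass2 φ g w γ γ' = ((γ.filter (fun p => (φ g p.1, φ w p.2) ∈ γ')).card : ℝ) := by
  unfold pass2
  congr

theorem ac (h1 : S_OP) : S_Ac := by
  intro Γ _ S T D θ η ε A I E _ _ _ φ P m Bd src tgt γ g w e i' j' par st sk hn h2 h3
  classical
  have hε0 := par.ε0
  have hε1 := par.ε1
  have hme := sk.mor e
  obtain ⟨γ', hγ', him⟩ := h1 Γ S T D θ η ε A I φ P m Bd g w (src e) (tgt e) i' j' (γ e) par st
    hn h2 h3 hme
  obtain ⟨e', he1, he2, he3⟩ := sk.all i' j' γ' hγ'
  refine ⟨e', ⟨?_, ?_, ?_⟩, he1, he2⟩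
  · rw [he1]
    exact h2
  · rw [he2]
    exact h3
  have k1 : olap γ' (γ e') ≤ pass2 φ g w (γ e) (γ e') := by
    rw [olap_eq, pass2_eq]
    have : (γ'.filter (fun a => a ∈ γ e')).card ≤
        ((γ e).filter (fun p => (φ g p.1, φ w p.2) ∈ γ e')).card := by
      apply card_le_card_of_injOn (fun p => ((φ g)⁻¹ p.1, (φ w)⁻¹ p.2))
      · intro p hp
        rw [mem_coe, mem_filter] at hp ⊢
        obtain ⟨q, hq, rfl⟩ := him p hp.1
        have e1 : ((φ g)⁻¹ (φ g q.1), (φ w)⁻¹ (φ w q.2)) = q := by simp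
        show ((φ g)⁻¹ (φ g q.1), (φ w)⁻¹ (φ w q.2)) ∈ γ e ∧
          (φ g ((φ g)⁻¹ (φ g q.1)), φ w ((φ w)⁻¹ (φ w q.2))) ∈ γ e'
        rw [e1]
        refine ⟨hq, ?_⟩
        have e2 : (φ g ((φ g)⁻¹ (φ g q.1)), φ w ((φ w)⁻¹ (φ w q.2))) = (φ g q.1, φ w q.2) := by
          simp
        rw [e2]
        exact hp.2
      · intro p _ q _ h
        rw [Prod.mk.injEq] at h
        exact Prod.ext ((φ g)⁻¹.injective h.1) ((φ w)⁻¹.injective h.2)
    exact_mod_cast this
  have k2 : ((γ e).card : ℝ) ≤ ((P (src e)).card : ℝ) := by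
    have : (γ e).card ≤ (P (src e)).card := by
      apply card_le_card_of_injOn (fun q => q.1)
      · intro q hq
        exact hme.left q hq
      · intro p hp q hq h
        exact hme.inj1 p hp q hq h
    exact_mod_cast this
  have k3 := h2.1
  have k4 := pass_le_right (φ g) (P (src e)) (P i')
  have k5 : (1 - 1 / 100) * ((P (src e)).card : ℝ) ≤ (1 - ε) * ((P (src e)).card : ℝ) :=
    mul_le_mul_of_nonneg_right (by linarith) (Nat.cast_nonneg _)
  have k6 : (0 : ℝ) ≤ (P (src e)).card := Nat.cast_nonneg _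
  linarith

end SoficAct.Kz
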