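import Pool.Agent.Lib.MP_2d1e68_al.Kz.Spec

/-!
# 2d1e68, Kz/AmQ: quotients of amenable groups are amenable (helper82)
-/

open Finset Filter

noncomputable section

namespace SoficAct.Kz

private lemma layer {L : Type} (I : Finset L) (R : ℕ) (p : ℕ → L → Prop)
    [∀ r y, Decidable (p r y)] :
    ∑ r ∈ range R, (I.filter (p r)).card = ∑ y ∈ I, ((range R).filter (fun r => p r y)).card := by
  simp_rw [card_filter]
  rw [sum_comm]

open Classical in
private lemma ncard_eq {L : Type} [Group L] (Y : Finset L) (g : L) :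
    ({k : L | k ∈ Y ∧ g * k ∉ Y} : Set L).ncard = (Y.filter (fun y => g * y ∉ Y)).card := by
  rw [← Set.ncard_coe_finset]
  congr 1
  ext y
  rw [mem_coe, mem_filter]
  exact Iff.rfl

open Classical in
private lemma level_sum {L : Type} (I : Finset L) (R : ℕ) (u : L → ℕ) (h : ∀ y, u y ≤ R) :
    ∑ r ∈ range R, (I.filter (fun y => r < u y)).card = ∑ y ∈ I, u y := by
  rw [layer]
  refine sum_congr rfl (fun y _ => ?_)
  have h2 : (range R).filter (fun r => r < u y) = range (u y) := by
    ext r
    rw [mem_filter, mem_range, mem_range]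
    have := h y
    constructor
    · exact fun h => h.2
    · exact fun h => ⟨by omega, h⟩
  rw [h2, card_range]

open Classical in
private lemma level_bd {L : Type} [Group L] (I : Finset L) (R : ℕ) (u : L → ℕ) (g : L)
    (hI : ∀ y, 0 < u y → y ∈ I) :
    ∑ r ∈ range R, ((I.filter (fun y => r < u y)).filter
      (fun y => g * y ∉ I.filter (fun y => r < u y))).card ≤ ∑ y ∈ I, (u y - u (g * y)) := by
  have h1 : ∑ r ∈ range R, ((I.filter (fun y => r < u y)).filter
      (fun y => g * y ∉ I.filter (fun y => r < u y))).card ≤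
      ∑ r ∈ range R, (I.filter (fun y => u (g * y) ≤ r ∧ r < u y)).card := by
    refine sum_le_sum (fun r _ => card_le_card ?_)
    intro y hy
    rw [mem_filter, mem_filter, mem_filter] at hy
    rw [mem_filter]
    refine ⟨hy.1.1, ?_, hy.1.2⟩
    by_contra hcon
    apply hy.2
    exact ⟨hI _ (by omega), by omega⟩
  refine h1.trans ?_
  rw [layer (p := fun r y => u (g * y) ≤ r ∧ r < u y)]
  refine sum_le_sum (fun y _ => ?_)
  rw [← Nat.card_Ico]
  apply card_le_card
  intro r hr
  rw [mem_filter] at hr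
  exact mem_Ico.2 hr.2

open Classical in
private lemma fiber_bd {K L : Type} [Group K] [Group L] (f : K →* L) (D : Finset K) (k₀ : K) :
    ∑ y ∈ D.image f, ((D.filter (fun k => f k = y)).card -
      (D.filter (fun k => f k = f k₀ * y)).card) ≤ (D.filter (fun k => k₀ * k ∉ D)).card := by
  have h2 : ∀ k ∈ D.filter (fun k => k₀ * k ∉ D), f k ∈ D.image f := by
    intro k hk
    exact mem_image_of_mem _ (mem_filter.1 hk).1
  rw [card_eq_sum_card_fiberwise h2]
  refine sum_le_sum (fun y _ => ?_)
  have h4 : (D.filter (fun k => f k = y)).card ≤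
      ((D.filter (fun k => k₀ * k ∉ D)).filter (fun k => f k = y)).card +
      (D.filter (fun k => f k = f k₀ * y)).card := by
    rw [← card_filter_add_card_filter_not (s := D.filter (fun k => f k = y))
      (fun k => k₀ * k ∉ D)]
    apply Nat.add_le_add
    · apply card_le_card
      intro k hk
      rw [mem_filter, mem_filter] at hk
      rw [mem_filter, mem_filter]
      exact ⟨⟨hk.1.1, hk.2⟩, hk.1.2⟩
    · apply card_le_card_of_injOn (fun k => k₀ * k)
      · intro k hk
        rw [mem_coe, mem_filter, mem_filter, not_not] at hk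
        rw [mem_coe, mem_filter]
        refine ⟨hk.2, ?_⟩
        rw [map_mul, hk.1.2]
      · intro a _ b _ h
        exact mul_left_cancel h
  omega

/-- **AmQ.** -/
theorem amQ : S_AmQ := by
  classical
  intro K L _ _ f hf hK F ε hε
  obtain ⟨s, hs⟩ : ∃ s : L → K, ∀ y, f (s y) = y := ⟨Function.surjInv hf, Function.surjInv_eq hf⟩
  have hF : 0 < (F.card : ℝ) + 1 := by positivity
  obtain ⟨D, hD, hD2⟩ := hK (F.image s) (ε / (F.card + 1)) (by positivity)
  obtain ⟨u, hu⟩ : ∃ u : L → ℕ, ∀ y, u y = (D.filter (fun k => f k = y)).card := ⟨_, fun _ => rfl⟩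
  have huR : ∀ y, u y ≤ D.card := fun y => by rw [hu]; exact card_filter_le _ _
  have husum : ∑ y ∈ D.image f, u y = D.card := by
    rw [card_eq_sum_card_image f D]
    exact sum_congr rfl (fun y _ => hu y)
  have hI : ∀ y, 0 < u y → y ∈ D.image f := by
    intro y h1
    rw [hu] at h1
    obtain ⟨k, hk⟩ := card_pos.1 h1
    rw [mem_filter] at hk
    exact mem_image.2 ⟨k, hk⟩
  obtain ⟨Y, hY⟩ : ∃ Y : ℕ → Finset L, ∀ r, Y r = (D.image f).filter (fun y => r < u y) :=
    ⟨_, fun _ => rfl⟩
  have hYsum : ∑ r ∈ range D.card, (Y r).card = D.card := by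
    simp_rw [hY]
    rw [level_sum _ _ _ huR, husum]
  have hg : ∀ g ∈ F, ∑ r ∈ range D.card, ((Y r).filter (fun y => g * y ∉ Y r)).card ≤
      (D.filter (fun k => s g * k ∉ D)).card := by
    intro g _
    have h1 := level_bd (D.image f) D.card u g hI
    simp_rw [← hY] at h1
    have h2 := fiber_bd f D (s g)
    rw [hs g] at h2
    simp_rw [← hu] at h2
    exact h1.trans h2
  by_contra hcon
  push Not at hcon
  have hlow : ∀ r ∈ range D.card, ε * ((Y r).card : ℝ) ≤
      ∑ g ∈ F, (((Y r).filter (fun y => g * y ∉ Y r)).card : ℝ) := by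
    intro r _
    by_cases hne : (Y r).Nonempty
    · obtain ⟨g, hgF, hgl⟩ := hcon (Y r) hne
      rw [ncard_eq] at hgl
      refine hgl.le.trans ?_
      exact single_le_sum (f := fun g => (((Y r).filter (fun y => g * y ∉ Y r)).card : ℝ))
        (fun g _ => Nat.cast_nonneg _) hgF
    · rw [not_nonempty_iff_eq_empty] at hne
      rw [hne, card_empty, Nat.cast_zero, mul_zero]
      exact sum_nonneg (fun g _ => Nat.cast_nonneg _)
  have h1 := sum_le_sum hlow
  rw [← mul_sum, sum_comm] at h1
  have h2 : (∑ r ∈ range D.card, ((Y r).card : ℝ)) = D.card := by exact_mod_cast hYsum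
  rw [h2] at h1
  have h3 : ∀ g ∈ F, ∑ r ∈ range D.card, (((Y r).filter (fun y => g * y ∉ Y r)).card : ℝ) ≤
      ε / (F.card + 1) * D.card := by
    intro g hgF
    have h4 := hD2 (s g) (mem_image_of_mem _ hgF)
    rw [ncard_eq] at h4
    refine le_trans ?_ h4
    exact_mod_cast hg g hgF
  have h6 := sum_le_sum h3
  rw [sum_const, nsmul_eq_mul] at h6
  have h7 : 0 < (D.card : ℝ) := by exact_mod_cast hD.card_pos
  have h8 := h1.trans h6
  have h9 : (F.card : ℝ) * (ε / (F.card + 1) * D.card) =
      ε * D.card - ε * D.card / (F.card + 1) := by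
    field_simp
    ring
  rw [h9] at h8
  have h10 : 0 < ε * D.card / (F.card + 1) := by positivity
  linarith

end SoficAct.Kz
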