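import Pool.Agent.Lib.MP_2d1e68_al.Kz.Spec

/-!
# MP_2d1e68_al, Kz/Cnt (helper68)
-/

open Finset Filter

noncomputable section

namespace SoficAct.Kz

private theorem crel {α β : Type} (X : Finset α) (Y : Finset β) (R : α → β → Prop)
    (h : ∀ a ∈ X, ∃ b ∈ Y, R a b) (hinj : ∀ a ∈ X, ∀ a' ∈ X, ∀ b, R a b → R a' b → a = a') :
    X.card ≤ Y.card := by
  classical
  have h' : ∀ a : X, ∃ b : Y, R a b := fun a => by
    obtain ⟨b, hb, hR⟩ := h a a.2
    exact ⟨⟨b, hb⟩, hR⟩
  choose f hf using h'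
  have hfi : Function.Injective f := by
    intro a a' haa
    apply Subtype.ext
    refine hinj a a.2 a' a'.2 (f a) (hf a) ?_
    rw [haa]
    exact hf a'
  have := Fintype.card_le_of_injective f hfi
  simpa using this

private theorem mem_bd {A : Type} (σ : Equiv.Perm A) (Y : Finset A) (a : A) :
    a ∈ bd σ Y ↔ a ∈ Y ∧ σ a ∉ Y := by
  classical
  unfold bd
  rw [mem_filter]

/-- overlaps through a relation -/
private theorem olap_rel {α β : Type} (X X' : Finset α) (Y Y' : Finset β) (R : α → β → Prop)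
    (h : ∀ a ∈ X, a ∈ X' → ∃ b ∈ Y, b ∈ Y' ∧ R a b)
    (hinj : ∀ a ∈ X, ∀ a' ∈ X, ∀ b, R a b → R a' b → a = a') : olap X X' ≤ olap Y Y' := by
  classical
  unfold olap
  have := crel (X.filter fun a => a ∈ X') (Y.filter fun b => b ∈ Y') R
    (fun a ha => by
      obtain ⟨b, hb, hb', hR⟩ := h a (mem_filter.1 ha).1 (mem_filter.1 ha).2
      exact ⟨b, mem_filter.2 ⟨hb, hb'⟩, hR⟩)
    (fun a ha a' ha' b hb hb' => hinj a (mem_filter.1 ha).1 a' (mem_filter.1 ha').1 b hb hb')
  exact_mod_cast this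

open Classical in
/-- exchange of the coordinates -/
private def sw {A : Type} (γ : Finset (A × A)) : Finset (A × A) := γ.image Prod.swap

private theorem mem_sw {A : Type} (γ : Finset (A × A)) (p : A × A) :
    p ∈ sw γ ↔ (p.2, p.1) ∈ γ := by
  classical
  unfold sw
  rw [mem_image]
  constructor
  · rintro ⟨q, hq, rfl⟩
    exact hq
  · intro h
    exact ⟨(p.2, p.1), h, rfl⟩

private theorem card_sw {A : Type} (γ : Finset (A × A)) : (sw γ).card = γ.card := by
  classical
  unfold sw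
  exact card_image_of_injective _ Prod.swap_injective

private theorem sw_mor {N A : Type} {φ : N → Equiv.Perm A} {U : Finset N} {τ : ℝ}
    {P Q : Finset A} {γ : Finset (A × A)} (h : Mor φ U τ P Q γ) : Mor φ U τ Q P (sw γ) where
  ne := by
    obtain ⟨p, hp⟩ := h.ne
    exact ⟨(p.2, p.1), (mem_sw _ _).2 hp⟩
  left := fun p hp => h.right _ ((mem_sw _ _).1 hp)
  right := fun p hp => h.left _ ((mem_sw _ _).1 hp)
  inj1 := fun p hp q hq hpq => by
    have h1 := h.inj2 _ ((mem_sw _ _).1 hp) _ ((mem_sw _ _).1 hq) hpq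
    have h2 : p.2 = q.2 := congrArg Prod.fst h1
    exact Prod.ext hpq h2
  inj2 := fun p hp q hq hpq => by
    have h1 := h.inj1 _ ((mem_sw _ _).1 hp) _ ((mem_sw _ _).1 hq) hpq
    have h2 : p.1 = q.1 := congrArg Prod.snd h1
    exact Prod.ext h2 hpq
  bd := by
    rw [card_sw]
    refine le_trans ?_ h.bd
    unfold bs
    refine sum_le_sum fun s _ => ?_
    have := crel (bd (dbl φ s) (sw γ)) (bd (dbl φ s) γ) (fun p q => q = (p.2, p.1)) ?_ ?_
    · exact_mod_cast this
    · intro p hp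
      rw [mem_bd] at hp
      refine ⟨(p.2, p.1), (mem_bd _ _ _).2 ⟨(mem_sw _ _).1 hp.1, fun h1 => hp.2 ?_⟩, rfl⟩
      exact (mem_sw _ _).2 h1
    · rintro ⟨a, b⟩ _ ⟨a', b'⟩ _ q hq hq'
      rw [hq] at hq'
      simp only [Prod.mk.injEq] at hq'
      rw [hq'.1, hq'.2]

theorem cntt (h1 : S_Sz) (h2 : S_Comp) : S_Cnt := by
  classical
  intro Γ _ S T D θ η A I E _ _ _ φ P m Bd src tgt γ hθ hη st sk
  have hmS : ∀ e, Mor φ S (θ / 8) (P (src e)) (P (tgt e)) (γ e) := fun e =>
    (sk.mor e).mono st.ST (by linarith)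
  have sz := fun e => h1 Γ A φ S T θ η (θ / 8) (P (src e)) (P (tgt e)) (m (src e)) (m (tgt e)) (γ e)
    hθ (by linarith) (st.pc _) (st.pc _) (hmS e)
  have i1 : ∀ e a b b', (a, b) ∈ γ e → (a, b') ∈ γ e → b = b' := fun e a b b' h h' =>
    congrArg Prod.snd ((sk.mor e).inj1 _ h _ h' rfl)
  have i2 : ∀ e a a' b, (a, b) ∈ γ e → (a', b) ∈ γ e → a = a' := fun e a a' b h h' =>
    congrArg Prod.fst ((sk.mor e).inj2 _ h _ h' rfl)
  -- (1)
  have part1 : ∀ i, 1 ≤ cnt src i := by
    intro i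
    have hdiag : Mor φ S (θ / 8) (P i) (P i) ((P i).image fun a => (a, a)) := by
      have hcd : ((P i).image fun a => (a, a)).card = (P i).card :=
        card_image_of_injective _ fun a b h => congrArg Prod.fst h
      refine ⟨(st.pc i).ne.image _, ?_, ?_, ?_, ?_, ?_⟩
      · intro p hp
        obtain ⟨a, ha, rfl⟩ := mem_image.1 hp
        exact ha
      · intro p hp
        obtain ⟨a, ha, rfl⟩ := mem_image.1 hp
        exact ha
      · intro p hp q hq hpq
        obtain ⟨a, ha, rfl⟩ := mem_image.1 hp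
        obtain ⟨b, hb, rfl⟩ := mem_image.1 hq
        dsimp only at hpq
        rw [hpq]
      · intro p hp q hq hpq
        obtain ⟨a, ha, rfl⟩ := mem_image.1 hp
        obtain ⟨b, hb, rfl⟩ := mem_image.1 hq
        dsimp only at hpq
        rw [hpq]
      · rw [hcd]
        have h3 : bs (dbl φ) S ((P i).image fun a => (a, a)) ≤ bs φ S (P i) := by
          unfold bs
          refine sum_le_sum fun s _ => ?_
          have := crel (bd (dbl φ s) ((P i).image fun a => (a, a))) (bd (φ s) (P i))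
            (fun p q => q = p.1) ?_ ?_
          · exact_mod_cast this
          · intro p hp
            rw [mem_bd] at hp
            obtain ⟨a, ha, rfl⟩ := mem_image.1 hp.1
            refine ⟨a, (mem_bd _ _ _).2 ⟨ha, fun h4 => hp.2 ?_⟩, rfl⟩
            exact mem_image.2 ⟨φ s a, h4, rfl⟩
          · intro p hp p' hp' q hq hq'
            obtain ⟨a, ha, rfl⟩ := mem_image.1 ((mem_bd _ _ _).1 hp).1
            obtain ⟨b, hb, rfl⟩ := mem_image.1 ((mem_bd _ _ _).1 hp').1
            dsimp only at hq hq'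
            rw [← hq, ← hq']
        have h4 := (h3.trans (bs_mono φ st.ST (P i))).trans (st.pc i).bT
        refine h4.trans (mul_le_mul_of_nonneg_right (by linarith) (Nat.cast_nonneg _))
    obtain ⟨e, he, -, -⟩ := sk.all i i _ hdiag
    unfold cnt
    rw [Nat.succ_le_iff, card_pos]
    exact ⟨e, mem_filter.2 ⟨mem_univ _, he⟩⟩
  -- the exchanged elements
  have hG : ∀ e, ∃ e', src e' = tgt e ∧ tgt e' = src e ∧
      98 * ((P (tgt e)).card : ℝ) ≤ 100 * olap (sw (γ e)) (γ e') := fun e =>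
    sk.all (tgt e) (src e) (sw (γ e)) (sw_mor (hmS e))
  choose G hG1 hG2 hG3 using hG
  have hGinj : ∀ e₁ e₂, G e₁ = G e₂ → e₁ = e₂ := by
    intro e₁ e₂ hee
    apply sk.uni
    have ht : tgt e₂ = tgt e₁ := by rw [← hG1 e₁, ← hG1 e₂, hee]
    have a1 := hG3 e₁
    have a2 := hG3 e₂
    rw [← hee, ht] at a2
    have a3 := olap_inter (sw (γ e₁)) (γ (G e₁)) (sw (γ e₂))
    rw [olap_comm (γ (G e₁)) (sw (γ e₁)), olap_comm (γ (G e₁)) (sw (γ e₂))] at a3
    have a4 : ((γ (G e₁)).card : ℝ) ≤ (P (tgt e₁)).card := by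
      have := (sz (G e₁)).2.2.1
      rwa [hG1 e₁] at this
    have a5 : olap (sw (γ e₁)) (sw (γ e₂)) ≤ olap (γ e₁) (γ e₂) := by
      refine olap_rel _ _ _ _ (fun p q => q = (p.2, p.1)) ?_ ?_
      · intro p hp hp'
        exact ⟨(p.2, p.1), (mem_sw _ _).1 hp, (mem_sw _ _).1 hp', rfl⟩
      · rintro ⟨a, b⟩ _ ⟨a', b'⟩ _ q hq hq'
        rw [hq] at hq'
        simp only [Prod.mk.injEq] at hq'
        rw [hq'.1, hq'.2]
    have a6 := (sz e₁).2.2.2
    unfold Sim
    linarith [Nat.cast_nonneg (α := ℝ) (P (tgt e₁)).card]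
  -- (2)
  have hle : ∀ e, cnt src (tgt e) ≤ cnt src (src e) := by
    intro e
    have hF : ∀ e₁, ∃ e₂, src e₁ = tgt e → src e₂ = src e ∧
        98 * ((P (src e)).card : ℝ) ≤ 100 * olap (compo (γ e) (γ e₁)) (γ e₂) := by
      intro e₁
      by_cases h : src e₁ = tgt e
      · have hm1 := sk.mor e₁
        rw [h] at hm1
        obtain ⟨c1, -⟩ := h2 Γ A φ S T θ η (P (src e)) (P (tgt e)) (P (tgt e₁)) (m (src e))
          (m (tgt e)) (m (tgt e₁)) (γ e) (γ e₁) hθ st.ST (st.pc _) (st.pc _) (st.pc _)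
          (sk.mor e) hm1
        obtain ⟨e₂, b1, -, b2⟩ := sk.all _ _ _ c1
        exact ⟨e₂, fun _ => ⟨b1, b2⟩⟩
      · exact ⟨e, fun h' => absurd h' h⟩
    choose F hF using hF
    unfold cnt
    refine card_le_card_of_injOn F ?_ ?_
    · intro e₁ he₁
      have h3 := (mem_filter.1 he₁).2
      exact mem_filter.2 ⟨mem_univ _, (hF e₁ h3).1⟩
    · intro e₁ he₁ e₂ he₂ hee
      have s1 := (mem_filter.1 he₁).2
      have s2 := (mem_filter.1 he₂).2
      apply sk.uni
      obtain ⟨f1, a1⟩ := hF e₁ s1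
      obtain ⟨-, a2⟩ := hF e₂ s2
      have hee' : F e₁ = F e₂ := hee
      rw [← hee'] at a2
      have a3 := olap_inter (compo (γ e) (γ e₁)) (γ (F e₁)) (compo (γ e) (γ e₂))
      rw [olap_comm (γ (F e₁)) (compo (γ e) (γ e₁)),
        olap_comm (γ (F e₁)) (compo (γ e) (γ e₂))] at a3
      have a4 : ((γ (F e₁)).card : ℝ) ≤ (P (src e)).card := by
        have := (sz (F e₁)).2.2.1
        rwa [f1] at this
      have a5 : olap (compo (γ e) (γ e₁)) (compo (γ e) (γ e₂)) ≤ olap (γ e₁) (γ e₂) := by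
        refine olap_rel _ _ _ _ (fun p q => (p.1, q.1) ∈ γ e ∧ p.2 = q.2) ?_ ?_
        · intro p hp hp'
          obtain ⟨b, hb1, hb2⟩ := (mem_compo _ _ _).1 hp
          obtain ⟨b', hb1', hb2'⟩ := (mem_compo _ _ _).1 hp'
          obtain rfl := i1 e _ _ _ hb1 hb1'
          exact ⟨(b, p.2), hb2, hb2', hb1, rfl⟩
        · rintro ⟨a, c⟩ _ ⟨a', c'⟩ _ q hq hq'
          have e3 := i2 e _ _ _ hq.1 hq'.1
          have e4 := hq.2.trans hq'.2.symm
          dsimp only at e3 e4
          rw [e3, e4]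
      have a6 : ((γ e₁).card : ℝ) ≤ (P (tgt e)).card := by
        have := (sz e₁).2.2.1
        rwa [s1] at this
      have a7 := (st.pc (tgt e)).lo
      have a8 := (sz e).2.1
      have a9 := (sz e).2.2.1
      unfold Sim
      linarith [Nat.cast_nonneg (α := ℝ) (P (src e)).card]
  refine ⟨part1, fun e => le_antisymm ?_ (hle e), fun j => le_antisymm ?_ ?_⟩
  · have := hle (G e)
    rwa [hG1, hG2] at this
  · unfold cnt
    refine card_le_card_of_injOn G ?_ ?_
    · intro e he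
      exact mem_filter.2 ⟨mem_univ _, (hG1 e).trans (mem_filter.1 he).2⟩
    · intro e₁ _ e₂ _ hee
      exact hGinj e₁ e₂ hee
  · unfold cnt
    refine card_le_card_of_injOn G ?_ ?_
    · intro e he
      exact mem_filter.2 ⟨mem_univ _, (hG2 e).trans (mem_filter.1 he).2⟩
    · intro e₁ _ e₂ _ hee
      exact hGinj e₁ e₂ hee

end SoficAct.Kz
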