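import Pool.Agent.Lib.MP_2d1e68_al.Kz.Spec

/-!
# MP_2d1e68_al, Kz/Comp (helper68)
-/

open Finset Filter

noncomputable section

namespace SoficAct.Kz

private theorem crel {α β : Type} (X : Finset α) (Y : Finset β) (R : α → β → Prop)
    (h : ∀ a ∈ X, ∃ b ∈ Y, R a b) (hinj : ∀ a ∈ X, ∀ a' ∈ X, ∀ b, R a b → R a' b → a = a') :
    X.card ≤ Y.card := by
  classical
  have h' : ∀ a : X, ∃ b : Y, R a b := fun a => by
    obtain ⟨b, hb, hR⟩ := h a a.2
    exact ⟨⟨b, hb⟩, hR⟩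
  choose f hf using h'
  have hfi : Function.Injective f := by
    intro a a' haa
    apply Subtype.ext
    refine hinj a a.2 a' a'.2 (f a) (hf a) ?_
    rw [haa]
    exact hf a'
  have := Fintype.card_le_of_injective f hfi
  simpa using this

private theorem mem_bd {A : Type} (σ : Equiv.Perm A) (Y : Finset A) (a : A) :
    a ∈ bd σ Y ↔ a ∈ Y ∧ σ a ∉ Y := by
  classical
  unfold bd
  rw [mem_filter]

theorem comp (h1 : S_Sz) : S_Comp := by
  classical
  intro N A φ S T θ η P Q R m m' m'' γ γ' hθ hST hP hQ hR hγ hγ'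
  have hγS : Mor φ S (θ / 64) P Q γ := hγ.mono hST le_rfl
  have hγS' : Mor φ S (θ / 64) Q R γ' := hγ'.mono hST le_rfl
  obtain ⟨-, z1, -, z2⟩ := h1 N A φ S T θ η (θ / 64) P Q m m' γ hθ (by linarith) hP hQ hγS
  obtain ⟨z3, -, z4, -⟩ := h1 N A φ S T θ η (θ / 64) Q R m' m'' γ' hθ (by linarith) hQ hR hγS'
  have hlo := hQ.lo
  have i1 : ∀ a b b', (a, b) ∈ γ → (a, b') ∈ γ → b = b' := fun a b b' h h' =>
    congrArg Prod.snd (hγ.inj1 _ h _ h' rfl)
  have i2 : ∀ a a' b, (a, b) ∈ γ → (a', b) ∈ γ → a = a' := fun a a' b h h' =>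
    congrArg Prod.fst (hγ.inj2 _ h _ h' rfl)
  have i3 : ∀ a b b', (a, b) ∈ γ' → (a, b') ∈ γ' → b = b' := fun a b b' h h' =>
    congrArg Prod.snd (hγ'.inj1 _ h _ h' rfl)
  have i4 : ∀ a a' b, (a, b) ∈ γ' → (a', b) ∈ γ' → a = a' := fun a a' b h h' =>
    congrArg Prod.fst (hγ'.inj2 _ h _ h' rfl)
  -- the number of elements
  have hcard : γ.card + γ'.card ≤ Q.card + (compo γ γ').card := by
    have c1 : γ.card ≤ (γ.image Prod.snd).card := by
      rw [card_image_of_injOn]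
      intro p hp q hq hpq
      exact hγ.inj2 p hp q hq hpq
    have c2 : γ'.card ≤ (γ'.image Prod.fst).card := by
      rw [card_image_of_injOn]
      intro p hp q hq hpq
      exact hγ'.inj1 p hp q hq hpq
    have c3 : (γ.image Prod.snd ∪ γ'.image Prod.fst).card ≤ Q.card := by
      apply card_le_card
      intro b hb
      rcases mem_union.1 hb with hb | hb
      · obtain ⟨p, hp, rfl⟩ := mem_image.1 hb
        exact hγ.right p hp
      · obtain ⟨p, hp, rfl⟩ := mem_image.1 hb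
        exact hγ'.left p hp
    have c4 : (γ.image Prod.snd ∩ γ'.image Prod.fst).card ≤ (compo γ γ').card := by
      refine crel _ _ (fun b p => (p.1, b) ∈ γ ∧ (b, p.2) ∈ γ') ?_ ?_
      · intro b hb
        obtain ⟨hb1, hb2⟩ := mem_inter.1 hb
        obtain ⟨p, hp, hpb⟩ := mem_image.1 hb1
        obtain ⟨q, hq, hqb⟩ := mem_image.1 hb2
        have e1 : (p.1, b) ∈ γ := by rw [← hpb]; exact hp
        have e2 : (b, q.2) ∈ γ' := by rw [← hqb]; exact hq
        exact ⟨(p.1, q.2), (mem_compo _ _ _).2 ⟨b, e1, e2⟩, e1, e2⟩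
      · intro b _ b' _ p hp hp'
        exact i1 _ _ _ hp.1 hp'.1
    have c5 := card_union_add_card_inter (γ.image Prod.snd) (γ'.image Prod.fst)
    omega
  have hcardR : (γ.card : ℝ) + γ'.card ≤ Q.card + (compo γ γ').card := by exact_mod_cast hcard
  have h96 : 96 * (Q.card : ℝ) ≤ 100 * ((compo γ γ').card : ℝ) := by linarith
  have hQpos : (0 : ℝ) < Q.card := by exact_mod_cast hQ.ne.card_pos
  have hinj1 : ∀ p ∈ compo γ γ', ∀ q ∈ compo γ γ', p.1 = q.1 → p = q := by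
    rintro ⟨a, c⟩ hp ⟨a', c'⟩ hq hpq
    obtain ⟨b, hb1, hb2⟩ := (mem_compo _ _ _).1 hp
    obtain ⟨b', hb1', hb2'⟩ := (mem_compo _ _ _).1 hq
    dsimp only at hpq hb1 hb2 hb1' hb2'
    subst hpq
    obtain rfl := i1 _ _ _ hb1 hb1'
    rw [i3 _ _ _ hb2 hb2']
  have hinj2 : ∀ p ∈ compo γ γ', ∀ q ∈ compo γ γ', p.2 = q.2 → p = q := by
    rintro ⟨a, c⟩ hp ⟨a', c'⟩ hq hpq
    obtain ⟨b, hb1, hb2⟩ := (mem_compo _ _ _).1 hp
    obtain ⟨b', hb1', hb2'⟩ := (mem_compo _ _ _).1 hq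
    dsimp only at hpq hb1 hb2 hb1' hb2'
    subst hpq
    obtain rfl := i4 _ _ _ hb2 hb2'
    rw [i2 _ _ _ hb1 hb1']
  -- the boundary
  have hbd : ∀ s, ((bd (dbl φ s) (compo γ γ')).card : ℝ) ≤
      ((bd (dbl φ s) γ).card : ℝ) + ((bd (dbl φ s) γ').card : ℝ) := by
    intro s
    have hsub : bd (dbl φ s) (compo γ γ') ⊆
        (compo γ γ').filter (fun p => ∃ b, (p.1, b) ∈ bd (dbl φ s) γ) ∪
          (compo γ γ').filter (fun p => ∃ b, (b, p.2) ∈ bd (dbl φ s) γ') := by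
      rintro ⟨a, c⟩ hp
      rw [mem_bd] at hp
      obtain ⟨hp1, hp2⟩ := hp
      obtain ⟨b, hb1, hb2⟩ := (mem_compo _ _ _).1 hp1
      dsimp only at hb1 hb2
      rw [mem_union, mem_filter, mem_filter]
      by_cases h3 : dbl φ s (a, b) ∈ γ
      · right
        refine ⟨hp1, b, ?_⟩
        rw [mem_bd]
        refine ⟨hb2, fun h4 => hp2 ?_⟩
        exact (mem_compo _ _ _).2 ⟨φ s b, h3, h4⟩
      · left
        refine ⟨hp1, b, ?_⟩
        rw [mem_bd]
        exact ⟨hb1, h3⟩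
    have c1 : ((compo γ γ').filter (fun p => ∃ b, (p.1, b) ∈ bd (dbl φ s) γ)).card ≤
        (bd (dbl φ s) γ).card := by
      refine crel _ _ (fun p q => p.1 = q.1) ?_ ?_
      · intro p hp
        obtain ⟨b, hb⟩ := (mem_filter.1 hp).2
        exact ⟨_, hb, rfl⟩
      · intro p hp p' hp' q h h'
        exact hinj1 p (mem_filter.1 hp).1 p' (mem_filter.1 hp').1 (h.trans h'.symm)
    have c2 : ((compo γ γ').filter (fun p => ∃ b, (b, p.2) ∈ bd (dbl φ s) γ')).card ≤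
        (bd (dbl φ s) γ').card := by
      refine crel _ _ (fun p q => p.2 = q.2) ?_ ?_
      · intro p hp
        obtain ⟨b, hb⟩ := (mem_filter.1 hp).2
        exact ⟨_, hb, rfl⟩
      · intro p hp p' hp' q h h'
        exact hinj2 p (mem_filter.1 hp).1 p' (mem_filter.1 hp').1 (h.trans h'.symm)
    have c3 := (card_le_card hsub).trans (card_union_le _ _)
    exact_mod_cast c3.trans (Nat.add_le_add c1 c2)
  have hbs : bs (dbl φ) S (compo γ γ') ≤ bs (dbl φ) S γ + bs (dbl φ) S γ' := by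
    unfold bs
    rw [← sum_add_distrib]
    exact sum_le_sum fun s _ => hbd s
  refine ⟨⟨?_, ?_, ?_, hinj1, hinj2, ?_⟩, h96⟩
  · rw [← card_pos]
    have : (0 : ℝ) < (compo γ γ').card := by linarith
    exact_mod_cast this
  · intro p hp
    obtain ⟨b, hb1, hb2⟩ := (mem_compo _ _ _).1 hp
    exact hγ.left (p.1, b) hb1
  · intro p hp
    obtain ⟨b, hb1, hb2⟩ := (mem_compo _ _ _).1 hp
    exact hγ'.right (b, p.2) hb2
  · have b1 := hγS.bd
    have b2 := hγS'.bd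
    have b3 : θ / 64 * (γ.card : ℝ) ≤ θ / 64 * Q.card :=
      mul_le_mul_of_nonneg_left z2 (by positivity)
    have b4 : θ / 64 * (γ'.card : ℝ) ≤ θ / 64 * Q.card :=
      mul_le_mul_of_nonneg_left z4 (by positivity)
    have b5 : θ * (96 * (Q.card : ℝ)) ≤ θ * (100 * ((compo γ γ').card : ℝ)) :=
      mul_le_mul_of_nonneg_left h96 hθ.le
    have b6 : 0 < θ * (Q.card : ℝ) := mul_pos hθ hQpos
    nlinarith

end SoficAct.Kz
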