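import Pool.Agent.Lib.MP_2d1e68_al.Kz.Spec

/-!
# Kz/Core: assembly of the model
-/

open Finset Filter Topology

noncomputable section

namespace SoficAct.Kz

private lemma core_loss {E : Type} [Fintype E] (c : ℝ) (hc : 0 ≤ c) (ω ω' : E → ℝ)
    (h : ∀ e, ω' e = c * ω e) (R : E → E → Prop) (f : E → E) :
    loss ω' R f = c * loss ω R f := by
  classical
  unfold loss
  rw [mul_sum]
  refine sum_congr rfl fun e _ => ?_
  have h1 : max 0 (c * (ω e - ω (f e))) = c * max 0 (ω e - ω (f e)) := by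
    rw [mul_max_of_nonneg _ _ hc, mul_zero]
  rw [mul_ite, h, h, ← mul_sub, h1]

/-- **Core.** -/
theorem core (h1 : S_Ex) (h2 : S_Rep) (h3 : S_Cnt) (_h4 : S_Fun) (h5 : S_Inj) (h6 : S_Mul)
    (h7 : S_One) (h8 : S_Free) (h9 : S_Ls) (h10 : S_Uni) (h11 : S_UM) : S_Core := by
  classical
  intro Γ _ N π hNn hG hN hπN hπc F ε hε
  obtain ⟨S, θ, hθ0, hθ1, hSN, hEx⟩ := h1 Γ N hG hN
  set ε₂ : ℝ := min (ε / 100) (1 / 100) with hε₂
  have hε₂0 : 0 < ε₂ := lt_min (by positivity) (by norm_num)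
  have hε₂1 : 100 * ε₂ ≤ 1 := by
    have : ε₂ ≤ 1 / 100 := min_le_right _ _
    linarith
  have hε₂2 : 27 * ε₂ ≤ ε := by
    have : ε₂ ≤ ε / 100 := min_le_left _ _
    linarith
  have hK : (0 : ℝ) < 24 + 8 * (S.card : ℝ) := by positivity
  set η : ℝ := θ * ε₂ ^ 2 / (24 + 8 * (S.card : ℝ)) with hη
  have hη0 : 0 < η := by positivity
  have hpar : Par S θ η ε₂ := by
    refine ⟨hθ0, hθ1, hη0, hε₂0, hε₂1, ?_⟩
    rw [hη, mul_div_cancel₀ _ hK.ne']
  let F₁ : Finset Γ := insert 1 F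
  let F₂ : Finset Γ := image₂ (fun x y => x * y) F₁ F₁
  let F₃ : Finset Γ := F₂ ∪ F₂.image (fun x => x⁻¹)
  have hF1 : ∀ g ∈ F, g ∈ F₁ := fun g hg => mem_insert_of_mem hg
  have h1F1 : (1 : Γ) ∈ F₁ := mem_insert_self _ _
  have hF2m : ∀ g ∈ F₁, ∀ h ∈ F₁, g * h ∈ F₂ := fun g hg h hh => mem_image₂_of_mem hg hh
  have hF2 : ∀ g ∈ F₁, g ∈ F₂ := fun g hg => by
    have := hF2m g hg 1 h1F1
    rwa [mul_one] at this
  have h1F2 : (1 : Γ) ∈ F₂ := hF2 1 h1F1
  have hF3 : ∀ g ∈ F₂, g ∈ F₃ := fun g hg => mem_union_left _ hg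
  have hF3i : ∀ g ∈ F₃, g⁻¹ ∈ F₃ := by
    intro g hg
    rcases mem_union.1 hg with h | h
    · exact mem_union_right _ (mem_image_of_mem _ h)
    · obtain ⟨x, hx, rfl⟩ := mem_image.1 h
      rw [inv_inv]
      exact mem_union_left _ hx
  let T : Finset Γ := S ∪ image₂ (fun x s => x * s * x⁻¹) F₃ S ∪ F₂.filter (fun n => n ∈ N)
  let D : Finset Γ := F₃ ∪ F₃.image π
  have hST : S ⊆ T := fun s hs => mem_union_left _ (mem_union_left _ hs)
  have hTc : ∀ x ∈ F₃, ∀ s ∈ S, x * s * x⁻¹ ∈ T := fun x hx s hs =>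
    mem_union_left _ (mem_union_right _ (mem_image₂_of_mem hx hs))
  have hTn : ∀ n ∈ F₂, n ∈ N → n ∈ T := fun n hn hn' =>
    mem_union_right _ (mem_filter.2 ⟨hn, hn'⟩)
  have hTN : ∀ t ∈ T, t ∈ N := by
    intro t ht
    rcases mem_union.1 ht with h | h
    · rcases mem_union.1 h with h | h
      · exact hSN t h
      · obtain ⟨x, -, s, hs, rfl⟩ := mem_image₂.1 h
        exact hNn.conj_mem s (hSN s hs) x
    · exact (mem_filter.1 h).2
  obtain ⟨A, I, iA, iI, iAn, D', φ, P, m, Bd, hDD, hst⟩ := hEx T D η hη0 hST hTN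
  obtain ⟨E, iE, src, tgt, γ, hsk⟩ := h2 Γ S T D' θ η A I φ P m Bd hθ0 hst
  have hD1 : ∀ w ∈ F₃, w ∈ D' := fun w hw => hDD (mem_union_left _ hw)
  have hD2 : ∀ w ∈ F₃, π w ∈ D' := fun w hw => hDD (mem_union_right _ (mem_image_of_mem _ hw))
  have hNrm : ∀ w ∈ F₃, Nrm S T D' (π w) w := by
    intro w hw
    have hwi := hF3i w hw
    have hc1 : ∀ s ∈ S, (π w)⁻¹ * s * π w = w⁻¹ * s * w := by
      intro s hs
      have := hπc w⁻¹ s (hSN s hs)
      rw [map_inv, inv_inv, inv_inv] at this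
      exact this.symm
    have hc2 : ∀ s ∈ S, π w * s * (π w)⁻¹ = w * s * w⁻¹ := fun s hs =>
      (hπc w s (hSN s hs)).symm
    refine ⟨hD2 w hw, hD1 w hw, ?_, hD1 _ hwi, hc1, hc2, ?_, ?_⟩
    · rw [← map_inv]
      exact hD2 _ hwi
    · intro s hs
      rw [hc1 s hs]
      have := hTc w⁻¹ hwi s hs
      rwa [inv_inv] at this
    · intro s hs
      rw [hc2 s hs]
      exact hTc w hw s hs
  obtain ⟨hcnt, -, -⟩ := h3 Γ S T D' θ η A I E φ P m Bd src tgt γ hθ0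
    (by have := hpar.η1; linarith) hst hsk
  let R : Γ → E → E → Prop := fun w => Act φ ε₂ (π w) w P src tgt γ
  let Q : ℕ := ∏ i, cnt src i
  have hQ : 0 < Q := prod_pos fun i _ => hcnt i
  have hQd : ∀ i, cnt src i ∣ Q := fun i => dvd_prod_of_mem _ (mem_univ i)
  let ω : E → ℕ := fun e => (Q / cnt src (src e)) * (P (src e)).card
  have hω : ∀ e, (ω e : ℝ) = (Q : ℝ) * wt P src e := by
    intro e
    have hc : ((cnt src (src e) : ℕ) : ℝ) ≠ 0 := by
      have := hcnt (src e)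
      positivity
    simp only [ω, wt]
    rw [Nat.cast_mul, Nat.cast_div (hQd _) hc]
    field_simp
  have hone : ∀ e, R 1 e e := by
    intro e
    have := (h7 Γ S T D' θ η ε₂ A I E φ P m Bd src tgt γ hpar hst hsk).1 e
    simp only [R]
    rw [map_one]
    exact this
  obtain ⟨ψ, hψ1, hψ⟩ := h10 Γ E ω R F₂ (9 * ε₂) (by positivity)
    (fun w _ e₁ e₂ e' he₁ he₂ => h5 Γ S T D' θ η ε₂ A I E φ P m Bd src tgt γ (π w) w e₁ e₂ e'
      hpar hst hsk he₁ he₂) hone (by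
        intro w hw f hf
        have hl := h9 Γ S T D' θ η ε₂ A I E φ P m Bd src tgt γ (π w) w f hpar hst hsk
          (hNrm w (hF3 w hw)) hf
        rw [core_loss (Q : ℝ) (Nat.cast_nonneg _) (wt P src) _ hω]
        have hs : ∑ e, (ω e : ℝ) = (Q : ℝ) * ∑ e, wt P src e := by
          rw [mul_sum]
          exact sum_congr rfl fun e _ => hω e
        rw [hs]
        have := mul_le_mul_of_nonneg_left hl (Nat.cast_nonneg (α := ℝ) Q)
        linarith)
  have hBne : Nonempty (Σ e, Fin (ω e)) := by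
    have hA : (0 : ℝ) < Fintype.card A := by exact_mod_cast Fintype.card_pos
    have hη1 : η < 1 := by
      have := hpar.η1
      linarith
    have hsum : 0 < ∑ i, ((P i).card : ℝ) := lt_of_lt_of_le (mul_pos (by linarith) hA) hst.cov
    obtain ⟨i, -⟩ : (univ : Finset I).Nonempty := by
      by_contra hem
      rw [not_nonempty_iff_eq_empty] at hem
      rw [hem, sum_empty] at hsum
      exact lt_irrefl _ hsum
    have hci := hcnt i
    unfold cnt at hci
    obtain ⟨e, he⟩ := card_pos.1 hci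
    have hωe : 0 < ω e := Nat.mul_pos (Nat.div_pos (Nat.le_of_dvd hQ (hQd _)) (hcnt _))
      (card_pos.2 (hst.pc _).ne)
    exact ⟨⟨e, ⟨0, hωe⟩⟩⟩
  refine ⟨_, inferInstance, hBne, ψ, hψ1, ?_, ?_, ?_⟩
  · intro g hg h hh
    have hg1 := hF2 g (hF1 g hg)
    have hh1 := hF2 h (hF1 h hh)
    have hgh := hF2m g (hF1 g hg) h (hF1 h hh)
    have := h11 Γ E ω R ψ (9 * ε₂) g h (by
      rintro v (rfl | rfl | rfl)
      · exact hψ _ hg1
      · exact hψ _ hh1
      · exact hψ _ hgh) (by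
      intro e e' e'' e₃ a1 a2 a3
      have a3' : Act φ ε₂ (π g * π h) (g * h) P src tgt γ e e₃ := by
        rw [← map_mul]
        exact a3
      exact h6 Γ S T D' θ η ε₂ A I E φ P m Bd src tgt γ (π g) g (π h) h e e' e'' e₃ hpar hst hsk
        (hD2 g (hF3 g hg1)) (hD1 g (hF3 g hg1)) (hD2 h (hF3 h hh1)) (hD1 h (hF3 h hh1)) a1 a2 a3')
    linarith
  · intro n hn hnN
    have hn2 := hF2 n (hF1 n hn)
    refine (frac_mono ?_).trans ((hψ n hn2).trans (by linarith))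
    rintro b hb ⟨hR, hl⟩
    apply hb
    have hR' : Act φ ε₂ n n P src tgt γ b.1 (ψ n b).1 := by
      have := hR
      simp only [R] at this
      rwa [hπN n hnN] at this
    have he := (h7 Γ S T D' θ η ε₂ A I E φ P m Bd src tgt γ hpar hst hsk).2 n (hTn n hn2 hnN)
      b.1 (ψ n b).1 hR'
    rcases hx : ψ n b with ⟨e', l'⟩
    rw [hx] at he hl
    obtain ⟨e, l⟩ := b
    dsimp only at he hl
    subst he
    rw [Fin.ext hl]
  · intro c hc hπ1 hc1
    have hc2 := hF2 c (hF1 c hc)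
    refine (frac_mono ?_).trans ((hψ c hc2).trans (by linarith))
    rintro b hb ⟨hR, -⟩
    rw [hb] at hR
    simp only [R] at hR
    rw [hπ1] at hR
    exact h8 Γ S T D' θ η ε₂ A I E φ P m Bd src tgt γ c b.1 hpar hst hsk (hD1 c (hF3 c hc2)) hc1 hR

end SoficAct.Kz
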