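import Pool.Agent.Lib.MP_2d1e68_al.Kz.Spec

open Finset Filter Topology

noncomputable section

namespace SoficAct.Kz

/-- convex sets: a nonempty complete convex set which is mapped to itself by norm preserving maps contains a
fixed point -/
private theorem fixpt {V : Type} [NormedAddCommGroup V] [InnerProductSpace ℝ V] {K : Set V}
    (ne : K.Nonempty) (h₁ : IsComplete K) (h₂ : Convex ℝ K) :
    ∃ v ∈ K, ∀ f : V → V, (∀ x ∈ K, f x ∈ K) → (∀ x, ‖f x‖ = ‖x‖) → f v = v := by
  obtain ⟨v, hv, hmin⟩ := exists_norm_eq_iInf_of_complete_convex ne h₁ h₂ 0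
  refine ⟨v, hv, fun f hf hn => ?_⟩
  have hmin' : ‖0 - f v‖ = ⨅ w : K, ‖(0 : V) - w‖ := by
    rw [← hmin, zero_sub, norm_neg, hn, zero_sub, norm_neg]
  have e1 := (norm_eq_iInf_iff_real_inner_le_zero h₂ hv).1 hmin (f v) (hf v hv)
  have e2 := (norm_eq_iInf_iff_real_inner_le_zero h₂ (hf v hv)).1 hmin' v hv
  have e3 : inner ℝ (f v - v) (f v - v) ≤ 0 := by
    rw [zero_sub, inner_neg_left] at e1 e2
    have : inner ℝ (f v - v) (f v - v) = -inner ℝ v (f v - v) + -inner ℝ (f v) (v - f v) := by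
      rw [inner_sub_left, ← neg_sub (f v) v, inner_neg_right]
      ring
    rw [this]
    linarith
  have e4 : inner ℝ (f v - v) (f v - v) = (0 : ℝ) := le_antisymm e3 real_inner_self_nonneg
  exact sub_eq_zero.1 (inner_self_eq_zero.1 e4)

theorem cvx : S_Cvx := by
  classical
  intro N V _ _ _ _ ρ ξ ξ₀ hinv horth η hη
  set u : V := ξ - ξ₀ with hu
  set S : Set V := Set.range fun n => ρ n u with hS
  set K : Set V := closure (convexHull ℝ S) with hK
  have hne : K.Nonempty := ⟨ρ 1 u, subset_closure (subset_convexHull ℝ S ⟨1, rfl⟩)⟩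
  have hconv : Convex ℝ K := (convex_convexHull ℝ S).closure
  have hcomp : IsComplete K := isClosed_closure.isComplete
  letI : InnerProductSpace ℝ V := InnerProductSpace.complexToReal
  obtain ⟨v, hv, hfix⟩ := fixpt hne hcomp hconv
  have hmap : ∀ n, ∀ x ∈ K, ρ n x ∈ K := by
    intro n x hx
    refine map_mem_closure (ρ n).continuous hx ?_
    have h1 : S ⊆ (ρ n) ⁻¹' (convexHull ℝ S) := by
      rintro _ ⟨m, rfl⟩
      apply subset_convexHull
      refine ⟨n * m, ?_⟩
      simp only [map_mul]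
      rfl
    have h2 : Convex ℝ ((ρ n) ⁻¹' (convexHull ℝ S)) :=
      (convex_convexHull ℝ S).linear_preimage
        (((ρ n).toLinearEquiv : V →ₗ[ℂ] V).restrictScalars ℝ)
    exact convexHull_min h1 h2
  have hvinv : ∀ n, ρ n v = v := fun n => hfix (ρ n) (hmap n) (fun x => (ρ n).norm_map x)
  have hper : ∀ w : V, (∀ n, ρ n w = w) → ∀ x ∈ K, inner ℂ w x = 0 := by
    intro w hw x hx
    have h1 : IsClosed {x : V | inner ℂ w x = 0} :=
      isClosed_eq (continuous_const.inner continuous_id) continuous_const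
    have h2 : Convex ℝ {x : V | inner ℂ w x = 0} := by
      intro a ha b hb s t _ _ _
      simp only [Set.mem_setOf_eq] at ha hb ⊢
      rw [inner_add_right, ← Complex.coe_smul, ← Complex.coe_smul, inner_smul_right, inner_smul_right,
        ha, hb]
      simp
    have h3 : S ⊆ {x : V | inner ℂ w x = 0} := by
      rintro _ ⟨m, rfl⟩
      simp only [Set.mem_setOf_eq]
      have h4 : inner ℂ w (ρ m u) = inner ℂ (ρ m w) (ρ m u) := by rw [hw m]
      rw [h4, (ρ m).inner_map_map]
      exact horth w hw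
    exact closure_minimal (convexHull_min h3 h2) h1 hx
  have hv0 : v = 0 := inner_self_eq_zero.1 (hper v hvinv v hv)
  rw [hv0] at hv
  obtain ⟨y, hy, hd⟩ := Metric.mem_closure_iff.1 hv η hη
  rw [dist_zero_left] at hd
  obtain ⟨ι, _, w, z, hw0, hw1, hz, hsum⟩ := mem_convexHull_iff_exists_fintype.1 hy
  choose n hn using hz
  refine ⟨univ.image n, fun g => ∑ i ∈ univ.filter (fun i => n i = g), w i, fun g => sum_nonneg fun i _ => hw0 i,
    ?_, ?_⟩
  · rw [Finset.sum_fiberwise_of_maps_to (fun i _ => mem_image_of_mem n (mem_univ i)), hw1]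
  · have h1 : ∑ g ∈ univ.image n, ((∑ i ∈ univ.filter (fun i => n i = g), w i : ℝ) : ℂ) • ρ g ξ =
        ∑ i, (w i : ℂ) • ρ (n i) ξ := by
      rw [← Finset.sum_fiberwise_of_maps_to (s := univ) (t := univ.image n) (g := n)
        (fun i _ => mem_image_of_mem n (mem_univ i)) (fun i => (w i : ℂ) • ρ (n i) ξ)]
      refine Finset.sum_congr rfl fun g _ => ?_
      rw [Complex.ofReal_sum, Finset.sum_smul]
      refine Finset.sum_congr rfl fun i hi => ?_
      rw [(mem_filter.1 hi).2]
    have h2 : ∑ i, (w i : ℂ) • ρ (n i) ξ - ξ₀ = y := by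
      rw [← hsum]
      have h3 : ξ₀ = ∑ i, (w i : ℂ) • ξ₀ := by
        rw [← Finset.sum_smul, ← Complex.ofReal_sum, hw1, Complex.ofReal_one, one_smul]
      conv_lhs => rw [h3]
      rw [← Finset.sum_sub_distrib]
      refine Finset.sum_congr rfl fun i _ => ?_
      have h4 : ρ (n i) u = z i := hn i
      rw [← smul_sub, ← h4, hu, map_sub, hinv (n i), Complex.coe_smul]
    rw [h1, h2]
    exact hd.le

end SoficAct.Kz
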