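import Pool.Agent.Lib.MP_2d1e68_al.Kz.Spec

open Finset Filter Topology

noncomputable section

namespace SoficAct.Kz

private theorem mem_bd {A : Type} (σ : Equiv.Perm A) (Y : Finset A) (a : A) :
    a ∈ bd σ Y ↔ a ∈ Y ∧ σ a ∉ Y := by
  classical
  unfold bd
  rw [mem_filter]

private theorem olap_eq {A : Type} [DecidableEq A] (Y Z : Finset A) :
    olap Y Z = ((Y.filter (fun a => a ∈ Z)).card : ℝ) := by
  unfold olap
  exact congrArg (fun s : Finset A => (s.card : ℝ)) (by ext a; simp only [mem_filter])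

private theorem mem_cell {A : Type} (R : Finset A) (c : A → ℕ) (k : ℕ) (a : A) :
    a ∈ cell R c k ↔ a ∈ R ∧ c a = k := by
  classical
  unfold cell
  rw [mem_filter]

private theorem sum_bs {N A : Type} [Fintype A] (φ : N → Equiv.Perm A) (T : Finset N) (c : A → ℕ)
    (n : ℕ) (hc : ∀ a, c a ≤ n) :
    ∑ k ∈ range (n + 1), bs φ T (cell univ c k) ≤ cutc φ T univ c := by
  classical
  unfold bs cutc
  rw [sum_comm]
  refine sum_le_sum fun t _ => ?_
  have h1 : (univ.filter (fun a => φ t a ∈ (univ : Finset A) ∧ c a ≠ c (φ t a))).card =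
      ∑ k ∈ range (n + 1), ((univ.filter (fun a => φ t a ∈ (univ : Finset A) ∧
        c a ≠ c (φ t a))).filter (fun a => c a = k)).card :=
    card_eq_sum_card_fiberwise (fun a _ => mem_coe.2 (mem_range.2 (Nat.lt_succ_of_le (hc a))))
  have h2 : ((univ.filter (fun a => φ t a ∈ (univ : Finset A) ∧ c a ≠ c (φ t a))).card : ℝ) =
      ∑ k ∈ range (n + 1), (((univ.filter (fun a => φ t a ∈ (univ : Finset A) ∧
        c a ≠ c (φ t a))).filter (fun a => c a = k)).card : ℝ) := by
    exact_mod_cast h1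
  refine le_trans ?_ (le_of_eq (Eq.trans h2.symm ?_))
  · refine sum_le_sum fun k _ => ?_
    refine Nat.cast_le.2 (card_le_card fun a ha => ?_)
    rw [mem_bd, mem_cell, mem_cell] at ha
    rw [mem_filter, mem_filter]
    refine ⟨⟨mem_univ _, mem_univ _, fun h => ha.2 ⟨mem_univ _, ?_⟩⟩, ha.1.2⟩
    rw [← h]
    exact ha.1.2
  · exact congrArg (fun s : Finset A => (s.card : ℝ)) (by ext a; simp only [mem_filter])

private theorem sum_olap {A : Type} [Fintype A] (Bd : Finset A) (c : A → ℕ)
    (n : ℕ) (hc : ∀ a, c a ≤ n) :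
    ∑ k ∈ range (n + 1), olap (cell univ c k) Bd ≤ (Bd.card : ℝ) := by
  classical
  have h1 : Bd.card = ∑ k ∈ range (n + 1), (Bd.filter (fun a => c a = k)).card :=
    card_eq_sum_card_fiberwise (fun a _ => mem_coe.2 (mem_range.2 (Nat.lt_succ_of_le (hc a))))
  have h2 : (Bd.card : ℝ) = ∑ k ∈ range (n + 1), ((Bd.filter (fun a => c a = k)).card : ℝ) := by
    exact_mod_cast h1
  rw [h2]
  refine sum_le_sum fun k _ => ?_
  rw [olap_eq]
  refine Nat.cast_le.2 (card_le_card fun a ha => ?_)
  rw [mem_filter, mem_cell] at ha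
  rw [mem_filter]
  exact ⟨ha.2, ha.1.2⟩

private theorem sum_cell {A : Type} [Fintype A] (c : A → ℕ) (n : ℕ) (hc : ∀ a, c a ≤ n) :
    ∑ k ∈ range (n + 1), ((cell univ c k).card : ℝ) = (Fintype.card A : ℝ) := by
  classical
  have h1 : (univ : Finset A).card = ∑ k ∈ range (n + 1), ((univ : Finset A).filter (fun a => c a = k)).card :=
    card_eq_sum_card_fiberwise (fun a _ => mem_coe.2 (mem_range.2 (Nat.lt_succ_of_le (hc a))))
  rw [card_univ] at h1
  have h2 : ∀ k, cell univ c k = (univ : Finset A).filter (fun a => c a = k) := by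
    intro k
    ext a
    rw [mem_cell, mem_filter]
  simp only [h2]
  exact_mod_cast h1.symm

theorem dt (hG : S_Grd) : S_DT := by
  classical
  intro K θ η hθ hη
  set x : ℝ := min θ η with hx
  have hx0 : 0 < x := lt_min hθ hη
  refine ⟨η * x / 32, by positivity, fun ε₁ hε₁ => ?_⟩
  set μ : ℝ := min η ε₁ with hμ
  have hμ0 : 0 < μ := lt_min hη hε₁
  set L : ℝ := 1 / θ + 1 / η with hL
  have hL0 : 0 < L := by positivity
  set ε : ℝ := min (η / (4 * L * (2 * (K : ℝ) / ε₁ + 1))) (μ * η / 4) with hε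
  have hq0 : 0 < 2 * (K : ℝ) / ε₁ + 1 := by positivity
  have hε0 : 0 < ε := lt_min (by positivity) (by positivity)
  refine ⟨ε, hε0, fun N A _ φ S T Bd hST hTK hBd hImp => ?_⟩
  obtain ⟨n, c, m, hcn, hcell, hzero, hcut⟩ := hG N A φ S T θ (η * x / 32) ε₁ Bd hST hθ (by positivity) hε₁
    hImp univ
  set a₀ : ℝ := (Fintype.card A : ℝ) with ha₀
  have ha₀0 : 0 ≤ a₀ := by rw [ha₀]; positivity
  set y : ℝ := 4 * (η * x / 32) + 2 * (K : ℝ) / ε₁ * ε with hy
  have hy0 : 0 ≤ y := by positivity
  have hcut2 : cutc φ T univ c ≤ y * a₀ := by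
    have h1 : olap univ Bd ≤ (Bd.card : ℝ) := olap_le_right _ _
    have h2 : olap univ Bd ≤ ε * a₀ := h1.trans hBd
    have h3 : (T.card : ℝ) ≤ (K : ℝ) := by exact_mod_cast hTK
    calc cutc φ T univ c ≤ 4 * (η * x / 32) * ((univ : Finset A).card : ℝ) +
          2 * (T.card : ℝ) / ε₁ * olap univ Bd := hcut
      _ ≤ 4 * (η * x / 32) * a₀ + 2 * (K : ℝ) / ε₁ * (ε * a₀) := by
          rw [card_univ]
          refine add_le_add le_rfl (mul_le_mul ?_ h2 (olap_nonneg _ _) (by positivity))
          exact div_le_div_of_nonneg_right (by linarith) hε₁.le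
      _ = y * a₀ := by rw [hy]; ring
  have hyL : y * L ≤ η / 2 := by
    have h1 : 4 * (η * x / 32) * L ≤ η / 4 := by
      have e1 : x / θ ≤ 1 := (div_le_one hθ).2 (min_le_left _ _)
      have e2 : x / η ≤ 1 := (div_le_one hη).2 (min_le_right _ _)
      have e3 : 4 * (η * x / 32) * L = η / 8 * (x / θ + x / η) := by
        rw [hL]
        ring
      rw [e3]
      nlinarith
    have h2 : 2 * (K : ℝ) / ε₁ * ε * L ≤ η / 4 := by
      have e1 : ε ≤ η / (4 * L * (2 * (K : ℝ) / ε₁ + 1)) := min_le_left _ _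
      rw [le_div_iff₀ (by positivity)] at e1
      have e2 : 0 ≤ ε * L := by positivity
      nlinarith
    have h3 : y * L = 4 * (η * x / 32) * L + 2 * (K : ℝ) / ε₁ * ε * L := by rw [hy]; ring
    linarith
  have hεμ : ε / μ ≤ η / 4 := by
    rw [div_le_iff₀ hμ0]
    have e1 : ε ≤ μ * η / 4 := min_le_right _ _
    linarith
  set Good : Finset ℕ := (range (n + 1)).filter (fun k => 1 ≤ k ∧
    bs φ T (cell univ c k) ≤ η * ((cell univ c k).card : ℝ) ∧
    olap (cell univ c k) Bd ≤ μ * ((cell univ c k).card : ℝ)) with hGood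
  have hgood : ∀ k ∈ Good, 1 ≤ k ∧ k ≤ n ∧ bs φ T (cell univ c k) ≤ η * ((cell univ c k).card : ℝ) ∧
      olap (cell univ c k) Bd ≤ μ * ((cell univ c k).card : ℝ) := by
    intro k hk
    rw [hGood, mem_filter, mem_range] at hk
    exact ⟨hk.2.1, by omega, hk.2.2.1, hk.2.2.2⟩
  -- the main inequality
  have hmain : ∀ k ∈ range (n + 1), ((cell univ c k).card : ℝ) ≤
      (if k ∈ Good then ((cell univ c k).card : ℝ) else 0) + bs φ T (cell univ c k) * L +
        olap (cell univ c k) Bd / μ := by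
    intro k hk
    have p1 : 0 ≤ bs φ T (cell univ c k) := bs_nonneg _ _ _
    have p2 : 0 ≤ olap (cell univ c k) Bd / μ := div_nonneg (olap_nonneg _ _) hμ0.le
    have p3 : 0 ≤ bs φ T (cell univ c k) * L := mul_nonneg p1 hL0.le
    by_cases hg : k ∈ Good
    · rw [if_pos hg]
      linarith
    · rw [if_neg hg]
      have q1 : bs φ T (cell univ c k) / θ ≤ bs φ T (cell univ c k) * L := by
        rw [div_eq_mul_one_div]
        refine mul_le_mul_of_nonneg_left ?_ p1
        rw [hL]
        have : 0 ≤ 1 / η := by positivity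
        linarith
      have q2 : bs φ T (cell univ c k) / η ≤ bs φ T (cell univ c k) * L := by
        rw [div_eq_mul_one_div]
        refine mul_le_mul_of_nonneg_left ?_ p1
        rw [hL]
        have : 0 ≤ 1 / θ := by positivity
        linarith
      by_cases hk1 : 1 ≤ k
      · have h3 : ¬ (bs φ T (cell univ c k) ≤ η * ((cell univ c k).card : ℝ) ∧
            olap (cell univ c k) Bd ≤ μ * ((cell univ c k).card : ℝ)) :=
          fun h => hg (mem_filter.2 ⟨hk, hk1, h⟩)
        rw [not_and_or, not_le, not_le] at h3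
        rcases h3 with h3 | h3
        · have : ((cell univ c k).card : ℝ) ≤ bs φ T (cell univ c k) / η := by
            rw [le_div_iff₀ hη]
            linarith
          linarith
        · have : ((cell univ c k).card : ℝ) ≤ olap (cell univ c k) Bd / μ := by
            rw [le_div_iff₀ hμ0]
            linarith
          linarith
      · have hk0 : k = 0 := by omega
        have : ((cell univ c k).card : ℝ) ≤ bs φ T (cell univ c k) / θ := by
          rw [le_div_iff₀ hθ]
          by_cases hne : (cell univ c k).Nonempty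
          · have h4 := hzero (cell univ c k) (by rw [hk0]) hne
            have h5 := bs_mono φ hST (cell univ c k)
            linarith
          · rw [not_nonempty_iff_eq_empty] at hne
            rw [hne] at p1 ⊢
            simpa using p1
        linarith
  have hsum : a₀ ≤ ∑ k ∈ Good, ((cell univ c k).card : ℝ) + y * a₀ * L + ε * a₀ / μ := by
    have h1 := sum_le_sum hmain
    rw [sum_cell c n hcn, sum_add_distrib, sum_add_distrib, ← sum_mul, ← sum_div] at h1
    have h2 : ∑ k ∈ range (n + 1), (if k ∈ Good then ((cell univ c k).card : ℝ) else 0) =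
        ∑ k ∈ Good, ((cell univ c k).card : ℝ) := by
      rw [← sum_filter]
      refine sum_congr ?_ fun _ _ => rfl
      ext k
      rw [mem_filter]
      constructor
      · exact fun h => h.2
      · intro h
        exact ⟨(mem_filter.1 h).1, h⟩
    have h3 : (∑ k ∈ range (n + 1), bs φ T (cell univ c k)) * L ≤ y * a₀ * L :=
      mul_le_mul_of_nonneg_right ((sum_bs φ T c n hcn).trans hcut2) hL0.le
    have h4 : (∑ k ∈ range (n + 1), olap (cell univ c k) Bd) / μ ≤ ε * a₀ / μ :=
      div_le_div_of_nonneg_right ((sum_olap Bd c n hcn).trans hBd) hμ0.le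
    rw [h2] at h1
    linarith
  refine ⟨{k // k ∈ Good}, inferInstance, fun k => cell univ c k.1, fun k => m k.1, ?_, ?_, ?_, ?_⟩
  · rintro ⟨k, hk⟩
    obtain ⟨g1, g2, g3, g4⟩ := hgood k hk
    obtain ⟨c1, c2⟩ := hcell k g1 g2
    have hpos : 0 < ((cell univ c k).card : ℝ) := by exact_mod_cast c1.card_pos
    have hμε : μ * ((cell univ c k).card : ℝ) ≤ ε₁ * ((cell univ c k).card : ℝ) :=
      mul_le_mul_of_nonneg_right (min_le_right _ _) hpos.le
    rcases c2 with c2 | ⟨c2, c3, c4⟩
    · exfalso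
      linarith
    · exact ⟨c1, by simp only []; linarith, by simp only []; linarith, g3, c4⟩
  · rintro ⟨i, hi⟩ ⟨j, hj⟩ hij a ha ha'
    rw [mem_cell] at ha ha'
    apply hij
    apply Subtype.ext
    rw [← ha.2, ← ha'.2]
  · have h1 : ∑ i : {k // k ∈ Good}, ((cell univ c i.1).card : ℝ) = ∑ k ∈ Good, ((cell univ c k).card : ℝ) :=
      sum_coe_sort Good (fun k => ((cell univ c k).card : ℝ))
    rw [h1]
    have h2 : y * a₀ * L ≤ η / 2 * a₀ := by
      have : y * a₀ * L = y * L * a₀ := by ring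
      rw [this]
      exact mul_le_mul_of_nonneg_right hyL ha₀0
    have h3 : ε * a₀ / μ ≤ η / 4 * a₀ := by
      have : ε * a₀ / μ = ε / μ * a₀ := by ring
      rw [this]
      exact mul_le_mul_of_nonneg_right hεμ ha₀0
    have h4 : 0 ≤ η / 4 * a₀ := by positivity
    linarith
  · rintro ⟨k, hk⟩
    obtain ⟨g1, g2, g3, g4⟩ := hgood k hk
    refine g4.trans ?_
    exact mul_le_mul_of_nonneg_right (min_le_left _ _) (Nat.cast_nonneg _)

end SoficAct.Kz
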