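import Pool.Agent.Lib.MP_2d1e68_al.Kz.Spec

open Finset

noncomputable section

namespace SoficAct.Kz

open Classical in
private lemma di_bd_fst {N A : Type} (φ : N → Equiv.Perm A) (s : N) (Z : Finset (A × A)) :
    (bd (φ s) (Z.image Prod.fst)).card ≤ (bd (dbl φ s) Z).card := by
  have h : bd (φ s) (Z.image Prod.fst) ⊆ (bd (dbl φ s) Z).image Prod.fst := by
    intro a ha
    unfold bd at ha ⊢
    simp only [mem_filter, mem_image] at ha
    obtain ⟨⟨p, hp, rfl⟩, h2⟩ := ha
    simp only [mem_image, mem_filter]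
    exact ⟨p, ⟨hp, fun h3 => h2 ⟨dbl φ s p, h3, rfl⟩⟩, rfl⟩
  exact (card_le_card h).trans card_image_le

open Classical in
private lemma di_bd_inter {B : Type} (σ : Equiv.Perm B) (γ γ' Z : Finset B)
    (hZ : ∀ a, a ∈ Z ↔ a ∈ γ ∧ a ∈ γ') :
    (bd σ Z).card ≤ (bd σ γ).card + (bd σ γ').card := by
  have h : bd σ Z ⊆ bd σ γ ∪ bd σ γ' := by
    intro a ha
    unfold bd at ha ⊢
    simp only [mem_filter, hZ, mem_union] at ha ⊢
    tauto
  exact (card_le_card h).trans (card_union_le _ _)

theorem di : S_Di := by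
  classical
  intro N A φ S T θ η P Q m γ γ' hθ hP hγ hγ' hc
  by_contra hm
  rw [not_le] at hm
  set Z : Finset (A × A) := γ.filter (fun a => a ∈ γ') with hZ
  set Y : Finset A := Z.image Prod.fst with hY
  have hZc : olap γ γ' = (Z.card : ℝ) := by
    unfold olap
    rw [hZ]
    congr 2
    ext a
    simp only [mem_filter]
  have hYc : Y.card = Z.card := by
    rw [hY]
    apply card_image_of_injOn
    intro p hp q hq h
    have hp' : p ∈ γ := by
      have := mem_coe.1 hp
      rw [hZ, mem_filter] at this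
      exact this.1
    have hq' : q ∈ γ := by
      have := mem_coe.1 hq
      rw [hZ, mem_filter] at this
      exact this.1
    exact hγ.inj1 p hp' q hq' h
  have hPpos : (0 : ℝ) < P.card := by
    exact_mod_cast card_pos.2 hP.ne
  have hYne : Y.Nonempty := by
    rw [← card_pos]
    have : (0 : ℝ) < Z.card := by
      rw [← hZc]
      linarith
    rw [hYc]
    exact_mod_cast this
  have hYP : Y ⊆ P := by
    intro a ha
    rw [hY, mem_image] at ha
    obtain ⟨p, hp, rfl⟩ := ha
    rw [hZ, mem_filter] at hp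
    exact hγ.left p hp.1
  have hYm : Y.card < m := by
    rw [hYc]
    rw [hZc] at hm
    exact_mod_cast hm
  have h1 := hP.ex Y hYP hYne hYm
  have hcl : ∀ δ : Finset (A × A), Mor φ S (θ / 8) P Q δ → (δ.card : ℝ) ≤ P.card := by
    intro δ hδ
    have : δ.card ≤ P.card :=
      card_le_card_of_injOn Prod.fst (fun p hp => hδ.left p hp)
        (fun p hp q hq h => hδ.inj1 p hp q hq h)
    exact_mod_cast this
  have h2 : bs φ S Y ≤ bs (dbl φ) S γ + bs (dbl φ) S γ' := by
    unfold bs
    rw [← sum_add_distrib]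
    apply sum_le_sum
    intro s hs
    have e1 := di_bd_fst φ s Z
    have e2 := di_bd_inter (dbl φ s) γ γ' Z (fun a => by simp only [hZ, mem_filter])
    rw [← hY] at e1
    exact_mod_cast e1.trans e2
  have h3 := hγ.bd
  have h4 := hγ'.bd
  have h5 := hcl γ hγ
  have h6 := hcl γ' hγ'
  have h7 : θ / 8 * (γ.card : ℝ) ≤ θ / 8 * (P.card : ℝ) :=
    mul_le_mul_of_nonneg_left h5 (by positivity)
  have h8 : θ / 8 * (γ'.card : ℝ) ≤ θ / 8 * (P.card : ℝ) :=
    mul_le_mul_of_nonneg_left h6 (by positivity)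
  have h9 : θ * (P.card : ℝ) ≤ θ * (4 * (Y.card : ℝ)) := by
    apply mul_le_mul_of_nonneg_left _ hθ.le
    rw [hYc, ← hZc]
    exact hc
  linarith

end SoficAct.Kz
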