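import Pool.Agent.Lib.MP_2d1e68_al.Kz.Spec

/-!
# Kz/Ex: existence of the stage
-/

open Finset Filter Topology

noncomputable section

namespace SoficAct.Kz

private lemma ex_bs_map {Γ A : Type} [Group Γ] (N : Subgroup Γ) (φ : Γ → Equiv.Perm A)
    (T₀ : Finset N) (Y : Finset A) :
    bs φ (T₀.map (Function.Embedding.subtype _)) Y = bs (fun n : N => φ (n : Γ)) T₀ Y := by
  unfold bs
  rw [sum_map]
  rfl

private lemma ex_dbl_map {Γ A : Type} [Group Γ] (N : Subgroup Γ) (φ : Γ → Equiv.Perm A)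
    (T₀ : Finset N) (Y : Finset (A × A)) :
    bs (dbl φ) (T₀.map (Function.Embedding.subtype _)) Y =
      bs (dbl (fun n : N => φ (n : Γ))) T₀ Y := by
  rw [ex_bs_map]
  rfl

/-- **Ex.** -/
theorem ex (h1 : S_TI) (h2 : S_DT) (h3 : S_GI0) (h4 : S_Mod) (h5 : S_Sz) : S_Ex := by
  classical
  intro Γ _ N hG hN
  obtain ⟨S₀, κ, hκ, hKz⟩ := hN
  have hκ2 : 0 < κ ^ 2 := by positivity
  set θ : ℝ := min 1 (κ ^ 2 / 7200) with hθdef
  have hθ0 : 0 < θ := lt_min one_pos (by positivity)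
  have hθ1 : θ ≤ 1 := min_le_left _ _
  have hθκ : 36 * θ / κ ^ 2 ≤ 1 / 200 := by
    rw [div_le_iff₀ hκ2]
    have : θ ≤ κ ^ 2 / 7200 := min_le_right _ _
    linarith
  let emb : N ↪ Γ := Function.Embedding.subtype _
  have hemb : ∀ n : N, emb n = (n : Γ) := fun n => rfl
  refine ⟨S₀.map emb, θ, hθ0, hθ1, ?_, ?_⟩
  · intro s hs
    obtain ⟨s', -, rfl⟩ := mem_map.1 hs
    exact s'.2
  intro T D η hη hST hTN
  set T₀ : Finset N := T.subtype (fun x => x ∈ N) with hT₀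
  have hTmap : T₀.map emb = T := subtype_map_of_mem hTN
  have hST₀ : S₀ ⊆ T₀ := by
    intro s hs
    rw [hT₀, mem_subtype]
    exact hST (mem_map_of_mem emb hs)
  set η₂ : ℝ := min (1 / 200) (θ / 10000) with hη₂
  have hη₂0 : 0 < η₂ := lt_min (by norm_num) (by positivity)
  obtain ⟨F₂, ε₂, hε₂, hTI2⟩ := h1 N S₀ κ hκ hKz T₀ θ η₂ hθ0.le hη₂0
  set η' : ℝ := min η (min (ε₂ / 3) (θ / 10000)) with hη'
  have hη'0 : 0 < η' := lt_min hη (lt_min (by positivity) (by positivity))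
  have hη'1 : η' ≤ η := min_le_left _ _
  have hη'2 : η' ≤ ε₂ / 3 := (min_le_right _ _).trans (min_le_left _ _)
  have hη'3 : η' ≤ θ / 10000 := (min_le_right _ _).trans (min_le_right _ _)
  obtain ⟨η₁, hη₁, hDT⟩ := h2 T.card θ η' hθ0 hη'0
  obtain ⟨F₁, ε₁, hε₁, hTI1⟩ := h1 N S₀ κ hκ hKz T₀ θ (min (1 / 200) η₁) hθ0.le
    (lt_min (by norm_num) hη₁)
  obtain ⟨ε, hε, hDT'⟩ := hDT ε₁ hε₁
  set D' : Finset Γ := D ∪ T ∪ {1} ∪ (F₁.map emb ∪ F₂.map emb) with hD'
  obtain ⟨A, hAf, hAn, φ, Bd, hone, hBd, hmul, hfree⟩ := h4 Γ hG D' ε hε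
  have h1D : (1 : Γ) ∈ D' := by
    rw [hD']
    simp
  have hDD : D ⊆ D' := fun x hx => by
    rw [hD']
    simp [hx]
  have hTD : T ⊆ D' := fun x hx => by
    rw [hD']
    simp [hx]
  have hF1D : ∀ n ∈ F₁, (n : Γ) ∈ D' := fun n hn => by
    rw [hD']
    exact mem_union_right _ (mem_union_left _ (mem_map_of_mem emb hn))
  have hF2D : ∀ n ∈ F₂, (n : Γ) ∈ D' := fun n hn => by
    rw [hD']
    exact mem_union_right _ (mem_union_right _ (mem_map_of_mem emb hn))
  have hmul1 : ∀ a, a ∉ Bd → ∀ g ∈ D', ∀ h ∈ D', φ (g * h) a = φ g (φ h a) := by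
    intro a ha g hg h hh
    have := hmul a ha 1 h1D g hg h hh
    rw [hone] at this
    exact this
  let φ₀ : N → Equiv.Perm A := fun n => φ (n : Γ)
  have hone₀ : φ₀ 1 = 1 := hone
  have hbsT : ∀ Y : Finset A, bs φ T Y = bs φ₀ T₀ Y := fun Y => by
    rw [← hTmap]
    exact ex_bs_map N φ T₀ Y
  have hbsS : ∀ Y : Finset A, bs φ (S₀.map emb) Y = bs φ₀ S₀ Y := fun Y => ex_bs_map N φ S₀ Y
  have hdbT : ∀ Y : Finset (A × A), bs (dbl φ) T Y = bs (dbl φ₀) T₀ Y := fun Y => by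
    rw [← hTmap]
    exact ex_dbl_map N φ T₀ Y
  have hdbS : ∀ Y : Finset (A × A), bs (dbl φ) (S₀.map emb) Y = bs (dbl φ₀) S₀ Y := fun Y =>
    ex_dbl_map N φ S₀ Y
  have hImp : Imp φ₀ S₀ T₀ θ η₁ ε₁ Bd := by
    intro M hM hb ho
    have hbad : badIn φ₀ F₁ M ≤ ε₁ * (M.card : ℝ) := by
      refine le_trans ?_ ho
      unfold badIn olap
      have : M.filter (fun a => ∃ g ∈ F₁, ∃ h ∈ F₁, φ₀ (g * h) a ≠ φ₀ g (φ₀ h a)) ⊆
          M.filter (fun a => a ∈ Bd) := by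
        intro a ha
        rw [mem_filter] at ha ⊢
        obtain ⟨ha1, g, hg, h, hh, hne⟩ := ha
        refine ⟨ha1, ?_⟩
        by_contra hBd
        exact hne (hmul1 a hBd g (hF1D g hg) h (hF1D h hh))
      exact_mod_cast card_le_card this
    obtain ⟨M', hM1, hM2⟩ := hTI1 A φ₀ M hone₀ hM hb hbad
    have hMc : (0 : ℝ) ≤ M.card := Nat.cast_nonneg _
    have hd1 := dif_nonneg M M'
    have hd2 := dif_nonneg M' M
    have hc1 : 36 * θ / κ ^ 2 + min (1 / 200) η₁ ≤ 1 / 100 := by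
      have : min (1 / 200) η₁ ≤ 1 / 200 := min_le_left _ _
      linarith
    have hc2 := mul_le_mul_of_nonneg_right hc1 hMc
    refine ⟨M', by linarith, by linarith, hM2.trans ?_⟩
    exact mul_le_mul_of_nonneg_right (min_le_right _ _) hMc
  have hcard : T₀.card ≤ T.card := by
    rw [← hTmap, card_map]
  obtain ⟨I, hIf, P, m, hpc, hdisj, hcov, hfew⟩ :=
    hDT' N A φ₀ S₀ T₀ Bd hST₀ hcard hBd hImp
  have hpc' : ∀ i, Piece φ (S₀.map emb) T θ η' (P i) (m i) := by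
    intro i
    refine ⟨(hpc i).ne, (hpc i).lo, (hpc i).hi, ?_, ?_⟩
    · rw [hbsT]
      exact (hpc i).bT
    · intro Y hY hYn hYm
      rw [hbsS]
      exact (hpc i).ex Y hY hYn hYm
  refine ⟨A, I, hAf, hIf, hAn, D', φ, P, m, Bd, hDD, ?_⟩
  refine { one := hone, oneD := h1D, ST := hST, TD := hTD, pc := ?_, disj := hdisj, cov := ?_,
           few := ?_, mul := hmul, free := hfree, gi := ?_ }
  · intro i
    refine ⟨(hpc' i).ne, (hpc' i).lo, (hpc' i).hi, (hpc' i).bT.trans ?_, (hpc' i).ex⟩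
    exact mul_le_mul_of_nonneg_right hη'1 (Nat.cast_nonneg _)
  · refine le_trans ?_ hcov
    exact mul_le_mul_of_nonneg_right (by linarith) (Nat.cast_nonneg _)
  · intro i
    exact (hfew i).trans (mul_le_mul_of_nonneg_right hη'1 (Nat.cast_nonneg _))
  · intro i j γ hγ
    obtain ⟨s1, s2, s3, s4⟩ := h5 Γ A φ (S₀.map emb) T θ η' (θ / 8) (P i) (P j) (m i) (m j) γ hθ0
      (by linarith) (hpc' i) (hpc' j) hγ
    have l1 := (hpc' i).lo
    have l2 := (hpc' j).lo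
    have hγc : (0 : ℝ) ≤ γ.card := Nat.cast_nonneg _
    have hone2 : dbl φ₀ 1 = 1 := by
      unfold dbl
      rw [hone₀]
      rfl
    have hb1 : bs (dbl φ₀) S₀ γ ≤ θ * (γ.card : ℝ) := by
      rw [← hdbS]
      refine hγ.bd.trans (mul_le_mul_of_nonneg_right (by linarith) hγc)
    have hb2 : badIn (dbl φ₀) F₂ γ ≤ ε₂ * (γ.card : ℝ) := by
      have hsub : badIn (dbl φ₀) F₂ γ ≤ olap (P i) Bd + olap (P j) Bd := by
        unfold badIn olap
        have e1 : γ.filter (fun a => ∃ g ∈ F₂, ∃ h ∈ F₂,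
            dbl φ₀ (g * h) a ≠ dbl φ₀ g (dbl φ₀ h a)) ⊆
            γ.filter (fun p => p.1 ∈ Bd) ∪ γ.filter (fun p => p.2 ∈ Bd) := by
          intro a ha
          rw [mem_filter] at ha
          rw [mem_union, mem_filter, mem_filter]
          obtain ⟨ha1, g, hg, h, hh, hne⟩ := ha
          by_contra hcon
          have e2 : a.1 ∉ Bd := fun h' => hcon (Or.inl ⟨ha1, h'⟩)
          have e3 : a.2 ∉ Bd := fun h' => hcon (Or.inr ⟨ha1, h'⟩)
          apply hne
          have e4 : φ₀ (g * h) a.1 = φ₀ g (φ₀ h a.1) := hmul1 a.1 e2 g (hF2D g hg) h (hF2D h hh)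
          have e5 : φ₀ (g * h) a.2 = φ₀ g (φ₀ h a.2) := hmul1 a.2 e3 g (hF2D g hg) h (hF2D h hh)
          exact Prod.ext e4 e5
        have e6 : (γ.filter (fun p => p.1 ∈ Bd)).card ≤ ((P i).filter (fun a => a ∈ Bd)).card := by
          apply card_le_card_of_injOn (fun p => p.1)
          · intro p hp
            have hp' := mem_filter.1 (mem_coe.1 hp)
            exact mem_coe.2 (mem_filter.2 ⟨hγ.left p hp'.1, hp'.2⟩)
          · intro p hp q hq hpq
            exact hγ.inj1 p (mem_filter.1 (mem_coe.1 hp)).1 q (mem_filter.1 (mem_coe.1 hq)).1 hpq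
        have e7 : (γ.filter (fun p => p.2 ∈ Bd)).card ≤ ((P j).filter (fun a => a ∈ Bd)).card := by
          apply card_le_card_of_injOn (fun p => p.2)
          · intro p hp
            have hp' := mem_filter.1 (mem_coe.1 hp)
            exact mem_coe.2 (mem_filter.2 ⟨hγ.right p hp'.1, hp'.2⟩)
          · intro p hp q hq hpq
            exact hγ.inj2 p (mem_filter.1 (mem_coe.1 hp)).1 q (mem_filter.1 (mem_coe.1 hq)).1 hpq
        have e8 := (card_le_card e1).trans ((card_union_le _ _).trans (add_le_add e6 e7))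
        exact_mod_cast e8
      have e9 := hfew i
      have e10 := hfew j
      have hPi : 98 * ((P i).card : ℝ) ≤ 100 * (γ.card : ℝ) := by linarith
      have hPj : 98 * ((P j).card : ℝ) ≤ 100 * (γ.card : ℝ) := by linarith
      have e11 : ((P i).card : ℝ) + (P j).card ≤ 3 * (γ.card : ℝ) := by linarith
      have e12 := mul_le_mul_of_nonneg_left e11 hη'0.le
      have e13 := mul_le_mul_of_nonneg_right hη'2 hγc
      nlinarith
    obtain ⟨M', hM1, hM2⟩ := hTI2 (A × A) (dbl φ₀) γ hone2 hγ.ne hb1 hb2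
    have hd1 := dif_nonneg γ M'
    have hd2 := dif_nonneg M' γ
    have hc1 : 36 * θ / κ ^ 2 + η₂ ≤ 1 / 100 := by
      have : η₂ ≤ 1 / 200 := min_le_left _ _
      linarith
    have hc2 := mul_le_mul_of_nonneg_right hc1 hγc
    refine h3 Γ A φ (S₀.map emb) T θ η' (P i) (P j) (m i) (m j) γ M' hθ0 hθ1 hST hη'0.le
      (by linarith) (hpc' i) (hpc' j) hγ (by linarith) (by linarith) ?_
    rw [hdbT]
    have hc3 : η₂ ≤ θ / 10000 := min_le_right _ _
    have hc4 := mul_le_mul_of_nonneg_right hc3 hγc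
    linarith

end SoficAct.Kz
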