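import Pool.Agent.Lib.MP_2d1e68_al.Kz.Spec

/-!
# Kz/Fin1: assembly for wreath products
-/

set_option autoImplicit false

open Finset Filter Topology

noncomputable section

namespace SoficAct.Kz

theorem fin1 (h1 : S_Half) (h2 : S_Quo) (h3 : S_Iso) : S_Fin1 := by
  classical
  intro G H X _ _ α N hG hα hM hsof
  let π : GenWreath G α →* GenWreath G α :=
    (SemidirectProduct.inr : H →* GenWreath G α).comp SemidirectProduct.rightHom
  obtain ⟨R, hRn, hNR, hRK, hRs⟩ := h2 (GenWreath G α)
    {w | ∃ n ∈ N, w = SemidirectProduct.inr n}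
    {w | ∃ h : H, w = SemidirectProduct.inr h ∧ α h = 1} π (fun w => rfl)
    (by
      rintro _ ⟨n, _, rfl⟩
      rfl)
    (by
      intro F ε hε
      obtain ⟨M, hMn, hMN, hFM, hMT⟩ := hM
        ((F.image (fun w => w.right)).filter (fun n => n ∈ N)) (fun n hn => (mem_filter.1 hn).2)
      have hε' : 0 < min ε (1 / 4) := lt_min hε (by norm_num)
      obtain ⟨B, fB, nB, ψ, k1, k2, k3, k4, k5⟩ := h1 G H X α M hG hMn
        (fun n hn => hα n (hMN n hn)) hMT hsof F (min ε (1 / 4)) hε'
      refine ⟨B, fB, nB, ψ, k1, ?_, ?_, ?_, ?_⟩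
      · intro g hg h hh
        exact (k2 g hg h hh).trans (min_le_left _ _)
      · rintro _ ⟨n, hn, rfl⟩ hnF
        refine (k3 n (hFM n ?_) hnF).trans (min_le_left _ _)
        exact mem_filter.2 ⟨mem_image.2 ⟨_, hnF, rfl⟩, hn⟩
      · intro c hcF hπc hc1
        have e1 : c = SemidirectProduct.inl c.left := by
          have e2 : (SemidirectProduct.inr c.right : GenWreath G α) = 1 := hπc
          conv_lhs => rw [← SemidirectProduct.inl_left_mul_inr_right c, e2, mul_one]
        have e3 : c.left ≠ 1 := by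
          intro h
          apply hc1
          rw [e1, h, map_one]
        have e4 := k4 c.left e3 (by rw [← e1]; exact hcF)
        rw [← e1] at e4
        refine e4.trans ((min_le_right _ _).trans (by norm_num))
      · intro h hhF hπh hhK
        have e1 : h = SemidirectProduct.inr h.right := hπh.symm
        have e2 : α h.right ≠ 1 := fun h' => hhK ⟨h.right, e1, h'⟩
        have e4 := k5 h.right e2 (by rw [← e1]; exact hhF)
        rw [← e1] at e4
        have e5 := min_le_right ε (1 / 4)
        linarith)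
  have hRn' := hRn
  obtain ⟨R₀, hn, hR, hiff, hs⟩ := h3 G H X α R (fun r hr => (hRK r hr).2) hRs
  refine ⟨R₀, hn, hR, ?_, hs⟩
  intro n hn
  rw [hiff]
  exact hNR _ ⟨n, hn, rfl⟩

end SoficAct.Kz
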