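import Pool.Agent.Lib.MP_2d1e68_al.Kz.Spec

/-!
# Kz/Fin2: actions with amenable stabilizers modulo a normal subgroup
-/

set_option autoImplicit false

open Finset Filter Topology

noncomputable section

namespace SoficAct.Kz

theorem fin2 (h : S_AmQ) : S_Fin2 := by
  classical
  intro G H X _ _ α N R _ _ hR hNR hsof
  have hpull : IsSoficAction (QuotientGroup.lift R α hR) → IsSoficAction α := fun hs =>
    sofic_pullback (QuotientGroup.lift R α hR) α (QuotientGroup.mk' R) id
      Function.injective_id (fun k y => rfl) hs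
  refine ⟨hpull, fun hst => hpull ?_⟩
  refine sofic_of_amenable_stab _ (wreath_base _ hsof) fun x => ?_
  -- the map from the stabilizer
  let f : stab α x →* stab (QuotientGroup.lift R α hR) x :=
    ((QuotientGroup.mk' R).comp (stab α x).subtype).codRestrict _ (fun k => k.2)
  have hker : N.subgroupOf (stab α x) ≤ f.ker := by
    intro k hk
    rw [MonoidHom.mem_ker]
    apply Subtype.ext
    show ((k : H) : H ⧸ R) = 1
    rw [QuotientGroup.eq_one_iff]
    exact hNR (Subgroup.mem_subgroupOf.1 hk)
  refine h _ _ (QuotientGroup.lift (N.subgroupOf (stab α x)) f hker) ?_ (hst x)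
  rintro ⟨q, hq⟩
  obtain ⟨k, rfl⟩ := QuotientGroup.mk_surjective q
  exact ⟨((⟨k, hq⟩ : stab α x) : stab α x ⧸ N.subgroupOf (stab α x)), rfl⟩

end SoficAct.Kz
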