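import Pool.Agent.Lib.MP_2d1e68_al.Kz.Spec

/-!
# The lamps act freely on the representatives
-/

open Finset Filter Topology

noncomputable section

namespace SoficAct.Kz

private lemma sz5 (h1 : S_Sz) {Γ : Type} [Group Γ] {S T D : Finset Γ} {θ η : ℝ} {A I E : Type}
    [Fintype A] [Fintype I] {φ : Γ → Equiv.Perm A} {P : I → Finset A} {m : I → ℕ}
    {Bd : Finset A} {src tgt : E → I} {γ : E → Finset (A × A)} (hθ : 0 < θ)
    (st : Stage S T D θ η φ P m Bd) (sk : Skel S T θ φ P src tgt γ) (e : E) :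
    0 < ((γ e).card : ℝ) ∧ ((γ e).card : ℝ) ≤ (P (src e)).card ∧
      ((γ e).card : ℝ) ≤ (P (tgt e)).card ∧
      98 * ((P (src e)).card : ℝ) ≤ 100 * ((γ e).card : ℝ) ∧
      98 * ((P (tgt e)).card : ℝ) ≤ 100 * ((γ e).card : ℝ) := by
  have hm := sk.mor e
  obtain ⟨a1, a2, a3, a4⟩ := h1 Γ A φ S T θ η (θ / 64) (P (src e)) (P (tgt e)) (m (src e))
    (m (tgt e)) (γ e) hθ (by linarith) (st.pc _) (st.pc _) (hm.mono st.ST le_rfl)
  have b1 := (st.pc (src e)).lo
  have b2 := (st.pc (tgt e)).lo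
  have b3 : 0 < (γ e).card := card_pos.2 hm.ne
  exact ⟨by exact_mod_cast b3, a3, a4, by linarith, by linarith⟩

private lemma olap_eq {A : Type} (Y Z : Finset A) [DecidablePred (fun a => a ∈ Z)] :
    olap Y Z = ((Y.filter (fun a => a ∈ Z)).card : ℝ) := by
  unfold olap
  congr

private lemma pass2_eq {N A : Type} (φ : N → Equiv.Perm A) (g w : N) (γ γ' : Finset (A × A))
    [DecidablePred (fun p : A × A => (φ g p.1, φ w p.2) ∈ γ')] :
    pass2 φ g w γ γ' = ((γ.filter (fun p => (φ g p.1, φ w p.2) ∈ γ')).card : ℝ) := by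
  unfold pass2
  congr

theorem free (h1 : S_Sz) : S_Free := by
  intro Γ _ S T D θ η ε A I E _ _ _ φ P m Bd src tgt γ c e par st sk hc hc1 h2
  classical
  have hθ := par.θ0
  have hθ1 := par.θ1
  have hη0 := par.η0
  have hη := par.η1
  obtain ⟨c1, c2, c3, c4, c5⟩ := sz5 h1 hθ st sk e
  obtain ⟨_, _, x5⟩ := h2
  have hme := sk.mor e
  have f2 := st.few (tgt e)
  have key : pass2 φ 1 c (γ e) (γ e) ≤ olap (P (tgt e)) Bd := by
    rw [olap_eq, pass2_eq]
    have : ((γ e).filter (fun p => (φ 1 p.1, φ c p.2) ∈ γ e)).card ≤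
        ((P (tgt e)).filter (fun a => a ∈ Bd)).card := by
      apply card_le_card_of_injOn (fun q => q.2)
      · intro q hq
        rw [mem_coe, mem_filter] at hq ⊢
        refine ⟨hme.right q hq.1, ?_⟩
        by_contra hb
        have h3 := st.free q.2 hb c hc hc1
        apply h3
        have h4 := hq.2
        rw [st.one] at h4
        have h5 := hme.inj1 _ h4 q hq.1 rfl
        exact congrArg Prod.snd h5
      · intro p hp q hq h
        rw [mem_coe, mem_filter] at hp hq
        exact hme.inj2 p hp.1 q hq.1 h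
    exact_mod_cast this
  have z7 : η * ((P (tgt e)).card : ℝ) ≤ 1 / 100000 * ((P (tgt e)).card : ℝ) :=
    mul_le_mul_of_nonneg_right (by linarith) (Nat.cast_nonneg _)
  linarith

end SoficAct.Kz
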