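import Pool.Agent.Lib.MP_2d1e68_al.Kz.Spec

open Finset Filter Topology

noncomputable section

namespace SoficAct.Kz

private theorem card_fst {A B : Type} [DecidableEq A] (X : Finset (A × B)) (Y : Finset A)
    (hinj : ∀ p ∈ X, ∀ q ∈ X, p.1 = q.1 → p = q) (h : ∀ p ∈ X, p.1 ∈ Y) : X.card ≤ Y.card :=
  Finset.card_le_card_of_injOn (fun p => p.1) (fun p hp => h p hp)
    (fun p hp q hq hpq => hinj p hp q hq hpq)

private theorem card_snd {A B : Type} [DecidableEq B] (X : Finset (A × B)) (Y : Finset B)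
    (hinj : ∀ p ∈ X, ∀ q ∈ X, p.2 = q.2 → p = q) (h : ∀ p ∈ X, p.2 ∈ Y) : X.card ≤ Y.card :=
  Finset.card_le_card_of_injOn (fun p => p.2) (fun p hp => h p hp)
    (fun p hp q hq hpq => hinj p hp q hq hpq)

private theorem mem_bd {A : Type} (σ : Equiv.Perm A) (Y : Finset A) (a : A) :
    a ∈ bd σ Y ↔ a ∈ Y ∧ σ a ∉ Y := by
  classical
  unfold bd
  rw [mem_filter]

private theorem olap_eq {A : Type} [DecidableEq A] (Y Z : Finset A) :
    olap Y Z = ((Y.filter (fun a => a ∈ Z)).card : ℝ) := by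
  unfold olap
  exact congrArg (fun s : Finset A => (s.card : ℝ)) (by ext a; simp only [mem_filter])

private theorem dif_eq {A : Type} [DecidableEq A] (Y Z : Finset A) :
    dif Y Z = ((Y.filter (fun a => a ∉ Z)).card : ℝ) := by
  unfold dif
  exact congrArg (fun s : Finset A => (s.card : ℝ)) (by ext a; simp only [mem_filter])

theorem gi0 (h1 : S_Uq) (h2 : S_Sz) : S_GI0 := by
  classical
  intro N A φ S T θ η P Q m m' γ M' hθ hθ1 hST hη hηθ hP hQ hγ hd1 hd2 hb
  obtain ⟨s1, s2, s3, s4⟩ := h2 N A φ S T θ η (θ / 8) P Q m m' γ hθ (by linarith) hP hQ hγ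
  have hγ0 : 0 < (γ.card : ℝ) := by exact_mod_cast hγ.ne.card_pos
  have hP98 : 98 * (P.card : ℝ) ≤ 100 * γ.card := by
    have := hP.lo
    linarith
  have hQ98 : 98 * (Q.card : ℝ) ≤ 100 * γ.card := by
    have := hQ.lo
    linarith
  set γ' : Finset (A × A) := (uq M').filter (fun p => p.1 ∈ P ∧ p.2 ∈ Q) with hγ'
  have huq : ∀ p, p ∈ uq M' ↔ p ∈ M' ∧ (∀ q ∈ M', q.1 = p.1 → q = p) ∧ ∀ q ∈ M', q.2 = p.2 → q = p := by
    intro p
    unfold uq
    rw [mem_filter]
  have hγ'm : ∀ p, p ∈ γ' ↔ p ∈ uq M' ∧ p.1 ∈ P ∧ p.2 ∈ Q := by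
    intro p
    rw [hγ', mem_filter]
  have inj1 : ∀ p ∈ γ', ∀ q ∈ γ', p.1 = q.1 → p = q := by
    intro p hp q hq h
    have hp1 := (huq p).1 ((hγ'm p).1 hp).1
    have hq1 := (huq q).1 ((hγ'm q).1 hq).1
    exact hq1.2.1 p hp1.1 h
  have inj2 : ∀ p ∈ γ', ∀ q ∈ γ', p.2 = q.2 → p = q := by
    intro p hp q hq h
    have hp1 := (huq p).1 ((hγ'm p).1 hp).1
    have hq1 := (huq q).1 ((hγ'm q).1 hq).1
    exact hq1.2.2 p hp1.1 h
  -- (1)
  set X1 : Finset (A × A) := γ.filter (fun p => ∃ q ∈ M', q ∉ γ ∧ q.1 = p.1) with hX1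
  set X2 : Finset (A × A) := γ.filter (fun p => ∃ q ∈ M', q ∉ γ ∧ q.2 = p.2) with hX2
  set Z : Finset (A × A) := M'.filter (fun q => q ∉ γ) with hZ
  have cX1 : X1.card ≤ Z.card := by
    calc X1.card ≤ (Z.image (fun q => q.1)).card := by
          refine card_fst X1 (Z.image (fun q => q.1)) ?_ ?_
          · intro p hp q hq h
            exact hγ.inj1 p (mem_filter.1 hp).1 q (mem_filter.1 hq).1 h
          · intro p hp
            obtain ⟨_, q, hq1, hq2, hq3⟩ := mem_filter.1 hp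
            exact mem_image.2 ⟨q, mem_filter.2 ⟨hq1, hq2⟩, hq3⟩
      _ ≤ Z.card := card_image_le
  have cX2 : X2.card ≤ Z.card := by
    calc X2.card ≤ (Z.image (fun q => q.2)).card := by
          refine card_snd X2 (Z.image (fun q => q.2)) ?_ ?_
          · intro p hp q hq h
            exact hγ.inj2 p (mem_filter.1 hp).1 q (mem_filter.1 hq).1 h
          · intro p hp
            obtain ⟨_, q, hq1, hq2, hq3⟩ := mem_filter.1 hp
            exact mem_image.2 ⟨q, mem_filter.2 ⟨hq1, hq2⟩, hq3⟩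
      _ ≤ Z.card := card_image_le
  have hcov : γ ⊆ (γ.filter (fun a => a ∈ γ') ∪ γ.filter (fun a => a ∉ M')) ∪ (X1 ∪ X2) := by
    intro p hp
    by_cases hpM : p ∈ M'
    · by_cases hu : p ∈ uq M'
      · refine mem_union_left _ (mem_union_left _ (mem_filter.2 ⟨hp, ?_⟩))
        exact (hγ'm p).2 ⟨hu, hγ.left p hp, hγ.right p hp⟩
      · refine mem_union_right _ ?_
        have h3 : ¬ ((∀ q ∈ M', q.1 = p.1 → q = p) ∧ ∀ q ∈ M', q.2 = p.2 → q = p) :=
          fun h => hu ((huq p).2 ⟨hpM, h⟩)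
        rw [not_and_or] at h3
        rcases h3 with h3 | h3
        · push Not at h3
          obtain ⟨q, hq1, hq2, hq3⟩ := h3
          refine mem_union_left _ (mem_filter.2 ⟨hp, q, hq1, ?_, hq2⟩)
          intro hqγ
          exact hq3 (hγ.inj1 q hqγ p hp hq2)
        · push Not at h3
          obtain ⟨q, hq1, hq2, hq3⟩ := h3
          refine mem_union_right _ (mem_filter.2 ⟨hp, q, hq1, ?_, hq2⟩)
          intro hqγ
          exact hq3 (hγ.inj2 q hqγ p hp hq2)
    · exact mem_union_left _ (mem_union_right _ (mem_filter.2 ⟨hp, hpM⟩))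
  have hol : (γ.card : ℝ) ≤ olap γ γ' + dif γ M' + 2 * dif M' γ := by
    rw [olap_eq, dif_eq, dif_eq]
    have h3 := (card_le_card hcov).trans ((card_union_le _ _).trans
      (Nat.add_le_add (card_union_le _ _) (card_union_le _ _)))
    have h4 : γ.card ≤ (γ.filter (fun a => a ∈ γ')).card + (γ.filter (fun a => a ∉ M')).card +
        2 * (M'.filter (fun a => a ∉ γ)).card := by
      rw [hZ] at cX1 cX2
      omega
    exact_mod_cast h4
  have hol97 : 97 * (γ.card : ℝ) ≤ 100 * olap γ γ' := by linarith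
  have hne : γ'.Nonempty := by
    rw [nonempty_iff_ne_empty]
    intro h
    have h3 : olap γ γ' = 0 := by
      unfold olap
      rw [h]
      simp
    rw [h3] at hol97
    linarith
  have hcard : olap γ γ' ≤ (γ'.card : ℝ) := olap_le_right γ γ'
  -- (2)
  have hbs : bs (dbl φ) T γ' ≤ bs (dbl φ) T (uq M') + bs φ T P + bs φ T Q := by
    unfold bs
    rw [← sum_add_distrib, ← sum_add_distrib]
    refine sum_le_sum fun t _ => ?_
    have h3 : bd (dbl φ t) γ' ⊆ (bd (dbl φ t) (uq M') ∪ γ'.filter (fun p => φ t p.1 ∉ P)) ∪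
        γ'.filter (fun p => φ t p.2 ∉ Q) := by
      intro p hp
      rw [mem_bd] at hp
      obtain ⟨hp1, hp2⟩ := hp
      rw [hγ'm] at hp2
      by_cases e1 : dbl φ t p ∈ uq M'
      · by_cases e2 : φ t p.1 ∈ P
        · refine mem_union_right _ (mem_filter.2 ⟨hp1, fun e3 => hp2 ⟨e1, e2, e3⟩⟩)
        · exact mem_union_left _ (mem_union_right _ (mem_filter.2 ⟨hp1, e2⟩))
      · refine mem_union_left _ (mem_union_left _ ?_)
        exact (mem_bd _ _ _).2 ⟨((hγ'm p).1 hp1).1, e1⟩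
    have h4 : (γ'.filter (fun p => φ t p.1 ∉ P)).card ≤ (bd (φ t) P).card := by
      refine card_fst _ _ ?_ ?_
      · intro p hp q hq h
        exact inj1 p (mem_filter.1 hp).1 q (mem_filter.1 hq).1 h
      · intro p hp
        exact (mem_bd _ _ _).2 ⟨((hγ'm p).1 (mem_filter.1 hp).1).2.1, (mem_filter.1 hp).2⟩
    have h5 : (γ'.filter (fun p => φ t p.2 ∉ Q)).card ≤ (bd (φ t) Q).card := by
      refine card_snd _ _ ?_ ?_
      · intro p hp q hq h
        exact inj2 p (mem_filter.1 hp).1 q (mem_filter.1 hq).1 h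
      · intro p hp
        exact (mem_bd _ _ _).2 ⟨((hγ'm p).1 (mem_filter.1 hp).1).2.2, (mem_filter.1 hp).2⟩
    have h6 := (card_le_card h3).trans ((card_union_le _ _).trans
      (Nat.add_le_add_right (card_union_le _ _) _))
    exact_mod_cast (show (bd (dbl φ t) γ').card ≤
      (bd (dbl φ t) (uq M')).card + (bd (φ t) P).card + (bd (φ t) Q).card by omega)
  refine ⟨γ', ⟨hne, fun p hp => ((hγ'm p).1 hp).2.1, fun p hp => ((hγ'm p).1 hp).2.2, inj1, inj2, ?_⟩, ?_⟩
  · have h3 := h1 N A φ T M'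
    have h4 := hP.bT
    have h5 := hQ.bT
    have h6 : η * (P.card : ℝ) ≤ θ / 10000 * (100 / 98 * γ.card) := by
      apply mul_le_mul (by linarith) (by linarith) (Nat.cast_nonneg _) (by linarith)
    have h7 : η * (Q.card : ℝ) ≤ θ / 10000 * (100 / 98 * γ.card) := by
      apply mul_le_mul (by linarith) (by linarith) (Nat.cast_nonneg _) (by linarith)
    have h8 : 97 * (γ.card : ℝ) ≤ 100 * γ'.card := by linarith
    have h9 : θ * (97 * (γ.card : ℝ)) ≤ θ * (100 * γ'.card) := mul_le_mul_of_nonneg_left h8 hθ.le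
    have h10 : 0 ≤ θ * (γ.card : ℝ) := by positivity
    nlinarith
  · linarith

end SoficAct.Kz
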