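import Pool.Agent.Lib.MP_2d1e68_al.Kz.Spec

open Finset Filter Topology

noncomputable section

namespace SoficAct.Kz

section

variable {N V : Type} [Group N] [NormedAddCommGroup V] [InnerProductSpace ℂ V]
  (ρ : N →* (V ≃ₗᵢ[ℂ] V))

/-- the invariant vectors -/
private def inv : Submodule ℂ V where
  carrier := {v | ∀ n, ρ n v = v}
  add_mem' := fun {a b} ha hb n => by rw [map_add, ha n, hb n]
  zero_mem' := fun n => map_zero _
  smul_mem' := fun c x hx n => by rw [map_smul, hx n]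

private theorem mem_inv (v : V) : v ∈ inv ρ ↔ ∀ n, ρ n v = v := Iff.rfl

private theorem inv_closed : IsClosed (inv ρ : Set V) := by
  have : (inv ρ : Set V) = ⋂ n, {v | ρ n v = v} := by
    ext v
    rw [Set.mem_iInter]
    exact Iff.rfl
  rw [this]
  exact isClosed_iInter fun n => isClosed_eq (ρ n).continuous continuous_id

private theorem orth_mem (n : N) (x : V) (hx : x ∈ (inv ρ)ᗮ) : ρ n x ∈ (inv ρ)ᗮ := by
  rw [Submodule.mem_orthogonal] at hx ⊢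
  intro w hw
  have h1 : inner ℂ w (ρ n x) = inner ℂ (ρ n w) (ρ n x) := by
    rw [(mem_inv ρ w).1 hw n]
  rw [h1, (ρ n).inner_map_map]
  exact hx w hw

private theorem mul_ap (m n : N) (x : V) : ρ m (ρ n x) = ρ (m * n) x := by
  rw [map_mul]
  rfl

/-- the representation on the orthogonal complement -/
private def resE (n : N) : (inv ρ)ᗮ ≃ₗᵢ[ℂ] (inv ρ)ᗮ where
  toFun := fun x => ⟨ρ n x, orth_mem ρ n x x.2⟩
  invFun := fun x => ⟨ρ n⁻¹ x, orth_mem ρ n⁻¹ x x.2⟩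
  map_add' := fun x y => Subtype.ext (by simp)
  map_smul' := fun c x => Subtype.ext (by simp)
  left_inv := fun x => Subtype.ext (by
    change ρ n⁻¹ (ρ n x) = x
    rw [mul_ap, inv_mul_cancel, map_one]
    rfl)
  right_inv := fun x => Subtype.ext (by
    change ρ n (ρ n⁻¹ x) = x
    rw [mul_ap, mul_inv_cancel, map_one]
    rfl)
  norm_map' := fun x => by
    change ‖(ρ n (x : V))‖ = ‖(x : V)‖
    exact (ρ n).norm_map _

private def res : N →* ((inv ρ)ᗮ ≃ₗᵢ[ℂ] (inv ρ)ᗮ) where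
  toFun := resE ρ
  map_one' := by
    ext x
    change ρ 1 (x : V) = x
    rw [map_one]
    rfl
  map_mul' := fun m n => by
    ext x
    change ρ (m * n) (x : V) = ρ m (ρ n (x : V))
    rw [mul_ap]

end

theorem gap : S_Gap := by
  intro N _ S κ hκ hK V _ _ _ ρ ξ δ hδ hS
  haveI : CompleteSpace (inv ρ) := (inv_closed ρ).completeSpace_coe
  set ξ₀ : V := (inv ρ).starProjection ξ with hξ₀
  have hξ₀m : ξ₀ ∈ inv ρ := Submodule.starProjection_apply_mem _ _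
  have hum : ξ - ξ₀ ∈ (inv ρ)ᗮ := Submodule.sub_starProjection_mem_orthogonal ξ
  refine ⟨ξ₀, (mem_inv ρ ξ₀).1 hξ₀m, ?_, fun v hv => (Submodule.mem_orthogonal _ _).1 hum v hv⟩
  by_cases hu : ξ - ξ₀ = 0
  · rw [hu, norm_zero]
    positivity
  have hupos : 0 < ‖ξ - ξ₀‖ := norm_pos_iff.2 hu
  rw [le_div_iff₀ hκ]
  by_contra hcon
  push Not at hcon
  obtain ⟨v, hv0, hv⟩ := hK (inv ρ)ᗮ (res ρ) ⟨((‖ξ - ξ₀‖⁻¹ : ℝ) : ℂ) • ⟨ξ - ξ₀, hum⟩, by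
    rw [norm_smul]
    change ‖((‖ξ - ξ₀‖⁻¹ : ℝ) : ℂ)‖ * ‖ξ - ξ₀‖ = 1
    rw [Complex.norm_real, norm_inv, norm_norm, inv_mul_cancel₀ hupos.ne'], fun s hs => by
    have h1 : (res ρ) s (((‖ξ - ξ₀‖⁻¹ : ℝ) : ℂ) • ⟨ξ - ξ₀, hum⟩) - ((‖ξ - ξ₀‖⁻¹ : ℝ) : ℂ) • ⟨ξ - ξ₀, hum⟩ =
        ((‖ξ - ξ₀‖⁻¹ : ℝ) : ℂ) • ((res ρ) s ⟨ξ - ξ₀, hum⟩ - ⟨ξ - ξ₀, hum⟩) := by
      rw [map_smul, smul_sub]
    rw [h1, norm_smul]
    change ‖((‖ξ - ξ₀‖⁻¹ : ℝ) : ℂ)‖ * ‖ρ s (ξ - ξ₀) - (ξ - ξ₀)‖ ≤ κ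
    have h2 : ρ s (ξ - ξ₀) - (ξ - ξ₀) = ρ s ξ - ξ := by
      rw [map_sub, (mem_inv ρ ξ₀).1 hξ₀m s]
      abel
    rw [h2, Complex.norm_real, norm_inv, norm_norm, inv_mul_le_iff₀ hupos]
    have h3 := hS s hs
    linarith⟩
  apply hv0
  have h1 : (v : V) ∈ inv ρ := fun n => congrArg Subtype.val (hv n)
  have h2 : inner ℂ (v : V) (v : V) = 0 := (Submodule.mem_orthogonal _ _).1 v.2 v h1
  exact Subtype.ext (inner_self_eq_zero.1 h2)

end SoficAct.Kz
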