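import Pool.Agent.Lib.MP_2d1e68_al.Kz.Spec

/-!
# Kz/Good: most pieces are moved almost onto pieces
-/

open Finset Filter Topology

noncomputable section

namespace SoficAct.Kz

/-- Disjoint targets. -/
private lemma good_sum_left {A I : Type} [Fintype I] (P : I → Finset A)
    (disj : ∀ i j, i ≠ j → ∀ a, a ∈ P i → a ∉ P j) (σ : Equiv.Perm A) (Y : Finset A) :
    ∑ j, pass σ Y (P j) ≤ (Y.card : ℝ) := by
  classical
  unfold pass
  rw [← Nat.cast_sum, ← card_biUnion]
  · exact_mod_cast card_le_card (fun a ha => by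
      obtain ⟨j, -, hj⟩ := mem_biUnion.1 ha
      exact (mem_filter.1 hj).1)
  · intro j _ j' _ hjj
    rw [Function.onFun, disjoint_left]
    intro a ha ha'
    exact disj j j' hjj _ (mem_filter.1 ha).2 (mem_filter.1 ha').2

/-- Disjoint sources. -/
private lemma good_sum_right {A I : Type} [Fintype I] (P : I → Finset A)
    (disj : ∀ i j, i ≠ j → ∀ a, a ∈ P i → a ∉ P j) (σ : Equiv.Perm A) (Z : Finset A) :
    ∑ i, pass σ (P i) Z ≤ (Z.card : ℝ) := by
  classical
  unfold pass
  rw [← Nat.cast_sum, ← card_biUnion]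
  · have : ((univ : Finset I).biUnion fun i => (P i).filter fun a => σ a ∈ Z).card ≤ Z.card :=
      card_le_card_of_injOn (fun a => σ a) (fun a ha => by
        obtain ⟨i, -, hi⟩ := mem_biUnion.1 ha
        exact (mem_filter.1 hi).2) (fun a _ b _ h => σ.injective h)
    exact_mod_cast this
  · intro j _ j' _ hjj
    rw [Function.onFun, disjoint_left]
    intro a ha ha'
    exact disj j j' hjj _ (mem_filter.1 ha).1 (mem_filter.1 ha').1

/-- Most points are moved from a piece to a piece. -/
private lemma good_total {A I : Type} [Fintype A] [Fintype I] (P : I → Finset A)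
    (disj : ∀ i j, i ≠ j → ∀ a, a ∈ P i → a ∉ P j) (σ : Equiv.Perm A) (η : ℝ)
    (cov : (1 - η) * (Fintype.card A : ℝ) ≤ ∑ i, ((P i).card : ℝ)) :
    (1 - 2 * η) * (Fintype.card A : ℝ) ≤ ∑ i, ∑ j, pass σ (P i) (P j) := by
  classical
  let U : Finset A := univ.biUnion P
  have hU : (U.card : ℝ) = ∑ i, ((P i).card : ℝ) := by
    have h1 : U.card = ∑ i, (P i).card := card_biUnion (fun i _ j _ hij => by
      rw [Function.onFun, disjoint_left]
      exact fun a ha => disj i j hij a ha)
    rw [h1, Nat.cast_sum]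
  let X : Finset A := univ.filter fun a => σ a ∉ U
  have hX : X.card + U.card = Fintype.card A := by
    have h1 : X.card = (univ.filter fun a => a ∉ U).card := by
      apply card_bij (fun a _ => σ a)
      · intro a ha
        rw [mem_filter] at ha ⊢
        exact ⟨mem_univ _, ha.2⟩
      · intro a _ b _ h
        exact σ.injective h
      · intro b hb
        refine ⟨σ⁻¹ b, ?_, by simp⟩
        rw [mem_filter] at hb ⊢
        exact ⟨mem_univ _, by simpa using hb.2⟩
    have h2 : (univ.filter fun a => a ∉ U) = Uᶜ := by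
      ext a
      simp
    rw [h1, h2, card_compl]
    have := card_le_univ U
    omega
  let W : Finset A := univ.filter fun a => a ∈ U ∧ σ a ∈ U
  have hW : Fintype.card A ≤ W.card + X.card + Uᶜ.card := by
    have h1 : (univ : Finset A) ⊆ (W ∪ X) ∪ Uᶜ := by
      intro a _
      by_cases h2 : a ∈ U
      · by_cases h3 : σ a ∈ U
        · exact mem_union_left _ (mem_union_left _ (mem_filter.2 ⟨mem_univ _, h2, h3⟩))
        · exact mem_union_left _ (mem_union_right _ (mem_filter.2 ⟨mem_univ _, h3⟩))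
      · exact mem_union_right _ (mem_compl.2 h2)
    have h2 := card_le_card h1
    have h3 := card_union_le (W ∪ X) Uᶜ
    have h4 := card_union_le W X
    rw [card_univ] at h2
    omega
  have hUc : Uᶜ.card + U.card = Fintype.card A := by
    rw [card_compl]
    have := card_le_univ U
    omega
  have hWs : (W.card : ℝ) ≤ ∑ i, ∑ j, pass σ (P i) (P j) := by
    have h1 : W ⊆ (univ : Finset I).biUnion fun i => (univ : Finset I).biUnion fun j =>
        (P i).filter fun a => σ a ∈ P j := by
      intro a ha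
      obtain ⟨-, h2, h3⟩ := mem_filter.1 ha
      obtain ⟨i, -, hi⟩ := mem_biUnion.1 h2
      obtain ⟨j, -, hj⟩ := mem_biUnion.1 h3
      exact mem_biUnion.2 ⟨i, mem_univ _, mem_biUnion.2 ⟨j, mem_univ _, mem_filter.2 ⟨hi, hj⟩⟩⟩
    have h2 : W.card ≤ ∑ i, ∑ j, ((P i).filter fun a => σ a ∈ P j).card :=
      (card_le_card h1).trans (card_biUnion_le.trans (sum_le_sum fun i _ => card_biUnion_le))
    unfold pass
    exact_mod_cast h2
  have e1 : (X.card : ℝ) + U.card = Fintype.card A := by exact_mod_cast hX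
  have e2 : (Uᶜ.card : ℝ) + U.card = Fintype.card A := by exact_mod_cast hUc
  have e3 : (Fintype.card A : ℝ) ≤ W.card + X.card + Uᶜ.card := by exact_mod_cast hW
  nlinarith

/-- The combinatorial core. -/
private lemma good_core {I : Type} [Fintype I] (p : I → ℝ) (q : I → I → ℝ) (Bg : I → I → Prop)
    (a x ε : ℝ) (hε : 0 < ε) (hε1 : 100 * ε ≤ 1) (hp : ∀ i, 0 ≤ p i) (hq : ∀ i j, 0 ≤ q i j)
    (hr : ∀ i, ∑ j, q i j ≤ p i) (hs : ∀ j, ∑ i, q i j ≤ p j)
    (u1 : ∀ i j j', Bg i j → Bg i j' → j = j') (u2 : ∀ i i' j, Bg i j → Bg i' j → i = i')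
    (hb : ∀ i j, Bg i j → 98 * p i ≤ 100 * q i j)
    (hpa : ∑ i, p i ≤ a) (hx : (1 - x) * a ≤ sumIf (fun z : I × I => Bg z.1 z.2) (fun z => q z.1 z.2))
    (hxe : 4 * x ≤ ε ^ 2) (ha : 0 ≤ a) :
    sumIf (fun i => ¬ ∃ j, Bg i j ∧ (1 - ε) * p i ≤ q i j ∧ (1 - ε) * p j ≤ q i j) p ≤ ε * a := by
  classical
  let b : I → I → ℝ := fun i j => if Bg i j then q i j else 0
  have hb0 : ∀ i j, 0 ≤ b i j := by
    intro i j
    simp only [b]
    split_ifs
    · exact hq i j
    · exact le_rfl
  have hbq : ∀ i j, b i j ≤ q i j := by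
    intro i j
    simp only [b]
    split_ifs
    · exact le_rfl
    · exact hq i j
  have hr' : ∀ i, 0 ≤ p i - ∑ j, b i j := fun i => by
    have := (sum_le_sum fun j (_ : j ∈ univ) => hbq i j).trans (hr i)
    linarith
  have hs' : ∀ j, 0 ≤ p j - ∑ i, b i j := fun j => by
    have := (sum_le_sum fun i (_ : i ∈ univ) => hbq i j).trans (hs j)
    linarith
  have hsum : ∑ i, ∑ j, b i j = sumIf (fun z : I × I => Bg z.1 z.2) (fun z => q z.1 z.2) := by
    unfold sumIf
    rw [← univ_product_univ, sum_product]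
  have hR : ∑ i, (p i - ∑ j, b i j) ≤ x * a := by
    rw [sum_sub_distrib, hsum]
    nlinarith
  have hS : ∑ j, (p j - ∑ i, b i j) ≤ x * a := by
    rw [sum_sub_distrib, sum_comm, hsum]
    nlinarith
  have hrow : ∀ i j, Bg i j → ∑ j', b i j' = q i j := by
    intro i j h
    rw [sum_eq_single j]
    · simp only [b, if_pos h]
    · intro j' _ hne
      simp only [b]
      rw [if_neg]
      intro h'
      exact hne (u1 i j' j h' h)
    · intro h'
      exact absurd (mem_univ _) h'
  have hcol : ∀ i j, Bg i j → ∑ i', b i' j = q i j := by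
    intro i j h
    rw [sum_eq_single i]
    · simp only [b, if_pos h]
    · intro i' _ hne
      simp only [b]
      rw [if_neg]
      intro h'
      exact hne (u2 i' i j h' h)
    · intro h'
      exact absurd (mem_univ _) h'
  have hkey : ∀ i, (if ¬ ∃ j, Bg i j ∧ (1 - ε) * p i ≤ q i j ∧ (1 - ε) * p j ≤ q i j then p i
      else 0) * (98 * ε) ≤ 98 * (p i - ∑ j, b i j) +
      100 * ∑ j, (if Bg i j then (p j - ∑ i', b i' j) else 0) := by
    intro i
    have hpos : 0 ≤ ∑ j, (if Bg i j then (p j - ∑ i', b i' j) else 0) := by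
      refine sum_nonneg fun j _ => ?_
      split_ifs
      · exact hs' j
      · exact le_rfl
    by_cases hgood : ∃ j, Bg i j ∧ (1 - ε) * p i ≤ q i j ∧ (1 - ε) * p j ≤ q i j
    · rw [if_neg (not_not.2 hgood)]
      have := hr' i
      linarith
    · rw [if_pos hgood]
      by_cases hj : ∃ j, Bg i j
      · obtain ⟨j, hj⟩ := hj
        rw [hrow i j hj]
        have h1 : ∑ j', (if Bg i j' then (p j' - ∑ i', b i' j') else 0) = p j - q i j := by
          rw [sum_eq_single j]
          · rw [if_pos hj, hcol i j hj]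
          · intro j' _ hne
            rw [if_neg]
            intro h'
            exact hne (u1 i j' j h' hj)
          · intro h'
            exact absurd (mem_univ _) h'
        rw [h1]
        have h2 := hr' i
        rw [hrow i j hj] at h2
        have h3 := hs' j
        rw [hcol i j hj] at h3
        have h4 : ¬ ((1 - ε) * p i ≤ q i j ∧ (1 - ε) * p j ≤ q i j) := fun h =>
          hgood ⟨j, hj, h⟩
        by_cases h5 : (1 - ε) * p i ≤ q i j
        · have h6 : ¬ (1 - ε) * p j ≤ q i j := fun h => h4 ⟨h5, h⟩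
          have h7 := hb i j hj
          have h8 : 98 * p i ≤ 100 * p j := by linarith
          have h9 := mul_le_mul_of_nonneg_right h8 hε.le
          nlinarith
        · nlinarith
      · have h1 : ∑ j, b i j = 0 := sum_eq_zero fun j _ => by
          simp only [b]
          rw [if_neg]
          exact fun h => hj ⟨j, h⟩
        rw [h1]
        have := hp i
        nlinarith
  have hdbl : ∑ i, ∑ j, (if Bg i j then (p j - ∑ i', b i' j) else 0) ≤
      ∑ j, (p j - ∑ i, b i j) := by
    rw [sum_comm]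
    refine sum_le_sum fun j _ => ?_
    by_cases hi : ∃ i, Bg i j
    · obtain ⟨i, hi⟩ := hi
      rw [sum_eq_single i]
      · rw [if_pos hi]
      · intro i' _ hne
        rw [if_neg]
        intro h'
        exact hne (u2 i' i j h' hi)
      · intro h'
        exact absurd (mem_univ _) h'
    · rw [sum_eq_zero]
      · exact hs' j
      · intro i _
        rw [if_neg]
        exact fun h => hi ⟨i, h⟩
  have htot : sumIf (fun i => ¬ ∃ j, Bg i j ∧ (1 - ε) * p i ≤ q i j ∧ (1 - ε) * p j ≤ q i j) p *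
      (98 * ε) ≤ 98 * (x * a) + 100 * (x * a) := by
    unfold sumIf
    rw [sum_mul]
    refine (sum_le_sum fun i _ => ?_).trans (b := ∑ i, (98 * (p i - ∑ j, b i j) +
      100 * ∑ j, (if Bg i j then (p j - ∑ i', b i' j) else 0))) ?_
    · have hk := hkey i
      by_cases hh : ∃ j, Bg i j ∧ (1 - ε) * p i ≤ q i j ∧ (1 - ε) * p j ≤ q i j
      · rw [if_neg (not_not.2 hh)] at hk ⊢
        exact hk
      · rw [if_pos hh] at hk ⊢
        exact hk
    · rw [sum_add_distrib, ← mul_sum, ← mul_sum]
      have := hdbl.trans hS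
      linarith
  have h4 : 98 * (x * a) + 100 * (x * a) ≤ (ε * a) * (98 * ε) := by
    have := mul_le_mul_of_nonneg_right hxe ha
    nlinarith [mul_nonneg (sq_nonneg ε) ha]
  have h5 : 0 < 98 * ε := by linarith
  exact le_of_mul_le_mul_right (htot.trans h4) h5

/-- **Good.** -/
theorem good (h1 : S_PM) : S_Good := by
  intro Γ _ S T D θ η ε A I _ _ φ P m Bd g hpar hst hg hT1 hT2
  classical
  have hθ := hpar.θ0
  have hη := hpar.η0
  have hPM := h1 Γ S T D θ η A I φ P m Bd g hθ hη hst hg hT1 hT2
  have hdisj := hst.disj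
  have htot := good_total P hdisj (φ g) η hst.cov
  have hA : (0 : ℝ) ≤ Fintype.card A := Nat.cast_nonneg _
  have hPa : ∑ i, ((P i).card : ℝ) ≤ Fintype.card A := by
    rw [← Nat.cast_sum, ← card_biUnion]
    · exact_mod_cast card_le_univ _
    · intro i _ j _ hij
      rw [Function.onFun, disjoint_left]
      exact fun a ha => hdisj i j hij a ha
  let Bg : I → I → Prop := fun i j => (m i : ℝ) ≤ pass (φ g) (P i) (P j) ∧
    (m j : ℝ) ≤ pass (φ g) (P i) (P j)
  have hlo : ∀ i, 98 * ((P i).card : ℝ) ≤ 100 * (m i : ℝ) := fun i => (hst.pc i).lo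
  have hPpos : ∀ i, (0 : ℝ) < (P i).card := fun i => by
    exact_mod_cast card_pos.2 (hst.pc i).ne
  have hr := fun i => good_sum_left P hdisj (φ g) (P i)
  have hs := fun j => good_sum_right P hdisj (φ g) (P j)
  have hq : ∀ i j, 0 ≤ pass (φ g) (P i) (P j) := fun i j => pass_nonneg _ _ _
  have u1 : ∀ i j j', Bg i j → Bg i j' → j = j' := by
    intro i j j' h h'
    by_contra hne
    have h2 : pass (φ g) (P i) (P j) + pass (φ g) (P i) (P j') ≤ ∑ k, pass (φ g) (P i) (P k) := by
      rw [← sum_pair (f := fun k => pass (φ g) (P i) (P k)) hne]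
      exact sum_le_sum_of_subset_of_nonneg (subset_univ _) fun k _ _ => hq i k
    have h3 := hr i
    have h4 := hlo i
    have h5 := hPpos i
    have h6 := h.1
    have h7 := h'.1
    linarith
  have u2 : ∀ i i' j, Bg i j → Bg i' j → i = i' := by
    intro i i' j h h'
    by_contra hne
    have h2 : pass (φ g) (P i) (P j) + pass (φ g) (P i') (P j) ≤ ∑ k, pass (φ g) (P k) (P j) := by
      rw [← sum_pair (f := fun k => pass (φ g) (P k) (P j)) hne]
      exact sum_le_sum_of_subset_of_nonneg (subset_univ _) fun k _ _ => hq k j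
    have h3 := hs j
    have h4 := hlo j
    have h5 := hPpos j
    have h6 := h.2
    have h7 := h'.2
    linarith
  have hsplit : sumIf (fun z : I × I => Bg z.1 z.2) (fun z => pass (φ g) (P z.1) (P z.2)) +
      sumIf (fun q : I × I => pass (φ g) (P q.1) (P q.2) < m q.1 ∨
        pass (φ g) (P q.1) (P q.2) < m q.2) (fun q => pass (φ g) (P q.1) (P q.2)) =
      ∑ i, ∑ j, pass (φ g) (P i) (P j) := by
    unfold sumIf
    rw [← sum_add_distrib, ← sum_product', univ_product_univ]
    refine sum_congr rfl fun z _ => ?_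
    by_cases h : Bg z.1 z.2
    · rw [if_pos h, if_neg, add_zero]
      rintro (h' | h')
      · exact absurd h.1 (not_le.2 h')
      · exact absurd h.2 (not_le.2 h')
    · rw [if_neg h, if_pos, zero_add]
      by_contra h'
      push Not at h'
      exact h h'
  set x : ℝ := 2 * η + 2 * (2 + (S.card : ℝ)) * η / θ with hx
  have hx1 : (1 - x) * (Fintype.card A : ℝ) ≤
      sumIf (fun z : I × I => Bg z.1 z.2) (fun z => pass (φ g) (P z.1) (P z.2)) := by
    have h2 : sumIf (fun q : I × I => pass (φ g) (P q.1) (P q.2) < m q.1 ∨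
        pass (φ g) (P q.1) (P q.2) < m q.2) (fun q => pass (φ g) (P q.1) (P q.2)) ≤
        2 * (2 + (S.card : ℝ)) * η / θ * (Fintype.card A : ℝ) := by
      rw [div_mul_eq_mul_div, le_div_iff₀ hθ, mul_comm _ θ]
      exact hPM
    rw [hx]
    nlinarith
  have hx2 : 4 * x ≤ ε ^ 2 := by
    have h2 := hpar.ηε
    have h3 := hpar.θ1
    have hK : (0 : ℝ) ≤ S.card := Nat.cast_nonneg _
    have h4 : x * θ ≤ (6 + 2 * (S.card : ℝ)) * η := by
      rw [hx, add_mul, div_mul_cancel₀ _ hθ.ne']
      nlinarith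
    have h5 : 4 * x * θ ≤ ε ^ 2 * θ := by nlinarith
    exact le_of_mul_le_mul_right h5 hθ
  have hcore := good_core (fun i => ((P i).card : ℝ)) (fun i j => pass (φ g) (P i) (P j)) Bg
    (Fintype.card A : ℝ) x ε hpar.ε0 hpar.ε1 (fun i => (hPpos i).le) hq hr hs u1 u2
    (fun i j h => (hlo i).trans (by have := h.1; linarith)) hPa hx1 hx2 hA
  refine le_trans ?_ hcore
  unfold sumIf
  refine sum_le_sum fun i _ => ?_
  by_cases h : ∃ j, Mv φ ε g (P i) (P j)
  · rw [if_neg (not_not.2 h)]
    split_ifs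
    · exact (hPpos i).le
    · exact le_rfl
  · rw [if_pos h, if_pos]
    rintro ⟨j, -, hj⟩
    exact h ⟨j, hj⟩

end SoficAct.Kz
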