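import Pool.Agent.Lib.MP_2d1e68_al.Kz.Spec

/-!
# MP_2d1e68_al, Kz/Grd (helper68)
-/

open Finset Filter

noncomputable section

namespace SoficAct.Kz

private theorem mem_bd {A : Type} (σ : Equiv.Perm A) (Y : Finset A) (a : A) :
    a ∈ bd σ Y ↔ a ∈ Y ∧ σ a ∉ Y := by
  classical
  unfold bd
  rw [mem_filter]

private theorem mem_cell {A : Type} (R : Finset A) (c : A → ℕ) (k : ℕ) (a : A) :
    a ∈ cell R c k ↔ a ∈ R ∧ c a = k := by
  classical
  unfold cell
  rw [mem_filter]

/-- the claim for `R` -/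
private def Cl {N A : Type} (φ : N → Equiv.Perm A) (S T : Finset N) (θ η₁ ε₁ : ℝ)
    (Bd R : Finset A) : Prop :=
  ∃ (n : ℕ) (c : A → ℕ) (m : ℕ → ℕ), (∀ a, c a ≤ n) ∧
      (∀ k, 1 ≤ k → k ≤ n → (cell R c k).Nonempty ∧
        (ε₁ * ((cell R c k).card : ℝ) < olap (cell R c k) Bd ∨
          (99 * (m k : ℝ) ≤ 100 * ((cell R c k).card : ℝ) ∧
            100 * ((cell R c k).card : ℝ) ≤ 101 * (m k : ℝ) ∧
            ∀ Y ⊆ cell R c k, Y.Nonempty → Y.card < m k → θ * (Y.card : ℝ) < bs φ S Y))) ∧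
      (∀ Y ⊆ cell R c 0, Y.Nonempty → θ * (Y.card : ℝ) < bs φ S Y) ∧
      cutc φ T R c ≤ 4 * η₁ * (R.card : ℝ) + 2 * (T.card : ℝ) / ε₁ * olap R Bd

open Classical in
/-- the edges inside `R` with exactly one end in `P` -/
private def cr {N A : Type} (φ : N → Equiv.Perm A) (R P : Finset A) (t : N) : Finset A :=
  R.filter fun a => φ t a ∈ R ∧ ¬ (a ∈ P ↔ φ t a ∈ P)

private theorem mem_cr {N A : Type} (φ : N → Equiv.Perm A) (R P : Finset A) (t : N) (a : A) :
    a ∈ cr φ R P t ↔ a ∈ R ∧ φ t a ∈ R ∧ ¬ (a ∈ P ↔ φ t a ∈ P) := by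
  classical
  unfold cr
  rw [mem_filter]

/-- The step: the set `P` is a new cell. -/
private theorem step {N A : Type} (φ : N → Equiv.Perm A) (S T : Finset N) (θ η₁ ε₁ : ℝ)
    (Bd R R' P : Finset A) (hP : P ⊆ R) (hR' : ∀ a, a ∈ R' ↔ a ∈ R ∧ a ∉ P) (hne : P.Nonempty)
    (m₀ : ℕ) (hcell : ε₁ * (P.card : ℝ) < olap P Bd ∨
          (99 * (m₀ : ℝ) ≤ 100 * (P.card : ℝ) ∧
            100 * (P.card : ℝ) ≤ 101 * (m₀ : ℝ) ∧
            ∀ Y ⊆ P, Y.Nonempty → Y.card < m₀ → θ * (Y.card : ℝ) < bs φ S Y))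
    (hcut : ∑ t ∈ T, ((cr φ R P t).card : ℝ) +
      (4 * η₁ * (R'.card : ℝ) + 2 * (T.card : ℝ) / ε₁ * olap R' Bd) ≤
        4 * η₁ * (R.card : ℝ) + 2 * (T.card : ℝ) / ε₁ * olap R Bd)
    (ih : Cl φ S T θ η₁ ε₁ Bd R') : Cl φ S T θ η₁ ε₁ Bd R := by
  classical
  obtain ⟨n, c, m, hc, h1, h2, h3⟩ := ih
  set c' : A → ℕ := fun a => if a ∈ P then n + 1 else c a with hc'
  have cP : ∀ a ∈ P, c' a = n + 1 := fun a ha => by rw [hc']; simp [ha]
  have cN : ∀ a, a ∉ P → c' a = c a := fun a ha => by rw [hc']; simp [ha]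
  have hk : ∀ k, k ≤ n → cell R c' k = cell R' c k := by
    intro k hk
    ext a
    rw [mem_cell, mem_cell, hR']
    by_cases ha : a ∈ P
    · rw [cP a ha]
      constructor
      · rintro ⟨-, h⟩
        omega
      · rintro ⟨⟨-, h⟩, -⟩
        exact absurd ha h
    · rw [cN a ha]
      tauto
  have hn : cell R c' (n + 1) = P := by
    ext a
    rw [mem_cell]
    by_cases ha : a ∈ P
    · rw [cP a ha]
      exact ⟨fun _ => ha, fun _ => ⟨hP ha, rfl⟩⟩
    · rw [cN a ha]
      have := hc a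
      constructor
      · rintro ⟨-, h⟩
        omega
      · intro h
        exact absurd h ha
  refine ⟨n + 1, c', fun k => if k = n + 1 then m₀ else m k, ?_, ?_, ?_, ?_⟩
  · intro a
    by_cases ha : a ∈ P
    · rw [cP a ha]
    · rw [cN a ha]
      have := hc a
      omega
  · intro k hk1 hk2
    rcases Nat.lt_or_ge n k with hkn | hkn
    · obtain rfl : k = n + 1 := by omega
      rw [hn]
      dsimp only
      rw [if_pos rfl]
      exact ⟨hne, hcell⟩
    · rw [hk k hkn]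
      dsimp only
      rw [if_neg (by omega)]
      exact h1 k hk1 hkn
  · rw [hk 0 (Nat.zero_le _)]
    exact h2
  · refine le_trans ?_ hcut
    refine le_trans ?_ (add_le_add le_rfl h3)
    unfold cutc
    rw [← sum_add_distrib]
    refine sum_le_sum fun t _ => ?_
    have : R.filter (fun a => φ t a ∈ R ∧ c' a ≠ c' (φ t a)) ⊆
        cr φ R P t ∪ R'.filter (fun a => φ t a ∈ R' ∧ c a ≠ c (φ t a)) := by
      intro a ha
      rw [mem_filter] at ha
      obtain ⟨ha1, ha2, ha3⟩ := ha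
      rw [mem_union, mem_filter, mem_cr, hR', hR']
      by_cases b1 : a ∈ P
      · by_cases b2 : φ t a ∈ P
        · rw [cP a b1, cP _ b2] at ha3
          exact absurd rfl ha3
        · exact Or.inl ⟨ha1, ha2, by tauto⟩
      · by_cases b2 : φ t a ∈ P
        · exact Or.inl ⟨ha1, ha2, by tauto⟩
        · rw [cN a b1, cN _ b2] at ha3
          exact Or.inr ⟨⟨ha1, b1⟩, ⟨ha2, b2⟩, ha3⟩
    have h4 := (card_le_card this).trans (card_union_le _ _)
    exact_mod_cast h4

private theorem cutc_zero {N A : Type} (φ : N → Equiv.Perm A) (T : Finset N) (R : Finset A) :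
    cutc φ T R (fun _ => 0) = 0 := by
  classical
  unfold cutc
  apply sum_eq_zero
  intro t _
  rw [filter_false_of_mem]
  · simp
  · intro a _ h
    exact h.2 rfl

theorem grd : S_Grd := by
  classical
  intro N A _ φ S T θ η₁ ε₁ Bd hST hθ hη hε himp R
  change Cl φ S T θ η₁ ε₁ Bd R
  induction R using Finset.strongInduction with
  | H R ih =>
  by_cases hex : ∃ Y ⊆ R, Y.Nonempty ∧ bs φ S Y ≤ θ * (Y.card : ℝ)
  swap
  · -- no such set
    push Not at hex
    refine ⟨0, fun _ => 0, fun _ => 0, fun _ => le_rfl, ?_, ?_, ?_⟩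
    · intro k h1 h2
      omega
    · intro Y hY hne
      exact hex Y (fun a ha => ((mem_cell _ _ _ _).1 (hY ha)).1) hne
    · rw [cutc_zero]
      have := olap_nonneg R Bd
      positivity
  -- a minimal one
  obtain ⟨M, hM, hmin⟩ : ∃ M ∈ R.powerset.filter (fun Y : Finset A => Y.Nonempty ∧ bs φ S Y ≤ θ * (Y.card : ℝ)),
      ∀ Y ∈ R.powerset.filter (fun Y : Finset A => Y.Nonempty ∧ bs φ S Y ≤ θ * (Y.card : ℝ)),
        M.card ≤ Y.card := by
    apply exists_min_image
    obtain ⟨Y, hY, h1, h2⟩ := hex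
    exact ⟨Y, mem_filter.2 ⟨mem_powerset.2 hY, h1, h2⟩⟩
  rw [mem_filter, mem_powerset] at hM
  obtain ⟨hMR, hMne, hMb⟩ := hM
  have hmin' : ∀ Y ⊆ R, Y.Nonempty → Y.card < M.card → θ * (Y.card : ℝ) < bs φ S Y := by
    intro Y hY hne hlt
    by_contra hcon
    have := hmin Y (mem_filter.2 ⟨mem_powerset.2 hY, hne, not_lt.1 hcon⟩)
    omega
  have hMpos : (0 : ℝ) < M.card := by exact_mod_cast hMne.card_pos
  have hT0 : (0 : ℝ) ≤ T.card := Nat.cast_nonneg _
  have hssub : ∀ P : Finset A, P ⊆ R → P.Nonempty → R \ P ⊂ R := by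
    intro P hP hne
    refine ⟨sdiff_subset, fun hcon => ?_⟩
    obtain ⟨a, ha⟩ := hne
    exact (mem_sdiff.1 (hcon (hP ha))).2 ha
  have hcardR : ∀ P : Finset A, P ⊆ R → (P.card : ℝ) + ((R \ P).card : ℝ) = R.card := by
    intro P hP
    have := card_sdiff_add_card_eq_card hP
    exact_mod_cast (show P.card + (R \ P).card = R.card by omega)
  have holap : ∀ P : Finset A, P ⊆ R → olap P Bd + olap (R \ P) Bd = olap R Bd := by
    intro P hP
    unfold olap
    have h4 : R.filter (fun a => a ∈ Bd) = P.filter (fun a => a ∈ Bd) ∪ (R \ P).filter (fun a => a ∈ Bd) := by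
      ext a
      rw [Finset.mem_filter, Finset.mem_union, Finset.mem_filter, Finset.mem_filter, Finset.mem_sdiff]
      constructor
      · rintro ⟨h1, h2⟩
        by_cases h3 : a ∈ P
        · exact Or.inl ⟨h3, h2⟩
        · exact Or.inr ⟨⟨h1, h3⟩, h2⟩
      · rintro (⟨h1, h2⟩ | ⟨⟨h1, -⟩, h2⟩)
        · exact ⟨hP h1, h2⟩
        · exact ⟨h1, h2⟩
    have h5 : Disjoint (P.filter (fun a => a ∈ Bd)) ((R \ P).filter (fun a => a ∈ Bd)) := by
      rw [disjoint_left]
      intro a h1 h2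
      exact (mem_sdiff.1 (mem_filter.1 h2).1).2 (mem_filter.1 h1).1
    rw [h4, card_union_of_disjoint h5]
    push_cast
    rfl
  rcases lt_or_ge (ε₁ * (M.card : ℝ)) (olap M Bd) with hcase | hcase
  · -- Case 1
    refine step φ S T θ η₁ ε₁ Bd R (R \ M) M hMR (fun a => mem_sdiff) hMne 0 (Or.inl hcase) ?_
      (ih _ (hssub M hMR hMne))
    have c1 : ∀ t ∈ T, ((cr φ R M t).card : ℝ) ≤ 2 * (M.card : ℝ) := by
      intro t _
      have : cr φ R M t ⊆ M ∪ M.image (φ t).symm := by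
        intro a ha
        rw [mem_cr] at ha
        rw [mem_union, mem_image]
        by_cases h : a ∈ M
        · exact Or.inl h
        · refine Or.inr ⟨φ t a, ?_, by simp⟩
          tauto
      have h4 := (card_le_card this).trans (card_union_le _ _)
      rw [card_image_of_injective _ (φ t).symm.injective] at h4
      have h5 : (cr φ R M t).card ≤ 2 * M.card := by omega
      exact_mod_cast h5
    have c2 : ∑ t ∈ T, ((cr φ R M t).card : ℝ) ≤ (T.card : ℝ) * (2 * (M.card : ℝ)) := by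
      have := sum_le_sum c1
      rwa [sum_const, nsmul_eq_mul] at this
    have c3 : (T.card : ℝ) * (2 * (M.card : ℝ)) ≤ 2 * (T.card : ℝ) / ε₁ * olap M Bd := by
      have e1 : 2 * (T.card : ℝ) / ε₁ * (ε₁ * (M.card : ℝ)) = (T.card : ℝ) * (2 * (M.card : ℝ)) := by
        field_simp
      rw [← e1]
      exact mul_le_mul_of_nonneg_left hcase.le (by positivity)
    have c4 := holap M hMR
    have c5 := hcardR M hMR
    rw [← c4, ← c5]
    have : 0 ≤ 4 * η₁ * (M.card : ℝ) := by positivity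
    linarith
  · -- Case 2
    obtain ⟨M', d1, d2, d3⟩ := himp M hMne hMb hcase
    have hPsub : M' ∩ R ⊆ R := inter_subset_right
    have o1 := olap_add_dif M M'
    have o2 := olap_add_dif M' M
    have p1 : 99 * (M.card : ℝ) ≤ 100 * ((M' ∩ R).card : ℝ) := by
      have h4 : olap M M' ≤ ((M' ∩ R).card : ℝ) := by
        unfold olap
        have : M.filter (fun a => a ∈ M') ⊆ M' ∩ R := by
          intro a ha
          rw [mem_filter] at ha
          exact mem_inter.2 ⟨ha.2, hMR ha.1⟩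
        have h5 := card_le_card this
        refine le_trans (le_of_eq ?_) (Nat.cast_le.2 h5)
        congr 2
      linarith
    have p2 : 100 * ((M' ∩ R).card : ℝ) ≤ 101 * (M.card : ℝ) := by
      have h4 : ((M' ∩ R).card : ℝ) ≤ M'.card := by exact_mod_cast card_le_card inter_subset_left
      have h5 := olap_le_right M' M
      linarith
    have hPne : (M' ∩ R).Nonempty := by
      rw [← card_pos]
      have : (0 : ℝ) < ((M' ∩ R).card : ℝ) := by linarith
      exact_mod_cast this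
    refine step φ S T θ η₁ ε₁ Bd R (R \ (M' ∩ R)) (M' ∩ R) hPsub (fun a => mem_sdiff) hPne M.card
      (Or.inr ⟨p1, p2, fun Y hY hne hlt => hmin' Y (hY.trans hPsub) hne hlt⟩) ?_
      (ih _ (hssub _ hPsub hPne))
    have c1 : ∀ t ∈ T, ((cr φ R (M' ∩ R) t).card : ℝ) ≤ 2 * ((bd (φ t) M').card : ℝ) := by
      intro t _
      have : cr φ R (M' ∩ R) t ⊆ bd (φ t) M' ∪ (bd (φ t)⁻¹ M').image (φ t).symm := by
        intro a ha
        rw [mem_cr, mem_inter, mem_inter] at ha
        obtain ⟨ha1, ha2, ha3⟩ := ha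
        rw [mem_union, mem_image]
        by_cases h : a ∈ M'
        · refine Or.inl ((mem_bd _ _ _).2 ⟨h, ?_⟩)
          tauto
        · refine Or.inr ⟨φ t a, (mem_bd _ _ _).2 ⟨?_, ?_⟩, by simp⟩
          · tauto
          · simpa using h
      have h4 := (card_le_card this).trans (card_union_le _ _)
      rw [card_image_of_injective _ (φ t).symm.injective, card_bd_inv] at h4
      have h5 : (cr φ R (M' ∩ R) t).card ≤ 2 * (bd (φ t) M').card := by omega
      exact_mod_cast h5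
    have c2 : ∑ t ∈ T, ((cr φ R (M' ∩ R) t).card : ℝ) ≤ 2 * bs φ T M' := by
      have := sum_le_sum c1
      rwa [← mul_sum] at this
    have c4 := holap _ hPsub
    have c5 := hcardR _ hPsub
    have c6 := olap_nonneg (M' ∩ R) Bd
    have c7 : 2 * (T.card : ℝ) / ε₁ * olap (R \ (M' ∩ R)) Bd ≤ 2 * (T.card : ℝ) / ε₁ * olap R Bd :=
      mul_le_mul_of_nonneg_left (by linarith) (by positivity)
    have c8 : η₁ * (M.card : ℝ) ≤ η₁ * (2 * ((M' ∩ R).card : ℝ)) :=
      mul_le_mul_of_nonneg_left (by linarith) hη.le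
    rw [← c5]
    linarith

end SoficAct.Kz
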