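import Pool.Agent.Lib.MP_2d1e68_al.Kz.Spec

/-!
# Kz/Half: elements of `H` which move `X` move about half of the points
-/

set_option autoImplicit false

open Finset Filter Topology

noncomputable section

namespace SoficAct.Kz

private lemma half_compl {A : Type} [Fintype A] [Nonempty A] (P : A → Prop) :
    frac (fun a => ¬ P a) = 1 - frac P := by
  classical
  have hc : (0 : ℝ) < Fintype.card A := by exact_mod_cast Fintype.card_pos
  rw [frac_eq, frac_eq, eq_sub_iff_add_eq, ← add_div, div_eq_one_iff_eq hc.ne']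
  have h := card_filter_add_card_filter_not (s := (univ : Finset A)) P
  rw [card_univ] at h
  have h2 : ((univ.filter P).card : ℝ) + ((univ.filter (fun a => ¬ P a)).card : ℝ)
      = Fintype.card A := by exact_mod_cast h
  linarith

private lemma half_inter {A : Type} [Fintype A] [Nonempty A] (P Q : A → Prop) :
    frac P + frac Q ≤ 1 + frac (fun a => P a ∧ Q a) := by
  have h1 := half_compl P
  have h2 := half_compl Q
  have h3 := half_compl (fun a => P a ∧ Q a)
  have h4 : frac (fun a => ¬ (P a ∧ Q a)) ≤ frac (fun a => ¬ P a) + frac (fun a => ¬ Q a) := by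
    refine (frac_mono fun a ha => ?_).trans (frac_or (fun a => ¬ P a) (fun a => ¬ Q a))
    exact not_and_or.1 ha
  linarith

theorem half (h1 : S_Core) (h2 : S_TEq) : S_Half := by
  classical
  intro G H X _ _ α N hG hN hα hT hsof F ε hε
  obtain ⟨g₀, hg₀⟩ := hG
  let inrW : H →* GenWreath G α := SemidirectProduct.inr
  let π : GenWreath G α →* GenWreath G α :=
    (SemidirectProduct.inr : H →* GenWreath G α).comp SemidirectProduct.rightHom
  have hπinr : ∀ h : H, π (SemidirectProduct.inr h) = SemidirectProduct.inr h := fun h => rfl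
  have hπinl : ∀ c : DirectSum G X, π (SemidirectProduct.inl c) = 1 := fun c => rfl
  have hT' : PropertyT (N.map inrW) :=
    h2 N (N.map inrW) (N.equivMapOfInjective inrW SemidirectProduct.inr_injective) hT
  have hfix : ∀ n ∈ N.map inrW, π n = n := by
    rintro _ ⟨n, _, rfl⟩
    exact hπinr n
  -- elements acting trivially on `X` commute with the lamps
  have hcomm : ∀ m : H, α m = 1 → ∀ ω : DirectSum G X,
      (SemidirectProduct.inr m : GenWreath G α) * SemidirectProduct.inl ω =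
        SemidirectProduct.inl ω * SemidirectProduct.inr m := by
    intro m hm ω
    have e1 := SemidirectProduct.inl_aut (φ := shiftHom G α) m ω
    have e2 : shiftHom G α m ω = ω := by
      apply Subtype.ext
      funext y
      change ω.1 ((α m)⁻¹ y) = ω.1 y
      rw [hm]
      rfl
    rw [e2] at e1
    rw [map_inv] at e1
    exact (mul_inv_eq_iff_eq_mul.1 e1.symm)
  have hconj : ∀ w : GenWreath G α, ∀ n ∈ N.map inrW, w * n * w⁻¹ = π w * n * (π w)⁻¹ := by
    rintro w _ ⟨n, hn, rfl⟩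
    have ew : w = SemidirectProduct.inl w.left * SemidirectProduct.inr w.right :=
      (SemidirectProduct.inl_left_mul_inr_right w).symm
    have eπ : π w = SemidirectProduct.inr w.right := rfl
    have em : α (w.right * n * w.right⁻¹) = 1 := by
      rw [map_mul, map_mul, hα n hn, mul_one, ← map_mul, mul_inv_cancel, map_one]
    have e3 := hcomm _ em w.left
    rw [map_mul, map_mul, map_inv] at e3
    rw [eπ]
    have e4 : w * inrW n * w⁻¹ = SemidirectProduct.inl w.left *
        (SemidirectProduct.inr w.right * SemidirectProduct.inr n *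
          (SemidirectProduct.inr w.right)⁻¹) * (SemidirectProduct.inl w.left)⁻¹ := by
      conv_lhs => rw [ew]
      show _ * SemidirectProduct.inr n * _ = _
      group
    rw [e4, ← e3, mul_inv_cancel_right]
  have hnorm : (N.map inrW).Normal := by
    refine ⟨fun n hn w => ?_⟩
    rw [hconj w n hn]
    obtain ⟨m, hm, rfl⟩ := hn
    refine ⟨w.right * m * w.right⁻¹, hN.conj_mem m hm w.right, ?_⟩
    rw [map_mul, map_mul, map_inv]
    rfl
  -- the auxiliary elements
  have hD : ∀ h : H, ∃ D : Finset (GenWreath G α), α h ≠ 1 → ∃ x : X, α h x ≠ x ∧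
      SemidirectProduct.inr h ∈ D ∧ lamp α g₀ x ∈ D ∧ lamp α g₀ (α h x) ∈ D ∧
      (lamp α g₀ x)⁻¹ ∈ D ∧ (lamp α g₀ x)⁻¹ * lamp α g₀ (α h x) ∈ D := by
    intro h
    by_cases hh : α h = 1
    · exact ⟨∅, fun h' => absurd hh h'⟩
    · have hx : ∃ x, α h x ≠ x := by
        by_contra hcon
        push Not at hcon
        exact hh (Equiv.ext hcon)
      obtain ⟨x, hx⟩ := hx
      refine ⟨{SemidirectProduct.inr h, lamp α g₀ x, lamp α g₀ (α h x), (lamp α g₀ x)⁻¹,
        (lamp α g₀ x)⁻¹ * lamp α g₀ (α h x)}, fun _ => ⟨x, hx, ?_, ?_, ?_, ?_, ?_⟩⟩ <;>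
        simp only [mem_insert, mem_singleton, true_or, or_true]
  choose D hD using hD
  obtain ⟨B, fB, nB, ψ, k1, k2, k3, k4⟩ := h1 (GenWreath G α) (N.map inrW) π hnorm hsof hT' hfix
    hconj (F ∪ (F.image (fun w => w.right)).biUnion D) (ε / 5) (by linarith)
  refine ⟨B, fB, nB, ψ, k1, ?_, ?_, ?_, ?_⟩
  · intro g hg h hh
    exact (k2 g (mem_union_left _ hg) h (mem_union_left _ hh)).trans (by linarith)
  · intro n hn hnF
    exact (k3 _ (mem_union_left _ hnF) ⟨n, hn, rfl⟩).trans (by linarith)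
  · intro c hc hcF
    refine (k4 _ (mem_union_left _ hcF) (hπinl c) ?_).trans (by linarith)
    intro h
    exact hc (SemidirectProduct.inl_injective (h.trans (map_one _).symm))
  · intro h hh hhF
    obtain ⟨x, hx, m1, m2, m3, m4, m5⟩ := hD h hh
    have hsub : ∀ w, w ∈ D h → w ∈ F ∪ (F.image (fun w => w.right)).biUnion D := by
      intro w hw
      refine mem_union_right _ (mem_biUnion.2 ⟨h, mem_image.2 ⟨_, hhF, rfl⟩, hw⟩)
    have hconj2 := lamp_conj α g₀ h x
    obtain ⟨d, hd⟩ : ∃ d, d = lamp α g₀ x := ⟨_, rfl⟩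
    obtain ⟨d', hd'⟩ : ∃ d', d' = lamp α g₀ (α h x) := ⟨_, rfl⟩
    have hne : d⁻¹ * d' ≠ 1 := by
      intro h'
      rw [inv_mul_eq_one, hd, hd'] at h'
      exact hx (lamp_injective α g₀ hg₀ h').symm
    have hπc : π (d⁻¹ * d') = 1 := by
      rw [map_mul, map_inv, hd, hd']
      have e1 : π (lamp α g₀ x) = 1 := rfl
      have e2 : π (lamp α g₀ (α h x)) = 1 := rfl
      rw [e1, e2, inv_one, one_mul]
    rw [← hd, ← hd'] at hconj2
    rw [← hd] at m2 m4
    rw [← hd'] at m3
    rw [← hd, ← hd'] at m5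
    have f1 := k2 _ (hsub _ m1) _ (hsub _ m2)
    have f2 := k2 _ (hsub _ m3) _ (hsub _ m1)
    have f3 := k2 _ (hsub _ m4) _ (hsub _ m3)
    have f4 := k2 _ (hsub _ m4) _ (hsub _ m2)
    have f5 := k4 _ (hsub _ m5) hπc hne
    have f6 := half_inter (fun b => ψ (SemidirectProduct.inr h) b = b)
      (fun b => ψ (SemidirectProduct.inr h) (ψ d b) = ψ d b)
    have f7 : frac (fun b => ψ (SemidirectProduct.inr h) (ψ d b) = ψ d b) =
        frac (fun b => ψ (SemidirectProduct.inr h) b = b) :=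
      frac_perm (fun b => ψ (SemidirectProduct.inr h) b = b) (ψ d)
    have f8 : frac (fun b => ψ (SemidirectProduct.inr h) b = b ∧
        ψ (SemidirectProduct.inr h) (ψ d b) = ψ d b) ≤ ε := by
      have hle : ∀ b, (ψ (SemidirectProduct.inr h) b = b ∧
          ψ (SemidirectProduct.inr h) (ψ d b) = ψ d b) →
          (ψ (SemidirectProduct.inr h * d) b ≠ ψ (SemidirectProduct.inr h) (ψ d b)) ∨
          ((ψ (d' * SemidirectProduct.inr h) b ≠ ψ d' (ψ (SemidirectProduct.inr h) b)) ∨
          ((ψ (d⁻¹ * d') b ≠ ψ d⁻¹ (ψ d' b)) ∨ ((ψ (d⁻¹ * d) b ≠ ψ d⁻¹ (ψ d b)) ∨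
          ψ (d⁻¹ * d') b = b))) := by
        rintro b ⟨z1, z2⟩
        by_contra hcon
        push Not at hcon
        obtain ⟨c1, c2, c3, c4, c5⟩ := hcon
        apply c5
        rw [hconj2, z1] at c2
        have e : ψ d' b = ψ d b := c2.symm.trans (c1.trans z2)
        rw [c3, e, ← c4, inv_mul_cancel, k1]
        rfl
      refine (frac_mono hle).trans ?_
      have g1 := frac_or
        (fun b => ψ (SemidirectProduct.inr h * d) b ≠ ψ (SemidirectProduct.inr h) (ψ d b))
        (fun b => (ψ (d' * SemidirectProduct.inr h) b ≠ ψ d' (ψ (SemidirectProduct.inr h) b)) ∨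
          ((ψ (d⁻¹ * d') b ≠ ψ d⁻¹ (ψ d' b)) ∨ ((ψ (d⁻¹ * d) b ≠ ψ d⁻¹ (ψ d b)) ∨
          ψ (d⁻¹ * d') b = b)))
      have g2 := frac_or
        (fun b => ψ (d' * SemidirectProduct.inr h) b ≠ ψ d' (ψ (SemidirectProduct.inr h) b))
        (fun b => (ψ (d⁻¹ * d') b ≠ ψ d⁻¹ (ψ d' b)) ∨ ((ψ (d⁻¹ * d) b ≠ ψ d⁻¹ (ψ d b)) ∨
          ψ (d⁻¹ * d') b = b))
      have g3 := frac_or (fun b => ψ (d⁻¹ * d') b ≠ ψ d⁻¹ (ψ d' b))
        (fun b => (ψ (d⁻¹ * d) b ≠ ψ d⁻¹ (ψ d b)) ∨ ψ (d⁻¹ * d') b = b)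
      have g4 := frac_or (fun b => ψ (d⁻¹ * d) b ≠ ψ d⁻¹ (ψ d b))
        (fun b => ψ (d⁻¹ * d') b = b)
      linarith
    rw [f7] at f6
    linarith

end SoficAct.Kz
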