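import Pool.Agent.Lib.MP_2d1e68_al.Kz.Spec

/-!
# Injectivity of the action on the representatives
-/

open Finset Filter Topology

noncomputable section

namespace SoficAct.Kz

private lemma sz5 (h1 : S_Sz) {Γ : Type} [Group Γ] {S T D : Finset Γ} {θ η : ℝ} {A I E : Type}
    [Fintype A] [Fintype I] {φ : Γ → Equiv.Perm A} {P : I → Finset A} {m : I → ℕ}
    {Bd : Finset A} {src tgt : E → I} {γ : E → Finset (A × A)} (hθ : 0 < θ)
    (st : Stage S T D θ η φ P m Bd) (sk : Skel S T θ φ P src tgt γ) (e : E) :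
    0 < ((γ e).card : ℝ) ∧ ((γ e).card : ℝ) ≤ (P (src e)).card ∧
      ((γ e).card : ℝ) ≤ (P (tgt e)).card ∧
      98 * ((P (src e)).card : ℝ) ≤ 100 * ((γ e).card : ℝ) ∧
      98 * ((P (tgt e)).card : ℝ) ≤ 100 * ((γ e).card : ℝ) := by
  have hm := sk.mor e
  obtain ⟨a1, a2, a3, a4⟩ := h1 Γ A φ S T θ η (θ / 64) (P (src e)) (P (tgt e)) (m (src e))
    (m (tgt e)) (γ e) hθ (by linarith) (st.pc _) (st.pc _) (hm.mono st.ST le_rfl)
  have b1 := (st.pc (src e)).lo
  have b2 := (st.pc (tgt e)).lo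
  have b3 : 0 < (γ e).card := card_pos.2 hm.ne
  exact ⟨by exact_mod_cast b3, a3, a4, by linarith, by linarith⟩

private lemma olap_eq {A : Type} (Y Z : Finset A) [DecidablePred (fun a => a ∈ Z)] :
    olap Y Z = ((Y.filter (fun a => a ∈ Z)).card : ℝ) := by
  unfold olap
  congr

private lemma pass2_eq {N A : Type} (φ : N → Equiv.Perm A) (g w : N) (γ γ' : Finset (A × A))
    [DecidablePred (fun p : A × A => (φ g p.1, φ w p.2) ∈ γ')] :
    pass2 φ g w γ γ' = ((γ.filter (fun p => (φ g p.1, φ w p.2) ∈ γ')).card : ℝ) := by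
  unfold pass2
  congr

private lemma pass_disj' {A : Type} (σ : Equiv.Perm A) (P Q R : Finset A)
    (h : ∀ a, a ∈ P → a ∉ Q) : pass σ P R + pass σ Q R ≤ (R.card : ℝ) := by
  classical
  have h1 : Disjoint (P.filter (fun a => σ a ∈ R)) (Q.filter (fun a => σ a ∈ R)) := by
    rw [Finset.disjoint_left]
    intro a ha hb
    rw [mem_filter] at ha hb
    exact h _ ha.1 hb.1
  have h2 := card_union_of_disjoint h1
  have h3 : (P.filter (fun a => σ a ∈ R) ∪ Q.filter (fun a => σ a ∈ R)).card ≤ R.card := by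
    apply card_le_card_of_injOn (fun a => σ a)
    · intro a ha
      rw [mem_coe, mem_union, mem_filter, mem_filter] at ha
      rw [mem_coe]
      tauto
    · intro a _ b _ hab
      exact σ.injective hab
  rw [h2] at h3
  unfold pass
  exact_mod_cast h3

private lemma pass2_inter' {N A : Type} (φ : N → Equiv.Perm A) (g w : N)
    (γ₁ γ₂ γ' : Finset (A × A)) :
    pass2 φ g w γ₁ γ' + pass2 φ g w γ₂ γ' ≤ (γ'.card : ℝ) + olap γ₁ γ₂ := by
  classical
  rw [pass2_eq, pass2_eq, olap_eq]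
  have e1 : (γ₁.filter (fun p => (φ g p.1, φ w p.2) ∈ γ') ∪
      γ₂.filter (fun p => (φ g p.1, φ w p.2) ∈ γ')).card ≤ γ'.card := by
    apply card_le_card_of_injOn (fun p => (φ g p.1, φ w p.2))
    · intro p hp
      rw [mem_coe, mem_union, mem_filter, mem_filter] at hp
      rw [mem_coe]
      tauto
    · intro p _ q _ h
      rw [Prod.mk.injEq] at h
      exact Prod.ext ((φ g).injective h.1) ((φ w).injective h.2)
  have e2 : γ₁.filter (fun p => (φ g p.1, φ w p.2) ∈ γ') ∩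
      γ₂.filter (fun p => (φ g p.1, φ w p.2) ∈ γ') ⊆ γ₁.filter (fun a => a ∈ γ₂) := by
    intro p hp
    rw [mem_inter, mem_filter, mem_filter] at hp
    rw [mem_filter]
    exact ⟨hp.1.1, hp.2.1⟩
  have e3 := card_union_add_card_inter (γ₁.filter (fun p => (φ g p.1, φ w p.2) ∈ γ'))
    (γ₂.filter (fun p => (φ g p.1, φ w p.2) ∈ γ'))
  have e4 := card_le_card e2
  exact_mod_cast (show (γ₁.filter (fun p => (φ g p.1, φ w p.2) ∈ γ')).card +
    (γ₂.filter (fun p => (φ g p.1, φ w p.2) ∈ γ')).card ≤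
    γ'.card + (γ₁.filter (fun a => a ∈ γ₂)).card by omega)

theorem injj (h1 : S_Sz) : S_Inj := by
  intro Γ _ S T D θ η ε A I E _ _ _ φ P m Bd src tgt γ g w e₁ e₂ e' par st sk h2 h3
  have hθ := par.θ0
  have hε0 := par.ε0
  have hε1 := par.ε1
  obtain ⟨c1, c2, c3, c4, c5⟩ := sz5 h1 hθ st sk e₁
  obtain ⟨b1, b2, b3, b4, b5⟩ := sz5 h1 hθ st sk e₂
  obtain ⟨d1, d2, d3, d4, d5⟩ := sz5 h1 hθ st sk e'
  obtain ⟨⟨x1, x2⟩, ⟨x3, x4⟩, x5⟩ := h2
  obtain ⟨⟨y1, y2⟩, ⟨y3, y4⟩, y5⟩ := h3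
  apply sk.uni
  have z := pass2_inter' φ g w (γ e₁) (γ e₂) (γ e')
  have z2 := pass_le_left (φ g) (P (src e₁)) (P (src e'))
  have z4 := pass_le_left (φ g) (P (src e₂)) (P (src e'))
  unfold Sim
  have z3 : (1 - 1 / 100) * ((P (src e')).card : ℝ) ≤ (1 - ε) * ((P (src e')).card : ℝ) :=
    mul_le_mul_of_nonneg_right (by linarith) (Nat.cast_nonneg _)
  linarith

end SoficAct.Kz
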