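import Pool.Agent.Lib.MP_2d1e68_al.Kz.Spec

open Finset Filter Topology

noncomputable section

namespace SoficAct.Kz

private theorem sofic_inj {G K : Type} [Group G] [Group K] (f : K →* G)
    (hf : Function.Injective f) (hG : IsSoficGroup G) : IsSoficGroup K := by
  classical
  intro F ε hε
  obtain ⟨A, iA, hA, φ, h1, h2, h3⟩ := hG (F.image f) ε hε
  refine ⟨A, iA, hA, fun k => φ (f k), ?_, ?_, ?_⟩
  · change φ (f 1) = 1
    rw [map_one]
    exact h1
  · intro g hg h hh
    have := h2 _ (mem_image_of_mem f hg) _ (mem_image_of_mem f hh)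
    rw [← map_mul] at this
    exact this
  · intro g hg hg1
    exact h3 _ (mem_image_of_mem f hg) (fun h => hg1 (hf (by rw [h, map_one])))

theorem iso : S_Iso := by
  intro G H X _ _ α R _ hR hS
  set R₀ : Subgroup H := R.comap (SemidirectProduct.inr : H →* GenWreath G α) with hR₀
  have hmem : ∀ h : H, h ∈ R₀ ↔ (SemidirectProduct.inr h : GenWreath G α) ∈ R := fun h => Iff.rfl
  have hker : R₀ ≤ α.ker := by
    intro h hh
    obtain ⟨h', e1, e2⟩ := hR _ ((hmem h).1 hh)
    rw [SemidirectProduct.inr_injective e1]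
    exact e2
  have hN : R₀.Normal := by
    rw [hR₀]
    infer_instance
  refine ⟨R₀, hN, hker, hmem, ?_⟩
  set f₁ : DirectSum G X →* GenWreath G α ⧸ R := (QuotientGroup.mk' R).comp SemidirectProduct.inl with hf₁
  set f₂ : H ⧸ R₀ →* GenWreath G α ⧸ R :=
    QuotientGroup.lift R₀ ((QuotientGroup.mk' R).comp SemidirectProduct.inr) (by
      intro h hh
      exact (QuotientGroup.eq_one_iff _).2 ((hmem h).1 hh)) with hf₂
  have hcomp : ∀ q : H ⧸ R₀, f₁.comp ((shiftHom G (QuotientGroup.lift R₀ α hker)) q).toMonoidHom =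
      (MulAut.conj (f₂ q)).toMonoidHom.comp f₁ := by
    intro q
    induction q using QuotientGroup.induction_on with
    | H h =>
      apply MonoidHom.ext
      intro f
      have e1 : (shiftHom G (QuotientGroup.lift R₀ α hker)) (QuotientGroup.mk h) f = shiftHom G α h f := by
        apply Subtype.ext
        funext x
        rfl
      change (QuotientGroup.mk (SemidirectProduct.inl
        ((shiftHom G (QuotientGroup.lift R₀ α hker)) (QuotientGroup.mk h) f)) : GenWreath G α ⧸ R) =
        (QuotientGroup.mk (SemidirectProduct.inr h) * QuotientGroup.mk (SemidirectProduct.inl f) *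
          (QuotientGroup.mk (SemidirectProduct.inr h))⁻¹ : GenWreath G α ⧸ R)
      rw [e1, SemidirectProduct.inl_aut, QuotientGroup.mk_mul, QuotientGroup.mk_mul, map_inv,
        QuotientGroup.mk_inv]
  set Φ := SemidirectProduct.lift f₁ f₂ hcomp with hΦ
  refine sofic_inj Φ ?_ hS
  rw [injective_iff_map_eq_one]
  intro w hw
  obtain ⟨h, hh⟩ := QuotientGroup.mk_surjective w.right
  have e1 : Φ w = QuotientGroup.mk (SemidirectProduct.inl w.left * SemidirectProduct.inr h) := by
    change f₁ w.left * f₂ w.right = _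
    rw [← hh]
    rfl
  rw [e1] at hw
  have e2 := (QuotientGroup.eq_one_iff _).1 hw
  obtain ⟨h', e3, e4⟩ := hR _ e2
  have e5 : w.left = 1 := by
    have := congrArg SemidirectProduct.left e3
    simpa using this
  have e6 : h ∈ R₀ := by
    rw [hmem]
    rw [e5, map_one, one_mul] at e2
    exact e2
  have e7 : w.right = 1 := by
    rw [← hh]
    exact (QuotientGroup.eq_one_iff h).2 e6
  exact SemidirectProduct.ext e5 e7

end SoficAct.Kz
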