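import Pool.Agent.Lib.MP_2d1e68_al.Kz.Spec

open Finset Filter Topology MeasureTheory

noncomputable section

namespace SoficAct.Kz

open Classical in
/-- the level set -/
private def Mr {A : Type} [Fintype A] (v : A → ℝ) (r : ℝ) : Finset A := univ.filter fun a => r < v a ^ 2

private theorem card_bd_level {A : Type} [Fintype A] (v : A → ℝ) (σ : Equiv.Perm A) (r : ℝ) :
    ((bd σ (Mr v r)).card : ℝ) =
      ∑ a, Set.indicator (Set.Ico (v (σ a) ^ 2) (v a ^ 2)) (fun _ => (1 : ℝ)) r := by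
  classical
  have h1 : bd σ (Mr v r) = univ.filter fun a => v (σ a) ^ 2 ≤ r ∧ r < v a ^ 2 := by
    ext a
    unfold bd Mr
    simp only [mem_filter, mem_univ, true_and, not_lt]
    tauto
  rw [h1, Finset.card_filter, Nat.cast_sum]
  refine Finset.sum_congr rfl fun a _ => ?_
  by_cases h : v (σ a) ^ 2 ≤ r ∧ r < v a ^ 2
  · rw [if_pos h, Set.indicator_of_mem (Set.mem_Ico.2 h), Nat.cast_one]
  · rw [if_neg h, Set.indicator_of_notMem (fun h' => h (Set.mem_Ico.1 h')), Nat.cast_zero]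

private theorem int_ind (x y : ℝ) :
    Integrable (Set.indicator (Set.Ico y x) fun _ => (1 : ℝ)) volume := by
  rw [integrable_indicator_iff measurableSet_Ico]
  exact integrableOn_const (by simp)

private theorem int_ind_le (s : Set ℝ) (x y : ℝ) :
    ∫ r in s, Set.indicator (Set.Ico y x) (fun _ => (1 : ℝ)) r ≤ |x - y| := by
  calc ∫ r in s, Set.indicator (Set.Ico y x) (fun _ => (1 : ℝ)) r
      ≤ ∫ r, Set.indicator (Set.Ico y x) (fun _ => (1 : ℝ)) r := by
        refine setIntegral_le_integral (int_ind x y) (Eventually.of_forall fun r => ?_)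
        exact Set.indicator_nonneg (fun _ _ => zero_le_one) r
    _ = volume.real (Set.Ico y x) := by
        rw [integral_indicator measurableSet_Ico, setIntegral_const, smul_eq_mul, mul_one]
    _ ≤ |x - y| := by
        rw [Measure.real, Real.volume_Ico]
        by_cases h : 0 ≤ x - y
        · rw [ENNReal.toReal_ofReal h]
          exact le_abs_self _
        · rw [ENNReal.ofReal_of_nonpos (by linarith)]
          exact abs_nonneg _

private theorem cs {A : Type} [Fintype A] (v : A → ℝ) (M : Finset A) (σ : Equiv.Perm A) (δ ζ : ℝ)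
    (h1 : ∑ a, (v a - ind M a) ^ 2 ≤ δ) (h2 : ∑ a, (v (σ a) - v a) ^ 2 ≤ ζ) :
    ∑ a, |v a ^ 2 - v (σ a) ^ 2| ≤ √(8 * ζ * (δ + (M.card : ℝ))) := by
  classical
  have hind : ∑ a, ind M a ^ 2 = (M.card : ℝ) := by
    unfold ind
    simp
  have h3 : ∑ a, v a ^ 2 ≤ 2 * (δ + M.card) := by
    calc ∑ a, v a ^ 2 ≤ ∑ a, (2 * (v a - ind M a) ^ 2 + 2 * ind M a ^ 2) := by
          refine Finset.sum_le_sum fun a _ => ?_
          nlinarith [sq_nonneg (v a - 2 * ind M a)]
      _ = 2 * ∑ a, (v a - ind M a) ^ 2 + 2 * ∑ a, ind M a ^ 2 := by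
          rw [Finset.sum_add_distrib, Finset.mul_sum, Finset.mul_sum]
      _ ≤ 2 * (δ + M.card) := by
          rw [hind]
          linarith
  have h4 : ∑ a, v (σ a) ^ 2 = ∑ a, v a ^ 2 := Equiv.sum_comp σ (fun a => v a ^ 2)
  have h5 : ∑ a, (v a + v (σ a)) ^ 2 ≤ 8 * (δ + M.card) := by
    calc ∑ a, (v a + v (σ a)) ^ 2 ≤ ∑ a, (2 * v a ^ 2 + 2 * v (σ a) ^ 2) := by
          refine Finset.sum_le_sum fun a _ => ?_
          nlinarith [sq_nonneg (v a - v (σ a))]
      _ = 2 * ∑ a, v a ^ 2 + 2 * ∑ a, v (σ a) ^ 2 := by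
          rw [Finset.sum_add_distrib, Finset.mul_sum, Finset.mul_sum]
      _ ≤ 8 * (δ + M.card) := by
          rw [h4]
          linarith
  have h6 : (∑ a, |v a ^ 2 - v (σ a) ^ 2|) ^ 2 ≤
      (∑ a, (v (σ a) - v a) ^ 2) * ∑ a, (v a + v (σ a)) ^ 2 := by
    have h := Finset.sum_mul_sq_le_sq_mul_sq (univ : Finset A) (fun a => |v (σ a) - v a|)
      (fun a => |v a + v (σ a)|)
    simp only [sq_abs] at h
    refine le_trans (le_of_eq ?_) h
    congr 1
    refine Finset.sum_congr rfl fun a _ => ?_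
    rw [← abs_mul, ← abs_neg]
    congr 1
    ring
  have h7 : 0 ≤ ∑ a, (v (σ a) - v a) ^ 2 := Finset.sum_nonneg fun a _ => sq_nonneg _
  have h8 : 0 ≤ ∑ a, (v a + v (σ a)) ^ 2 := Finset.sum_nonneg fun a _ => sq_nonneg _
  refine Real.le_sqrt_of_sq_le (h6.trans ?_)
  calc (∑ a, (v (σ a) - v a) ^ 2) * ∑ a, (v a + v (σ a)) ^ 2 ≤ ζ * (8 * (δ + M.card)) :=
        mul_le_mul h2 h5 h8 (h7.trans h2)
    _ = 8 * ζ * (δ + (M.card : ℝ)) := by ring

private theorem diff_le {A : Type} [Fintype A] (v : A → ℝ) (M : Finset A) (δ r : ℝ)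
    (hv : ∀ a, 0 ≤ v a ∧ v a ≤ 1) (h1 : ∑ a, (v a - ind M a) ^ 2 ≤ δ) (hr1 : 1 / 9 ≤ r)
    (hr2 : r ≤ 4 / 9) : dif M (Mr v r) + dif (Mr v r) M ≤ 9 * δ := by
  classical
  have e1 : dif M (Mr v r) = ∑ a, if a ∈ M ∧ a ∉ Mr v r then (1 : ℝ) else 0 := by
    unfold dif
    rw [← Finset.filter_univ_mem M, Finset.filter_filter, Finset.card_filter, Nat.cast_sum]
    refine Finset.sum_congr rfl fun a _ => ?_
    simp
  have e2 : dif (Mr v r) M = ∑ a, if a ∈ Mr v r ∧ a ∉ M then (1 : ℝ) else 0 := by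
    unfold dif
    conv_lhs => rw [← Finset.filter_univ_mem (Mr v r)]
    rw [Finset.filter_filter, Finset.card_filter, Nat.cast_sum]
    refine Finset.sum_congr rfl fun a _ => ?_
    simp
  rw [e1, e2, ← Finset.sum_add_distrib]
  calc ∑ a, ((if a ∈ M ∧ a ∉ Mr v r then (1 : ℝ) else 0) + if a ∈ Mr v r ∧ a ∉ M then (1 : ℝ) else 0)
      ≤ ∑ a, 9 * (v a - ind M a) ^ 2 := by
        refine Finset.sum_le_sum fun a _ => ?_
        have hva := hv a
        by_cases h : a ∈ M
        · have hi : ind M a = 1 := by unfold ind; rw [if_pos h]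
          rw [hi, if_neg (fun h' : a ∈ Mr v r ∧ a ∉ M => h'.2 h), add_zero]
          by_cases h' : a ∈ Mr v r
          · rw [if_neg (fun h'' : a ∈ M ∧ a ∉ Mr v r => h''.2 h')]
            positivity
          · rw [if_pos ⟨h, h'⟩]
            have h3 : v a ^ 2 ≤ r := by
              by_contra hc
              exact h' (mem_filter.2 ⟨mem_univ a, not_le.1 hc⟩)
            have h4 : v a ≤ 2 / 3 := by nlinarith
            nlinarith
        · have hi : ind M a = 0 := by unfold ind; rw [if_neg h]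
          rw [hi, if_neg (fun h' : a ∈ M ∧ a ∉ Mr v r => h h'.1), zero_add]
          by_cases h' : a ∈ Mr v r
          · rw [if_pos ⟨h', h⟩]
            have h3 : r < v a ^ 2 := (mem_filter.1 h').2
            nlinarith
          · rw [if_neg (fun h'' : a ∈ Mr v r ∧ a ∉ M => h' h''.1)]
            positivity
    _ = 9 * ∑ a, (v a - ind M a) ^ 2 := by rw [Finset.mul_sum]
    _ ≤ 9 * δ := by linarith

theorem lev : S_Lev := by
  classical
  intro N A _ φ T M v δ ζ hv h1 h2
  set s : Set ℝ := Set.Icc (1 / 9) (4 / 9) with hs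
  have hvol : volume s = ENNReal.ofReal (1 / 3) := by
    rw [hs, Real.volume_Icc]
    norm_num
  set F : ℝ → ℝ := fun r => ∑ t ∈ T, ∑ a, Set.indicator (Set.Ico (v (φ t a) ^ 2) (v a ^ 2))
    (fun _ => (1 : ℝ)) r with hF
  have hFi : IntegrableOn F s volume := by
    refine integrable_finset_sum _ fun t _ => integrable_finset_sum _ fun a _ => ?_
    exact (int_ind _ _).integrableOn
  obtain ⟨r, hr, hle⟩ := exists_le_setAverage (μ := volume) (s := s) (f := F)
    (by rw [hvol]; simp) (by rw [hvol]; simp) hFi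
  refine ⟨Mr v r, diff_le v M δ r hv h1 hr.1 hr.2, ?_⟩
  have hbs : bs φ T (Mr v r) = F r := by
    unfold bs
    rw [hF]
    exact Finset.sum_congr rfl fun t _ => card_bd_level v (φ t) r
  rw [hbs]
  refine hle.trans ?_
  rw [setAverage_eq, Measure.real, hvol, ENNReal.toReal_ofReal (by norm_num), smul_eq_mul]
  have h3 : ∫ r in s, F r ≤ (T.card : ℝ) * √(8 * ζ * (δ + (M.card : ℝ))) := by
    rw [hF]
    rw [integral_finset_sum _ fun t _ => integrable_finset_sum _ fun a _ => (int_ind _ _).integrableOn]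
    rw [← nsmul_eq_mul]
    refine Finset.sum_le_card_nsmul _ _ _ fun t ht => ?_
    rw [integral_finset_sum _ fun a _ => (int_ind _ _).integrableOn]
    refine le_trans (Finset.sum_le_sum fun a _ => int_ind_le s _ _) ?_
    exact cs v M (φ t) δ ζ h1 (h2 t ht)
  have h4 : ((1 : ℝ) / 3)⁻¹ = 3 := by norm_num
  rw [h4]
  linarith

end SoficAct.Kz
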