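import Pool.Agent.Lib.MP_2d1e68_al.Kz.Spec

/-!
# Kz/Ls: the action is almost measure preserving
-/

open Finset Filter Topology

noncomputable section

namespace SoficAct.Kz

private lemma ls_pair {A : Type} (σ : Equiv.Perm A) (P₁ P₂ Z : Finset A)
    (h : ∀ a ∈ P₁, a ∉ P₂) : pass σ P₁ Z + pass σ P₂ Z ≤ (Z.card : ℝ) := by
  classical
  unfold pass
  have h1 : Disjoint (P₁.filter fun a => σ a ∈ Z) (P₂.filter fun a => σ a ∈ Z) := by
    rw [disjoint_left]
    intro a ha hb
    exact h a (mem_filter.1 ha).1 (mem_filter.1 hb).1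
  have h2 : ((P₁.filter fun a => σ a ∈ Z) ∪ (P₂.filter fun a => σ a ∈ Z)).card ≤ Z.card :=
    card_le_card_of_injOn (fun a => σ a) (fun a ha => by
      rcases mem_union.1 (mem_coe.1 ha) with h | h
      · exact mem_coe.2 (mem_filter.1 h).2
      · exact mem_coe.2 (mem_filter.1 h).2) (fun a _ b _ h => σ.injective h)
  rw [card_union_of_disjoint h1] at h2
  exact_mod_cast h2

private lemma ls_eta {Γ : Type} {S : Finset Γ} {θ η ε : ℝ} (h : Par S θ η ε) :
    100000 * η ≤ 1 := h.η1.trans h.θ1

/-- The sizes of a piece and its image. -/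
private lemma ls_size {Γ : Type} {S : Finset Γ} {θ η ε : ℝ} (h : Par S θ η ε)
    {A : Type} {φ : Γ → Equiv.Perm A} {g : Γ} {P P' : Finset A} (hm : Mv φ ε g P P') :
    (P.card : ℝ) ≤ P'.card + 2 * ε * P'.card ∧ (P.card : ℝ) ≤ 2 * P'.card := by
  have h1 := hm.1
  have h3 := pass_le_right (φ g) P P'
  have h4 := h.ε0
  have h5 := h.ε1
  have hP : (0 : ℝ) ≤ P.card := Nat.cast_nonneg _
  have hP' : (0 : ℝ) ≤ P'.card := Nat.cast_nonneg _
  have h6 : (1 - ε) * (P.card : ℝ) ≤ P'.card := h1.trans h3
  have h7 : (P.card : ℝ) ≤ 2 * P'.card := by nlinarith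
  refine ⟨?_, h7⟩
  have h8 := mul_le_mul_of_nonneg_left h7 h4.le
  nlinarith

/-- The source of the image is determined. -/
private lemma ls_src {Γ : Type} [Group Γ] {S T D : Finset Γ} {θ η ε : ℝ} {A I : Type} [Fintype A]
    [Fintype I] {φ : Γ → Equiv.Perm A} {P : I → Finset A} {m : I → ℕ} {Bd : Finset A}
    (hpar : Par S θ η ε) (hst : Stage S T D θ η φ P m Bd) {g : Γ} {i₁ i₂ i' : I}
    (h1 : Mv φ ε g (P i₁) (P i')) (h2 : Mv φ ε g (P i₂) (P i')) : i₁ = i₂ := by
  by_contra hne
  have h3 := ls_pair (φ g) (P i₁) (P i₂) (P i') (hst.disj i₁ i₂ hne)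
  have h4 : (0 : ℝ) < (P i').card := by exact_mod_cast card_pos.2 (hst.pc i').ne
  have h5 := h1.2
  have h6 := h2.2
  have h7 := hpar.ε1
  have h8 := hpar.ε0
  nlinarith

/-- The inverse brings back. -/
private lemma ls_back {Γ : Type} [Group Γ] {S T D : Finset Γ} {θ η ε : ℝ} {A I : Type} [Fintype A]
    [Fintype I] {φ : Γ → Equiv.Perm A} {P : I → Finset A} {m : I → ℕ} {Bd : Finset A}
    (hpar : Par S θ η ε) (hst : Stage S T D θ η φ P m Bd) {g : Γ} (hg : g ∈ D) (hgi : g⁻¹ ∈ D)
    {i i' i₀ : I} (hm : Mv φ ε g (P i) (P i')) (hm' : Mv φ ε g⁻¹ (P i') (P i₀)) : i₀ = i := by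
  classical
  by_contra hne
  let Y₁ : Finset A := ((P i).filter (fun a => φ g a ∈ P i' ∧ a ∉ Bd)).image (φ g)
  let Y₂ : Finset A := (P i').filter (fun y => φ g⁻¹ y ∈ P i₀)
  have hdis : Disjoint Y₁ Y₂ := by
    rw [disjoint_left]
    intro y hy1 hy2
    obtain ⟨a, ha, rfl⟩ := mem_image.1 hy1
    obtain ⟨ha1, ha2, ha3⟩ := mem_filter.1 ha
    have h1 := (mem_filter.1 hy2).2
    have h2 := hst.mul a ha3 1 hst.oneD g⁻¹ hgi g hg
    rw [inv_mul_cancel, hst.one] at h2
    have h3 : φ g⁻¹ (φ g a) = a := h2.symm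
    rw [h3] at h1
    exact hst.disj i₀ i hne a h1 ha1
  have hsub : Y₁ ∪ Y₂ ⊆ P i' := by
    intro y hy
    rcases mem_union.1 hy with h | h
    · obtain ⟨a, ha, rfl⟩ := mem_image.1 h
      exact (mem_filter.1 ha).2.1
    · exact (mem_filter.1 h).1
  have hc := card_le_card hsub
  rw [card_union_of_disjoint hdis] at hc
  have hY1 : Y₁.card = ((P i).filter (fun a => φ g a ∈ P i' ∧ a ∉ Bd)).card :=
    card_image_of_injective _ (φ g).injective
  have hsplit : ((P i).filter (fun a => φ g a ∈ P i')).card ≤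
      ((P i).filter (fun a => φ g a ∈ P i' ∧ a ∉ Bd)).card +
        ((P i).filter (fun a => a ∈ Bd)).card := by
    refine (card_le_card ?_).trans (card_union_le _ _)
    intro a ha
    rw [mem_union, mem_filter, mem_filter]
    obtain ⟨h1, h2⟩ := mem_filter.1 ha
    by_cases h3 : a ∈ Bd
    · exact Or.inr ⟨h1, h3⟩
    · exact Or.inl ⟨h1, h2, h3⟩
  have e1 : pass (φ g) (P i) (P i') ≤ (Y₁.card : ℝ) + olap (P i) Bd := by
    unfold pass olap
    rw [hY1]
    exact_mod_cast hsplit
  have e2 : pass (φ g⁻¹) (P i') (P i₀) = (Y₂.card : ℝ) := rfl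
  have e3 : (Y₁.card : ℝ) + Y₂.card ≤ (P i').card := by exact_mod_cast hc
  have e4 := hst.few i
  have e5 := (ls_size hpar hm).2
  have e6 := hm.2
  have e7 := hm'.1
  have e8 : (0 : ℝ) < (P i').card := by exact_mod_cast card_pos.2 (hst.pc i').ne
  have e9 := hpar.ε1
  have e10 := hpar.ε0
  have e11 := ls_eta hpar
  have e12 := hpar.η0
  have e13 := mul_le_mul_of_nonneg_left e5 e12.le
  nlinarith

/-- **Ls.** -/
theorem ls (h1 : S_LsA) (h2 : S_Good) (h3 : S_Inj) (_h4 : S_Fun) (h5 : S_Cnt) : S_Ls := by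
  classical
  intro Γ _ S T D θ η ε A I E _ _ _ φ P m Bd src tgt γ g w f hpar hst hsk hN hf
  have hθ0 := hpar.θ0
  have hη0 := hpar.η0
  have hε0 := hpar.ε0
  have hε1 := hpar.ε1
  have hηs := ls_eta hpar
  have hA : (0 : ℝ) ≤ Fintype.card A := Nat.cast_nonneg _
  obtain ⟨hcnt, -, -⟩ := h5 Γ S T D θ η A I E φ P m Bd src tgt γ hθ0
    (by have := hpar.η1; linarith) hst hsk
  -- where the action is not defined
  have hund : ∀ g w, Nrm S T D g w →
      sumIf (fun e => ¬ ∃ e', Act φ ε g w P src tgt γ e e') (wt P src) ≤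
        3 * ε * (Fintype.card A : ℝ) := by
    intro g w hN
    have a1 := h1 Γ S T D θ η ε A I E φ P m Bd src tgt γ g w hpar hst hsk hN
    have a2 := h2 Γ S T D θ η ε A I φ P m Bd g hpar hst hN.gD hN.t1 hN.t2
    have a3 := h2 Γ S T D θ η ε A I φ P m Bd w hpar hst hN.wD
      (fun s hs => by rw [← hN.c1 s hs]; exact hN.t1 s hs)
      (fun s hs => by rw [← hN.c2 s hs]; exact hN.t2 s hs)
    linarith
  have hu1 := hund g w hN
  have hu2 := hund g⁻¹ w⁻¹ hN.inv
  let Df : E → Prop := fun e => ∃ e', Act φ ε g w P src tgt γ e e'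
  let Dg : E → Prop := fun e => ∃ e', Act φ ε g⁻¹ w⁻¹ P src tgt γ e e'
  let p : I → ℝ := fun i => ((P i).card : ℝ)
  let c : I → ℝ := fun i => (cnt src i : ℝ)
  let k : I → ℝ := fun i => ((univ.filter fun e => src e = i ∧ ¬ Dg e).card : ℝ)
  have hp : ∀ i, 0 < p i := fun i => by
    have : (0 : ℝ) < (P i).card := by exact_mod_cast card_pos.2 (hst.pc i).ne
    exact this
  have hc : ∀ i, 1 ≤ c i := fun i => by
    have : (1 : ℝ) ≤ cnt src i := by exact_mod_cast hcnt i
    exact this
  have hk : ∀ i, 0 ≤ k i := fun i => Nat.cast_nonneg _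
  have hwt : ∀ e, wt P src e = p (src e) / c (src e) := fun e => rfl
  have hsumA : ∑ i, p i ≤ Fintype.card A := by
    simp only [p]
    rw [← Nat.cast_sum, ← card_biUnion]
    · exact_mod_cast card_le_univ _
    · intro i _ j _ hij
      rw [Function.onFun, disjoint_left]
      exact fun a ha => hst.disj i j hij a ha
  -- sums over the representatives with a given source
  have hfib : ∀ (F : E → ℝ), ∑ e, F e = ∑ i, ∑ e ∈ univ.filter (fun e => src e = i), F e :=
    fun F => (sum_fiberwise univ src F).symm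
  have hsumw : ∑ e, wt P src e = ∑ i, p i := by
    rw [hfib]
    refine sum_congr rfl fun i _ => ?_
    have e1 : ∑ e ∈ univ.filter (fun e => src e = i), wt P src e =
        ∑ e ∈ univ.filter (fun e => src e = i), p i / c i := by
      refine sum_congr rfl fun e he => ?_
      rw [hwt, (mem_filter.1 he).2]
    rw [e1, sum_const, nsmul_eq_mul]
    have e2 : ((univ.filter (fun e => src e = i)).card : ℝ) = c i := rfl
    rw [e2, mul_div_cancel₀]
    have := hc i
    positivity
  have hsumk : ∑ i, p i * k i / c i = sumIf (fun e => ¬ Dg e) (wt P src) := by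
    unfold sumIf
    rw [hfib]
    refine sum_congr rfl fun i _ => ?_
    have e1 : ∑ e ∈ univ.filter (fun e => src e = i), (if ¬ Dg e then wt P src e else 0) =
        ∑ e ∈ univ.filter (fun e => src e = i ∧ ¬ Dg e), p i / c i := by
      rw [← sum_filter, filter_filter]
      refine sum_congr rfl fun e he => ?_
      rw [hwt, (mem_filter.1 he).2.1]
    have e2 : ((univ.filter (fun e => src e = i ∧ ¬ Dg e)).card : ℝ) = k i := rfl
    have e0 : ∑ e ∈ univ.filter (fun e => src e = i), (if ¬ Dg e then wt P src e else 0) =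
        p i * k i / c i := by
      rw [e1, sum_const, nsmul_eq_mul, e2]
      ring
    rw [← e0]
    refine sum_congr rfl fun e _ => ?_
    by_cases hd : Dg e
    · rw [if_neg (not_not.2 hd), if_neg (not_not.2 hd)]
    · rw [if_pos hd, if_pos hd]
  -- the count
  have hcount : ∀ i i', Mv φ ε g (P i) (P i') → c i' ≤ c i + k i' := by
    intro i i' hm
    have e1 : cnt src i' ≤ (univ.filter fun e => src e = i' ∧ Dg e).card +
        (univ.filter fun e => src e = i' ∧ ¬ Dg e).card := by
      unfold cnt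
      refine (card_le_card ?_).trans (card_union_le _ _)
      intro e he
      have he' := (mem_filter.1 he).2
      rw [mem_union, mem_filter, mem_filter]
      by_cases hd : Dg e
      · exact Or.inl ⟨mem_univ _, he', hd⟩
      · exact Or.inr ⟨mem_univ _, he', hd⟩
    have hch : ∀ e, ∃ e', Dg e → Act φ ε g⁻¹ w⁻¹ P src tgt γ e e' := by
      intro e
      by_cases hd : Dg e
      · obtain ⟨e', he'⟩ := hd
        exact ⟨e', fun _ => he'⟩
      · exact ⟨e, fun h => absurd h hd⟩
    choose F hF using hch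
    have e2 : (univ.filter fun e => src e = i' ∧ Dg e).card ≤ cnt src i := by
      unfold cnt
      refine card_le_card_of_injOn F ?_ ?_
      · intro e he
        obtain ⟨-, he1, he2⟩ := mem_filter.1 (mem_coe.1 he)
        have hact := hF e he2
        have hm' := hact.1
        rw [he1] at hm'
        exact mem_coe.2 (mem_filter.2 ⟨mem_univ _, ls_back hpar hst hN.gD hN.giD hm hm'⟩)
      · intro e he e' he' hee
        obtain ⟨-, -, he2⟩ := mem_filter.1 (mem_coe.1 he)
        obtain ⟨-, -, he2'⟩ := mem_filter.1 (mem_coe.1 he')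
        have b1 := hF e he2
        have b2 := hF e' he2'
        rw [← hee] at b2
        exact h3 Γ S T D θ η ε A I E φ P m Bd src tgt γ g⁻¹ w⁻¹ e e' (F e) hpar hst hsk b1 b2
    have e3 : cnt src i' ≤ cnt src i + (univ.filter fun e => src e = i' ∧ ¬ Dg e).card := by omega
    have e4 : (cnt src i' : ℝ) ≤ (cnt src i : ℝ) +
        ((univ.filter fun e => src e = i' ∧ ¬ Dg e).card : ℝ) := by exact_mod_cast e3
    exact e4
  let H : I → ℝ := fun i => 2 * ε * p i + p i * k i / c i
  have hH : ∀ i, 0 ≤ H i := fun i => by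
    have := hp i
    have := hc i
    have := hk i
    simp only [H]
    positivity
  have hbound : ∀ e, Df e → max 0 (wt P src e - wt P src (f e)) ≤ H (src (f e)) / c (src e) := by
    intro e he
    have hact := hf e he
    have hm := hact.1
    have c1 := hc (src e)
    have c2 := hc (src (f e))
    have c3 := hcount _ _ hm
    have c4 : p (src e) ≤ p (src (f e)) + 2 * ε * p (src (f e)) := (ls_size hpar hm).1
    have c5 := hp (src (f e))
    have c6 : (0 : ℝ) < c (src e) := by linarith
    have c7 : (0 : ℝ) < c (src (f e)) := by linarith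
    refine max_le (div_nonneg (hH _) c6.le) ?_
    rw [hwt, hwt, le_div_iff₀ c6, sub_mul, div_mul_cancel₀ _ c6.ne']
    set r : ℝ := p (src (f e)) / c (src (f e)) with hr
    have hr0 : 0 ≤ r := by positivity
    have hrc : p (src (f e)) = r * c (src (f e)) := by
      rw [hr, div_mul_cancel₀ _ c7.ne']
    have hHe : H (src (f e)) = 2 * ε * p (src (f e)) + r * k (src (f e)) := by
      simp only [H]
      rw [hr]
      ring
    rw [hHe]
    have c8 := mul_le_mul_of_nonneg_left c3 hr0
    nlinarith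
  have hfirst : ∑ e, (if Df e then H (src (f e)) / c (src e) else 0) ≤ ∑ i, H i := by
    rw [← sum_fiberwise univ (fun e => src (f e))]
    refine sum_le_sum fun i' _ => ?_
    by_cases hex : ∃ e₀, Df e₀ ∧ src (f e₀) = i'
    · obtain ⟨e₀, he₀, hs₀⟩ := hex
      have hm₀ := (hf e₀ he₀).1
      rw [hs₀] at hm₀
      have hc0 : (0 : ℝ) < c (src e₀) := by have := hc (src e₀); linarith
      have d1 : ∑ e ∈ univ.filter (fun e => src (f e) = i'),
          (if Df e then H (src (f e)) / c (src e) else 0) ≤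
          ∑ e ∈ univ.filter (fun e => src (f e) = i'),
            (if src e = src e₀ then H i' / c (src e₀) else 0) := by
        refine sum_le_sum fun e he => ?_
        have hse := (mem_filter.1 he).2
        by_cases hd : Df e
        · have hm := (hf e hd).1
          rw [hse] at hm
          have hss : src e = src e₀ := ls_src hpar hst hm hm₀
          rw [if_pos hd, if_pos hss, hse, hss]
        · rw [if_neg hd]
          split_ifs
          · exact div_nonneg (hH _) hc0.le
          · exact le_rfl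
      have d2 : ∑ e ∈ univ.filter (fun e => src (f e) = i'),
          (if src e = src e₀ then H i' / c (src e₀) else 0) ≤
          ∑ e, (if src e = src e₀ then H i' / c (src e₀) else 0) := by
        refine sum_le_sum_of_subset_of_nonneg (filter_subset _ _) fun e _ _ => ?_
        split_ifs
        · exact div_nonneg (hH _) hc0.le
        · exact le_rfl
      have d3 : ∑ e, (if src e = src e₀ then H i' / c (src e₀) else 0) = H i' := by
        rw [← sum_filter, sum_const, nsmul_eq_mul]
        have d4 : ((univ.filter (fun e => src e = src e₀)).card : ℝ) = c (src e₀) := rfl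
        rw [d4, mul_div_cancel₀ _ hc0.ne']
      linarith
    · rw [sum_eq_zero]
      · exact hH i'
      · intro e he
        rw [if_neg]
        intro hd
        exact hex ⟨e, hd, (mem_filter.1 he).2⟩
  have hloss : loss (wt P src) (Act φ ε g w P src tgt γ) f ≤
      ∑ e, (if Df e then H (src (f e)) / c (src e) else 0) +
      sumIf (fun e => ¬ ∃ e', Act φ ε g w P src tgt γ e e') (wt P src) := by
    unfold loss sumIf
    rw [← sum_add_distrib]
    refine sum_le_sum fun e _ => ?_
    by_cases hd : ∃ e', Act φ ε g w P src tgt γ e e'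
    · have hd' : Df e := hd
      rw [if_pos hd, if_pos hd', if_neg (not_not.2 hd), add_zero]
      exact hbound e hd
    · have hd' : ¬ Df e := hd
      rw [if_neg hd, if_neg hd', if_pos hd, zero_add]
  have hsH : ∑ i, H i ≤ 2 * ε * (Fintype.card A : ℝ) + 3 * ε * (Fintype.card A : ℝ) := by
    simp only [H]
    rw [sum_add_distrib, ← mul_sum, hsumk]
    have := mul_le_mul_of_nonneg_left hsumA (show (0 : ℝ) ≤ 2 * ε by linarith)
    exact add_le_add this hu2
  have hcov := hst.cov
  rw [hsumw]
  have hcov' : (1 - η) * (Fintype.card A : ℝ) ≤ ∑ i, p i := hcov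
  have hlast : 8 * ε * (Fintype.card A : ℝ) ≤ 9 * ε * ∑ i, p i := by
    have z1 : 8 * (Fintype.card A : ℝ) ≤ 9 * ∑ i, p i := by nlinarith
    have := mul_le_mul_of_nonneg_left z1 hε0.le
    linarith
  linarith

end SoficAct.Kz
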