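import Pool.Agent.Lib.MP_2d1e68_al.Kz.Spec

/-!
# 2d1e68, Kz/LsA: where the action is not defined (helper82)
-/

open Finset Filter

noncomputable section

namespace SoficAct.Kz

private lemma sumIf_src {A I E : Type} [Fintype I] [Fintype E] (P : I → Finset A) (src : E → I)
    (J : I → Prop) (c1 : ∀ i, 1 ≤ cnt src i) :
    sumIf (fun e => J (src e)) (wt P src) = sumIf J (fun i => ((P i).card : ℝ)) := by
  classical
  unfold sumIf
  rw [← sum_fiberwise univ src]
  refine sum_congr rfl (fun j _ => ?_)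
  have h6 : (∑ e ∈ univ.filter (fun e => src e = j),
      if J (src e) then wt P src e else 0) =
      ∑ e ∈ univ.filter (fun e => src e = j),
        if J j then ((P j).card : ℝ) / (cnt src j : ℝ) else 0 := by
    refine sum_congr rfl (fun e he => ?_)
    unfold wt
    rw [(mem_filter.1 he).2]
  rw [h6, sum_const]
  have h7 : (0 : ℝ) < (cnt src j : ℝ) := by exact_mod_cast c1 j
  have h8 : (univ.filter (fun e => src e = j)).card = cnt src j := rfl
  rw [h8, nsmul_eq_mul]
  by_cases hJ : J j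
  · rw [if_pos hJ, if_pos hJ]
    field_simp
  · rw [if_neg hJ, if_neg hJ, mul_zero]

/-- **LsA.** -/
theorem lsA (h1 : S_Ac) (h2 : S_Mass) (h3 : S_Cnt) : S_LsA := by
  classical
  intro Γ _ S T D θ η ε A I E _ _ _ φ P m Bd src tgt γ g w hpar hst hsk hn
  have hη : 8 * η ≤ θ := by
    have := hpar.η1
    have := hpar.η0
    linarith
  obtain ⟨c1, c2, c3⟩ := h3 Γ S T D θ η A I E φ P m Bd src tgt γ hpar.θ0 hη hst hsk
  have hw0 : ∀ e, 0 ≤ wt P src e := by
    intro e
    unfold wt
    positivity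
  have hJ2 := h2 Γ S T D θ η ε A I E φ P m Bd src tgt γ
    (fun i => ¬ ∃ j, Mv φ ε w (P i) (P j)) hpar hst hsk
  have hJ1 := sumIf_src P src (fun i => ¬ ∃ j, Mv φ ε g (P i) (P j)) c1
  rw [← hJ1]
  refine le_trans ?_ (add_le_add_right hJ2 _)
  unfold sumIf
  rw [← sum_add_distrib]
  refine sum_le_sum (fun e _ => ?_)
  have h0 := hw0 e
  by_cases ha : ∃ e', Act φ ε g w P src tgt γ e e'
  · rw [if_neg (not_not.2 ha)]
    split_ifs <;> linarith
  · rw [if_pos ha]
    by_cases hb : ∃ j, Mv φ ε g (P (src e)) (P j)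
    · by_cases hc : ∃ j, Mv φ ε w (P (tgt e)) (P j)
      · exfalso
        obtain ⟨i', hi'⟩ := hb
        obtain ⟨j', hj'⟩ := hc
        obtain ⟨e', he', _⟩ := h1 Γ S T D θ η ε A I E φ P m Bd src tgt γ g w e i' j' hpar hst hsk
          hn hi' hj'
        exact ha ⟨e', he'⟩
      · rw [if_neg (not_not.2 hb), if_pos hc]
        linarith
    · rw [if_pos hb]
      split_ifs <;> linarith

end SoficAct.Kz
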