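import Pool.Agent.Lib.MP_2d1e68_al.Kz.Spec

/-!
# 2d1e68, Kz/Mass: the sum of the weights with target in `J` (helper82)
-/

open Finset Filter

noncomputable section

namespace SoficAct.Kz

/-- **Mass.** -/
theorem mass (h1 : S_Sz) (h2 : S_Cnt) : S_Mass := by
  classical
  intro Γ _ S T D θ η ε A I E _ _ _ φ P m Bd src tgt γ J hpar hst hsk
  have hη : 8 * η ≤ θ := by
    have := hpar.η1
    have := hpar.η0
    linarith
  obtain ⟨c1, c2, c3⟩ := h2 Γ S T D θ η A I E φ P m Bd src tgt γ hpar.θ0 hη hst hsk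
  have hsz : ∀ e, ((P (src e)).card : ℝ) ≤ 2 * ((P (tgt e)).card : ℝ) := by
    intro e
    have h3 := (hsk.mor e).mono hst.ST (show θ / 64 ≤ θ by linarith [hpar.θ0])
    obtain ⟨k1, k2, k3, k4⟩ := h1 Γ A φ S T θ η θ (P (src e)) (P (tgt e)) (m (src e)) (m (tgt e))
      (γ e) hpar.θ0 le_rfl (hst.pc _) (hst.pc _) h3
    have k5 := (hst.pc (src e)).lo
    have k6 : (0 : ℝ) ≤ ((P (tgt e)).card : ℝ) := Nat.cast_nonneg _
    linarith
  have hw : ∀ e, wt P src e ≤ 2 * ((P (tgt e)).card : ℝ) / (cnt tgt (tgt e) : ℝ) := by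
    intro e
    unfold wt
    rw [c3, ← c2]
    have h4 : (0 : ℝ) < (cnt src (src e) : ℝ) := by exact_mod_cast c1 (src e)
    exact div_le_div_of_nonneg_right (hsz e) h4.le
  unfold sumIf
  have h5 : (∑ e, if J (tgt e) then wt P src e else 0) ≤
      ∑ e, if J (tgt e) then 2 * ((P (tgt e)).card : ℝ) / (cnt tgt (tgt e) : ℝ) else 0 := by
    refine sum_le_sum (fun e _ => ?_)
    by_cases hJ : J (tgt e)
    · rw [if_pos hJ, if_pos hJ]
      exact hw e
    · rw [if_neg hJ, if_neg hJ]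
  refine h5.trans ?_
  rw [← sum_fiberwise univ tgt, mul_sum]
  refine sum_le_sum (fun j _ => ?_)
  have h6 : (∑ e ∈ univ.filter (fun e => tgt e = j),
      if J (tgt e) then 2 * ((P (tgt e)).card : ℝ) / (cnt tgt (tgt e) : ℝ) else 0) =
      ∑ e ∈ univ.filter (fun e => tgt e = j),
        if J j then 2 * ((P j).card : ℝ) / (cnt tgt j : ℝ) else 0 := by
    refine sum_congr rfl (fun e he => ?_)
    rw [(mem_filter.1 he).2]
  rw [h6, sum_const]
  have h7 : (0 : ℝ) < (cnt tgt j : ℝ) := by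
    rw [c3]
    exact_mod_cast c1 j
  have h8 : (univ.filter (fun e => tgt e = j)).card = cnt tgt j := rfl
  rw [h8, nsmul_eq_mul]
  by_cases hJ : J j
  · rw [if_pos hJ, if_pos hJ]
    apply le_of_eq
    field_simp
  · rw [if_neg hJ, if_neg hJ]
    simp

end SoficAct.Kz
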