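import Pool.Agent.Lib.MP_2d1e68_al.Kz.Spec

/-!
# Multiplicativity of the action on the representatives
-/

open Finset Filter Topology

noncomputable section

namespace SoficAct.Kz

private lemma sz5 (h1 : S_Sz) {Γ : Type} [Group Γ] {S T D : Finset Γ} {θ η : ℝ} {A I E : Type}
    [Fintype A] [Fintype I] {φ : Γ → Equiv.Perm A} {P : I → Finset A} {m : I → ℕ}
    {Bd : Finset A} {src tgt : E → I} {γ : E → Finset (A × A)} (hθ : 0 < θ)
    (st : Stage S T D θ η φ P m Bd) (sk : Skel S T θ φ P src tgt γ) (e : E) :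
    0 < ((γ e).card : ℝ) ∧ ((γ e).card : ℝ) ≤ (P (src e)).card ∧
      ((γ e).card : ℝ) ≤ (P (tgt e)).card ∧
      98 * ((P (src e)).card : ℝ) ≤ 100 * ((γ e).card : ℝ) ∧
      98 * ((P (tgt e)).card : ℝ) ≤ 100 * ((γ e).card : ℝ) := by
  have hm := sk.mor e
  obtain ⟨a1, a2, a3, a4⟩ := h1 Γ A φ S T θ η (θ / 64) (P (src e)) (P (tgt e)) (m (src e))
    (m (tgt e)) (γ e) hθ (by linarith) (st.pc _) (st.pc _) (hm.mono st.ST le_rfl)
  have b1 := (st.pc (src e)).lo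
  have b2 := (st.pc (tgt e)).lo
  have b3 : 0 < (γ e).card := card_pos.2 hm.ne
  exact ⟨by exact_mod_cast b3, a3, a4, by linarith, by linarith⟩

private lemma olap_eq {A : Type} (Y Z : Finset A) [DecidablePred (fun a => a ∈ Z)] :
    olap Y Z = ((Y.filter (fun a => a ∈ Z)).card : ℝ) := by
  unfold olap
  congr

private lemma pass2_eq {N A : Type} (φ : N → Equiv.Perm A) (g w : N) (γ γ' : Finset (A × A))
    [DecidablePred (fun p : A × A => (φ g p.1, φ w p.2) ∈ γ')] :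
    pass2 φ g w γ γ' = ((γ.filter (fun p => (φ g p.1, φ w p.2) ∈ γ')).card : ℝ) := by
  unfold pass2
  congr

private lemma count5 {A : Type} [DecidableEq A] (X X1 X2 X3 X4 X5 : Finset A)
    (h : ∀ a ∈ X, a ∈ X1 ∨ a ∈ X2 ∨ a ∈ X3 ∨ a ∈ X4 ∨ a ∈ X5) :
    X.card ≤ X1.card + X2.card + X3.card + X4.card + X5.card := by
  have h1 : X ⊆ X1 ∪ X2 ∪ X3 ∪ X4 ∪ X5 := by
    intro a ha
    simp only [mem_union]
    rcases h a ha with h | h | h | h | h <;> tauto
  have h2 := card_le_card h1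
  have h3 := card_union_le (X1 ∪ X2 ∪ X3 ∪ X4) X5
  have h4 := card_union_le (X1 ∪ X2 ∪ X3) X4
  have h5 := card_union_le (X1 ∪ X2) X3
  have h6 := card_union_le X1 X2
  omega

theorem mull (h1 : S_Sz) : S_Mul := by
  intro Γ _ S T D θ η ε A I E _ _ _ φ P m Bd src tgt γ g w g' w' e e' e'' e₃ par st sk hg hw
    hg' hw' h2 h3 h4
  classical
  have hθ := par.θ0
  have hθ1 := par.θ1
  have hε0 := par.ε0
  have hε1 := par.ε1
  have hη0 := par.η0
  have hη := par.η1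
  obtain ⟨c1, c2, c3, c4, c5⟩ := sz5 h1 hθ st sk e
  obtain ⟨b1, b2, b3, b4, b5⟩ := sz5 h1 hθ st sk e'
  obtain ⟨d1, d2, d3, d4, d5⟩ := sz5 h1 hθ st sk e₃
  obtain ⟨⟨x1, x2⟩, ⟨x3, x4⟩, x5⟩ := h2
  obtain ⟨⟨y1, y2⟩, ⟨y3, y4⟩, y5⟩ := h3
  obtain ⟨⟨t1, t2⟩, ⟨t3, t4⟩, t5⟩ := h4
  have hme := sk.mor e
  apply sk.uni
  -- the five sets
  have k1 := card_filter_add_card_filter_not (s := γ e)
    (fun q : A × A => (φ g' q.1, φ w' q.2) ∈ γ e')
  have k2 := card_filter_add_card_filter_not (s := γ e')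
    (fun q : A × A => (φ g q.1, φ w q.2) ∈ γ e'')
  have k3 := card_filter_add_card_filter_not (s := γ e)
    (fun q : A × A => (φ (g * g') q.1, φ (w * w') q.2) ∈ γ e₃)
  have key := count5 (γ e) ((γ e).filter (fun q => ¬ (φ g' q.1, φ w' q.2) ∈ γ e'))
    ((γ e).filter (fun q => (φ g' q.1, φ w' q.2) ∈ γ e' ∧
      ¬ (φ g (φ g' q.1), φ w (φ w' q.2)) ∈ γ e''))
    ((γ e).filter (fun q => ¬ (φ (g * g') q.1, φ (w * w') q.2) ∈ γ e₃))
    ((γ e).filter (fun q => q.1 ∈ Bd ∨ q.2 ∈ Bd))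
    ((γ e).filter (fun q => q.1 ∉ Bd ∧ q.2 ∉ Bd ∧
      (φ (g * g') q.1, φ (w * w') q.2) ∈ γ e₃ ∧ (φ g (φ g' q.1), φ w (φ w' q.2)) ∈ γ e''))
    (by
      intro a ha
      simp only [mem_filter]
      tauto)
  have l2 : ((γ e).filter (fun q => (φ g' q.1, φ w' q.2) ∈ γ e' ∧
      ¬ (φ g (φ g' q.1), φ w (φ w' q.2)) ∈ γ e'')).card ≤
      ((γ e').filter (fun q => ¬ (φ g q.1, φ w q.2) ∈ γ e'')).card := by
    apply card_le_card_of_injOn (fun q => (φ g' q.1, φ w' q.2))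
    · intro q hq
      rw [mem_coe, mem_filter] at hq ⊢
      exact ⟨hq.2.1, hq.2.2⟩
    · intro p _ q _ h
      rw [Prod.mk.injEq] at h
      exact Prod.ext ((φ g').injective h.1) ((φ w').injective h.2)
  have l4a : ((γ e).filter (fun q => q.1 ∈ Bd)).card ≤
      ((P (src e)).filter (fun a => a ∈ Bd)).card := by
    apply card_le_card_of_injOn (fun q => q.1)
    · intro q hq
      rw [mem_coe, mem_filter] at hq ⊢
      exact ⟨hme.left q hq.1, hq.2⟩
    · intro p hp q hq h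
      rw [mem_coe, mem_filter] at hp hq
      exact hme.inj1 p hp.1 q hq.1 h
  have l4b : ((γ e).filter (fun q => q.2 ∈ Bd)).card ≤
      ((P (tgt e)).filter (fun a => a ∈ Bd)).card := by
    apply card_le_card_of_injOn (fun q => q.2)
    · intro q hq
      rw [mem_coe, mem_filter] at hq ⊢
      exact ⟨hme.right q hq.1, hq.2⟩
    · intro p hp q hq h
      rw [mem_coe, mem_filter] at hp hq
      exact hme.inj2 p hp.1 q hq.1 h
  have l4 : ((γ e).filter (fun q => q.1 ∈ Bd ∨ q.2 ∈ Bd)).card ≤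
      ((P (src e)).filter (fun a => a ∈ Bd)).card +
      ((P (tgt e)).filter (fun a => a ∈ Bd)).card := by
    rw [filter_or]
    exact (card_union_le _ _).trans (Nat.add_le_add l4a l4b)
  have l5 : ((γ e).filter (fun q => q.1 ∉ Bd ∧ q.2 ∉ Bd ∧
      (φ (g * g') q.1, φ (w * w') q.2) ∈ γ e₃ ∧
      (φ g (φ g' q.1), φ w (φ w' q.2)) ∈ γ e'')).card ≤
      ((γ e₃).filter (fun q => q ∈ γ e'')).card := by
    apply card_le_card_of_injOn (fun q => (φ (g * g') q.1, φ (w * w') q.2))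
    · intro q hq
      rw [mem_coe, mem_filter] at hq ⊢
      obtain ⟨_, hq1, hq2, hq3, hq4⟩ := hq
      refine ⟨hq3, ?_⟩
      have m1 := st.mul q.1 hq1 1 st.oneD g hg g' hg'
      have m2 := st.mul q.2 hq2 1 st.oneD w hw w' hw'
      rw [st.one] at m1 m2
      simp only [Equiv.Perm.coe_one, id_eq] at m1 m2
      show (φ (g * g') q.1, φ (w * w') q.2) ∈ γ e''
      rw [m1, m2]
      exact hq4
    · intro p _ q _ h
      rw [Prod.mk.injEq] at h
      exact Prod.ext ((φ (g * g')).injective h.1) ((φ (w * w')).injective h.2)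
  rw [pass2_eq] at x5 y5 t5
  have f1 := st.few (src e)
  have f2 := st.few (tgt e)
  rw [olap_eq] at f1 f2
  unfold Sim
  rw [olap_eq]
  have z2 := pass_le_left (φ g') (P (src e)) (P (src e'))
  have z3 : (1 - 1 / 100) * ((P (src e')).card : ℝ) ≤ (1 - ε) * ((P (src e')).card : ℝ) :=
    mul_le_mul_of_nonneg_right (by linarith) (Nat.cast_nonneg _)
  have z4 := pass_le_left (φ (g * g')) (P (src e)) (P (src e₃))
  have z5 : (1 - 1 / 100) * ((P (src e₃)).card : ℝ) ≤ (1 - ε) * ((P (src e₃)).card : ℝ) :=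
    mul_le_mul_of_nonneg_right (by linarith) (Nat.cast_nonneg _)
  have z6 : η * ((P (src e)).card : ℝ) ≤ 1 / 100000 * ((P (src e)).card : ℝ) :=
    mul_le_mul_of_nonneg_right (by linarith) (Nat.cast_nonneg _)
  have z7 : η * ((P (tgt e)).card : ℝ) ≤ 1 / 100000 * ((P (tgt e)).card : ℝ) :=
    mul_le_mul_of_nonneg_right (by linarith) (Nat.cast_nonneg _)
  have k1' : (((γ e).filter (fun q : A × A => (φ g' q.1, φ w' q.2) ∈ γ e')).card : ℝ) +
    (((γ e).filter (fun q : A × A => ¬ (φ g' q.1, φ w' q.2) ∈ γ e')).card : ℝ) =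
    ((γ e).card : ℝ) := by exact_mod_cast k1
  have k2' : (((γ e').filter (fun q : A × A => (φ g q.1, φ w q.2) ∈ γ e'')).card : ℝ) +
    (((γ e').filter (fun q : A × A => ¬ (φ g q.1, φ w q.2) ∈ γ e'')).card : ℝ) =
    ((γ e').card : ℝ) := by exact_mod_cast k2
  have k3' : (((γ e).filter (fun q : A × A =>
      (φ (g * g') q.1, φ (w * w') q.2) ∈ γ e₃)).card : ℝ) +
    (((γ e).filter (fun q : A × A =>
      ¬ (φ (g * g') q.1, φ (w * w') q.2) ∈ γ e₃)).card : ℝ) =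
    ((γ e).card : ℝ) := by exact_mod_cast k3
  have key2 : (γ e).card ≤ ((γ e).filter (fun q => ¬ (φ g' q.1, φ w' q.2) ∈ γ e')).card +
      ((γ e').filter (fun q => ¬ (φ g q.1, φ w q.2) ∈ γ e'')).card +
      ((γ e).filter (fun q => ¬ (φ (g * g') q.1, φ (w * w') q.2) ∈ γ e₃)).card +
      (((P (src e)).filter (fun a => a ∈ Bd)).card +
      ((P (tgt e)).filter (fun a => a ∈ Bd)).card) +
      ((γ e₃).filter (fun q => q ∈ γ e'')).card := by omega
  have key3 : ((γ e).card : ℝ) ≤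
      (((γ e).filter (fun q => ¬ (φ g' q.1, φ w' q.2) ∈ γ e')).card : ℝ) +
      (((γ e').filter (fun q => ¬ (φ g q.1, φ w q.2) ∈ γ e'')).card : ℝ) +
      (((γ e).filter (fun q => ¬ (φ (g * g') q.1, φ (w * w') q.2) ∈ γ e₃)).card : ℝ) +
      ((((P (src e)).filter (fun a => a ∈ Bd)).card : ℝ) +
      (((P (tgt e)).filter (fun a => a ∈ Bd)).card : ℝ)) +
      (((γ e₃).filter (fun q => q ∈ γ e'')).card : ℝ) := by exact_mod_cast key2
  linarith

end SoficAct.Kz
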