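import Pool.Agent.Lib.MP_2d1e68_al.Kz.Spec

/-!
# MP_2d1e68_al, Kz/OP (helper68)
-/

open Finset Filter

noncomputable section

namespace SoficAct.Kz

private theorem crel {α β : Type} (X : Finset α) (Y : Finset β) (R : α → β → Prop)
    (h : ∀ a ∈ X, ∃ b ∈ Y, R a b) (hinj : ∀ a ∈ X, ∀ a' ∈ X, ∀ b, R a b → R a' b → a = a') :
    X.card ≤ Y.card := by
  classical
  have h' : ∀ a : X, ∃ b : Y, R a b := fun a => by
    obtain ⟨b, hb, hR⟩ := h a a.2
    exact ⟨⟨b, hb⟩, hR⟩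
  choose f hf using h'
  have hfi : Function.Injective f := by
    intro a a' haa
    apply Subtype.ext
    refine hinj a a.2 a' a'.2 (f a) (hf a) ?_
    rw [haa]
    exact hf a'
  have := Fintype.card_le_of_injective f hfi
  simpa using this

private theorem mem_bd {A : Type} (σ : Equiv.Perm A) (Y : Finset A) (a : A) :
    a ∈ bd σ Y ↔ a ∈ Y ∧ σ a ∉ Y := by
  classical
  unfold bd
  rw [mem_filter]

/-- counting with five alternatives -/
private theorem five {α β₁ β₂ β₃ β₄ β₅ : Type} (X : Finset α) (Y₁ : Finset β₁) (Y₂ : Finset β₂)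
    (Y₃ : Finset β₃) (Y₄ : Finset β₄) (Y₅ : Finset β₅) (R₁ : α → β₁ → Prop) (R₂ : α → β₂ → Prop)
    (R₃ : α → β₃ → Prop) (R₄ : α → β₄ → Prop) (R₅ : α → β₅ → Prop)
    (h : ∀ a ∈ X, (∃ b ∈ Y₁, R₁ a b) ∨ (∃ b ∈ Y₂, R₂ a b) ∨ (∃ b ∈ Y₃, R₃ a b) ∨
      (∃ b ∈ Y₄, R₄ a b) ∨ ∃ b ∈ Y₅, R₅ a b)
    (i1 : ∀ a ∈ X, ∀ a' ∈ X, ∀ b, R₁ a b → R₁ a' b → a = a')
    (i2 : ∀ a ∈ X, ∀ a' ∈ X, ∀ b, R₂ a b → R₂ a' b → a = a')
    (i3 : ∀ a ∈ X, ∀ a' ∈ X, ∀ b, R₃ a b → R₃ a' b → a = a')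
    (i4 : ∀ a ∈ X, ∀ a' ∈ X, ∀ b, R₄ a b → R₄ a' b → a = a')
    (i5 : ∀ a ∈ X, ∀ a' ∈ X, ∀ b, R₅ a b → R₅ a' b → a = a') :
    X.card ≤ Y₁.card + Y₂.card + Y₃.card + Y₄.card + Y₅.card := by
  classical
  have c1 := crel (X.filter fun a => ∃ b ∈ Y₁, R₁ a b) Y₁ R₁ (fun a ha => (mem_filter.1 ha).2)
    (fun a ha a' ha' => i1 a (mem_filter.1 ha).1 a' (mem_filter.1 ha').1)
  have c2 := crel (X.filter fun a => ∃ b ∈ Y₂, R₂ a b) Y₂ R₂ (fun a ha => (mem_filter.1 ha).2)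
    (fun a ha a' ha' => i2 a (mem_filter.1 ha).1 a' (mem_filter.1 ha').1)
  have c3 := crel (X.filter fun a => ∃ b ∈ Y₃, R₃ a b) Y₃ R₃ (fun a ha => (mem_filter.1 ha).2)
    (fun a ha a' ha' => i3 a (mem_filter.1 ha).1 a' (mem_filter.1 ha').1)
  have c4 := crel (X.filter fun a => ∃ b ∈ Y₄, R₄ a b) Y₄ R₄ (fun a ha => (mem_filter.1 ha).2)
    (fun a ha a' ha' => i4 a (mem_filter.1 ha).1 a' (mem_filter.1 ha').1)
  have c5 := crel (X.filter fun a => ∃ b ∈ Y₅, R₅ a b) Y₅ R₅ (fun a ha => (mem_filter.1 ha).2)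
    (fun a ha a' ha' => i5 a (mem_filter.1 ha).1 a' (mem_filter.1 ha').1)
  have hsub : X ⊆ (X.filter fun a => ∃ b ∈ Y₁, R₁ a b) ∪ ((X.filter fun a => ∃ b ∈ Y₂, R₂ a b) ∪
      ((X.filter fun a => ∃ b ∈ Y₃, R₃ a b) ∪ ((X.filter fun a => ∃ b ∈ Y₄, R₄ a b) ∪
        (X.filter fun a => ∃ b ∈ Y₅, R₅ a b)))) := by
    intro a ha
    simp only [mem_union, mem_filter]
    rcases h a ha with h' | h' | h' | h' | h'
    · exact Or.inl ⟨ha, h'⟩
    · exact Or.inr (Or.inl ⟨ha, h'⟩)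
    · exact Or.inr (Or.inr (Or.inl ⟨ha, h'⟩))
    · exact Or.inr (Or.inr (Or.inr (Or.inl ⟨ha, h'⟩)))
    · exact Or.inr (Or.inr (Or.inr (Or.inr ⟨ha, h'⟩)))
  have u0 := card_le_card hsub
  have u1 := card_union_le (X.filter fun a => ∃ b ∈ Y₁, R₁ a b) ((X.filter fun a => ∃ b ∈ Y₂, R₂ a b) ∪
      ((X.filter fun a => ∃ b ∈ Y₃, R₃ a b) ∪ ((X.filter fun a => ∃ b ∈ Y₄, R₄ a b) ∪
        (X.filter fun a => ∃ b ∈ Y₅, R₅ a b))))
  have u2 := card_union_le (X.filter fun a => ∃ b ∈ Y₂, R₂ a b)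
      ((X.filter fun a => ∃ b ∈ Y₃, R₃ a b) ∪ ((X.filter fun a => ∃ b ∈ Y₄, R₄ a b) ∪
        (X.filter fun a => ∃ b ∈ Y₅, R₅ a b)))
  have u3 := card_union_le (X.filter fun a => ∃ b ∈ Y₃, R₃ a b)
      ((X.filter fun a => ∃ b ∈ Y₄, R₄ a b) ∪ (X.filter fun a => ∃ b ∈ Y₅, R₅ a b))
  have u4 := card_union_le (X.filter fun a => ∃ b ∈ Y₄, R₄ a b) (X.filter fun a => ∃ b ∈ Y₅, R₅ a b)
  omega

open Classical in
private def inBd {A : Type} (Y Z : Finset A) : Finset A := Y.filter fun a => a ∈ Z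

private theorem mem_inBd {A : Type} (Y Z : Finset A) (a : A) : a ∈ inBd Y Z ↔ a ∈ Y ∧ a ∈ Z := by
  classical
  unfold inBd
  rw [mem_filter]

private theorem card_inBd {A : Type} (Y Z : Finset A) : ((inBd Y Z).card : ℝ) = olap Y Z := rfl

theorem op (h1 : S_Sz) : S_OP := by
  classical
  intro Γ _ S T D θ η ε A I _ _ φ P m Bd g w i j i' j' γ pr st nr hg hw hγ
  have hθ := pr.θ0
  have hγS : Mor φ S (θ / 8) (P i) (P j) γ := hγ.mono st.ST (by linarith)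
  obtain ⟨z1, z2, z3, z4⟩ := h1 Γ A φ S T θ η (θ / 8) (P i) (P j) (m i) (m j) γ hθ (by linarith)
    (st.pc i) (st.pc j) hγS
  have lo1 := (st.pc i).lo
  have lo2 := (st.pc j).lo
  -- the transported set
  set γ₀ := γ.filter fun q => φ g q.1 ∈ P i' ∧ φ w q.2 ∈ P j' with hγ₀
  set γ' := γ₀.image fun q => (φ g q.1, φ w q.2) with hγ'
  have hmem : ∀ p, p ∈ γ' ↔ ∃ q ∈ γ, φ g q.1 ∈ P i' ∧ φ w q.2 ∈ P j' ∧ (φ g q.1, φ w q.2) = p := by
    intro p
    rw [hγ', mem_image]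
    constructor
    · rintro ⟨q, hq, hqp⟩
      rw [hγ₀, mem_filter] at hq
      exact ⟨q, hq.1, hq.2.1, hq.2.2, hqp⟩
    · rintro ⟨q, hq, h3, h4, hqp⟩
      exact ⟨q, by rw [hγ₀, mem_filter]; exact ⟨hq, h3, h4⟩, hqp⟩
  have hcard' : γ'.card = γ₀.card := by
    rw [hγ']
    apply card_image_of_injective
    intro p q hpq
    simp only [Prod.mk.injEq] at hpq
    exact Prod.ext ((φ g).injective hpq.1) ((φ w).injective hpq.2)
  -- the size
  have hsize : (γ.card : ℝ) ≤ γ'.card + ε * (P i).card + ε * (P j).card := by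
    have c1 : γ.card ≤ γ₀.card + ((P i).filter fun a => φ g a ∉ P i').card +
        ((P j).filter fun a => φ w a ∉ P j').card := by
      have hsub : γ ⊆ γ₀ ∪ ((γ.filter fun q => φ g q.1 ∉ P i') ∪ (γ.filter fun q => φ w q.2 ∉ P j')) := by
        intro q hq
        simp only [hγ₀, mem_union, mem_filter]
        by_cases h3 : φ g q.1 ∈ P i'
        · by_cases h4 : φ w q.2 ∈ P j'
          · exact Or.inl ⟨hq, h3, h4⟩
          · exact Or.inr (Or.inr ⟨hq, h4⟩)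
        · exact Or.inr (Or.inl ⟨hq, h3⟩)
      have u1 := crel (γ.filter fun q => φ g q.1 ∉ P i') ((P i).filter fun a => φ g a ∉ P i')
        (fun q a => q.1 = a)
        (fun q hq => ⟨q.1, mem_filter.2 ⟨hγ.left q (mem_filter.1 hq).1, (mem_filter.1 hq).2⟩, rfl⟩)
        (fun q hq q' hq' a h3 h4 => hγ.inj1 q (mem_filter.1 hq).1 q' (mem_filter.1 hq').1
          (h3.trans h4.symm))
      have u2 := crel (γ.filter fun q => φ w q.2 ∉ P j') ((P j).filter fun a => φ w a ∉ P j')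
        (fun q a => q.2 = a)
        (fun q hq => ⟨q.2, mem_filter.2 ⟨hγ.right q (mem_filter.1 hq).1, (mem_filter.1 hq).2⟩, rfl⟩)
        (fun q hq q' hq' a h3 h4 => hγ.inj2 q (mem_filter.1 hq).1 q' (mem_filter.1 hq').1
          (h3.trans h4.symm))
      have u3 := card_le_card hsub
      have u4 := card_union_le γ₀ ((γ.filter fun q => φ g q.1 ∉ P i') ∪
        (γ.filter fun q => φ w q.2 ∉ P j'))
      have u5 := card_union_le (γ.filter fun q => φ g q.1 ∉ P i') (γ.filter fun q => φ w q.2 ∉ P j')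
      omega
    have c2 : (((P i).filter fun a => φ g a ∈ P i').card : ℝ) +
        (((P i).filter fun a => φ g a ∉ P i').card : ℝ) = (P i).card := by
      exact_mod_cast card_filter_add_card_filter_not (s := P i) (fun a => φ g a ∈ P i')
    have c3 : (((P j).filter fun a => φ w a ∈ P j').card : ℝ) +
        (((P j).filter fun a => φ w a ∉ P j').card : ℝ) = (P j).card := by
      exact_mod_cast card_filter_add_card_filter_not (s := P j) (fun a => φ w a ∈ P j')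
    have c4 : (1 - ε) * ((P i).card : ℝ) ≤ (((P i).filter fun a => φ g a ∈ P i').card : ℝ) := by
      have := hg.1
      unfold pass at this
      refine this.trans (le_of_eq ?_)
      congr 2
    have c5 : (1 - ε) * ((P j).card : ℝ) ≤ (((P j).filter fun a => φ w a ∈ P j').card : ℝ) := by
      have := hw.1
      unfold pass at this
      refine this.trans (le_of_eq ?_)
      congr 2
    have c6 : (γ.card : ℝ) ≤ γ₀.card + (((P i).filter fun a => φ g a ∉ P i').card : ℝ) +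
        (((P j).filter fun a => φ w a ∉ P j').card : ℝ) := by exact_mod_cast c1
    rw [hcard']
    linarith
  have hε := pr.ε1
  have hε0 := pr.ε0
  have hγpos : (0 : ℝ) < γ.card := by exact_mod_cast hγ.ne.card_pos
  have p1 : (P i).card ≤ (100 / 98 : ℝ) * γ.card := by linarith
  have p2 : (P j).card ≤ (100 / 98 : ℝ) * γ.card := by linarith
  have p3 : ε * (P i).card ≤ (1 / 100) * ((100 / 98 : ℝ) * γ.card) :=
    mul_le_mul (by linarith) p1 (Nat.cast_nonneg _) (by norm_num)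
  have p4 : ε * (P j).card ≤ (1 / 100) * ((100 / 98 : ℝ) * γ.card) :=
    mul_le_mul (by linarith) p2 (Nat.cast_nonneg _) (by norm_num)
  have h97 : (97 / 100 : ℝ) * γ.card ≤ γ'.card := by linarith
  -- partial injection
  have j1 : ∀ p ∈ γ', ∀ q ∈ γ', p.1 = q.1 → p = q := by
    intro p hp q hq hpq
    obtain ⟨a, ha, -, -, rfl⟩ := (hmem p).1 hp
    obtain ⟨b, hb, -, -, rfl⟩ := (hmem q).1 hq
    rw [hγ.inj1 a ha b hb ((φ g).injective hpq)]
  have j2 : ∀ p ∈ γ', ∀ q ∈ γ', p.2 = q.2 → p = q := by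
    intro p hp q hq hpq
    obtain ⟨a, ha, -, -, rfl⟩ := (hmem p).1 hp
    obtain ⟨b, hb, -, -, rfl⟩ := (hmem q).1 hq
    rw [hγ.inj2 a ha b hb ((φ w).injective hpq)]
  -- the boundary
  have hbd : ∀ s ∈ S, ((bd (dbl φ s) γ').card : ℝ) ≤ olap (P i) Bd + olap (P j) Bd +
      ((bd (dbl φ (g⁻¹ * s * g)) γ).card : ℝ) + ((bd (φ s) (P i')).card : ℝ) +
        ((bd (φ s) (P j')).card : ℝ) := by
    intro s hs
    have hsD : s ∈ D := st.TD (st.ST hs)
    have htD : g⁻¹ * s * g ∈ D := st.TD (nr.t1 s hs)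
    have key := five (bd (dbl φ s) γ') (inBd (P i) Bd) (inBd (P j) Bd)
      (bd (dbl φ (g⁻¹ * s * g)) γ) (bd (φ s) (P i')) (bd (φ s) (P j'))
      (fun p a => p.1 = φ g a) (fun p a => p.2 = φ w a) (fun p q => p = (φ g q.1, φ w q.2))
      (fun p a => p.1 = a) (fun p a => p.2 = a) ?_ ?_ ?_ ?_ ?_ ?_
    · rw [← card_inBd, ← card_inBd]
      exact_mod_cast key
    · intro p hp
      rw [mem_bd] at hp
      obtain ⟨q, hq, hq1, hq2, rfl⟩ := (hmem p).1 hp.1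
      by_cases a1 : q.1 ∈ Bd
      · exact Or.inl ⟨q.1, (mem_inBd _ _ _).2 ⟨hγ.left q hq, a1⟩, rfl⟩
      by_cases a2 : q.2 ∈ Bd
      · exact Or.inr (Or.inl ⟨q.2, (mem_inBd _ _ _).2 ⟨hγ.right q hq, a2⟩, rfl⟩)
      by_cases a3 : φ s (φ g q.1) ∈ P i'
      swap
      · exact Or.inr (Or.inr (Or.inr (Or.inl ⟨φ g q.1, (mem_bd _ _ _).2 ⟨hq1, a3⟩, rfl⟩)))
      by_cases a4 : φ s (φ w q.2) ∈ P j'
      swap
      · exact Or.inr (Or.inr (Or.inr (Or.inr ⟨φ w q.2, (mem_bd _ _ _).2 ⟨hq2, a4⟩, rfl⟩)))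
      refine Or.inr (Or.inr (Or.inl ⟨q, (mem_bd _ _ _).2 ⟨hq, fun a5 => hp.2 ?_⟩, rfl⟩))
      have one' : ∀ a, φ 1 a = a := fun a => by rw [st.one]; rfl
      have m1 : φ s (φ g q.1) = φ g (φ (g⁻¹ * s * g) q.1) := by
        have e1 := st.mul q.1 a1 1 st.oneD s hsD g nr.gD
        have e2 := st.mul q.1 a1 1 st.oneD g nr.gD (g⁻¹ * s * g) htD
        rw [one'] at e1 e2
        rw [← e1, ← e2]
        congr 2
        group
      have m2 : φ s (φ w q.2) = φ w (φ (g⁻¹ * s * g) q.2) := by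
        have e1 := st.mul q.2 a2 1 st.oneD s hsD w nr.wD
        have e2 := st.mul q.2 a2 1 st.oneD w nr.wD (g⁻¹ * s * g) htD
        rw [one'] at e1 e2
        rw [← e1, ← e2, nr.c1 s hs]
        congr 2
        group
      refine (hmem _).2 ⟨(φ (g⁻¹ * s * g) q.1, φ (g⁻¹ * s * g) q.2), a5, ?_, ?_, ?_⟩
      · change φ g (φ (g⁻¹ * s * g) q.1) ∈ P i'
        rw [← m1]
        exact a3
      · change φ w (φ (g⁻¹ * s * g) q.2) ∈ P j'
        rw [← m2]
        exact a4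
      · change (φ g (φ (g⁻¹ * s * g) q.1), φ w (φ (g⁻¹ * s * g) q.2)) = (φ s (φ g q.1), φ s (φ w q.2))
        rw [← m1, ← m2]
    · intro p hp p' hp' b h3 h4
      exact j1 p ((mem_bd _ _ _).1 hp).1 p' ((mem_bd _ _ _).1 hp').1 (h3.trans h4.symm)
    · intro p hp p' hp' b h3 h4
      exact j2 p ((mem_bd _ _ _).1 hp).1 p' ((mem_bd _ _ _).1 hp').1 (h3.trans h4.symm)
    · intro p hp p' hp' b h3 h4
      exact h3.trans h4.symm
    · intro p hp p' hp' b h3 h4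
      exact j1 p ((mem_bd _ _ _).1 hp).1 p' ((mem_bd _ _ _).1 hp').1 (h3.trans h4.symm)
    · intro p hp p' hp' b h3 h4
      exact j2 p ((mem_bd _ _ _).1 hp).1 p' ((mem_bd _ _ _).1 hp').1 (h3.trans h4.symm)
  have hconj : ∑ s ∈ S, ((bd (dbl φ (g⁻¹ * s * g)) γ).card : ℝ) ≤ bs (dbl φ) T γ := by
    have hinj : ∀ s ∈ S, ∀ s' ∈ S, g⁻¹ * s * g = g⁻¹ * s' * g → s = s' := by
      intro s _ s' _ h
      have h3 := mul_right_cancel h
      exact mul_left_cancel h3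
    rw [← sum_image (f := fun t => ((bd (dbl φ t) γ).card : ℝ)) hinj]
    unfold bs
    refine sum_le_sum_of_subset_of_nonneg ?_ fun _ _ _ => Nat.cast_nonneg _
    intro t ht
    obtain ⟨s, hs, rfl⟩ := mem_image.1 ht
    exact nr.t1 s hs
  have hbs : bs (dbl φ) S γ' ≤ (S.card : ℝ) * (olap (P i) Bd + olap (P j) Bd) +
      bs (dbl φ) T γ + bs φ S (P i') + bs φ S (P j') := by
    have u1 : bs (dbl φ) S γ' ≤ ∑ s ∈ S, ((olap (P i) Bd + olap (P j) Bd) +
        ((bd (dbl φ (g⁻¹ * s * g)) γ).card : ℝ) + ((bd (φ s) (P i')).card : ℝ) +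
          ((bd (φ s) (P j')).card : ℝ)) := sum_le_sum fun s hs => hbd s hs
    rw [sum_add_distrib, sum_add_distrib, sum_add_distrib, sum_const, nsmul_eq_mul] at u1
    unfold bs at u1 hconj ⊢
    linarith
  have q1 := st.few i
  have q2 := st.few j
  have q3 := (bs_mono φ st.ST (P i')).trans (st.pc i').bT
  have q4 := (bs_mono φ st.ST (P j')).trans (st.pc j').bT
  have q5 := hγ.bd
  have hη := pr.η0
  have hPi' : ((P i').card : ℝ) ≤ (100 / 99) * (P i).card := by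
    have u1 := hg.2
    have u2 := pass_le_left (φ g) (P i) (P i')
    have u3 : (99 / 100 : ℝ) * (P i').card ≤ (1 - ε) * (P i').card :=
      mul_le_mul_of_nonneg_right (by linarith) (Nat.cast_nonneg _)
    linarith
  have hPj' : ((P j').card : ℝ) ≤ (100 / 99) * (P j).card := by
    have u1 := hw.2
    have u2 := pass_le_left (φ w) (P j) (P j')
    have u3 : (99 / 100 : ℝ) * (P j').card ≤ (1 - ε) * (P j').card :=
      mul_le_mul_of_nonneg_right (by linarith) (Nat.cast_nonneg _)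
    linarith
  refine ⟨γ', ⟨?_, ?_, ?_, j1, j2, ?_⟩, ?_⟩
  · rw [← card_pos]
    have : (0 : ℝ) < γ'.card := by linarith
    exact_mod_cast this
  · intro p hp
    obtain ⟨q, hq, hq1, hq2, rfl⟩ := (hmem p).1 hp
    exact hq1
  · intro p hp
    obtain ⟨q, hq, hq1, hq2, rfl⟩ := (hmem p).1 hp
    exact hq2
  · have e1 := pr.η1
    have e2 := pr.η2
    have hK : (0 : ℝ) ≤ S.card := Nat.cast_nonneg _
    have f1 : (S.card : ℝ) * (olap (P i) Bd + olap (P j) Bd) ≤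
        (S.card : ℝ) * η * ((200 / 98 : ℝ) * γ.card) := by
      have u1 : olap (P i) Bd + olap (P j) Bd ≤ η * ((200 / 98 : ℝ) * γ.card) := by
        have u2 : η * ((P i).card : ℝ) ≤ η * ((100 / 98 : ℝ) * γ.card) :=
          mul_le_mul_of_nonneg_left p1 hη.le
        have u3 : η * ((P j).card : ℝ) ≤ η * ((100 / 98 : ℝ) * γ.card) :=
          mul_le_mul_of_nonneg_left p2 hη.le
        linarith
      have := mul_le_mul_of_nonneg_left u1 hK
      linarith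
    have f2 : (S.card : ℝ) * η * ((200 / 98 : ℝ) * γ.card) ≤ θ / 10000 * ((200 / 98 : ℝ) * γ.card) :=
      mul_le_mul_of_nonneg_right (by linarith) (by positivity)
    have f3 : η * ((P i').card : ℝ) ≤ θ / 100000 * ((100 / 99) * ((100 / 98 : ℝ) * γ.card)) :=
      mul_le_mul (by linarith) (by linarith) (Nat.cast_nonneg _) (by positivity)
    have f4 : η * ((P j').card : ℝ) ≤ θ / 100000 * ((100 / 99) * ((100 / 98 : ℝ) * γ.card)) :=
      mul_le_mul (by linarith) (by linarith) (Nat.cast_nonneg _) (by positivity)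
    have f5 : θ / 8 * ((97 / 100 : ℝ) * γ.card) ≤ θ / 8 * γ'.card :=
      mul_le_mul_of_nonneg_left h97 (by positivity)
    have f6 : 0 < θ * (γ.card : ℝ) := mul_pos hθ hγpos
    nlinarith
  · intro p hp
    obtain ⟨q, hq, hq1, hq2, rfl⟩ := (hmem p).1 hp
    exact ⟨q, hq, rfl⟩

end SoficAct.Kz
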