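import Pool.Agent.Lib.MP_2d1e68_al.Kz.Spec

/-!
# T acts trivially on the representatives
-/

open Finset Filter Topology

noncomputable section

namespace SoficAct.Kz

private lemma sz5 (h1 : S_Sz) {Γ : Type} [Group Γ] {S T D : Finset Γ} {θ η : ℝ} {A I E : Type}
    [Fintype A] [Fintype I] {φ : Γ → Equiv.Perm A} {P : I → Finset A} {m : I → ℕ}
    {Bd : Finset A} {src tgt : E → I} {γ : E → Finset (A × A)} (hθ : 0 < θ)
    (st : Stage S T D θ η φ P m Bd) (sk : Skel S T θ φ P src tgt γ) (e : E) :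
    0 < ((γ e).card : ℝ) ∧ ((γ e).card : ℝ) ≤ (P (src e)).card ∧
      ((γ e).card : ℝ) ≤ (P (tgt e)).card ∧
      98 * ((P (src e)).card : ℝ) ≤ 100 * ((γ e).card : ℝ) ∧
      98 * ((P (tgt e)).card : ℝ) ≤ 100 * ((γ e).card : ℝ) := by
  have hm := sk.mor e
  obtain ⟨a1, a2, a3, a4⟩ := h1 Γ A φ S T θ η (θ / 64) (P (src e)) (P (tgt e)) (m (src e))
    (m (tgt e)) (γ e) hθ (by linarith) (st.pc _) (st.pc _) (hm.mono st.ST le_rfl)
  have b1 := (st.pc (src e)).lo
  have b2 := (st.pc (tgt e)).lo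
  have b3 : 0 < (γ e).card := card_pos.2 hm.ne
  exact ⟨by exact_mod_cast b3, a3, a4, by linarith, by linarith⟩

private lemma pass_disj {A : Type} (σ : Equiv.Perm A) (P Q R : Finset A)
    (h : ∀ a, a ∈ Q → a ∉ R) : pass σ P Q + pass σ P R ≤ (P.card : ℝ) := by
  classical
  unfold pass
  have h1 : Disjoint (P.filter (fun a => σ a ∈ Q)) (P.filter (fun a => σ a ∈ R)) := by
    rw [Finset.disjoint_left]
    intro a ha hb
    rw [mem_filter] at ha hb
    exact h _ ha.2 hb.2
  have h2 := card_union_of_disjoint h1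
  have h3 : P.filter (fun a => σ a ∈ Q) ∪ P.filter (fun a => σ a ∈ R) ⊆ P := by
    intro a ha
    rw [mem_union, mem_filter, mem_filter] at ha
    tauto
  have h4 := card_le_card h3
  exact_mod_cast (h2 ▸ h4)

private lemma olap_eq {A : Type} (Y Z : Finset A) [DecidablePred (fun a => a ∈ Z)] :
    olap Y Z = ((Y.filter (fun a => a ∈ Z)).card : ℝ) := by
  unfold olap
  congr

private lemma pass2_eq {N A : Type} (φ : N → Equiv.Perm A) (g w : N) (γ γ' : Finset (A × A))
    [DecidablePred (fun p : A × A => (φ g p.1, φ w p.2) ∈ γ')] :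
    pass2 φ g w γ γ' = ((γ.filter (fun p => (φ g p.1, φ w p.2) ∈ γ')).card : ℝ) := by
  unfold pass2
  congr

private lemma pass2_inter {N A : Type} (φ : N → Equiv.Perm A) (g w : N)
    (γ γ' γ'' : Finset (A × A)) :
    pass2 φ g w γ γ' + pass2 φ g w γ γ'' ≤ (γ.card : ℝ) + olap γ' γ'' := by
  classical
  rw [pass2_eq, pass2_eq, olap_eq]
  have e1 : γ.filter (fun p => (φ g p.1, φ w p.2) ∈ γ') ∪
      γ.filter (fun p => (φ g p.1, φ w p.2) ∈ γ'') ⊆ γ := by
    intro a ha
    rw [mem_union, mem_filter, mem_filter] at ha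
    tauto
  have e2 : (γ.filter (fun p => (φ g p.1, φ w p.2) ∈ γ') ∩
      γ.filter (fun p => (φ g p.1, φ w p.2) ∈ γ'')).card ≤
      (γ'.filter (fun a => a ∈ γ'')).card := by
    apply card_le_card_of_injOn (fun p => (φ g p.1, φ w p.2))
    · intro p hp
      rw [mem_coe, mem_inter, mem_filter, mem_filter] at hp
      rw [mem_coe, mem_filter]
      exact ⟨hp.1.2, hp.2.2⟩
    · intro p _ q _ h
      rw [Prod.mk.injEq] at h
      exact Prod.ext ((φ g).injective h.1) ((φ w).injective h.2)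
  have e3 := card_union_add_card_inter (γ.filter (fun p => (φ g p.1, φ w p.2) ∈ γ'))
    (γ.filter (fun p => (φ g p.1, φ w p.2) ∈ γ''))
  have e4 := card_le_card e1
  exact_mod_cast (show (γ.filter (fun p => (φ g p.1, φ w p.2) ∈ γ')).card +
    (γ.filter (fun p => (φ g p.1, φ w p.2) ∈ γ'')).card ≤
    γ.card + (γ'.filter (fun a => a ∈ γ'')).card by omega)

private lemma pass_self {A : Type} (σ : Equiv.Perm A) (P : Finset A) :
    pass σ P P + ((bd σ P).card : ℝ) = P.card := by
  classical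
  unfold pass bd
  exact_mod_cast card_filter_add_card_filter_not (s := P) (fun a => σ a ∈ P)

private lemma pass2_dbl {N A : Type} (φ : N → Equiv.Perm A) (g : N) (γ γ' : Finset (A × A)) :
    pass2 φ g g γ γ' = pass (dbl φ g) γ γ' := by
  unfold pass2 pass
  congr

private lemma bd_le_bs {N A : Type} (φ : N → Equiv.Perm A) {T : Finset N} {n : N} (h : n ∈ T)
    (P : Finset A) : ((bd (φ n) P).card : ℝ) ≤ bs φ T P := by
  unfold bs
  exact single_le_sum (f := fun s => ((bd (φ s) P).card : ℝ)) (fun _ _ => Nat.cast_nonneg _) h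

theorem onee (h1 : S_Sz) : S_One := by
  intro Γ _ S T D θ η ε A I E _ _ _ φ P m Bd src tgt γ par st sk
  classical
  have hθ := par.θ0
  have hθ1 := par.θ1
  have hε0 := par.ε0
  have hε1 := par.ε1
  have hη0 := par.η0
  have hη := par.η1
  constructor
  · intro e
    have hp : ∀ Q : Finset A, pass (φ 1) Q Q = Q.card := by
      intro Q
      unfold pass
      rw [st.one, filter_true_of_mem]
      intro a ha
      exact ha
    have hmv : ∀ Q : Finset A, Mv φ ε 1 Q Q := by
      intro Q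
      have hQ : (0 : ℝ) ≤ Q.card := Nat.cast_nonneg _
      unfold Mv
      rw [hp]
      constructor <;> nlinarith
    refine ⟨hmv _, hmv _, ?_⟩
    have hp2 : pass2 φ 1 1 (γ e) (γ e) = (γ e).card := by
      rw [pass2_eq, st.one, filter_true_of_mem]
      intro a ha
      exact ha
    rw [hp2]
    have hQ : (0 : ℝ) ≤ (γ e).card := Nat.cast_nonneg _
    linarith
  · intro n hn e e' h2
    obtain ⟨c1, c2, c3, c4, c5⟩ := sz5 h1 hθ st sk e
    obtain ⟨d1, d2, d3, d4, d5⟩ := sz5 h1 hθ st sk e'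
    obtain ⟨⟨x1, x2⟩, ⟨x3, x4⟩, x5⟩ := h2
    have hP : 0 < ((P (src e)).card : ℝ) := by linarith
    have u1 := pass_self (φ n) (P (src e))
    have u2 := bd_le_bs φ hn (P (src e))
    have u3 := (st.pc (src e)).bT
    have z6 : η * ((P (src e)).card : ℝ) ≤ 1 / 100000 * ((P (src e)).card : ℝ) :=
      mul_le_mul_of_nonneg_right (by linarith) (Nat.cast_nonneg _)
    have hi : src e' = src e := by
      by_contra hne
      have := pass_disj (φ n) (P (src e)) (P (src e')) (P (src e)) (st.disj _ _ hne)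
      have z3 : (1 - 1 / 100) * ((P (src e)).card : ℝ) ≤ (1 - ε) * ((P (src e)).card : ℝ) :=
        mul_le_mul_of_nonneg_right (by linarith) (Nat.cast_nonneg _)
      linarith
    apply sk.uni
    have v1 := pass_self (dbl φ n) (γ e)
    have v2 := bd_le_bs (dbl φ) hn (γ e)
    have v3 := (sk.mor e).bd
    have v4 := pass2_inter φ n n (γ e) (γ e') (γ e)
    rw [pass2_dbl φ n (γ e) (γ e)] at v4
    have v5 : θ / 64 * ((γ e).card : ℝ) ≤ 1 / 64 * ((γ e).card : ℝ) :=
      mul_le_mul_of_nonneg_right (by linarith) (Nat.cast_nonneg _)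
    unfold Sim
    rw [hi] at d2
    linarith

end SoficAct.Kz
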