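import Pool.Agent.Lib.MP_2d1e68_al.Kz.Spec

/-!
# MP_2d1e68_al, Kz/PM (helper68)
-/

open Finset Filter

noncomputable section

namespace SoficAct.Kz

private theorem mem_bd {A : Type} (σ : Equiv.Perm A) (Y : Finset A) (a : A) :
    a ∈ bd σ Y ↔ a ∈ Y ∧ σ a ∉ Y := by
  classical
  unfold bd
  rw [mem_filter]

open Classical in
private def inBd {A : Type} (Y Z : Finset A) : Finset A := Y.filter fun a => a ∈ Z

private theorem mem_inBd {A : Type} (Y Z : Finset A) (a : A) : a ∈ inBd Y Z ↔ a ∈ Y ∧ a ∈ Z := by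
  classical
  unfold inBd
  rw [mem_filter]

private theorem card_inBd {A : Type} (Y Z : Finset A) : ((inBd Y Z).card : ℝ) = olap Y Z := rfl

open Classical in
private def Qs {A : Type} (σ : Equiv.Perm A) (Y Z : Finset A) : Finset A := Y.filter fun a => σ a ∈ Z

private theorem mem_Qs {A : Type} (σ : Equiv.Perm A) (Y Z : Finset A) (a : A) :
    a ∈ Qs σ Y Z ↔ a ∈ Y ∧ σ a ∈ Z := by
  classical
  unfold Qs
  rw [mem_filter]

private theorem card_Qs {A : Type} (σ : Equiv.Perm A) (Y Z : Finset A) :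
    ((Qs σ Y Z).card : ℝ) = pass σ Y Z := rfl

open Classical in
private def Qi {A : Type} (σ : Equiv.Perm A) (Y Z : Finset A) : Finset A := (Qs σ Y Z).image σ

private theorem mem_Qi {A : Type} (σ : Equiv.Perm A) (Y Z : Finset A) (b : A) :
    b ∈ Qi σ Y Z ↔ ∃ a, a ∈ Y ∧ σ a ∈ Z ∧ σ a = b := by
  classical
  unfold Qi
  rw [mem_image]
  constructor
  · rintro ⟨a, ha, h⟩
    rw [mem_Qs] at ha
    exact ⟨a, ha.1, ha.2, h⟩
  · rintro ⟨a, h1, h2, h3⟩
    exact ⟨a, (mem_Qs _ _ _ _).2 ⟨h1, h2⟩, h3⟩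

private theorem card_Qi {A : Type} (σ : Equiv.Perm A) (Y Z : Finset A) :
    ((Qi σ Y Z).card : ℝ) = pass σ Y Z := by
  classical
  unfold Qi
  rw [card_image_of_injective _ σ.injective]
  rfl

private theorem dsum {ι A : Type} [Fintype ι] (X : ι → Finset A)
    (hX : ∀ i j a, a ∈ X i → a ∈ X j → i = j) (W : Finset A) (hW : ∀ i, X i ⊆ W) :
    ∑ i, (X i).card ≤ W.card := by
  classical
  rw [← card_biUnion]
  · apply card_le_card
    intro a ha
    obtain ⟨i, -, hi⟩ := mem_biUnion.1 ha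
    exact hW i hi
  · intro i _ j _ hij
    change Disjoint (X i) (X j)
    rw [disjoint_left]
    intro a ha hb
    exact hij (hX i j a ha hb)

private theorem srel {ι κ A : Type} [Fintype ι] [Fintype κ] (X : ι → Finset A)
    (Y₁ Y₂ Y₃ : κ → Finset A) (f₁ f₂ f₃ : Equiv.Perm A)
    (hX : ∀ i j a, a ∈ X i → a ∈ X j → i = j)
    (h : ∀ i, ∀ a ∈ X i, (∃ k, f₁ a ∈ Y₁ k) ∨ (∃ k, f₂ a ∈ Y₂ k) ∨ ∃ k, f₃ a ∈ Y₃ k) :
    ∑ i, (X i).card ≤ ∑ k, (Y₁ k).card + ∑ k, (Y₂ k).card + ∑ k, (Y₃ k).card := by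
  classical
  have hc : ∀ (f : Equiv.Perm A) (Y : κ → Finset A),
      ((univ.biUnion Y).image f.symm).card ≤ ∑ k, (Y k).card := by
    intro f Y
    rw [card_image_of_injective _ f.symm.injective]
    exact card_biUnion_le
  refine (dsum X hX ((univ.biUnion Y₁).image f₁.symm ∪ ((univ.biUnion Y₂).image f₂.symm ∪
    (univ.biUnion Y₃).image f₃.symm)) ?_).trans ?_
  · intro i a ha
    have hm : ∀ (f : Equiv.Perm A) (Y : κ → Finset A), (∃ k, f a ∈ Y k) →
        a ∈ (univ.biUnion Y).image f.symm := by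
      rintro f Y ⟨k, hk⟩
      exact mem_image.2 ⟨f a, mem_biUnion.2 ⟨k, mem_univ _, hk⟩, by simp⟩
    rw [mem_union, mem_union]
    rcases h i a ha with h' | h' | h'
    · exact Or.inl (hm _ _ h')
    · exact Or.inr (Or.inl (hm _ _ h'))
    · exact Or.inr (Or.inr (hm _ _ h'))
  · have u1 := card_union_le ((univ.biUnion Y₁).image f₁.symm)
      ((univ.biUnion Y₂).image f₂.symm ∪ (univ.biUnion Y₃).image f₃.symm)
    have u2 := card_union_le ((univ.biUnion Y₂).image f₂.symm) ((univ.biUnion Y₃).image f₃.symm)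
    have u3 := hc f₁ Y₁
    have u4 := hc f₂ Y₂
    have u5 := hc f₃ Y₃
    omega

private theorem conj_sum {Γ : Type} [Group Γ] (S T : Finset Γ) (h : Γ) (f : Γ → ℝ)
    (hf : ∀ t, 0 ≤ f t) (hT : ∀ s ∈ S, h * s * h⁻¹ ∈ T) :
    ∑ s ∈ S, f (h * s * h⁻¹) ≤ ∑ t ∈ T, f t := by
  classical
  have hinj : ∀ s ∈ S, ∀ s' ∈ S, h * s * h⁻¹ = h * s' * h⁻¹ → s = s' := by
    intro s _ s' _ e
    have h3 := mul_right_cancel e
    exact mul_left_cancel h3
  rw [← sum_image (f := f) hinj]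
  refine sum_le_sum_of_subset_of_nonneg ?_ fun _ _ _ => hf _
  intro t ht
  obtain ⟨s, hs, rfl⟩ := mem_image.1 ht
  exact hT s hs

theorem pm : S_PM := by
  classical
  intro Γ _ S T D θ η A I _ _ φ P m Bd g hθ hη st hgD hS1 hS2
  have one' : ∀ a, φ 1 a = a := fun a => by rw [st.one]; rfl
  have hdis : ∀ i j a, a ∈ P i → a ∈ P j → i = j := by
    intro i j a hi hj
    by_contra hne
    exact st.disj i j hne a hi hj
  have hP : ∑ i, ((P i).card : ℝ) ≤ Fintype.card A := by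
    have := dsum P hdis univ (fun i => subset_univ _)
    rw [card_univ] at this
    exact_mod_cast this
  -- a general estimate
  have gen : ∀ (f : Γ → I → ℝ) (h : Γ), (∀ s i, f s i = ((bd (φ (h * s * h⁻¹)) (P i)).card : ℝ)) →
      (∀ s ∈ S, h * s * h⁻¹ ∈ T) →
      ∀ (X : I × I → Finset A), (∀ s ∈ S, ∑ q, ((bd (φ s) (X q)).card : ℝ) ≤
        ∑ i, ((bd (φ s) (P i)).card : ℝ) + ∑ i, olap (P i) Bd + ∑ i, f s i) →
      ∑ q, bs φ S (X q) ≤ (2 + (S.card : ℝ)) * η * (Fintype.card A : ℝ) := by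
    intro f h hf hT X hX
    have e1 : ∑ q, bs φ S (X q) = ∑ s ∈ S, ∑ q, ((bd (φ s) (X q)).card : ℝ) := by
      unfold bs
      exact sum_comm
    have e2 : ∑ s ∈ S, ∑ i, ((bd (φ s) (P i)).card : ℝ) = ∑ i, bs φ S (P i) := by
      unfold bs
      exact sum_comm
    have e3 : ∑ s ∈ S, ∑ i, f s i ≤ ∑ i, bs φ T (P i) := by
      rw [sum_comm]
      refine sum_le_sum fun i _ => ?_
      simp only [hf]
      exact conj_sum S T h (fun t => ((bd (φ t) (P i)).card : ℝ)) (fun _ => Nat.cast_nonneg _) hT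
    have e4 : ∑ i, bs φ S (P i) ≤ η * ∑ i, ((P i).card : ℝ) := by
      rw [mul_sum]
      exact sum_le_sum fun i _ => (bs_mono φ st.ST (P i)).trans (st.pc i).bT
    have e5 : ∑ i, bs φ T (P i) ≤ η * ∑ i, ((P i).card : ℝ) := by
      rw [mul_sum]
      exact sum_le_sum fun i _ => (st.pc i).bT
    have e6 : ∑ i, olap (P i) Bd ≤ η * ∑ i, ((P i).card : ℝ) := by
      rw [mul_sum]
      exact sum_le_sum fun i _ => st.few i
    have e7 : ∑ s ∈ S, ∑ q, ((bd (φ s) (X q)).card : ℝ) ≤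
        ∑ s ∈ S, (∑ i, ((bd (φ s) (P i)).card : ℝ) + ∑ i, olap (P i) Bd + ∑ i, f s i) :=
      sum_le_sum hX
    rw [sum_add_distrib, sum_add_distrib, sum_const, nsmul_eq_mul, e2] at e7
    have e8 : (S.card : ℝ) * ∑ i, olap (P i) Bd ≤ (S.card : ℝ) * (η * ∑ i, ((P i).card : ℝ)) :=
      mul_le_mul_of_nonneg_left e6 (Nat.cast_nonneg _)
    have e9 : (2 + (S.card : ℝ)) * η * ∑ i, ((P i).card : ℝ) ≤
        (2 + (S.card : ℝ)) * η * (Fintype.card A : ℝ) :=
      mul_le_mul_of_nonneg_left hP (by positivity)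
    rw [e1]
    linarith
  -- the sets
  have h1 : ∑ q : I × I, bs φ S (Qs (φ g) (P q.1) (P q.2)) ≤
      (2 + (S.card : ℝ)) * η * (Fintype.card A : ℝ) := by
    refine gen (fun s i => ((bd (φ (g * s * g⁻¹)) (P i)).card : ℝ)) g (fun _ _ => rfl) hS2 _ ?_
    intro s hs
    have key := srel (fun q : I × I => bd (φ s) (Qs (φ g) (P q.1) (P q.2)))
      (fun i => bd (φ s) (P i)) (fun i => inBd (P i) Bd) (fun i => bd (φ (g * s * g⁻¹)) (P i))
      1 1 (φ g) ?_ ?_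
    · simp only [← card_inBd]
      exact_mod_cast key
    · rintro ⟨i, j⟩ ⟨i', j'⟩ a ha ha'
      rw [mem_bd, mem_Qs] at ha ha'
      exact Prod.ext (hdis _ _ _ ha.1.1 ha'.1.1) (hdis _ _ _ ha.1.2 ha'.1.2)
    · rintro ⟨i, j⟩ a ha
      rw [mem_bd, mem_Qs, mem_Qs] at ha
      obtain ⟨⟨ha1, ha2⟩, ha3⟩ := ha
      dsimp only at ha1 ha2 ha3
      by_cases a1 : φ s a ∈ P i
      swap
      · exact Or.inl ⟨i, (mem_bd _ _ _).2 ⟨ha1, a1⟩⟩
      by_cases a2 : a ∈ Bd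
      · exact Or.inr (Or.inl ⟨i, (mem_inBd _ _ _).2 ⟨ha1, a2⟩⟩)
      refine Or.inr (Or.inr ⟨j, (mem_bd _ _ _).2 ⟨ha2, fun a3 => ha3 ⟨a1, ?_⟩⟩⟩)
      have hsD : s ∈ D := st.TD (st.ST hs)
      have htD : g * s * g⁻¹ ∈ D := st.TD (hS2 s hs)
      have m1 := st.mul a a2 1 st.oneD g hgD s hsD
      have m2 := st.mul a a2 1 st.oneD (g * s * g⁻¹) htD g hgD
      rw [one'] at m1 m2
      rw [← m1, show g * s = g * s * g⁻¹ * g by group, m2]
      exact a3
  have h2 : ∑ q : I × I, bs φ S (Qi (φ g) (P q.1) (P q.2)) ≤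
      (2 + (S.card : ℝ)) * η * (Fintype.card A : ℝ) := by
    refine gen (fun s i => ((bd (φ (g⁻¹ * s * g⁻¹⁻¹)) (P i)).card : ℝ)) g⁻¹ (fun _ _ => rfl)
      (fun s hs => by rw [inv_inv]; exact hS1 s hs) _ ?_
    intro s hs
    have key := srel (fun q : I × I => bd (φ s) (Qi (φ g) (P q.1) (P q.2)))
      (fun i => bd (φ s) (P i)) (fun i => inBd (P i) Bd) (fun i => bd (φ (g⁻¹ * s * g⁻¹⁻¹)) (P i))
      1 (φ g).symm (φ g).symm ?_ ?_
    · simp only [← card_inBd]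
      exact_mod_cast key
    · rintro ⟨i, j⟩ ⟨i', j'⟩ b hb hb'
      rw [mem_bd, mem_Qi] at hb hb'
      obtain ⟨⟨a, a1, a2, a3⟩, -⟩ := hb
      obtain ⟨⟨a', a1', a2', a3'⟩, -⟩ := hb'
      have haa : a = a' := (φ g).injective (a3.trans a3'.symm)
      subst haa
      exact Prod.ext (hdis _ _ _ a1 a1') (hdis _ _ _ a2 a2')
    · rintro ⟨i, j⟩ b hb
      rw [mem_bd, mem_Qi] at hb
      obtain ⟨⟨a, a1, a2, a3⟩, hb2⟩ := hb
      dsimp only at a1 a2
      subst a3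
      rw [mem_Qi] at hb2
      by_cases b1 : φ s (φ g a) ∈ P j
      swap
      · exact Or.inl ⟨j, (mem_bd _ _ _).2 ⟨a2, b1⟩⟩
      by_cases b2 : a ∈ Bd
      · refine Or.inr (Or.inl ⟨i, (mem_inBd _ _ _).2 ?_⟩)
        rw [Equiv.symm_apply_apply]
        exact ⟨a1, b2⟩
      refine Or.inr (Or.inr ⟨i, (mem_bd _ _ _).2 ?_⟩)
      rw [Equiv.symm_apply_apply, inv_inv]
      refine ⟨a1, fun b3 => hb2 ⟨φ (g⁻¹ * s * g) a, b3, ?_⟩⟩
      have hsD : s ∈ D := st.TD (st.ST hs)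
      have htD : g⁻¹ * s * g ∈ D := st.TD (hS1 s hs)
      have m1 := st.mul a b2 1 st.oneD s hsD g hgD
      have m2 := st.mul a b2 1 st.oneD g hgD (g⁻¹ * s * g) htD
      rw [one'] at m1 m2
      have m3 : φ g (φ (g⁻¹ * s * g) a) = φ s (φ g a) := by
        rw [← m1, ← m2]
        congr 2
        group
      rw [m3]
      exact ⟨b1, rfl⟩
  -- the claim
  have h3 : ∀ q : I × I, θ * (if pass (φ g) (P q.1) (P q.2) < m q.1 ∨
      pass (φ g) (P q.1) (P q.2) < m q.2 then pass (φ g) (P q.1) (P q.2) else 0) ≤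
      bs φ S (Qs (φ g) (P q.1) (P q.2)) + bs φ S (Qi (φ g) (P q.1) (P q.2)) := by
    rintro ⟨i, j⟩
    dsimp only
    have n1 := bs_nonneg φ S (Qs (φ g) (P i) (P j))
    have n2 := bs_nonneg φ S (Qi (φ g) (P i) (P j))
    split_ifs with hlt
    · rcases (pass_nonneg (φ g) (P i) (P j)).eq_or_lt with h0 | h0
      · rw [← h0, mul_zero]
        linarith
      · rcases hlt with hlt | hlt
        · have := (st.pc i).ex (Qs (φ g) (P i) (P j)) (fun a ha => ((mem_Qs _ _ _ _).1 ha).1)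
            (by rw [← card_pos]; rw [← card_Qs] at h0; exact_mod_cast h0)
            (by rw [← card_Qs] at hlt; exact_mod_cast hlt)
          rw [card_Qs] at this
          linarith
        · have := (st.pc j).ex (Qi (φ g) (P i) (P j))
            (fun b hb => by obtain ⟨a, a1, a2, a3⟩ := (mem_Qi _ _ _ _).1 hb; rw [← a3]; exact a2)
            (by rw [← card_pos]; rw [← card_Qi] at h0; exact_mod_cast h0)
            (by rw [← card_Qi] at hlt; exact_mod_cast hlt)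
          rw [card_Qi] at this
          linarith
    · rw [mul_zero]
      linarith
  unfold sumIf
  rw [mul_sum]
  have h4 := sum_le_sum (s := (univ : Finset (I × I))) fun q _ => h3 q
  rw [sum_add_distrib] at h4
  refine le_trans (le_of_eq ?_) (h4.trans (by linarith))
  refine sum_congr rfl fun q _ => ?_
  congr 1
  dsimp only
  split_ifs <;> rfl

end SoficAct.Kz
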