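import Pool.Agent.Lib.MP_2d1e68_al.Kz.Spec

/-!
# Kz/Quo: the quotient of a group by the elements acting trivially is sofic
-/

set_option autoImplicit false

open Finset Filter Topology

noncomputable section

namespace SoficAct.Kz

namespace QuoAux

/-- A family of properties of the points of `B i` whose proportion tends to zero. -/
def Ngl {ι : Type} (U : Filter ι) (B : ι → Type) [∀ i, Fintype (B i)] (P : ∀ i, B i → Prop) :
    Prop := ∀ ε : ℝ, 0 < ε → ∀ᶠ i in U, frac (P i) ≤ ε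

section neg

variable {ι : Type} {U : Filter ι} {B : ι → Type} [∀ i, Fintype (B i)]

private lemma Ngl.mono {P Q : ∀ i, B i → Prop} (hQ : Ngl U B Q) (h : ∀ i b, P i b → Q i b) :
    Ngl U B P := fun ε hε => (hQ ε hε).mono fun i hi => (frac_mono (h i)).trans hi

private lemma Ngl.or {P Q : ∀ i, B i → Prop} (hP : Ngl U B P) (hQ : Ngl U B Q) :
    Ngl U B (fun i b => P i b ∨ Q i b) := by
  intro ε hε
  filter_upwards [hP (ε / 2) (by linarith), hQ (ε / 2) (by linarith)] with i h1 h2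
  exact (frac_or _ _).trans (by linarith)

private lemma Ngl.perm {P : ∀ i, B i → Prop} (hP : Ngl U B P) (σ : ∀ i, Equiv.Perm (B i)) :
    Ngl U B (fun i b => P i (σ i b)) := by
  intro ε hε
  filter_upwards [hP ε hε] with i h1
  rw [frac_perm (P i) (σ i)]
  exact h1

end neg

private lemma frac_compl' {A : Type} [Fintype A] [Nonempty A] (P : A → Prop) :
    frac (fun a => ¬ P a) = 1 - frac P := by
  classical
  have hc : (0 : ℝ) < Fintype.card A := by exact_mod_cast Fintype.card_pos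
  rw [frac_eq, frac_eq, eq_sub_iff_add_eq, ← add_div, div_eq_one_iff_eq hc.ne']
  have h := card_filter_add_card_filter_not (s := (univ : Finset A)) P
  rw [card_univ] at h
  have h2 : ((univ.filter P).card : ℝ) + ((univ.filter (fun a => ¬ P a)).card : ℝ)
      = Fintype.card A := by exact_mod_cast h
  linarith

private lemma frac_and_prod {A C : Type} [Fintype A] [Fintype C] (P : A → Prop) (Q : C → Prop) :
    frac (fun p : A × C => P p.1 ∧ Q p.2) = frac P * frac Q := by
  classical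
  rw [frac_eq, frac_eq, frac_eq]
  have h1 : (univ.filter (fun p : A × C => P p.1 ∧ Q p.2)) =
      (univ.filter P) ×ˢ (univ.filter Q) := by
    ext p
    simp
  rw [h1, card_product, Fintype.card_prod]
  push_cast
  exact (div_mul_div_comm _ _ _ _).symm

/-- Powers of almost actions. -/
private lemma amp (Q X : Type) [Fintype X] [Nonempty X] (θ : Q → Equiv.Perm X) (k : ℕ) :
    ∃ (C : Type) (_ : Fintype C) (_ : Nonempty C) (Θ : Q → Equiv.Perm C),
      (∀ q, θ q = 1 → Θ q = 1) ∧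
      (∀ q, frac (fun c => Θ q c = c) ≤ (frac (fun x => θ q x = x)) ^ k) ∧
      ∀ q q' q'', frac (fun c => Θ q c ≠ Θ q' (Θ q'' c)) ≤
        (k : ℝ) * frac (fun x => θ q x ≠ θ q' (θ q'' x)) := by
  induction k with
  | zero =>
    refine ⟨Unit, inferInstance, inferInstance, fun _ => 1, fun _ _ => rfl, fun q => ?_,
      fun q q' q'' => ?_⟩
    · rw [pow_zero]
      exact frac_le_one _
    · rw [frac_false (fun c hc => hc rfl)]
      simp
  | succ k ih =>
    obtain ⟨C, fC, nC, Θ, h1, h2, h3⟩ := ih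
    refine ⟨X × C, inferInstance, inferInstance, fun q => Equiv.prodCongr (θ q) (Θ q),
      fun q hq => ?_, fun q => ?_, fun q q' q'' => ?_⟩
    · show Equiv.prodCongr (θ q) (Θ q) = 1
      rw [hq, h1 q hq]
      rfl
    · have e : (fun p : X × C => (Equiv.prodCongr (θ q) (Θ q)) p = p) =
          fun p : X × C => θ q p.1 = p.1 ∧ Θ q p.2 = p.2 := by
        funext p
        apply propext
        show (θ q p.1, Θ q p.2) = p ↔ _
        rw [Prod.ext_iff]
      have e' : frac (fun p : X × C => θ q p.1 = p.1 ∧ Θ q p.2 = p.2) =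
          frac (fun x => θ q x = x) * frac (fun c => Θ q c = c) :=
        frac_and_prod (fun x => θ q x = x) (fun c => Θ q c = c)
      show frac (fun p : X × C => (Equiv.prodCongr (θ q) (Θ q)) p = p) ≤ _
      rw [e, e', pow_succ']
      exact mul_le_mul_of_nonneg_left (h2 q) (frac_nonneg _)
    · have e : ∀ p : X × C, (Equiv.prodCongr (θ q) (Θ q)) p ≠
          (Equiv.prodCongr (θ q') (Θ q')) ((Equiv.prodCongr (θ q'') (Θ q'')) p) →
          θ q p.1 ≠ θ q' (θ q'' p.1) ∨ Θ q p.2 ≠ Θ q' (Θ q'' p.2) := by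
        intro p hp
        by_contra hcon
        push Not at hcon
        exact hp (Prod.ext hcon.1 hcon.2)
      refine (frac_mono e).trans ((frac_or _ _).trans ?_)
      have f1 : frac (fun p : X × C => θ q p.1 ≠ θ q' (θ q'' p.1)) =
          frac (fun x => θ q x ≠ θ q' (θ q'' x)) :=
        frac_fst (fun x => θ q x ≠ θ q' (θ q'' x))
      have f2 : frac (fun p : X × C => Θ q p.2 ≠ Θ q' (Θ q'' p.2)) =
          frac (fun c => Θ q c ≠ Θ q' (Θ q'' c)) :=
        frac_snd (fun c => Θ q c ≠ Θ q' (Θ q'' c))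
      rw [f1, f2]
      push_cast
      have := h3 q q' q''
      linarith

section almost

variable {Γ ι : Type} [Group Γ] {U : Filter ι} {B : ι → Type} [∀ i, Fintype (B i)]
  {ψ : ∀ i, Γ → Equiv.Perm (B i)}

/-- `w` acts almost trivially. -/
def Sm (U : Filter ι) (B : ι → Type) [∀ i, Fintype (B i)] (ψ : ∀ i, Γ → Equiv.Perm (B i))
    (w : Γ) : Prop := Ngl U B (fun i b => ψ i w b ≠ b)

variable (hone : ∀ i, ψ i 1 = 1)
  (hmul : ∀ g h : Γ, Ngl U B (fun i b => ψ i (g * h) b ≠ ψ i g (ψ i h b)))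

include hone in
private lemma sm_one : Sm U B ψ 1 := by
  intro ε hε
  refine Eventually.of_forall fun i => ?_
  rw [frac_false]
  · exact hε.le
  · intro b hb
    apply hb
    rw [hone i]
    rfl

include hmul in
private lemma sm_mul {g h : Γ} (hg : Sm U B ψ g) (hh : Sm U B ψ h) : Sm U B ψ (g * h) := by
  refine Ngl.mono ((hmul g h).or (hh.or hg)) fun i b hb => ?_
  by_contra hcon
  push Not at hcon
  obtain ⟨h1, h2, h3⟩ := hcon
  exact hb (by rw [h1, h2, h3])

include hone hmul in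
private lemma sm_inv {g : Γ} (hg : Sm U B ψ g) : Sm U B ψ g⁻¹ := by
  refine Ngl.mono ((hmul g g⁻¹).or (Ngl.perm hg (fun i => ψ i g⁻¹))) fun i b hb => ?_
  by_contra hcon
  push Not at hcon
  obtain ⟨h1, h2⟩ := hcon
  apply hb
  rw [mul_inv_cancel, hone i] at h1
  have h3 : b = ψ i g (ψ i g⁻¹ b) := h1
  rw [h2] at h3
  exact h3.symm

include hone hmul in
private lemma sm_conj {h : Γ} (hh : Sm U B ψ h) (g : Γ) : Sm U B ψ (g * h * g⁻¹) := by
  refine Ngl.mono ((hmul (g * h) g⁻¹).or ((Ngl.perm (hmul g h) (fun i => ψ i g⁻¹)).or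
    ((Ngl.perm hh (fun i => ψ i g⁻¹)).or (hmul g g⁻¹)))) fun i b hb => ?_
  by_contra hcon
  push Not at hcon
  obtain ⟨h1, h2, h3, h4⟩ := hcon
  apply hb
  rw [h1, h2, h3, ← h4, mul_inv_cancel, hone i]
  rfl

include hmul in
/-- Multiplicativity up to an element acting almost trivially. -/
private lemma sm_err {a b c r : Γ} (h : a * r = b * c) (hr : Sm U B ψ r) :
    Ngl U B (fun i x => ψ i a x ≠ ψ i b (ψ i c x)) := by
  refine Ngl.mono ((hmul a r).or (hr.or (hmul b c))) fun i x hx => ?_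
  by_contra hcon
  push Not at hcon
  obtain ⟨h1, h2, h3⟩ := hcon
  apply hx
  rw [← h3, ← h, h1, h2]

end almost

end QuoAux

open QuoAux

theorem quo : S_Quo := by
  classical
  intro Γ _ N K π hππ hNπ hm
  choose B fB nB ψ hone h2 h3 h4 h5 using
    fun i : Finset Γ × ℕ => hm i.1 (1 / ((i.2 : ℝ) + 1)) (by positivity)
  obtain ⟨U, hU⟩ : ∃ U : Ultrafilter (Finset Γ × ℕ), (U : Filter (Finset Γ × ℕ)) ≤ atTop :=
    ⟨Ultrafilter.of atTop, Ultrafilter.of_le _⟩
  -- eventually the finite set is large and the error is small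
  have hev : ∀ (F : Finset Γ) (δ : ℝ), 0 < δ →
      ∀ᶠ i in (U : Filter (Finset Γ × ℕ)), F ⊆ i.1 ∧ 1 / ((i.2 : ℝ) + 1) ≤ δ := by
    intro F δ hδ
    obtain ⟨n, hn⟩ := exists_nat_gt (1 / δ)
    refine hU ((eventually_ge_atTop (F, n)).mono fun i hi => ⟨hi.1, ?_⟩)
    have h1 : (n : ℝ) ≤ (i.2 : ℝ) := by exact_mod_cast hi.2
    have h2 : 1 / δ ≤ (i.2 : ℝ) + 1 := by linarith
    rw [div_le_iff₀ (by positivity)]
    rw [div_le_iff₀ hδ] at h2
    linarith
  have hmul : ∀ g h : Γ, Ngl (U : Filter (Finset Γ × ℕ)) B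
      (fun i b => ψ i (g * h) b ≠ ψ i g (ψ i h b)) := by
    intro g h ε hε
    filter_upwards [hev {g, h} ε hε] with i hi
    exact (h2 i g (hi.1 (by simp)) h (hi.1 (by simp))).trans hi.2
  -- the normal subgroup
  obtain ⟨R, hR⟩ : ∃ R : Subgroup Γ, ∀ w, w ∈ R ↔
      Sm (U : Filter (Finset Γ × ℕ)) B ψ w ∧ Sm (U : Filter (Finset Γ × ℕ)) B ψ (π w) :=
    ⟨{ carrier := {w | Sm (U : Filter (Finset Γ × ℕ)) B ψ w ∧
          Sm (U : Filter (Finset Γ × ℕ)) B ψ (π w)}
       mul_mem' := fun {a b} ha hb => ⟨sm_mul hmul ha.1 hb.1, by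
        rw [map_mul]
        exact sm_mul hmul ha.2 hb.2⟩
       one_mem' := ⟨sm_one hone, by
        rw [map_one]
        exact sm_one hone⟩
       inv_mem' := fun {a} ha => ⟨sm_inv hone hmul ha.1, by
        rw [map_inv]
        exact sm_inv hone hmul ha.2⟩ }, fun w => Iff.rfl⟩
  have hRn : R.Normal := by
    refine ⟨fun n hn g => ?_⟩
    rw [hR] at hn ⊢
    refine ⟨sm_conj hone hmul hn.1 g, ?_⟩
    rw [map_mul, map_mul, map_inv]
    exact sm_conj hone hmul hn.2 (π g)
  refine ⟨R, hRn, ?_, ?_, ?_⟩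
  · intro n hn
    have hs : Sm (U : Filter (Finset Γ × ℕ)) B ψ n := by
      intro ε hε
      filter_upwards [hev {n} ε hε] with i hi
      exact (h3 i n hn (hi.1 (by simp))).trans hi.2
    rw [hR]
    refine ⟨hs, ?_⟩
    rw [hNπ n hn]
    exact hs
  · intro r hr
    rw [hR] at hr
    -- an element acting almost trivially cannot have few fixed points
    have key : ∀ w : Γ, Sm (U : Filter (Finset Γ × ℕ)) B ψ w →
        ¬ ∀ i : Finset Γ × ℕ, w ∈ i.1 → frac (fun b => ψ i w b = b) ≤ 3 / 4 := by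
      intro w hw hcon
      obtain ⟨i, hi1, hi2⟩ := ((hw (1 / 8) (by norm_num)).and (hev {w} 1 one_pos)).exists
      have e1 := hcon i (hi2.1 (by simp))
      have e2 := frac_compl' (fun b => ψ i w b = b)
      have e3 : frac (fun b => ¬ ψ i w b = b) ≤ 1 / 8 := hi1
      rw [e2] at e3
      linarith
    have hc : r * (π r)⁻¹ = 1 := by
      by_contra hne
      refine key (r * (π r)⁻¹) (sm_mul hmul hr.1 (sm_inv hone hmul hr.2)) fun i hi => ?_
      refine h4 i _ hi ?_ hne
      rw [map_mul, map_inv, hππ, mul_inv_cancel]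
    have hπr : π r = r := (mul_inv_eq_one.1 hc).symm
    refine ⟨hπr, ?_⟩
    by_contra hK
    exact key r hr.1 fun i hi => h5 i r hi hπr hK
  · intro F ε hε
    -- a section
    obtain ⟨σ, hσ1, hσ⟩ : ∃ σ : Γ ⧸ R → Γ, σ 1 = 1 ∧ ∀ q, ((σ q : Γ) : Γ ⧸ R) = q := by
      refine ⟨fun q => if q = 1 then 1 else Quotient.out q, if_pos rfl, fun q => ?_⟩
      show (((if q = 1 then 1 else Quotient.out q : Γ) : Γ) : Γ ⧸ R) = q
      by_cases hq : q = 1
      · rw [if_pos hq, hq]
        rfl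
      · rw [if_neg hq]
        exact Quotient.out_eq' q
    let θ : ∀ i : Finset Γ × ℕ, Γ ⧸ R → Equiv.Perm (B i × B i) := fun i q =>
      Equiv.prodCongr (ψ i (σ q)) (ψ i (π (σ q)))
    -- nontrivial elements move many points
    have hmove : ∀ q ∈ F, ∀ᶠ c : ℝ in 𝓝[>] 0, q ≠ 1 →
        ∀ᶠ i in (U : Filter (Finset Γ × ℕ)), c < frac (fun p => θ i q p ≠ p) := by
      intro q _
      by_cases hq : q = 1
      · exact Eventually.of_forall fun c hc => absurd hq hc
      have hnot : ¬ (Sm (U : Filter (Finset Γ × ℕ)) B ψ (σ q) ∧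
          Sm (U : Filter (Finset Γ × ℕ)) B ψ (π (σ q))) := by
        rw [← hR]
        intro hmem
        apply hq
        rw [← hσ q]
        exact (QuotientGroup.eq_one_iff _).2 hmem
      have hex : ∃ c₀ : ℝ, 0 < c₀ ∧ ∀ᶠ i in (U : Filter (Finset Γ × ℕ)),
          c₀ < frac (fun p => θ i q p ≠ p) := by
        rw [not_and_or] at hnot
        have hgen : ∀ w : Γ, ¬ Sm (U : Filter (Finset Γ × ℕ)) B ψ w → ∃ c₀ : ℝ, 0 < c₀ ∧
            ∀ᶠ i in (U : Filter (Finset Γ × ℕ)), c₀ < frac (fun b => ψ i w b ≠ b) := by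
          intro w hw
          obtain ⟨c₀, hw2⟩ := not_forall.1 hw
          obtain ⟨hc₀, hc⟩ := Classical.not_imp.1 hw2
          refine ⟨c₀, hc₀, ?_⟩
          exact (Ultrafilter.eventually_not.2 hc).mono fun i hi => not_le.1 hi
        rcases hnot with hn | hn
        · obtain ⟨c₀, hc₀, hc⟩ := hgen _ hn
          refine ⟨c₀, hc₀, hc.mono fun i hi => hi.trans_le ?_⟩
          have e1 : frac (fun p : B i × B i => ψ i (σ q) p.1 ≠ p.1) =
              frac (fun b => ψ i (σ q) b ≠ b) := frac_fst (fun b => ψ i (σ q) b ≠ b)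
          rw [← e1]
          exact frac_mono fun p hp h' => hp (congrArg Prod.fst h')
        · obtain ⟨c₀, hc₀, hc⟩ := hgen _ hn
          refine ⟨c₀, hc₀, hc.mono fun i hi => hi.trans_le ?_⟩
          have e1 : frac (fun p : B i × B i => ψ i (π (σ q)) p.2 ≠ p.2) =
              frac (fun b => ψ i (π (σ q)) b ≠ b) := frac_snd (fun b => ψ i (π (σ q)) b ≠ b)
          rw [← e1]
          exact frac_mono fun p hp h' => hp (congrArg Prod.snd h')
      obtain ⟨c₀, hc₀, hc⟩ := hex
      have : Set.Iio c₀ ∈ 𝓝[>] (0 : ℝ) := mem_nhdsWithin_of_mem_nhds (Iio_mem_nhds hc₀)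
      filter_upwards [this] with c hcc _
      exact hc.mono fun i hi => lt_trans hcc hi
    have hmove' := (eventually_all_finset F).2 hmove
    have hIoc : Set.Ioo (0 : ℝ) 1 ∈ 𝓝[>] (0 : ℝ) := Ioo_mem_nhdsGT one_pos
    obtain ⟨c, hcF, hc⟩ := (hmove'.and hIoc).exists
    -- the exponent
    obtain ⟨k, hk⟩ := exists_pow_lt_of_lt_one hε (show 1 - c < 1 by linarith [hc.1])
    have hcF' : ∀ᶠ i in (U : Filter (Finset Γ × ℕ)), ∀ q ∈ F, q ≠ 1 →
        c < frac (fun p => θ i q p ≠ p) := by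
      rw [eventually_all_finset]
      intro q hq
      by_cases h1 : q = 1
      · exact Eventually.of_forall fun i h => absurd h1 h
      · exact (hcF q hq h1).mono fun i hi _ => hi
    -- multiplicativity
    have herr : ∀ q q' : Γ ⧸ R, ∀ᶠ i in (U : Filter (Finset Γ × ℕ)),
        frac (fun p => θ i (q * q') p ≠ θ i q (θ i q' p)) ≤ ε / (2 * ((k : ℝ) + 1)) := by
      intro q q'
      have hr : (σ (q * q'))⁻¹ * (σ q * σ q') ∈ R := by
        rw [← QuotientGroup.eq_one_iff]
        show (((σ (q * q') : Γ) : Γ ⧸ R))⁻¹ * (((σ q : Γ) : Γ ⧸ R) * ((σ q' : Γ) : Γ ⧸ R)) = 1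
        rw [hσ, hσ, hσ, inv_mul_cancel]
      rw [hR] at hr
      have e1 : σ (q * q') * ((σ (q * q'))⁻¹ * (σ q * σ q')) = σ q * σ q' :=
        mul_inv_cancel_left _ _
      have e2 : π (σ (q * q')) * π ((σ (q * q'))⁻¹ * (σ q * σ q')) = π (σ q) * π (σ q') := by
        rw [← map_mul, e1, map_mul]
      have n1 := sm_err hmul e1 hr.1
      have n2 := sm_err hmul e2 hr.2
      have hpos : 0 < ε / (2 * ((k : ℝ) + 1)) := by positivity
      filter_upwards [n1 _ (half_pos hpos), n2 _ (half_pos hpos)] with i hi1 hi2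
      have e3 : ∀ p : B i × B i, θ i (q * q') p ≠ θ i q (θ i q' p) →
          ψ i (σ (q * q')) p.1 ≠ ψ i (σ q) (ψ i (σ q') p.1) ∨
          ψ i (π (σ (q * q'))) p.2 ≠ ψ i (π (σ q)) (ψ i (π (σ q')) p.2) := by
        intro p hp
        by_contra hcon
        push Not at hcon
        exact hp (Prod.ext hcon.1 hcon.2)
      refine (frac_mono e3).trans ((frac_or _ _).trans ?_)
      have f1 : frac (fun p : B i × B i => ψ i (σ (q * q')) p.1 ≠
          ψ i (σ q) (ψ i (σ q') p.1)) =
          frac (fun x => ψ i (σ (q * q')) x ≠ ψ i (σ q) (ψ i (σ q') x)) :=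
        frac_fst (fun x => ψ i (σ (q * q')) x ≠ ψ i (σ q) (ψ i (σ q') x))
      have f2 : frac (fun p : B i × B i => ψ i (π (σ (q * q'))) p.2 ≠
          ψ i (π (σ q)) (ψ i (π (σ q')) p.2)) =
          frac (fun x => ψ i (π (σ (q * q'))) x ≠ ψ i (π (σ q)) (ψ i (π (σ q')) x)) :=
        frac_snd (fun x => ψ i (π (σ (q * q'))) x ≠ ψ i (π (σ q)) (ψ i (π (σ q')) x))
      rw [f1, f2]
      linarith
    have herr' : ∀ᶠ i in (U : Filter (Finset Γ × ℕ)), ∀ q ∈ F, ∀ q' ∈ F,
        frac (fun p => θ i (q * q') p ≠ θ i q (θ i q' p)) ≤ ε / (2 * ((k : ℝ) + 1)) := by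
      rw [eventually_all_finset]
      intro q _
      rw [eventually_all_finset]
      intro q' _
      exact herr q q'
    obtain ⟨i, hi1, hi2⟩ := (hcF'.and herr').exists
    obtain ⟨C, fC, nC, Θ, t1, t2, t3⟩ := amp (Γ ⧸ R) (B i × B i) (θ i) k
    refine ⟨C, fC, nC, Θ, ?_, ?_, ?_⟩
    · apply t1
      show Equiv.prodCongr (ψ i (σ 1)) (ψ i (π (σ 1))) = 1
      rw [hσ1, map_one, hone i]
      rfl
    · intro g hg h hh
      have e := (t3 (g * h) g h).trans (mul_le_mul_of_nonneg_left (hi2 g hg h hh)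
        (Nat.cast_nonneg k))
      refine lt_of_le_of_lt (show hamming (Θ (g * h)) (Θ g * Θ h) ≤ _ from e) ?_
      have hk1 : (0 : ℝ) < (k : ℝ) + 1 := by positivity
      rw [mul_div_assoc', div_lt_iff₀ (by positivity)]
      nlinarith
    · intro g hg hg1
      have e1 := t2 g
      have e2 := hi1 g hg hg1
      have e3 := frac_compl' (fun p => θ i g p = p)
      have e4 : frac (fun p => ¬ θ i g p = p) = frac (fun p => θ i g p ≠ p) := rfl
      rw [e4] at e3
      have e5 : frac (fun p => θ i g p = p) ≤ 1 - c := by linarith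
      have e6 : frac (fun x => Θ g x = x) < ε :=
        lt_of_le_of_lt (e1.trans (pow_le_pow_left₀ (frac_nonneg _) e5 k)) hk
      have e7 := frac_compl' (fun x => Θ g x = x)
      have e8 : hamming 1 (Θ g) = frac (fun x => ¬ Θ g x = x) := by
        unfold hamming
        congr 1
        funext x
        apply propext
        show x ≠ Θ g x ↔ ¬ Θ g x = x
        exact ⟨fun h h' => h h'.symm, fun h h' => h h'.symm⟩
      rw [e8, e7]
      linarith

end SoficAct.Kz
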