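import Pool.Agent.Lib.MP_2d1e68_al.Kz.Spec

/-!
# MP_2d1e68_al, Kz/Rep (helper68)
-/

open Finset Filter

noncomputable section

namespace SoficAct.Kz

private theorem olap_pos {A : Type} {X Y : Finset A} (h : 0 < olap X Y) :
    ∃ p, p ∈ X ∧ p ∈ Y := by
  classical
  by_contra hcon
  push Not at hcon
  have h0 : olap X Y = 0 := by
    unfold olap
    rw [filter_eq_empty_iff.2 fun {a} ha => hcon a ha]
    simp
  linarith

theorem rep (h1 : S_Sz) (h2 : S_Di) : S_Rep := by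
  classical
  intro Γ _ S T D θ η A I _ _ φ P m Bd hθ st
  -- sizes
  have sz : ∀ i j (δ : Finset (A × A)), Mor φ S (θ / 8) (P i) (P j) δ →
      (δ.card : ℝ) ≤ (P i).card ∧ 98 * ((P i).card : ℝ) ≤ 100 * (δ.card : ℝ) := by
    intro i j δ hδ
    obtain ⟨z1, -, z2, -⟩ := h1 Γ A φ S T θ η (θ / 8) (P i) (P j) (m i) (m j) δ hθ (by linarith)
      (st.pc i) (st.pc j) hδ
    exact ⟨z2, by linarith [(st.pc i).lo]⟩
  -- similar almost isomorphisms
  have same : ∀ i j i' j' (δ δ' : Finset (A × A)), Mor φ S (θ / 8) (P i) (P j) δ →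
      Mor φ S (θ / 8) (P i') (P j') δ' → Sim δ δ' →
      i = i' ∧ j = j' ∧ 98 * ((P i).card : ℝ) ≤ 100 * olap δ δ' := by
    intro i j i' j' δ δ' hδ hδ' hsim
    unfold Sim at hsim
    have hpos : (0 : ℝ) < δ.card := by exact_mod_cast hδ.ne.card_pos
    have hol : 0 < olap δ δ' := by linarith
    obtain ⟨p, hp1, hp2⟩ := olap_pos hol
    have hi : i = i' := by
      by_contra hne
      exact st.disj i i' hne p.1 (hδ.left p hp1) (hδ'.left p hp2)
    have hj : j = j' := by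
      by_contra hne
      exact st.disj j j' hne p.2 (hδ.right p hp1) (hδ'.right p hp2)
    subst hi hj
    refine ⟨rfl, rfl, ?_⟩
    have h3 := (sz i j δ hδ).2
    have h4 := h2 Γ A φ S T θ η (P i) (P j) (m i) δ δ' hθ (st.pc i) hδ hδ' (by linarith)
    linarith [(st.pc i).lo]
  have symm' : ∀ i j i' j' (δ δ' : Finset (A × A)), Mor φ S (θ / 8) (P i) (P j) δ →
      Mor φ S (θ / 8) (P i') (P j') δ' → Sim δ δ' → Sim δ' δ := by
    intro i j i' j' δ δ' hδ hδ' hsim
    obtain ⟨rfl, rfl, h3⟩ := same i j i' j' δ δ' hδ hδ' hsim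
    unfold Sim
    rw [olap_comm δ' δ]
    linarith [(sz i j δ' hδ').1, olap_nonneg δ δ']
  have trans' : ∀ i j i' j' i'' j'' (δ δ' δ'' : Finset (A × A)),
      Mor φ S (θ / 8) (P i) (P j) δ → Mor φ S (θ / 8) (P i') (P j') δ' →
      Mor φ S (θ / 8) (P i'') (P j'') δ'' → Sim δ δ' → Sim δ' δ'' → Sim δ δ'' := by
    intro i j i' j' i'' j'' δ δ' δ'' hδ hδ' hδ'' h3 h4
    obtain ⟨rfl, rfl, h5⟩ := same i j i' j' δ δ' hδ hδ' h3
    obtain ⟨rfl, rfl, h6⟩ := same i j i'' j'' δ' δ'' hδ' hδ'' h4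
    have h7 := olap_inter δ δ' δ''
    rw [olap_comm δ' δ] at h7
    unfold Sim
    have h8 := (sz i j δ hδ).1
    have h9 := (sz i j δ' hδ').1
    linarith [Nat.cast_nonneg (α := ℝ) (P i).card]
  let X := {x : I × I × Finset (A × A) // Mor φ T (θ / 64) (P x.1) (P x.2.1) x.2.2}
  have hX : ∀ x : X, Mor φ S (θ / 8) (P x.1.1) (P x.1.2.1) x.1.2.2 := fun x =>
    x.2.mono st.ST (by linarith)
  let r : Setoid X :=
    { r := fun x y => Sim x.1.2.2 y.1.2.2
      iseqv :=
        { refl := fun x => by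
            unfold Sim
            rw [olap_self]
            linarith [Nat.cast_nonneg (α := ℝ) x.1.2.2.card]
          symm := fun {x y} h => symm' _ _ _ _ _ _ (hX x) (hX y) h
          trans := fun {x y z} h h' => trans' _ _ _ _ _ _ _ _ _ (hX x) (hX y) (hX z) h h' } }
  haveI : Finite X := inferInstance
  haveI : Finite (Quotient r) := inferInstance
  refine ⟨Quotient r, Fintype.ofFinite _, fun e => e.out.1.1, fun e => e.out.1.2.1,
    fun e => e.out.1.2.2, ⟨fun e => e.out.2, ?_, ?_⟩⟩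
  · intro i j δ hδ
    obtain ⟨γ', hγ', hle⟩ := st.gi i j δ hδ
    have hγS : Mor φ S (θ / 8) (P i) (P j) γ' := hγ'.mono st.ST (by linarith)
    have hsim : Sim δ γ' := by
      unfold Sim
      linarith [olap_nonneg δ γ']
    let x : X := ⟨(i, j, γ'), hγ'⟩
    have hout : Sim (Quotient.mk r x).out.1.2.2 γ' := Quotient.mk_out (s := r) x
    have hsim' := symm' _ _ _ _ _ _ (hX (Quotient.mk r x).out) hγS hout
    obtain ⟨e1, e2, -⟩ := same _ _ _ _ _ _ hγS (hX (Quotient.mk r x).out) hsim'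
    refine ⟨Quotient.mk r x, e1.symm, e2.symm, ?_⟩
    have h3 := trans' _ _ _ _ _ _ _ _ _ hδ hγS (hX (Quotient.mk r x).out) hsim hsim'
    exact (same _ _ _ _ _ _ hδ (hX (Quotient.mk r x).out) h3).2.2
  · intro e e' h
    exact Quotient.out_equiv_out.1 h

end SoficAct.Kz
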