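import Pool.Agent.Lib.MP_2d1e68_al.Kz.Spec

/-!
# Sz: size of almost isomorphisms (helper82)
-/

open Finset Filter

noncomputable section

namespace SoficAct.Kz

private lemma sz_mem_bd {A : Type} (σ : Equiv.Perm A) (Y : Finset A) (a : A) :
    a ∈ bd σ Y ↔ a ∈ Y ∧ σ a ∉ Y := by
  classical
  unfold bd
  rw [mem_filter]

/-- The projection of an almost isomorphism to one side. -/
private lemma sz_side {N A : Type} (φ : N → Equiv.Perm A) (S T : Finset N) (θ η τ : ℝ)
    (P : Finset A) (m : ℕ) (γ : Finset (A × A)) (π : A × A → A)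
    (hπ : ∀ s p, π (dbl φ s p) = φ s (π p)) (hτ : τ ≤ θ) (hP : Piece φ S T θ η P m)
    (hne : γ.Nonempty) (hmem : ∀ p ∈ γ, π p ∈ P) (hinj : ∀ p ∈ γ, ∀ q ∈ γ, π p = π q → p = q)
    (hbd : bs (dbl φ) S γ ≤ τ * (γ.card : ℝ)) :
    (m : ℝ) ≤ γ.card ∧ (γ.card : ℝ) ≤ P.card := by
  classical
  have hcard : (γ.image π).card = γ.card :=
    card_image_of_injOn fun p hp q hq h => hinj p hp q hq h
  have hsub : γ.image π ⊆ P := by
    intro a ha
    obtain ⟨p, hp, rfl⟩ := mem_image.1 ha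
    exact hmem p hp
  have hbs : bs φ S (γ.image π) ≤ bs (dbl φ) S γ := by
    unfold bs
    refine sum_le_sum fun s _ => ?_
    have h1 : bd (φ s) (γ.image π) ⊆ (bd (dbl φ s) γ).image π := by
      intro a ha
      rw [sz_mem_bd] at ha
      obtain ⟨p, hp, rfl⟩ := mem_image.1 ha.1
      refine mem_image.2 ⟨p, ?_, rfl⟩
      rw [sz_mem_bd]
      refine ⟨hp, fun h => ha.2 ?_⟩
      exact mem_image.2 ⟨_, h, hπ s p⟩
    exact_mod_cast (card_le_card h1).trans card_image_le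
  constructor
  · by_contra h
    push Not at h
    have h1 : (γ.image π).card < m := by
      rw [hcard]
      exact_mod_cast h
    have h2 := hP.ex (γ.image π) hsub (hne.image π) h1
    rw [hcard] at h2
    have h3 : τ * (γ.card : ℝ) ≤ θ * (γ.card : ℝ) :=
      mul_le_mul_of_nonneg_right hτ (Nat.cast_nonneg _)
    linarith
  · rw [← hcard]
    exact_mod_cast card_le_card hsub

/-- **Sz.** -/
theorem sz : S_Sz := by
  intro N A φ S T θ η τ P Q m m' γ _ hτ hP hQ hγ
  have h1 := sz_side φ S T θ η τ P m γ Prod.fst (fun _ _ => rfl) hτ hP hγ.ne hγ.left hγ.inj1 hγ.bd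
  have h2 := sz_side φ S T θ η τ Q m' γ Prod.snd (fun _ _ => rfl) hτ hQ hγ.ne hγ.right hγ.inj2
    hγ.bd
  exact ⟨h1.1, h2.1, h1.2, h2.2⟩

end SoficAct.Kz
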