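import Pool.Agent.Lib.MP_2d1e68_al.Kz.Spec

open Finset Filter Topology

noncomputable section

namespace SoficAct.Kz

theorem ti (h1 : S_TI1) (h2 : S_Lev) : S_TI := by
  classical
  intro N _ S κ hκ hK T θ η hθ hη
  set k : ℝ := (T.card : ℝ) with hk
  have hk0 : 0 ≤ k := by rw [hk]; positivity
  set C : ℝ := 4 * θ / κ ^ 2 + 2 with hC
  have hC0 : 0 < C := by rw [hC]; positivity
  set y : ℝ := η ^ 2 / (72 * (k + 1) ^ 2 * C) with hy
  have hy0 : 0 < y := by rw [hy]; positivity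
  set η₁ : ℝ := min 1 (min (η / 9) y) with hη₁
  have hη₁0 : 0 < η₁ := lt_min one_pos (lt_min (by positivity) hy0)
  have hη₁1 : η₁ ≤ 1 := min_le_left _ _
  have hη₁2 : η₁ ≤ η / 9 := (min_le_right _ _).trans (min_le_left _ _)
  have hη₁3 : η₁ ≤ y := (min_le_right _ _).trans (min_le_right _ _)
  obtain ⟨F, ε, hε, hF⟩ := h1 N S κ hκ hK T θ η₁ hθ hη₁0
  refine ⟨F, ε, hε, fun A _ φ M hone hne hbs hbad => ?_⟩
  obtain ⟨v, hv, hv1, hv2⟩ := hF A φ M hone hne hbs hbad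
  set m : ℝ := (M.card : ℝ) with hm
  have hm0 : 0 ≤ m := by rw [hm]; positivity
  obtain ⟨M', hM1, hM2⟩ := h2 N A φ T M v ((4 * θ / κ ^ 2 + η₁) * m) (η₁ * m) hv hv1 hv2
  refine ⟨M', hM1.trans ?_, hM2.trans ?_⟩
  · have e1 : 9 * ((4 * θ / κ ^ 2 + η₁) * m) = (36 * θ / κ ^ 2 + 9 * η₁) * m := by ring
    rw [e1]
    exact mul_le_mul_of_nonneg_right (by linarith) hm0
  · have e1 : 8 * (η₁ * m) * ((4 * θ / κ ^ 2 + η₁) * m + m) ≤ (η / (3 * (k + 1)) * m) ^ 2 := by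
      have e2 : 8 * (η₁ * m) * ((4 * θ / κ ^ 2 + η₁) * m + m) =
          8 * η₁ * (4 * θ / κ ^ 2 + η₁ + 1) * m ^ 2 := by ring
      have e3 : 8 * η₁ * (4 * θ / κ ^ 2 + η₁ + 1) ≤ 8 * y * C := by
        have h5 : 0 ≤ 4 * θ / κ ^ 2 := by positivity
        apply mul_le_mul (by linarith) (by rw [hC]; linarith) (by linarith) (by positivity)
      have e4 : 8 * y * C = (η / (3 * (k + 1))) ^ 2 := by
        rw [hy]
        field_simp
        ring
      rw [e2, mul_pow, ← e4]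
      exact mul_le_mul_of_nonneg_right e3 (by positivity)
    have e5 : √(8 * (η₁ * m) * ((4 * θ / κ ^ 2 + η₁) * m + m)) ≤ η / (3 * (k + 1)) * m := by
      rw [← Real.sqrt_sq (show 0 ≤ η / (3 * (k + 1)) * m by positivity)]
      exact Real.sqrt_le_sqrt e1
    have e6 : k / (k + 1) ≤ 1 := by
      rw [div_le_one (by positivity)]
      linarith
    calc 3 * (k * √(8 * (η₁ * m) * ((4 * θ / κ ^ 2 + η₁) * m + m)))
        ≤ 3 * (k * (η / (3 * (k + 1)) * m)) := by gcongr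
      _ = (k / (k + 1)) * (η * m) := by
        field_simp
      _ ≤ 1 * (η * m) := mul_le_mul_of_nonneg_right e6 (by positivity)
      _ = η * m := one_mul _

end SoficAct.Kz
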