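import Pool.Agent.Lib.MP_2d1e68_al.Kz.Spec

open Finset Filter Topology

noncomputable section

namespace SoficAct.Kz

section aux

private theorem inv_ap {A : Type} (σ : Equiv.Perm A) (a : A) : σ⁻¹ (σ a) = a := by simp

variable {N : Type} [Group N]

private theorem ind_01 {A : Type} (M : Finset A) (a : A) : 0 ≤ ind M a ∧ ind M a ≤ 1 := by
  classical
  unfold ind
  split_ifs <;> norm_num

private theorem sum_ind {A : Type} [Fintype A] (M : Finset A) : ∑ a, ind M a = (M.card : ℝ) := by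
  classical
  unfold ind
  simp

private theorem perm_diff {A : Type} [Fintype A] [DecidableEq A] (M : Finset A) (σ τ : Equiv.Perm A) :
    ∑ a, |ind M (σ⁻¹ a) - ind M (τ⁻¹ a)| ≤ 2 * ((M.filter (fun c => σ c ≠ τ c)).card : ℝ) := by
  set B : Finset A := M.filter (fun c => σ c ≠ τ c) with hB
  calc ∑ a, |ind M (σ⁻¹ a) - ind M (τ⁻¹ a)| ≤ ∑ a, (ind B (σ⁻¹ a) + ind B (τ⁻¹ a)) := by
        refine Finset.sum_le_sum fun a _ => ?_
        have h1 := (ind_01 B (σ⁻¹ a)).1
        have h2 := (ind_01 B (τ⁻¹ a)).1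
        by_cases e1 : σ⁻¹ a ∈ M
        · by_cases e2 : τ⁻¹ a ∈ M
          · have : ind M (σ⁻¹ a) - ind M (τ⁻¹ a) = 0 := by
              unfold ind
              rw [if_pos e1, if_pos e2, sub_self]
            rw [this, abs_zero]
            linarith
          · have h3 : σ⁻¹ a ∈ B := by
              rw [hB, Finset.mem_filter]
              refine ⟨e1, fun h => e2 ?_⟩
              have h4 : a = τ (σ⁻¹ a) := by rw [← h]; simp
              have h5 : τ⁻¹ a = σ⁻¹ a := by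
                rw [Equiv.Perm.inv_eq_iff_eq]
                exact h4
              rw [h5]
              exact e1
            have h4 : ind B (σ⁻¹ a) = 1 := by unfold ind; rw [if_pos h3]
            have h5 : ind M (σ⁻¹ a) - ind M (τ⁻¹ a) = 1 := by
              unfold ind
              rw [if_pos e1, if_neg e2, sub_zero]
            rw [h5, h4, abs_one]
            linarith
        · by_cases e2 : τ⁻¹ a ∈ M
          · have h3 : τ⁻¹ a ∈ B := by
              rw [hB, Finset.mem_filter]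
              refine ⟨e2, fun h => e1 ?_⟩
              have h4 : a = σ (τ⁻¹ a) := by rw [h]; simp
              have h5 : σ⁻¹ a = τ⁻¹ a := by
                rw [Equiv.Perm.inv_eq_iff_eq]
                exact h4
              rw [h5]
              exact e2
            have h4 : ind B (τ⁻¹ a) = 1 := by unfold ind; rw [if_pos h3]
            have h5 : ind M (σ⁻¹ a) - ind M (τ⁻¹ a) = -1 := by
              unfold ind
              rw [if_neg e1, if_pos e2, zero_sub]
            rw [h5, h4, abs_neg, abs_one]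
            linarith
          · have : ind M (σ⁻¹ a) - ind M (τ⁻¹ a) = 0 := by
              unfold ind
              rw [if_neg e1, if_neg e2, sub_self]
            rw [this, abs_zero]
            linarith
    _ = ∑ a, ind B a + ∑ a, ind B a := by
        rw [Finset.sum_add_distrib, Equiv.sum_comp σ⁻¹ (ind B), Equiv.sum_comp τ⁻¹ (ind B)]
    _ = 2 * (B.card : ℝ) := by
        rw [sum_ind]
        ring

private theorem diff_bad {A : Type} [Fintype A] (φ : N → Equiv.Perm A) (M : Finset A) (n g : N)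
    (F : Finset N) (hn : n ∈ F) (hg : g ∈ F) :
    ∑ a, |ind M ((φ (n * g))⁻¹ (φ n a)) - ind M ((φ g)⁻¹ a)| ≤ 2 * badIn φ F M := by
  classical
  have h := perm_diff M ((φ n)⁻¹ * φ (n * g)) (φ g)
  have h1 : ∀ a, ((φ n)⁻¹ * φ (n * g))⁻¹ a = (φ (n * g))⁻¹ (φ n a) := by
    intro a
    rw [mul_inv_rev, inv_inv]
    rfl
  simp only [h1] at h
  refine h.trans ?_
  unfold badIn
  have h2 : M.filter (fun c => ((φ n)⁻¹ * φ (n * g)) c ≠ φ g c) ⊆
      M.filter (fun a => ∃ g ∈ F, ∃ h ∈ F, φ (g * h) a ≠ φ g (φ h a)) := by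
    intro c hc
    rw [Finset.mem_filter] at hc ⊢
    refine ⟨hc.1, n, hn, g, hg, fun h => hc.2 ?_⟩
    rw [Equiv.Perm.mul_apply, h]
    simp
  have h3 : ((M.filter (fun c => ((φ n)⁻¹ * φ (n * g)) c ≠ φ g c)).card : ℝ) ≤
      ((M.filter (fun a => ∃ g ∈ F, ∃ h ∈ F, φ (g * h) a ≠ φ g (φ h a))).card : ℝ) := by
    exact_mod_cast Finset.card_le_card h2
  linarith


private theorem bd_sum {A : Type} [Fintype A] (M : Finset A) (σ : Equiv.Perm A) :
    ∑ a, (ind M (σ⁻¹ a) - ind M a) ^ 2 ≤ 2 * ((bd σ M).card : ℝ) := by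
  classical
  rw [← Equiv.sum_comp σ (fun a => (ind M (σ⁻¹ a) - ind M a) ^ 2)]
  calc ∑ a, (ind M (σ⁻¹ (σ a)) - ind M (σ a)) ^ 2 ≤ ∑ a, (ind (bd σ M) a + ind (bd σ⁻¹ M) (σ a)) := by
        refine Finset.sum_le_sum fun a _ => ?_
        rw [inv_ap]
        have h1 := (ind_01 (bd σ M) a).1
        have h2 := (ind_01 (bd σ⁻¹ M) (σ a)).1
        by_cases e1 : a ∈ M
        · by_cases e2 : σ a ∈ M
          · have : ind M a - ind M (σ a) = 0 := by
              unfold ind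
              rw [if_pos e1, if_pos e2, sub_self]
            rw [this]
            nlinarith
          · have h3 : a ∈ bd σ M := by
              unfold bd
              rw [Finset.mem_filter]
              exact ⟨e1, e2⟩
            have h4 : ind (bd σ M) a = 1 := by unfold ind; rw [if_pos h3]
            have h5 : ind M a - ind M (σ a) = 1 := by
              unfold ind
              rw [if_pos e1, if_neg e2, sub_zero]
            rw [h5, h4]
            linarith
        · by_cases e2 : σ a ∈ M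
          · have h3 : σ a ∈ bd σ⁻¹ M := by
              unfold bd
              rw [Finset.mem_filter, inv_ap]
              exact ⟨e2, e1⟩
            have h4 : ind (bd σ⁻¹ M) (σ a) = 1 := by unfold ind; rw [if_pos h3]
            have h5 : ind M a - ind M (σ a) = -1 := by
              unfold ind
              rw [if_neg e1, if_pos e2, zero_sub]
            rw [h5, h4]
            linarith
          · have : ind M a - ind M (σ a) = 0 := by
              unfold ind
              rw [if_neg e1, if_neg e2, sub_self]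
            rw [this]
            nlinarith
    _ = ((bd σ M).card : ℝ) + ((bd σ⁻¹ M).card : ℝ) := by
        rw [Finset.sum_add_distrib, Equiv.sum_comp σ (ind (bd σ⁻¹ M)), sum_ind, sum_ind]
    _ = 2 * ((bd σ M).card : ℝ) := by
        rw [card_bd_inv]
        ring

private theorem badIn_mono {A : Type} (φ : N → Equiv.Perm A) {F F' : Finset N} (h : F ⊆ F') (M : Finset A) :
    badIn φ F M ≤ badIn φ F' M := by
  classical
  unfold badIn
  refine Nat.cast_le.2 (Finset.card_le_card fun a ha => ?_)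
  rw [Finset.mem_filter] at ha ⊢
  obtain ⟨h1, g, hg, k, hk, h2⟩ := ha
  exact ⟨h1, g, h hg, k, h hk, h2⟩

private theorem badIn_nonneg {A : Type} (φ : N → Equiv.Perm A) (F : Finset N) (M : Finset A) :
    0 ≤ badIn φ F M := by
  unfold badIn
  positivity

/-- the averaged function -/
private def vf {A : Type} (φ : N → Equiv.Perm A) (M : Finset A) (Λ : Finset N) (f : N → ℝ) (a : A) : ℝ :=
  ∑ g ∈ Λ, f g * ind M ((φ g)⁻¹ a)

private theorem vf_01 {A : Type} (φ : N → Equiv.Perm A) (M : Finset A) (Λ : Finset N) (f : N → ℝ)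
    (hf : ∀ g, 0 ≤ f g) (hs : ∑ g ∈ Λ, f g = 1) (a : A) : 0 ≤ vf φ M Λ f a ∧ vf φ M Λ f a ≤ 1 := by
  unfold vf
  constructor
  · exact Finset.sum_nonneg fun g _ => mul_nonneg (hf g) (ind_01 M _).1
  · rw [← hs]
    exact Finset.sum_le_sum fun g _ => mul_le_of_le_one_right (hf g) (ind_01 M _).2

/-- comparison of the translated function -/
private theorem vf_tr {A : Type} [Fintype A] (φ : N → Equiv.Perm A) (M : Finset A) (Λ : Finset N)
    (f : N → ℝ) (hf : ∀ g, 0 ≤ f g) (hs : ∑ g ∈ Λ, f g = 1) (t : N) (F : Finset N) (ht : t ∈ F)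
    (hΛ : Λ ⊆ F) :
    ∑ a, (vf φ M Λ f (φ t a) - vf φ M Λ f a) ^ 2 ≤
      ∑ a, ((∑ g ∈ Λ, f g * ind M ((φ (t * g))⁻¹ a)) - vf φ M Λ f a) ^ 2 + 4 * badIn φ F M := by
  classical
  set w : A → ℝ := fun a => ∑ g ∈ Λ, f g * ind M ((φ (t * g))⁻¹ a) with hw
  have e0 : ∑ a, (vf φ M Λ f (φ t a) - vf φ M Λ f a) ^ 2 =
      ∑ a, (vf φ M Λ f ((φ t)⁻¹ a) - vf φ M Λ f a) ^ 2 := by
    rw [← Equiv.sum_comp (φ t) (fun a => (vf φ M Λ f ((φ t)⁻¹ a) - vf φ M Λ f a) ^ 2)]
    refine Finset.sum_congr rfl fun a _ => ?_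
    rw [inv_ap]
    ring
  have e1 : ∀ a, (vf φ M Λ f ((φ t)⁻¹ a) - vf φ M Λ f a) ^ 2 ≤ (w a - vf φ M Λ f a) ^ 2 +
      2 * |w a - vf φ M Λ f ((φ t)⁻¹ a)| := by
    intro a
    obtain ⟨x0, x1⟩ := vf_01 φ M Λ f hf hs ((φ t)⁻¹ a)
    obtain ⟨y0, y1⟩ := vf_01 φ M Λ f hf hs a
    have hw0 : 0 ≤ w a := Finset.sum_nonneg fun g _ => mul_nonneg (hf g) (ind_01 M _).1
    have hw1 : w a ≤ 1 := by
      rw [← hs]
      exact Finset.sum_le_sum fun g _ => mul_le_of_le_one_right (hf g) (ind_01 M _).2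
    generalize vf φ M Λ f ((φ t)⁻¹ a) = x at *
    generalize vf φ M Λ f a = y at *
    generalize w a = z at *
    rcases abs_cases (z - x) with ⟨h, h'⟩ | ⟨h, h'⟩
    · rw [h]
      nlinarith
    · rw [h]
      nlinarith
  have e2 : ∑ a, |w a - vf φ M Λ f ((φ t)⁻¹ a)| ≤ 2 * badIn φ F M := by
    calc ∑ a, |w a - vf φ M Λ f ((φ t)⁻¹ a)|
        ≤ ∑ a, ∑ g ∈ Λ, f g * |ind M ((φ (t * g))⁻¹ a) - ind M ((φ g)⁻¹ ((φ t)⁻¹ a))| := by
          refine Finset.sum_le_sum fun a _ => ?_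
          rw [hw]
          unfold vf
          simp only []
          rw [← Finset.sum_sub_distrib]
          refine (Finset.abs_sum_le_sum_abs _ _).trans (le_of_eq ?_)
          refine Finset.sum_congr rfl fun g _ => ?_
          rw [← mul_sub, abs_mul, abs_of_nonneg (hf g)]
      _ = ∑ g ∈ Λ, f g * ∑ a, |ind M ((φ (t * g))⁻¹ a) - ind M ((φ g)⁻¹ ((φ t)⁻¹ a))| := by
          rw [Finset.sum_comm]
          exact Finset.sum_congr rfl fun g _ => (Finset.mul_sum _ _ _).symm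
      _ ≤ ∑ g ∈ Λ, f g * (2 * badIn φ F M) := by
          refine Finset.sum_le_sum fun g hg => mul_le_mul_of_nonneg_left ?_ (hf g)
          rw [← Equiv.sum_comp (φ t) (fun a => |ind M ((φ (t * g))⁻¹ a) - ind M ((φ g)⁻¹ ((φ t)⁻¹ a))|)]
          simp only [inv_ap]
          exact diff_bad φ M t g F ht (hΛ hg)
      _ = 2 * badIn φ F M := by
          rw [← Finset.sum_mul, hs, one_mul]
  rw [e0]
  calc ∑ a, (vf φ M Λ f ((φ t)⁻¹ a) - vf φ M Λ f a) ^ 2
      ≤ ∑ a, ((w a - vf φ M Λ f a) ^ 2 + 2 * |w a - vf φ M Λ f ((φ t)⁻¹ a)|) :=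
        Finset.sum_le_sum fun a _ => e1 a
    _ = ∑ a, (w a - vf φ M Λ f a) ^ 2 + 2 * ∑ a, |w a - vf φ M Λ f ((φ t)⁻¹ a)| := by
        rw [Finset.sum_add_distrib, Finset.mul_sum]
    _ ≤ ∑ a, (w a - vf φ M Λ f a) ^ 2 + 4 * badIn φ F M := by linarith

end aux

/-- the limit statement for finitely supported functions -/
private theorem lim_lin {N ι : Type} [Group N] (U : Ultrafilter ι) (A : ι → Type) [∀ i, Fintype (A i)]
    (φ : ∀ i, N → Equiv.Perm (A i)) (M : ∀ i, Finset (A i)) {V : Type} [NormedAddCommGroup V]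
    [InnerProductSpace ℂ V] (ρ : N →* (V ≃ₗᵢ[ℂ] V)) (ξ : V)
    (h : ∀ (Λ : Finset N) (f : N → ℝ),
      Tendsto (fun i => (∑ a : A i, (∑ g ∈ Λ, f g * ind (M i) ((φ i g)⁻¹ a)) ^ 2) /
        ((M i).card : ℝ)) U (𝓝 (‖∑ g ∈ Λ, (f g : ℂ) • ρ g ξ‖ ^ 2))) (F : N →₀ ℝ) :
    Tendsto (fun i => (∑ a : A i, (Finsupp.linearCombination ℝ
      (fun g => ind (M i) ((φ i g)⁻¹ a)) F) ^ 2) / ((M i).card : ℝ)) U
      (𝓝 (‖Finsupp.linearCombination ℝ (fun g => ρ g ξ) F‖ ^ 2)) := by
  have h1 := h F.support F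
  simp only [Finsupp.linearCombination_apply, Finsupp.sum, smul_eq_mul]
  simp only [Complex.coe_smul] at h1
  exact h1

theorem ti1 (h1 : S_Lim) (h2 : S_Gap) (h3 : S_Cvx) : S_TI1 := by
  classical
  intro N _ S κ hκ hK T θ η hθ hη
  by_contra hcon
  push Not at hcon
  have hc : ∀ i : Finset N × ℕ, ∃ (A : Type) (_ : Fintype A) (φ : N → Equiv.Perm A) (M : Finset A),
      φ 1 = 1 ∧ M.Nonempty ∧ bs φ S M ≤ θ * (M.card : ℝ) ∧
      badIn φ i.1 M ≤ (1 / ((i.2 : ℝ) + 1)) * (M.card : ℝ) ∧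
      ∀ v : A → ℝ, (∀ a, 0 ≤ v a ∧ v a ≤ 1) →
        ∑ a, (v a - ind M a) ^ 2 ≤ (4 * θ / κ ^ 2 + η) * (M.card : ℝ) →
        ∃ t ∈ T, η * (M.card : ℝ) < ∑ a, (v (φ t a) - v a) ^ 2 := by
    intro i
    exact hcon i.1 (1 / ((i.2 : ℝ) + 1)) (by positivity)
  choose A instA φ M hone hne hbs hbad hv using hc
  letI : ∀ i, Fintype (A i) := instA
  set U : Ultrafilter (Finset N × ℕ) := Ultrafilter.of atTop with hU
  have hUle : (U : Filter (Finset N × ℕ)) ≤ atTop := Ultrafilter.of_le atTop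
  have hm : ∀ i, 0 < ((M i).card : ℝ) := fun i => by exact_mod_cast (hne i).card_pos
  have hbad0 : ∀ F : Finset N,
      Tendsto (fun i => badIn (φ i) F (M i) / ((M i).card : ℝ)) U (𝓝 0) := by
    intro F
    refine Tendsto.mono_left ?_ hUle
    rw [Metric.tendsto_atTop]
    intro ε hε
    obtain ⟨k, hk⟩ := exists_nat_one_div_lt hε
    refine ⟨(F, k), fun i hi => ?_⟩
    obtain ⟨hi1, hi2⟩ := hi
    rw [dist_zero_right, Real.norm_eq_abs, abs_of_nonneg (div_nonneg (badIn_nonneg _ _ _) (hm i).le)]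
    refine lt_of_le_of_lt ?_ hk
    rw [div_le_iff₀ (hm i)]
    refine (badIn_mono (φ i) hi1 (M i)).trans ((hbad i).trans ?_)
    refine mul_le_mul_of_nonneg_right ?_ (hm i).le
    apply one_div_le_one_div_of_le (by positivity)
    have : (k : ℝ) ≤ (i.2 : ℝ) := by exact_mod_cast hi2
    linarith
  obtain ⟨V, _, _, _, ρ, ξ, hL⟩ := h1 N (Finset N × ℕ) U A φ M hne hone hbad0
  have hL' := lim_lin U A φ M ρ ξ hL
  -- almost invariance of ξ
  have hξ : ∀ s ∈ S, ‖ρ s ξ - ξ‖ ≤ √(2 * θ) := by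
    intro s hs
    have h4 := hL' (Finsupp.single s 1 - Finsupp.single 1 1)
    simp only [map_sub, Finsupp.linearCombination_single, one_smul, map_one] at h4
    have h5 : (ρ s) ξ - (1 : V ≃ₗᵢ[ℂ] V) ξ = ρ s ξ - ξ := rfl
    rw [h5] at h4
    refine Real.le_sqrt_of_sq_le ?_
    refine le_of_tendsto' h4 fun i => ?_
    rw [div_le_iff₀ (hm i)]
    simp only [hone i, inv_one, Equiv.Perm.one_apply]
    refine (bd_sum (M i) (φ i s)).trans ?_
    have h6 : ((bd (φ i s) (M i)).card : ℝ) ≤ bs (φ i) S (M i) := by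
      unfold bs
      exact Finset.single_le_sum (f := fun s => ((bd (φ i s) (M i)).card : ℝ))
        (fun s _ => Nat.cast_nonneg _) hs
    have h7 := hbs i
    linarith
  obtain ⟨ξ₀, hinv, hdist, horth⟩ := h2 N S κ hκ hK V ρ ξ (√(2 * θ)) (Real.sqrt_nonneg _) hξ
  set η' : ℝ := √η / 4 with hη'
  have hη'0 : 0 < η' := by rw [hη']; exact div_pos (Real.sqrt_pos.2 hη) (by norm_num)
  have hη'2 : η' ^ 2 = η / 16 := by
    rw [hη', div_pow, Real.sq_sqrt hη.le]
    norm_num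
  obtain ⟨Λ, f, hf, hfs, hfd⟩ := h3 N V ρ ξ ξ₀ hinv horth η' hη'0
  set v : V := ∑ g ∈ Λ, (f g : ℂ) • ρ g ξ with hvdef
  set Fv : N →₀ ℝ := ∑ g ∈ Λ, Finsupp.single g (f g) with hFv
  have hQv : Finsupp.linearCombination ℝ (fun g => ρ g ξ) Fv = v := by
    rw [hFv, map_sum, hvdef]
    refine Finset.sum_congr rfl fun g _ => ?_
    rw [Finsupp.linearCombination_single, Complex.coe_smul]
  have hPv : ∀ i (a : A i), Finsupp.linearCombination ℝ (fun g => ind (M i) ((φ i g)⁻¹ a)) Fv =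
      vf (φ i) (M i) Λ f a := by
    intro i a
    rw [hFv, map_sum]
    unfold vf
    refine Finset.sum_congr rfl fun g _ => ?_
    rw [Finsupp.linearCombination_single, smul_eq_mul]
  -- (1)
  have e1 : ∀ᶠ i in (U : Filter (Finset N × ℕ)), (∑ a, (vf (φ i) (M i) Λ f a - ind (M i) a) ^ 2) /
      ((M i).card : ℝ) < 4 * θ / κ ^ 2 + η := by
    have h4 := hL' (Fv - Finsupp.single 1 1)
    simp only [map_sub, Finsupp.linearCombination_single, one_smul, map_one, hQv, hPv] at h4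
    have h5 : v - (1 : V ≃ₗᵢ[ℂ] V) ξ = v - ξ := rfl
    rw [h5] at h4
    have h6 : ‖v - ξ‖ ≤ η' + √(2 * θ) / κ := by
      calc ‖v - ξ‖ = ‖(v - ξ₀) - (ξ - ξ₀)‖ := by congr 1; abel
        _ ≤ ‖v - ξ₀‖ + ‖ξ - ξ₀‖ := norm_sub_le _ _
        _ ≤ η' + √(2 * θ) / κ := add_le_add hfd hdist
    have h7 : ‖v - ξ‖ ^ 2 < 4 * θ / κ ^ 2 + η := by
      have h8 : (√(2 * θ) / κ) ^ 2 = 2 * θ / κ ^ 2 := by
        rw [div_pow, Real.sq_sqrt (by positivity)]
      have h9 : ‖v - ξ‖ ^ 2 ≤ (η' + √(2 * θ) / κ) ^ 2 := pow_le_pow_left₀ (norm_nonneg _) h6 2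
      have h10 : (η' + √(2 * θ) / κ) ^ 2 ≤ 2 * η' ^ 2 + 2 * (√(2 * θ) / κ) ^ 2 := by
        nlinarith [sq_nonneg (η' - √(2 * θ) / κ)]
      rw [h8, hη'2] at h10
      have h11 : 4 * θ / κ ^ 2 = 2 * (2 * θ / κ ^ 2) := by ring
      rw [h11]
      linarith
    have h8 := h4.eventually (gt_mem_nhds h7)
    refine h8.mono fun i hi => ?_
    simp only [hone i, inv_one, Equiv.Perm.one_apply] at hi
    exact hi
  -- (2)
  have e2 : ∀ t ∈ T, ∀ᶠ i in (U : Filter (Finset N × ℕ)),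
      (∑ a, (vf (φ i) (M i) Λ f (φ i t a) - vf (φ i) (M i) Λ f a) ^ 2) / ((M i).card : ℝ) < η := by
    intro t _
    set Ft : N →₀ ℝ := ∑ g ∈ Λ, Finsupp.single (t * g) (f g) with hFt
    have hQt : Finsupp.linearCombination ℝ (fun g => ρ g ξ) Ft = ρ t v := by
      rw [hFt, map_sum, hvdef, map_sum]
      refine Finset.sum_congr rfl fun g _ => ?_
      rw [Finsupp.linearCombination_single, map_smul, Complex.coe_smul, map_mul]
      rfl
    have hPt : ∀ i (a : A i), Finsupp.linearCombination ℝ (fun g => ind (M i) ((φ i g)⁻¹ a)) Ft =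
        ∑ g ∈ Λ, f g * ind (M i) ((φ i (t * g))⁻¹ a) := by
      intro i a
      rw [hFt, map_sum]
      refine Finset.sum_congr rfl fun g _ => ?_
      rw [Finsupp.linearCombination_single, smul_eq_mul]
    have h4 := hL' (Ft - Fv)
    simp only [map_sub, hQv, hPv, hQt, hPt] at h4
    have h5 := (hbad0 (insert t Λ)).const_mul 4
    have h6 := h4.add h5
    rw [mul_zero, add_zero] at h6
    have h7 : ‖ρ t v - v‖ ^ 2 < η := by
      have h8 : ‖ρ t v - v‖ ≤ 2 * η' := by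
        have h9 : ρ t v - v = ρ t (v - ξ₀) - (v - ξ₀) := by
          rw [map_sub, hinv t]
          abel
        rw [h9]
        refine (norm_sub_le _ _).trans ?_
        rw [(ρ t).norm_map]
        linarith
      have h9 : ‖ρ t v - v‖ ^ 2 ≤ (2 * η') ^ 2 := pow_le_pow_left₀ (norm_nonneg _) h8 2
      have h10 : (2 * η') ^ 2 = η / 4 := by
        rw [mul_pow, hη'2]
        ring
      linarith
    have h8 := h6.eventually (gt_mem_nhds h7)
    refine h8.mono fun i hi => ?_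
    refine lt_of_le_of_lt ?_ hi
    rw [← mul_div_assoc, ← add_div]
    refine div_le_div_of_nonneg_right ?_ (hm i).le
    exact vf_tr (φ i) (M i) Λ f hf hfs t (insert t Λ) (Finset.mem_insert_self _ _)
      (Finset.subset_insert _ _)
  have e3 : ∀ᶠ i in (U : Filter (Finset N × ℕ)), ∀ t ∈ T,
      (∑ a, (vf (φ i) (M i) Λ f (φ i t a) - vf (φ i) (M i) Λ f a) ^ 2) / ((M i).card : ℝ) < η :=
    (Filter.eventually_all_finset T).2 e2
  obtain ⟨i, hi1, hi2⟩ := (e1.and e3).exists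
  rw [div_lt_iff₀ (hm i)] at hi1
  obtain ⟨t, ht, hlt⟩ := hv i (vf (φ i) (M i) Λ f) (vf_01 (φ i) (M i) Λ f hf hfs) hi1.le
  have h4 := hi2 t ht
  rw [div_lt_iff₀ (hm i)] at h4
  exact absurd hlt (not_lt.2 h4.le)

end SoficAct.Kz
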