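import Pool.Agent.Lib.MP_2d1e68_al.Kz.Spec

/-!
# 2d1e68 Kz/UM: multiplicativity of the uniform model (helper77)
-/

open Finset Filter

noncomputable section

namespace SoficAct.Kz

private theorem um_ext {E : Type} {ω : E → ℕ} {x y : Σ e, Fin (ω e)} (h : x.1 = y.1)
    (h' : (x.2 : ℕ) = (y.2 : ℕ)) : x = y := by
  obtain ⟨e, i⟩ := x
  obtain ⟨e', j⟩ := y
  simp only at h
  subst h
  have h2 : i = j := Fin.ext h'
  rw [h2]

theorem um : S_UM := by
  intro Γ E _ _ ω R ψ δ w w' h hrule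
  let X : Γ → (Σ e, Fin (ω e)) → Prop := fun v b =>
    ¬ (R v b.1 (ψ v b).1 ∧ ((ψ v b).2 : ℕ) = (b.2 : ℕ))
  have h1 : frac (X (w * w')) ≤ δ := h _ (Or.inr (Or.inr rfl))
  have h2 : frac (X w') ≤ δ := h _ (Or.inr (Or.inl rfl))
  have h3 : frac (fun b => X w (ψ w' b)) ≤ δ := by
    rw [frac_perm (X w) (ψ w')]
    exact h _ (Or.inl rfl)
  have h4 : frac (fun b : (Σ e, Fin (ω e)) => ψ (w * w') b ≠ ψ w (ψ w' b)) ≤
      frac (fun b => X (w * w') b ∨ (X w' b ∨ X w (ψ w' b))) := by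
    refine frac_mono fun b hb => ?_
    by_contra hcon
    push Not at hcon
    obtain ⟨c1, c2, c3⟩ := hcon
    refine hb ?_
    exact um_ext (hrule _ _ _ _ c2.1 c3.1 c1.1) (c1.2.trans (c2.2.symm.trans c3.2.symm))
  have h5 := frac_or (X (w * w')) (fun b => X w' b ∨ X w (ψ w' b))
  have h6 := frac_or (X w') (fun b => X w (ψ w' b))
  linarith

end SoficAct.Kz
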