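import Pool.Agent.Lib.MP_2d1e68_al.Kz.Spec

open Finset

noncomputable section

namespace SoficAct.Kz

private lemma uni_fin (n m : ℕ) :
    ∑ l : Fin n, (if ¬ (l : ℕ) < m then (1 : ℝ) else 0) = max 0 ((n : ℝ) - m) := by
  rw [Fin.sum_univ_eq_sum_range (fun i => if ¬ i < m then (1 : ℝ) else 0) n, ← sum_filter,
    sum_const, nsmul_eq_mul, mul_one]
  have h : (range n).filter (fun i => ¬ i < m) = Ico m n := by
    ext i
    rw [mem_filter, mem_range, mem_Ico]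
    omega
  rw [h, Nat.card_Ico]
  rcases le_total m n with hmn | hmn
  · rw [Nat.cast_sub hmn, max_eq_right]
    have : (m : ℝ) ≤ n := by exact_mod_cast hmn
    linarith
  · rw [Nat.sub_eq_zero_of_le hmn, Nat.cast_zero, max_eq_left]
    have : (n : ℝ) ≤ m := by exact_mod_cast hmn
    linarith

private lemma uni_one {E : Type} [Fintype E] (ω : E → ℕ) (R : E → E → Prop) (f : E → E) (δ : ℝ)
    (hδ : 0 ≤ δ) (hR : ∀ e₁ e₂ e', R e₁ e' → R e₂ e' → e₁ = e₂)
    (hf : ∀ e, (∃ e', R e e') → R e (f e))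
    (hl : loss (fun e => (ω e : ℝ)) R f ≤ δ * ∑ e, (ω e : ℝ)) :
    ∃ σ : Equiv.Perm (Σ e, Fin (ω e)), frac (fun b : (Σ e, Fin (ω e)) =>
        ¬ (R b.1 (σ b).1 ∧ ((σ b).2 : ℕ) = (b.2 : ℕ))) ≤ δ := by
  classical
  let p : (Σ e, Fin (ω e)) → Prop := fun b => (∃ e', R b.1 e') ∧ (b.2 : ℕ) < ω (f b.1)
  let j : {b : (Σ e, Fin (ω e)) // p b} → (Σ e, Fin (ω e)) := fun b => ⟨f b.1.1, ⟨b.1.2, b.2.2⟩⟩
  have hj : Function.Injective j := by
    rintro ⟨⟨e₁, l₁⟩, h₁⟩ ⟨⟨e₂, l₂⟩, h₂⟩ h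
    have h3 : f e₁ = f e₂ := congrArg Sigma.fst h
    have h4 : (l₁ : ℕ) = (l₂ : ℕ) := congrArg (fun b : (Σ e, Fin (ω e)) => (b.2 : ℕ)) h
    have h5 : e₁ = e₂ := by
      apply hR e₁ e₂ (f e₁) (hf e₁ h₁.1)
      rw [h3]
      exact hf e₂ h₂.1
    subst h5
    have h6 : l₁ = l₂ := Fin.ext h4
    subst h6
    rfl
  let e0 : {b : (Σ e, Fin (ω e)) // p b} ≃ {b : (Σ e, Fin (ω e)) // b ∈ Set.range j} :=
    Equiv.ofInjective j hj
  let σ : Equiv.Perm (Σ e, Fin (ω e)) := Equiv.extendSubtype e0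
  have hσ : ∀ b (hb : p b), σ b = j ⟨b, hb⟩ := by
    intro b hb
    have := Equiv.extendSubtype_apply_of_mem e0 b hb
    exact this
  refine ⟨σ, ?_⟩
  have h1 : frac (fun b : (Σ e, Fin (ω e)) => ¬ (R b.1 (σ b).1 ∧ ((σ b).2 : ℕ) = (b.2 : ℕ))) ≤
      frac (fun b => ¬ p b) := by
    apply frac_mono
    intro b hb hp
    apply hb
    rw [hσ b hp]
    exact ⟨hf b.1 hp.1, rfl⟩
  refine h1.trans ?_
  rw [frac_eq]
  have h2 : (((univ.filter (fun b : (Σ e, Fin (ω e)) => ¬ p b)).card : ℕ) : ℝ) =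
      loss (fun e => (ω e : ℝ)) R f := by
    rw [card_eq_sum_ones, Nat.cast_sum, sum_filter, Fintype.sum_sigma]
    unfold loss
    apply sum_congr rfl
    intro e _
    by_cases he : ∃ e', R e e'
    · rw [if_pos he, ← uni_fin]
      apply sum_congr rfl
      intro l _
      have : (¬ p ⟨e, l⟩) ↔ ¬ (l : ℕ) < ω (f e) := by
        constructor
        · intro h h'
          exact h ⟨he, h'⟩
        · intro h h'
          exact h h'.2
      by_cases hh : (l : ℕ) < ω (f e)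
      · rw [if_neg (fun h => (this.1 h) hh), if_neg (not_not.2 hh)]
      · rw [if_pos (this.2 hh), if_pos hh]
        simp
    · rw [if_neg he]
      have : ∀ l : Fin (ω e), (if ¬ p ⟨e, l⟩ then (((1 : ℕ) : ℕ) : ℝ) else 0) = 1 := by
        intro l
        rw [if_pos (fun h => he h.1)]
        simp
      rw [sum_congr rfl (fun l _ => this l)]
      simp
  rw [h2]
  have h3 : ((Fintype.card (Σ e, Fin (ω e)) : ℕ) : ℝ) = ∑ e, (ω e : ℝ) := by
    rw [Fintype.card_sigma, Nat.cast_sum]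
    simp
  rw [h3]
  have h4 : 0 ≤ ∑ e, (ω e : ℝ) := sum_nonneg (fun _ _ => Nat.cast_nonneg _)
  rcases h4.eq_or_lt with h5 | h5
  · rw [← h5, div_zero]
    exact hδ
  · rw [div_le_iff₀ h5]
    exact hl

theorem uni : S_Uni := by
  classical
  intro Γ E _ _ ω R F δ hδ hR h1 hl
  have key : ∀ w : Γ, ∃ σ : Equiv.Perm (Σ e, Fin (ω e)), (w = 1 → σ = 1) ∧
      (w ∈ F → frac (fun b : (Σ e, Fin (ω e)) =>
        ¬ (R w b.1 (σ b).1 ∧ ((σ b).2 : ℕ) = (b.2 : ℕ))) ≤ δ) := by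
    intro w
    by_cases hw : w = 1
    · subst hw
      refine ⟨1, fun _ => rfl, fun _ => ?_⟩
      rw [frac_false]
      · exact hδ
      · intro b hb
        exact hb ⟨h1 _, rfl⟩
    · by_cases hF : w ∈ F
      · have hex : ∀ e : E, ∃ e'' : E, (∃ e', R w e e') → R w e e'' := by
          intro e
          by_cases he : ∃ e', R w e e'
          · obtain ⟨e', he'⟩ := he
            exact ⟨e', fun _ => he'⟩
          · exact ⟨e, fun h => absurd h he⟩
        choose f hf using hex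
        obtain ⟨σ, hσ⟩ := uni_one ω (R w) f δ hδ (hR w hF) hf (hl w hF f hf)
        exact ⟨σ, fun h => absurd h hw, fun _ => hσ⟩
      · exact ⟨1, fun h => absurd h hw, fun h => absurd h hF⟩
  choose ψ hψ1 hψ2 using key
  exact ⟨ψ, hψ1 1 rfl, fun w hw => hψ2 w hw⟩

end SoficAct.Kz
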