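import Pool.Agent.Lib.MP_2d1e68_al.Kz.Spec

/-!
# Uq: boundary of the unique part of a relation (helper82)
-/

open Finset Filter

noncomputable section

namespace SoficAct.Kz

private lemma uq_mem_bd {A : Type} (σ : Equiv.Perm A) (Y : Finset A) (a : A) :
    a ∈ bd σ Y ↔ a ∈ Y ∧ σ a ∉ Y := by
  classical
  unfold bd
  rw [mem_filter]

private lemma uq_mem {A : Type} (M : Finset (A × A)) (p : A × A) :
    p ∈ uq M ↔ p ∈ M ∧ (∀ q ∈ M, q.1 = p.1 → q = p) ∧ ∀ q ∈ M, q.2 = p.2 → q = p := by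
  classical
  unfold uq
  rw [mem_filter]

private lemma uq_inv {A : Type} (σ : Equiv.Perm A) (a : A) : σ (σ⁻¹ a) = a :=
  σ.apply_symm_apply a

private lemma uq_side {N A : Type} (φ : N → Equiv.Perm A) (t : N) (M X : Finset (A × A))
    (π : A × A → A) (hπ : ∀ p, π (dbl φ t p) = φ t (π p))
    (hX : ∀ p ∈ X, p ∈ M ∧ (∀ q ∈ M, π q = π p → q = p) ∧
      ∃ q ∈ M, q ≠ dbl φ t p ∧ π q = φ t (π p)) :
    X.card ≤ (bd (dbl φ t)⁻¹ M).card := by
  classical
  have h1 : ∀ p ∈ X, ∃ q ∈ bd (dbl φ t)⁻¹ M, π q = φ t (π p) := by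
    intro p hp
    obtain ⟨_, h2, q, hq, hne, hqp⟩ := hX p hp
    refine ⟨q, ?_, hqp⟩
    rw [uq_mem_bd]
    refine ⟨hq, fun h3 => hne ?_⟩
    have h4 : π ((dbl φ t)⁻¹ q) = π p := by
      have h5 := hπ ((dbl φ t)⁻¹ q)
      rw [uq_inv, hqp] at h5
      exact ((φ t).injective h5).symm
    have h6 := h2 _ h3 h4
    rw [← h6, uq_inv]
  choose! f hf1 hf2 using h1
  refine card_le_card_of_injOn f hf1 ?_
  intro p hp q hq hpq
  have h3 := hf2 p hp
  have h4 := hf2 q hq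
  rw [hpq, h4] at h3
  exact (hX q hq).2.1 p (hX p hp).1 ((φ t).injective h3).symm

private lemma uq_one {N A : Type} (φ : N → Equiv.Perm A) (t : N) (M : Finset (A × A)) :
    (bd (dbl φ t) (uq M)).card ≤ 3 * (bd (dbl φ t) M).card := by
  classical
  let X1 := (uq M).filter fun p => ∃ q ∈ M, q ≠ dbl φ t p ∧ q.1 = φ t p.1
  let X2 := (uq M).filter fun p => ∃ q ∈ M, q ≠ dbl φ t p ∧ q.2 = φ t p.2
  have hsub : bd (dbl φ t) (uq M) ⊆ bd (dbl φ t) M ∪ (X1 ∪ X2) := by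
    intro p hp
    rw [uq_mem_bd] at hp
    obtain ⟨hp1, hp2⟩ := hp
    rw [mem_union, mem_union]
    have hpM : p ∈ M := ((uq_mem M p).1 hp1).1
    by_cases h : dbl φ t p ∈ M
    · right
      have h3 : ¬ ((∀ q ∈ M, q.1 = (dbl φ t p).1 → q = dbl φ t p) ∧
          ∀ q ∈ M, q.2 = (dbl φ t p).2 → q = dbl φ t p) := by
        intro h4
        apply hp2
        rw [uq_mem]
        exact ⟨h, h4⟩
      rw [not_and_or] at h3
      rcases h3 with h3 | h3
      · left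
        push Not at h3
        obtain ⟨q, hq, hq1, hq2⟩ := h3
        exact mem_filter.2 ⟨hp1, q, hq, hq2, hq1⟩
      · right
        push Not at h3
        obtain ⟨q, hq, hq1, hq2⟩ := h3
        exact mem_filter.2 ⟨hp1, q, hq, hq2, hq1⟩
    · left
      exact (uq_mem_bd _ _ _).2 ⟨hpM, h⟩
  have h1 : X1.card ≤ (bd (dbl φ t)⁻¹ M).card := by
    refine uq_side φ t M X1 Prod.fst (fun _ => rfl) ?_
    intro p hp
    obtain ⟨hp1, hp2⟩ := mem_filter.1 hp
    rw [uq_mem] at hp1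
    exact ⟨hp1.1, hp1.2.1, hp2⟩
  have h2 : X2.card ≤ (bd (dbl φ t)⁻¹ M).card := by
    refine uq_side φ t M X2 Prod.snd (fun _ => rfl) ?_
    intro p hp
    obtain ⟨hp1, hp2⟩ := mem_filter.1 hp
    rw [uq_mem] at hp1
    exact ⟨hp1.1, hp1.2.2, hp2⟩
  rw [card_bd_inv] at h1 h2
  have h3 := card_le_card hsub
  have h4 := card_union_le (bd (dbl φ t) M) (X1 ∪ X2)
  have h5 := card_union_le X1 X2
  omega

/-- **Uq.** -/
theorem uqq : S_Uq := by
  intro N A φ T M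
  unfold bs
  rw [mul_sum]
  refine sum_le_sum fun t _ => ?_
  exact_mod_cast uq_one φ t M

end SoficAct.Kz
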