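import Pool.Agent.Lib.MP_2d1e68_al.Kz.Lim
import Pool.Agent.Lib.MP_2d1e68_al.Kz.Gap
import Pool.Agent.Lib.MP_2d1e68_al.Kz.Cvx
import Pool.Agent.Lib.MP_2d1e68_al.Kz.TI1
import Pool.Agent.Lib.MP_2d1e68_al.Kz.Lev
import Pool.Agent.Lib.MP_2d1e68_al.Kz.TI
import Pool.Agent.Lib.MP_2d1e68_al.Kz.Grd
import Pool.Agent.Lib.MP_2d1e68_al.Kz.DT
import Pool.Agent.Lib.MP_2d1e68_al.Kz.Uq
import Pool.Agent.Lib.MP_2d1e68_al.Kz.GI0
import Pool.Agent.Lib.MP_2d1e68_al.Kz.Mod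
import Pool.Agent.Lib.MP_2d1e68_al.Kz.Ex
import Pool.Agent.Lib.MP_2d1e68_al.Kz.Sz
import Pool.Agent.Lib.MP_2d1e68_al.Kz.Di
import Pool.Agent.Lib.MP_2d1e68_al.Kz.Rep
import Pool.Agent.Lib.MP_2d1e68_al.Kz.Comp
import Pool.Agent.Lib.MP_2d1e68_al.Kz.Cnt
import Pool.Agent.Lib.MP_2d1e68_al.Kz.PM
import Pool.Agent.Lib.MP_2d1e68_al.Kz.Good
import Pool.Agent.Lib.MP_2d1e68_al.Kz.OP
import Pool.Agent.Lib.MP_2d1e68_al.Kz.Ac
import Pool.Agent.Lib.MP_2d1e68_al.Kz.Fun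
import Pool.Agent.Lib.MP_2d1e68_al.Kz.Inj
import Pool.Agent.Lib.MP_2d1e68_al.Kz.Mul
import Pool.Agent.Lib.MP_2d1e68_al.Kz.One
import Pool.Agent.Lib.MP_2d1e68_al.Kz.Free
import Pool.Agent.Lib.MP_2d1e68_al.Kz.Mass
import Pool.Agent.Lib.MP_2d1e68_al.Kz.LsA
import Pool.Agent.Lib.MP_2d1e68_al.Kz.Ls
import Pool.Agent.Lib.MP_2d1e68_al.Kz.Uni
import Pool.Agent.Lib.MP_2d1e68_al.Kz.UM
import Pool.Agent.Lib.MP_2d1e68_al.Kz.Core
import Pool.Agent.Lib.MP_2d1e68_al.Kz.TEq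
import Pool.Agent.Lib.MP_2d1e68_al.Kz.Half
import Pool.Agent.Lib.MP_2d1e68_al.Kz.Quo
import Pool.Agent.Lib.MP_2d1e68_al.Kz.Iso
import Pool.Agent.Lib.MP_2d1e68_al.Kz.AmQ
import Pool.Agent.Lib.MP_2d1e68_al.Kz.Fin1
import Pool.Agent.Lib.MP_2d1e68_al.Kz.Fin2

/-!
# Assembly of the descent theorem along normal subgroups with property (T)
-/

noncomputable section

namespace SoficAct.Kz

theorem all_TI : S_TI := ti (ti1 lim gap cvx) lev

theorem all_GI0 : S_GI0 := gi0 uqq sz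

theorem all_Ex : S_Ex := ex all_TI (dt grd) all_GI0 modd sz

theorem all_Cnt : S_Cnt := cntt sz (comp sz)

theorem all_LsA : S_LsA := lsA (ac (op sz)) (mass sz all_Cnt) all_Cnt

theorem all_Ls : S_Ls := ls all_LsA (good pm) (injj sz) (funn sz) all_Cnt

theorem all_Core : S_Core :=
  core all_Ex (rep sz di) all_Cnt (funn sz) (injj sz) (mull sz) (onee sz) (free sz) all_Ls uni um

theorem all_Fin1 : S_Fin1 := fin1 (half all_Core teq) quo iso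

theorem all_Fin2 : S_Fin2 := fin2 amQ

/-- **Descent along normal subgroups with property (T).** -/
theorem descent (G H X : Type) [Group G] [Group H] (α : H →* Equiv.Perm X)
    (hG : ∃ g : G, g ≠ 1) (N : Subgroup H) [N.Normal] (hN : N ≤ α.ker)
    (hT : ∀ F : Finset H, (∀ n ∈ F, n ∈ N) →
      ∃ M : Subgroup H, M.Normal ∧ (∀ n ∈ M, n ∈ N) ∧ (∀ n ∈ F, n ∈ M) ∧ PropertyT M)
    (hW : IsSoficGroup (GenWreath G α)) :
    (∃ (R : Subgroup H) (_ : R.Normal) (hR : R ≤ α.ker), N ≤ R ∧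
      IsSoficGroup (GenWreath G (QuotientGroup.lift R α hR))) ∧
    ((∀ (R : Subgroup H) [R.Normal] (hR : R ≤ α.ker), N ≤ R →
      IsSoficGroup (GenWreath G (QuotientGroup.lift R α hR)) →
        IsSoficAction (QuotientGroup.lift R α hR)) → IsSoficAction α) ∧
    ((∀ x, IsAmenable (stab α x ⧸ N.subgroupOf (stab α x))) → IsSoficAction α) ∧
    (α.ker = N → IsSoficGroup (H ⧸ N)) := by
  obtain ⟨R, hRn, hR, hNR, hs⟩ := all_Fin1 G H X α N hG (fun n hn => hN hn) hT hW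
  obtain ⟨h1, h2⟩ := all_Fin2 G H X α N R hR hNR hs
  refine ⟨⟨R, hRn, hR, hNR, hs⟩, fun h => h1 (h R hR hNR hs), h2, fun hk => ?_⟩
  have hRN : R = N := le_antisymm (hk ▸ hR) hNR
  subst hRN
  exact wreath_base (QuotientGroup.lift R α hR) hs

end SoficAct.Kz
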