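import Pool.Agent.Lib.MP_2d1e68_al.Cls

/-!
# Property (T), boundaries, pieces and almost isomorphisms between pieces

Definitions for the descent theorem for actions whose kernel contains normal subgroups with
property (T).
-/

open Finset Filter

noncomputable section

namespace SoficAct.Kz

/-! ## Property (T) -/

/-- `(S, κ)` is a Kazhdan pair of the discrete group `N`: every unitary representation with a unit vector
moved by at most `κ` by all `s ∈ S` has a nonzero invariant vector. -/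
def IsKazhdan {N : Type} [Group N] (S : Finset N) (κ : ℝ) : Prop :=
  ∀ (V : Type) [NormedAddCommGroup V] [InnerProductSpace ℂ V] [CompleteSpace V]
    (ρ : N →* (V ≃ₗᵢ[ℂ] V)), (∃ v : V, ‖v‖ = 1 ∧ ∀ s ∈ S, ‖ρ s v - v‖ ≤ κ) →
      ∃ v : V, v ≠ 0 ∧ ∀ n : N, ρ n v = v

/-- Kazhdan's property (T) for a discrete group. -/
def PropertyT (N : Type) [Group N] : Prop := ∃ (S : Finset N) (κ : ℝ), 0 < κ ∧ IsKazhdan S κ

/-! ## Counting -/

open Classical in
/-- The number of elements of `Y` in `Z`. -/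
def olap {A : Type} (Y Z : Finset A) : ℝ := ((Y.filter (fun a => a ∈ Z)).card : ℝ)

open Classical in
/-- The number of elements of `Y` which are not in `Z`. -/
def dif {A : Type} (Y Z : Finset A) : ℝ := ((Y.filter (fun a => a ∉ Z)).card : ℝ)

open Classical in
/-- The points of `Y` which `σ` moves out of `Y`. -/
def bd {A : Type} (σ : Equiv.Perm A) (Y : Finset A) : Finset A := Y.filter (fun a => σ a ∉ Y)

/-- The size of the boundary of `Y` for the permutations `φ s`, `s ∈ S`. -/
def bs {N A : Type} (φ : N → Equiv.Perm A) (S : Finset N) (Y : Finset A) : ℝ :=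
  ∑ s ∈ S, ((bd (φ s) Y).card : ℝ)

open Classical in
/-- The number of elements of `Y` which `σ` moves into `Z`. -/
def pass {A : Type} (σ : Equiv.Perm A) (Y Z : Finset A) : ℝ :=
  ((Y.filter (fun a => σ a ∈ Z)).card : ℝ)

open Classical in
/-- The number of elements of `M` at which `φ` is not multiplicative for all pairs in `F`. -/
def badIn {N A : Type} [Group N] (φ : N → Equiv.Perm A) (F : Finset N) (M : Finset A) : ℝ :=
  ((M.filter (fun a => ∃ g ∈ F, ∃ h ∈ F, φ (g * h) a ≠ φ g (φ h a))).card : ℝ)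

/-- The diagonal permutations of `A × A`. -/
def dbl {N A : Type} (φ : N → Equiv.Perm A) (g : N) : Equiv.Perm (A × A) :=
  Equiv.prodCongr (φ g) (φ g)

lemma olap_nonneg {A : Type} (Y Z : Finset A) : 0 ≤ olap Y Z := by
  unfold olap
  positivity

lemma dif_nonneg {A : Type} (Y Z : Finset A) : 0 ≤ dif Y Z := by
  unfold dif
  positivity

lemma olap_add_dif {A : Type} (Y Z : Finset A) : olap Y Z + dif Y Z = Y.card := by
  classical
  unfold olap dif
  exact_mod_cast card_filter_add_card_filter_not (s := Y) (fun a => a ∈ Z)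

lemma olap_comm {A : Type} (Y Z : Finset A) : olap Y Z = olap Z Y := by
  classical
  unfold olap
  congr 2
  ext a
  simp only [mem_filter]
  exact and_comm

lemma olap_le_left {A : Type} (Y Z : Finset A) : olap Y Z ≤ Y.card := by
  have := olap_add_dif Y Z
  have := dif_nonneg Y Z
  linarith

lemma olap_le_right {A : Type} (Y Z : Finset A) : olap Y Z ≤ Z.card := by
  rw [olap_comm]
  exact olap_le_left Z Y

lemma olap_self {A : Type} (Y : Finset A) : olap Y Y = Y.card := by
  classical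
  unfold olap
  rw [filter_true_of_mem (fun a ha => ha)]

/-- Elements of `X` outside `Z` are outside `Y`, or in `Y` and outside `Z`. -/
lemma dif_triangle {A : Type} (X Y Z : Finset A) : dif X Z ≤ dif X Y + dif Y Z := by
  classical
  unfold dif
  have : X.filter (fun a => a ∉ Z) ⊆ X.filter (fun a => a ∉ Y) ∪ Y.filter (fun a => a ∉ Z) := by
    intro a ha
    simp only [mem_filter, mem_union] at ha ⊢
    by_cases h : a ∈ Y
    · exact Or.inr ⟨h, ha.2⟩
    · exact Or.inl ⟨ha.1, h⟩
  exact_mod_cast (card_le_card this).trans (card_union_le _ _)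

/-- Two large subsets of `Y` meet. -/
lemma olap_inter {A : Type} (X Y Z : Finset A) : olap Y X + olap Y Z ≤ Y.card + olap X Z := by
  have h1 := dif_triangle Y X Z
  have h2 := olap_add_dif Y X
  have h3 := olap_add_dif Y Z
  have h4 : olap Y X - dif X Z ≤ olap Y Z := by linarith
  have h5 := olap_add_dif X Y
  classical
  have h6 : olap Y X + olap Y Z ≤ Y.card + olap X Z := by
    unfold olap
    have e1 : Y.filter (fun a => a ∈ X) ∪ Y.filter (fun a => a ∈ Z) ⊆ Y := by
      intro a ha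
      rw [mem_union, mem_filter, mem_filter] at ha
      tauto
    have e2 : Y.filter (fun a => a ∈ X) ∩ Y.filter (fun a => a ∈ Z) ⊆
        X.filter (fun a => a ∈ Z) := by
      intro a ha
      rw [mem_inter, mem_filter, mem_filter] at ha
      rw [mem_filter]
      tauto
    have e3 := card_union_add_card_inter (Y.filter (fun a => a ∈ X)) (Y.filter (fun a => a ∈ Z))
    have e4 := card_le_card e1
    have e5 := card_le_card e2
    exact_mod_cast (show (Y.filter (fun a => a ∈ X)).card + (Y.filter (fun a => a ∈ Z)).card ≤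
      Y.card + (X.filter (fun a => a ∈ Z)).card by omega)
  exact h6

lemma bs_nonneg {N A : Type} (φ : N → Equiv.Perm A) (S : Finset N) (Y : Finset A) :
    0 ≤ bs φ S Y := by
  unfold bs
  positivity

lemma bs_mono {N A : Type} (φ : N → Equiv.Perm A) {S T : Finset N} (h : S ⊆ T) (Y : Finset A) :
    bs φ S Y ≤ bs φ T Y := by
  unfold bs
  exact sum_le_sum_of_subset_of_nonneg h (fun _ _ _ => by positivity)

lemma pass_nonneg {A : Type} (σ : Equiv.Perm A) (Y Z : Finset A) : 0 ≤ pass σ Y Z := by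
  unfold pass
  positivity

lemma pass_le_left {A : Type} (σ : Equiv.Perm A) (Y Z : Finset A) : pass σ Y Z ≤ Y.card := by
  classical
  unfold pass
  exact_mod_cast card_filter_le _ _

lemma pass_le_right {A : Type} (σ : Equiv.Perm A) (Y Z : Finset A) : pass σ Y Z ≤ Z.card := by
  classical
  unfold pass
  have : (Y.filter (fun a => σ a ∈ Z)).card ≤ Z.card :=
    card_le_card_of_injOn (fun a => σ a) (fun a ha => (mem_filter.1 ha).2)
      (fun a _ b _ h => σ.injective h)
  exact_mod_cast this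

/-- The boundaries of `Y` for `σ` and for its inverse have the same size. -/
lemma card_bd_inv {A : Type} (σ : Equiv.Perm A) (Y : Finset A) :
    (bd σ⁻¹ Y).card = (bd σ Y).card := by
  classical
  have h1 : (bd σ Y).card + (Y.filter (fun a => σ a ∈ Y)).card = Y.card := by
    unfold bd
    rw [add_comm]
    exact card_filter_add_card_filter_not (s := Y) (fun a => σ a ∈ Y)
  have h2 : (bd σ⁻¹ Y).card + (Y.filter (fun a => σ⁻¹ a ∈ Y)).card = Y.card := by
    unfold bd
    rw [add_comm]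
    exact card_filter_add_card_filter_not (s := Y) (fun a => σ⁻¹ a ∈ Y)
  have h3 : (Y.filter (fun a => σ a ∈ Y)).card = (Y.filter (fun a => σ⁻¹ a ∈ Y)).card := by
    apply card_bij (fun a _ => σ a)
    · intro a ha
      rw [mem_filter] at ha ⊢
      exact ⟨ha.2, by simpa using ha.1⟩
    · intro a _ b _ h
      exact σ.injective h
    · intro b hb
      rw [mem_filter] at hb
      exact ⟨σ⁻¹ b, by rw [mem_filter]; exact ⟨hb.2, by simpa using hb.1⟩, by simp⟩
  omega

/-! ## Pieces and morphisms -/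

/-- A piece: a nonempty set `P` with small boundary for `T` such that all smaller subsets (fewer than `m`
elements, and `m` is close to the size of `P`) have large boundary for `S`. -/
structure Piece {N A : Type} (φ : N → Equiv.Perm A) (S T : Finset N) (θ η : ℝ) (P : Finset A)
    (m : ℕ) : Prop where
  ne : P.Nonempty
  lo : 98 * (P.card : ℝ) ≤ 100 * (m : ℝ)
  hi : 100 * (m : ℝ) ≤ 102 * (P.card : ℝ)
  bT : bs φ T P ≤ η * (P.card : ℝ)
  ex : ∀ Y ⊆ P, Y.Nonempty → Y.card < m → θ * (Y.card : ℝ) < bs φ S Y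

/-- An almost isomorphism `P → Q`: a nonempty partial injection with small boundary for the diagonal
permutations. -/
structure Mor {N A : Type} (φ : N → Equiv.Perm A) (U : Finset N) (τ : ℝ) (P Q : Finset A)
    (γ : Finset (A × A)) : Prop where
  ne : γ.Nonempty
  left : ∀ p ∈ γ, p.1 ∈ P
  right : ∀ p ∈ γ, p.2 ∈ Q
  inj1 : ∀ p ∈ γ, ∀ q ∈ γ, p.1 = q.1 → p = q
  inj2 : ∀ p ∈ γ, ∀ q ∈ γ, p.2 = q.2 → p = q
  bd : bs (dbl φ) U γ ≤ τ * (γ.card : ℝ)

/-- Similar almost isomorphisms. -/
def Sim {A : Type} (γ γ' : Finset (A × A)) : Prop := (γ.card : ℝ) ≤ 3 * olap γ γ'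

open Classical in
/-- The image of `γ` under `φ g × φ w`. -/
def trd {N A : Type} (φ : N → Equiv.Perm A) (g w : N) (γ : Finset (A × A)) : Finset (A × A) :=
  γ.image (fun p => (φ g p.1, φ w p.2))

open Classical in
/-- The number of elements of `γ` which `φ g × φ w` moves into `γ'`. -/
def pass2 {N A : Type} (φ : N → Equiv.Perm A) (g w : N) (γ γ' : Finset (A × A)) : ℝ :=
  ((γ.filter (fun p => (φ g p.1, φ w p.2) ∈ γ')).card : ℝ)

open Classical in
/-- Composition of relations: first `γ`, then `γ'`. -/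
def compo {A : Type} (γ γ' : Finset (A × A)) : Finset (A × A) :=
  ((γ ×ˢ γ').filter (fun q => q.1.2 = q.2.1)).image (fun q => (q.1.1, q.2.2))

lemma mem_compo {A : Type} (γ γ' : Finset (A × A)) (p : A × A) :
    p ∈ compo γ γ' ↔ ∃ b, (p.1, b) ∈ γ ∧ (b, p.2) ∈ γ' := by
  classical
  unfold compo
  rw [mem_image]
  constructor
  · rintro ⟨⟨⟨a, b⟩, ⟨b', c⟩⟩, hq, rfl⟩
    rw [mem_filter, mem_product] at hq
    obtain ⟨⟨h1, h2⟩, h3⟩ := hq
    dsimp only at h1 h2 h3
    exact ⟨b, h1, by rw [h3]; exact h2⟩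
  · rintro ⟨b, h1, h2⟩
    refine ⟨((p.1, b), (b, p.2)), ?_, rfl⟩
    rw [mem_filter, mem_product]
    exact ⟨⟨h1, h2⟩, rfl⟩

/-- `φ g` moves the piece `P` almost onto the piece `P'`. -/
def Mv {N A : Type} (φ : N → Equiv.Perm A) (ε : ℝ) (g : N) (P P' : Finset A) : Prop :=
  (1 - ε) * (P.card : ℝ) ≤ pass (φ g) P P' ∧ (1 - ε) * (P'.card : ℝ) ≤ pass (φ g) P P'

/-- The data: an almost action `φ` of `Γ` on `A`, which is multiplicative for `D` and free outside the
small set `Bd`, and almost all of `A` is divided into pieces. -/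
structure Stage {Γ : Type} [Group Γ] (S T D : Finset Γ) (θ η : ℝ) {A I : Type} [Fintype A]
    [Fintype I] (φ : Γ → Equiv.Perm A) (P : I → Finset A) (m : I → ℕ) (Bd : Finset A) :
    Prop where
  one : φ 1 = 1
  oneD : (1 : Γ) ∈ D
  ST : S ⊆ T
  TD : T ⊆ D
  pc : ∀ i, Piece φ S T θ η (P i) (m i)
  disj : ∀ i j, i ≠ j → ∀ a, a ∈ P i → a ∉ P j
  cov : (1 - η) * (Fintype.card A : ℝ) ≤ ∑ i, ((P i).card : ℝ)
  few : ∀ i, olap (P i) Bd ≤ η * ((P i).card : ℝ)
  mul : ∀ a, a ∉ Bd → ∀ k ∈ D, ∀ g ∈ D, ∀ h ∈ D, φ (g * h) (φ k a) = φ g (φ h (φ k a))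
  free : ∀ a, a ∉ Bd → ∀ g ∈ D, g ≠ 1 → φ g a ≠ a
  gi : ∀ i j (γ : Finset (A × A)), Mor φ S (θ / 8) (P i) (P j) γ →
    ∃ γ', Mor φ T (θ / 64) (P i) (P j) γ' ∧ (γ.card : ℝ) ≤ 2 * olap γ γ'

/-- A system of representatives `γ e : P (src e) → P (tgt e)` of the almost isomorphisms between
the pieces. -/
structure Skel {Γ A I E : Type} (S T : Finset Γ) (θ : ℝ) (φ : Γ → Equiv.Perm A)
    (P : I → Finset A) (src tgt : E → I) (γ : E → Finset (A × A)) : Prop where
  mor : ∀ e, Mor φ T (θ / 64) (P (src e)) (P (tgt e)) (γ e)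
  all : ∀ i j (δ : Finset (A × A)), Mor φ S (θ / 8) (P i) (P j) δ →
    ∃ e, src e = i ∧ tgt e = j ∧ 98 * ((P i).card : ℝ) ≤ 100 * olap δ (γ e)
  uni : ∀ e e', Sim (γ e) (γ e') → e = e'

/-- The action of `(g, w)` on the representatives. -/
def Act {Γ A I E : Type} (φ : Γ → Equiv.Perm A) (ε : ℝ) (g w : Γ) (P : I → Finset A)
    (src tgt : E → I) (γ : E → Finset (A × A)) (e e' : E) : Prop :=
  Mv φ ε g (P (src e)) (P (src e')) ∧ Mv φ ε w (P (tgt e)) (P (tgt e')) ∧
    9 * ((γ e).card : ℝ) ≤ 10 * pass2 φ g w (γ e) (γ e')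

open Classical in
/-- The number of representatives with source `i`. -/
def cnt {I E : Type} [Fintype E] (src : E → I) (i : I) : ℕ :=
  (univ.filter (fun e => src e = i)).card

/-- The weight of a representative. -/
def wt {A I E : Type} [Fintype E] (P : I → Finset A) (src : E → I) (e : E) : ℝ :=
  ((P (src e)).card : ℝ) / (cnt src (src e) : ℝ)

open Classical in
/-- What is lost of the weights `ω` under a partial map `R`, which is `f` where it is defined. -/
def loss {E : Type} [Fintype E] (ω : E → ℝ) (R : E → E → Prop) (f : E → E) : ℝ :=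
  ∑ e, if ∃ e', R e e' then max 0 (ω e - ω (f e)) else ω e

open Classical in
/-- The sum of `f i` over the `i` with the property `J`. -/
def sumIf {I : Type} [Fintype I] (J : I → Prop) (f : I → ℝ) : ℝ := ∑ i, if J i then f i else 0

open Classical in
/-- The indicator function of `M`. -/
def ind {A : Type} (M : Finset A) (a : A) : ℝ := if a ∈ M then 1 else 0

open Classical in
/-- The cell with number `k` of the division `c` of `R`. -/
def cell {A : Type} (R : Finset A) (c : A → ℕ) (k : ℕ) : Finset A := R.filter (fun a => c a = k)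

open Classical in
/-- The number of edges inside `R` which are cut by the division `c`. -/
def cutc {N A : Type} (φ : N → Equiv.Perm A) (T : Finset N) (R : Finset A) (c : A → ℕ) : ℝ :=
  ∑ t ∈ T, ((R.filter (fun a => φ t a ∈ R ∧ c a ≠ c (φ t a))).card : ℝ)

open Classical in
/-- The elements of `M` which are determined by their first coordinate and by their second
coordinate. -/
def uq {A : Type} (M : Finset (A × A)) : Finset (A × A) :=
  M.filter (fun p => (∀ q ∈ M, q.1 = p.1 → q = p) ∧ ∀ q ∈ M, q.2 = p.2 → q = p)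

/-- Sets with small boundary can be improved (the consequence of property (T)). -/
def Imp {N A : Type} (φ : N → Equiv.Perm A) (S T : Finset N) (θ η₁ ε₁ : ℝ) (Bd : Finset A) :
    Prop :=
  ∀ M : Finset A, M.Nonempty → bs φ S M ≤ θ * (M.card : ℝ) → olap M Bd ≤ ε₁ * (M.card : ℝ) →
    ∃ M' : Finset A, 100 * dif M M' ≤ (M.card : ℝ) ∧ 100 * dif M' M ≤ (M.card : ℝ) ∧
      bs φ T M' ≤ η₁ * (M.card : ℝ)

/-- The relations between the parameters. -/
structure Par {Γ : Type} (S : Finset Γ) (θ η ε : ℝ) : Prop where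
  θ0 : 0 < θ
  θ1 : θ ≤ 1
  η0 : 0 < η
  ε0 : 0 < ε
  ε1 : 100 * ε ≤ 1
  ηε : (24 + 8 * (S.card : ℝ)) * η ≤ θ * ε ^ 2

/-- `g` and `w` act in the same way on `S` by conjugation, with values in `T`. -/
structure Nrm {Γ : Type} [Group Γ] (S T D : Finset Γ) (g w : Γ) : Prop where
  gD : g ∈ D
  wD : w ∈ D
  giD : g⁻¹ ∈ D
  wiD : w⁻¹ ∈ D
  c1 : ∀ s ∈ S, g⁻¹ * s * g = w⁻¹ * s * w
  c2 : ∀ s ∈ S, g * s * g⁻¹ = w * s * w⁻¹
  t1 : ∀ s ∈ S, g⁻¹ * s * g ∈ T
  t2 : ∀ s ∈ S, g * s * g⁻¹ ∈ T

lemma Nrm.inv {Γ : Type} [Group Γ] {S T D : Finset Γ} {g w : Γ} (h : Nrm S T D g w) :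
    Nrm S T D g⁻¹ w⁻¹ where
  gD := h.giD
  wD := h.wiD
  giD := by rw [inv_inv]; exact h.gD
  wiD := by rw [inv_inv]; exact h.wD
  c1 := fun s hs => by rw [inv_inv, inv_inv]; exact h.c2 s hs
  c2 := fun s hs => by rw [inv_inv, inv_inv]; exact h.c1 s hs
  t1 := fun s hs => by rw [inv_inv]; exact h.t2 s hs
  t2 := fun s hs => by rw [inv_inv]; exact h.t1 s hs

lemma Mor.mono {N A : Type} {φ : N → Equiv.Perm A} {S T : Finset N} {τ τ' : ℝ} {P Q : Finset A}
    {γ : Finset (A × A)} (h : Mor φ T τ P Q γ) (hST : S ⊆ T) (hτ : τ ≤ τ') :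
    Mor φ S τ' P Q γ where
  ne := h.ne
  left := h.left
  right := h.right
  inj1 := h.inj1
  inj2 := h.inj2
  bd := (bs_mono (dbl φ) hST γ).trans (h.bd.trans
    (mul_le_mul_of_nonneg_right hτ (Nat.cast_nonneg _)))

lemma Par.η1 {Γ : Type} {S : Finset Γ} {θ η ε : ℝ} (h : Par S θ η ε) : 100000 * η ≤ θ := by
  have h1 := h.ηε
  have h2 : 0 ≤ (S.card : ℝ) * η := mul_nonneg (Nat.cast_nonneg _) h.η0.le
  have h3 : ε ^ 2 ≤ 1 / 10000 := by
    have := h.ε1
    have := h.ε0
    nlinarith
  have h4 := mul_le_mul_of_nonneg_left h3 h.θ0.le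
  have := h.θ0
  nlinarith

lemma Par.η2 {Γ : Type} {S : Finset Γ} {θ η ε : ℝ} (h : Par S θ η ε) :
    10000 * ((S.card : ℝ) * η) ≤ θ := by
  have h1 := h.ηε
  have h3 : ε ^ 2 ≤ 1 / 10000 := by
    have := h.ε1
    have := h.ε0
    nlinarith
  have h4 := mul_le_mul_of_nonneg_left h3 h.θ0.le
  have := h.θ0
  have := h.η0
  nlinarith [mul_nonneg (Nat.cast_nonneg (α := ℝ) S.card) h.η0.le]

end SoficAct.Kz
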