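import Pool.Agent.Lib.MP_2d1e68_al.Kz.Spec

open Finset Filter Topology ComplexConjugate

noncomputable section

namespace SoficAct.Kz

/-- a left invariant positive semidefinite kernel -/
private structure Ker (N : Type) [Group N] where
  k : N → N → ℝ
  symm : ∀ g h, k g h = k h g
  psd : ∀ f : N →₀ ℂ, 0 ≤ (f.sum fun g z => f.sum fun h w => conj z * w * (k g h : ℂ)).re
  inv : ∀ n g h, k (n * g) (n * h) = k g h

variable {N : Type} [Group N]

private def H0 (_ : Ker N) : Type := N →₀ ℂ

private instance (K : Ker N) : AddCommGroup (H0 K) := inferInstanceAs (AddCommGroup (N →₀ ℂ))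

private instance (K : Ker N) : Module ℂ (H0 K) := inferInstanceAs (Module ℂ (N →₀ ℂ))

private def ip (K : Ker N) (f g : N →₀ ℂ) : ℂ :=
  f.sum fun x z => g.sum fun y w => conj z * w * (K.k x y : ℂ)

private theorem ip_add_left (K : Ker N) (f g h : N →₀ ℂ) : ip K (f + g) h = ip K f h + ip K g h := by
  unfold ip
  rw [Finsupp.sum_add_index']
  · intro a
    simp
  · intro a b c
    simp [add_mul, ← Finsupp.sum_add]

private theorem ip_smul_left (K : Ker N) (f g : N →₀ ℂ) (r : ℂ) : ip K (r • f) g = conj r * ip K f g := by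
  unfold ip
  rw [Finsupp.sum_smul_index]
  · simp [Finsupp.mul_sum, mul_assoc]
  · intro a
    simp

private theorem ip_symm (K : Ker N) (f g : N →₀ ℂ) : conj (ip K g f) = ip K f g := by
  unfold ip
  rw [Finsupp.sum_comm]
  simp only [map_finsuppSum, map_mul, Complex.conj_conj, Complex.conj_ofReal]
  refine Finsupp.sum_congr fun x _ => Finsupp.sum_congr fun y _ => ?_
  rw [K.symm y x]
  ring

private abbrev core (K : Ker N) : PreInnerProductSpace.Core ℂ (H0 K) where
  inner f g := ip K f g
  conj_inner_symm f g := ip_symm K f g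
  re_inner_nonneg f := K.psd f
  add_left f g h := ip_add_left K f g h
  smul_left f g r := ip_smul_left K f g r

private instance (K : Ker N) : SeminormedAddCommGroup (H0 K) :=
  InnerProductSpace.Core.toSeminormedAddCommGroup (c := core K)

private instance (K : Ker N) : InnerProductSpace ℂ (H0 K) := InnerProductSpace.ofCore (core K)

private theorem inner_H0 (K : Ker N) (f g : H0 K) : inner ℂ f g = ip K f g := rfl

/-- translation -/
private def tr (K : Ker N) (n : N) : H0 K →ₗ[ℂ] H0 K := Finsupp.lmapDomain ℂ ℂ (fun g => n * g)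

private theorem tr_inner (K : Ker N) (n : N) (f g : H0 K) : inner ℂ (tr K n f) (tr K n g) = inner ℂ f g := by
  rw [inner_H0, inner_H0]
  change ip K (Finsupp.mapDomain (fun g => n * g) f) (Finsupp.mapDomain (fun g => n * g) g) = ip K f g
  unfold ip
  rw [Finsupp.sum_mapDomain_index]
  · refine Finsupp.sum_congr fun x _ => ?_
    rw [Finsupp.sum_mapDomain_index]
    · refine Finsupp.sum_congr fun y _ => ?_
      rw [K.inv]
    · intro b; simp
    · intro b m₁ m₂; ring
  · intro b; simp
  · intro b m₁ m₂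
    rw [← Finsupp.sum_add]
    refine Finsupp.sum_congr fun y _ => ?_
    rw [map_add]
    ring

private theorem tr_norm (K : Ker N) (n : N) (f : H0 K) : ‖tr K n f‖ = ‖f‖ := by
  have h := tr_inner K n f f
  rw [inner_self_eq_norm_sq_to_K, inner_self_eq_norm_sq_to_K] at h
  have h2 : ‖tr K n f‖ ^ 2 = ‖f‖ ^ 2 := by exact_mod_cast h
  exact (pow_left_inj₀ (norm_nonneg _) (norm_nonneg _) two_ne_zero).1 h2

private theorem tr_mul (K : Ker N) (m n : N) (f : H0 K) : tr K m (tr K n f) = tr K (m * n) f := by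
  change Finsupp.mapDomain (fun g => m * g) (Finsupp.mapDomain (fun g => n * g) f) =
    Finsupp.mapDomain (fun g => m * n * g) f
  rw [← Finsupp.mapDomain_comp]
  congr 1
  funext g
  simp [mul_assoc]

private theorem tr_one (K : Ker N) (f : H0 K) : tr K 1 f = f := by
  change Finsupp.mapDomain (fun g => 1 * g) f = f
  have : (fun g : N => 1 * g) = id := by funext g; simp
  rw [this, Finsupp.mapDomain_id]

private abbrev VV (K : Ker N) : Type := UniformSpace.Completion (H0 K)

private def trc (K : Ker N) (n : N) : VV K →L[ℂ] VV K :=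
  ((tr K n).mkContinuous 1 (fun f => by rw [tr_norm, one_mul])).completion

private theorem trc_coe (K : Ker N) (n : N) (f : H0 K) : trc K n (f : VV K) = (tr K n f : H0 K) := by
  unfold trc
  exact ContinuousLinearMap.completion_apply_coe _ _

private theorem trc_mul (K : Ker N) (m n : N) (x : VV K) : trc K m (trc K n x) = trc K (m * n) x := by
  induction x using UniformSpace.Completion.induction_on with
  | hp => exact isClosed_eq (by fun_prop) (by fun_prop)
  | ih x => rw [trc_coe, trc_coe, trc_coe, tr_mul]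

private theorem trc_one (K : Ker N) (x : VV K) : trc K 1 x = x := by
  induction x using UniformSpace.Completion.induction_on with
  | hp => exact isClosed_eq (by fun_prop) (by fun_prop)
  | ih x => rw [trc_coe, tr_one]

private theorem trc_norm (K : Ker N) (n : N) (x : VV K) : ‖trc K n x‖ = ‖x‖ := by
  induction x using UniformSpace.Completion.induction_on with
  | hp => exact isClosed_eq (by fun_prop) (by fun_prop)
  | ih x => rw [trc_coe, UniformSpace.Completion.norm_coe, UniformSpace.Completion.norm_coe, tr_norm]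

private def rhoE (K : Ker N) (n : N) : VV K ≃ₗᵢ[ℂ] VV K where
  toFun := trc K n
  invFun := trc K n⁻¹
  map_add' := fun x y => map_add _ x y
  map_smul' := fun c x => map_smul _ c x
  left_inv := fun x => by rw [trc_mul, inv_mul_cancel, trc_one]
  right_inv := fun x => by rw [trc_mul, mul_inv_cancel, trc_one]
  norm_map' := fun x => trc_norm K n x

private def rho (K : Ker N) : N →* (VV K ≃ₗᵢ[ℂ] VV K) where
  toFun := rhoE K
  map_one' := by
    ext x
    exact trc_one K x
  map_mul' := fun m n => by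
    ext x
    exact (trc_mul K m n x).symm

private def sgl (K : Ker N) (g : N) : H0 K := (Finsupp.single g 1 : N →₀ ℂ)

/-- the cyclic vector -/
private def xi (K : Ker N) : VV K := (sgl K 1 : H0 K)

private theorem rho_xi (K : Ker N) (g : N) : rho K g (xi K) = (sgl K g : VV K) := by
  change trc K g (xi K) = _
  unfold xi
  rw [trc_coe]
  congr 1
  change Finsupp.mapDomain (fun h => g * h) (Finsupp.single 1 1) = Finsupp.single g 1
  rw [Finsupp.mapDomain_single, mul_one]

private theorem rho_inner (K : Ker N) (g h : N) :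
    inner ℂ (rho K g (xi K)) (rho K h (xi K)) = (K.k g h : ℂ) := by
  rw [rho_xi, rho_xi, UniformSpace.Completion.inner_coe, inner_H0]
  unfold ip sgl
  rw [Finsupp.sum_single_index (by simp), Finsupp.sum_single_index (by simp)]
  simp

private theorem rho_norm (K : Ker N) (Λ : Finset N) (f : N → ℝ) :
    ‖∑ g ∈ Λ, (f g : ℂ) • rho K g (xi K)‖ ^ 2 = ∑ g ∈ Λ, ∑ h ∈ Λ, f g * f h * K.k g h := by
  have h1 : inner ℂ (∑ g ∈ Λ, (f g : ℂ) • rho K g (xi K)) (∑ g ∈ Λ, (f g : ℂ) • rho K g (xi K)) =
      ((∑ g ∈ Λ, ∑ h ∈ Λ, f g * f h * K.k g h : ℝ) : ℂ) := by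
    rw [sum_inner, Complex.ofReal_sum]
    refine Finset.sum_congr rfl fun g _ => ?_
    rw [inner_sum, Complex.ofReal_sum]
    refine Finset.sum_congr rfl fun h _ => ?_
    rw [inner_smul_left, inner_smul_right, rho_inner, Complex.conj_ofReal]
    push_cast
    ring
  rw [@norm_sq_eq_re_inner ℂ, h1]
  exact Complex.ofReal_re _

/-! ## The kernel -/

private def bb {A : Type} [Fintype A] (φ : N → Equiv.Perm A) (M : Finset A) (g h : N) : ℝ :=
  (∑ a, ind M ((φ g)⁻¹ a) * ind M ((φ h)⁻¹ a)) / (M.card : ℝ)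

private theorem ind_01 {A : Type} (M : Finset A) (a : A) : 0 ≤ ind M a ∧ ind M a ≤ 1 := by
  classical
  unfold ind
  split_ifs <;> norm_num

private theorem sum_ind {A : Type} [Fintype A] (M : Finset A) : ∑ a, ind M a = (M.card : ℝ) := by
  classical
  unfold ind
  simp

private theorem bb_mem {A : Type} [Fintype A] (φ : N → Equiv.Perm A) (M : Finset A) (hM : M.Nonempty)
    (g h : N) : bb φ M g h ∈ Set.Icc (0 : ℝ) 1 := by
  have hm : 0 < (M.card : ℝ) := by exact_mod_cast hM.card_pos
  unfold bb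
  constructor
  · exact div_nonneg (Finset.sum_nonneg fun a _ => mul_nonneg (ind_01 M _).1 (ind_01 M _).1) hm.le
  · rw [div_le_one hm]
    calc ∑ a, ind M ((φ g)⁻¹ a) * ind M ((φ h)⁻¹ a) ≤ ∑ a, ind M ((φ g)⁻¹ a) := by
          refine Finset.sum_le_sum fun a _ => ?_
          exact mul_le_of_le_one_right (ind_01 M _).1 (ind_01 M _).2
      _ = ∑ a, ind M a := Equiv.sum_comp (φ g)⁻¹ (ind M)
      _ = M.card := sum_ind M

private theorem perm_diff {A : Type} [Fintype A] [DecidableEq A] (M : Finset A) (σ τ : Equiv.Perm A) :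
    ∑ a, |ind M (σ⁻¹ a) - ind M (τ⁻¹ a)| ≤ 2 * ((M.filter (fun c => σ c ≠ τ c)).card : ℝ) := by
  set B : Finset A := M.filter (fun c => σ c ≠ τ c) with hB
  calc ∑ a, |ind M (σ⁻¹ a) - ind M (τ⁻¹ a)| ≤ ∑ a, (ind B (σ⁻¹ a) + ind B (τ⁻¹ a)) := by
        refine Finset.sum_le_sum fun a _ => ?_
        have h1 := (ind_01 B (σ⁻¹ a)).1
        have h2 := (ind_01 B (τ⁻¹ a)).1
        by_cases e1 : σ⁻¹ a ∈ M
        · by_cases e2 : τ⁻¹ a ∈ M
          · have : ind M (σ⁻¹ a) - ind M (τ⁻¹ a) = 0 := by
              unfold ind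
              rw [if_pos e1, if_pos e2, sub_self]
            rw [this, abs_zero]
            linarith
          · have h3 : σ⁻¹ a ∈ B := by
              rw [hB, Finset.mem_filter]
              refine ⟨e1, fun h => e2 ?_⟩
              have h4 : a = τ (σ⁻¹ a) := by rw [← h]; simp
              have h5 : τ⁻¹ a = σ⁻¹ a := by
                rw [Equiv.Perm.inv_eq_iff_eq]
                exact h4
              rw [h5]
              exact e1
            have h4 : ind B (σ⁻¹ a) = 1 := by unfold ind; rw [if_pos h3]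
            have h5 : ind M (σ⁻¹ a) - ind M (τ⁻¹ a) = 1 := by
              unfold ind
              rw [if_pos e1, if_neg e2, sub_zero]
            rw [h5, h4, abs_one]
            linarith
        · by_cases e2 : τ⁻¹ a ∈ M
          · have h3 : τ⁻¹ a ∈ B := by
              rw [hB, Finset.mem_filter]
              refine ⟨e2, fun h => e1 ?_⟩
              have h4 : a = σ (τ⁻¹ a) := by rw [h]; simp
              have h5 : σ⁻¹ a = τ⁻¹ a := by
                rw [Equiv.Perm.inv_eq_iff_eq]
                exact h4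
              rw [h5]
              exact e2
            have h4 : ind B (τ⁻¹ a) = 1 := by unfold ind; rw [if_pos h3]
            have h5 : ind M (σ⁻¹ a) - ind M (τ⁻¹ a) = -1 := by
              unfold ind
              rw [if_neg e1, if_pos e2, zero_sub]
            rw [h5, h4, abs_neg, abs_one]
            linarith
          · have : ind M (σ⁻¹ a) - ind M (τ⁻¹ a) = 0 := by
              unfold ind
              rw [if_neg e1, if_neg e2, sub_self]
            rw [this, abs_zero]
            linarith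
    _ = ∑ a, ind B a + ∑ a, ind B a := by
        rw [Finset.sum_add_distrib, Equiv.sum_comp σ⁻¹ (ind B), Equiv.sum_comp τ⁻¹ (ind B)]
    _ = 2 * (B.card : ℝ) := by
        rw [sum_ind]
        ring

private theorem diff_bad {A : Type} [Fintype A] (φ : N → Equiv.Perm A) (M : Finset A) (n g : N)
    (F : Finset N) (hn : n ∈ F) (hg : g ∈ F) :
    ∑ a, |ind M ((φ (n * g))⁻¹ (φ n a)) - ind M ((φ g)⁻¹ a)| ≤ 2 * badIn φ F M := by
  classical
  have h := perm_diff M ((φ n)⁻¹ * φ (n * g)) (φ g)
  have h1 : ∀ a, ((φ n)⁻¹ * φ (n * g))⁻¹ a = (φ (n * g))⁻¹ (φ n a) := by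
    intro a
    rw [mul_inv_rev, inv_inv]
    rfl
  simp only [h1] at h
  refine h.trans ?_
  unfold badIn
  have h2 : M.filter (fun c => ((φ n)⁻¹ * φ (n * g)) c ≠ φ g c) ⊆
      M.filter (fun a => ∃ g ∈ F, ∃ h ∈ F, φ (g * h) a ≠ φ g (φ h a)) := by
    intro c hc
    rw [Finset.mem_filter] at hc ⊢
    refine ⟨hc.1, n, hn, g, hg, fun h => hc.2 ?_⟩
    rw [Equiv.Perm.mul_apply, h]
    simp
  have h3 : ((M.filter (fun c => ((φ n)⁻¹ * φ (n * g)) c ≠ φ g c)).card : ℝ) ≤
      ((M.filter (fun a => ∃ g ∈ F, ∃ h ∈ F, φ (g * h) a ≠ φ g (φ h a))).card : ℝ) := by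
    exact_mod_cast Finset.card_le_card h2
  linarith

private theorem bb_inv {A : Type} [Fintype A] (φ : N → Equiv.Perm A) (M : Finset A) (hM : M.Nonempty)
    (n g h : N) (F : Finset N) (hn : n ∈ F) (hg : g ∈ F) (hh : h ∈ F) :
    |bb φ M (n * g) (n * h) - bb φ M g h| ≤ 4 * (badIn φ F M / (M.card : ℝ)) := by
  have hm : 0 < (M.card : ℝ) := by exact_mod_cast hM.card_pos
  have e1 : bb φ M (n * g) (n * h) =
      (∑ a, ind M ((φ (n * g))⁻¹ (φ n a)) * ind M ((φ (n * h))⁻¹ (φ n a))) / (M.card : ℝ) := by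
    unfold bb
    rw [Equiv.sum_comp (φ n) (fun a => ind M ((φ (n * g))⁻¹ a) * ind M ((φ (n * h))⁻¹ a))]
  have e2 : bb φ M g h = (∑ a, ind M ((φ g)⁻¹ a) * ind M ((φ h)⁻¹ a)) / (M.card : ℝ) := rfl
  rw [e1, e2, ← sub_div, abs_div, abs_of_pos hm, ← mul_div_assoc]
  refine div_le_div_of_nonneg_right ?_ hm.le
  rw [← Finset.sum_sub_distrib]
  calc |∑ a, (ind M ((φ (n * g))⁻¹ (φ n a)) * ind M ((φ (n * h))⁻¹ (φ n a)) -
          ind M ((φ g)⁻¹ a) * ind M ((φ h)⁻¹ a))|
      ≤ ∑ a, |ind M ((φ (n * g))⁻¹ (φ n a)) * ind M ((φ (n * h))⁻¹ (φ n a)) -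
          ind M ((φ g)⁻¹ a) * ind M ((φ h)⁻¹ a)| := Finset.abs_sum_le_sum_abs _ _
    _ ≤ ∑ a, (|ind M ((φ (n * g))⁻¹ (φ n a)) - ind M ((φ g)⁻¹ a)| +
          |ind M ((φ (n * h))⁻¹ (φ n a)) - ind M ((φ h)⁻¹ a)|) := by
        refine Finset.sum_le_sum fun a _ => ?_
        obtain ⟨x0, x1⟩ := ind_01 M ((φ (n * g))⁻¹ (φ n a))
        obtain ⟨y0, y1⟩ := ind_01 M ((φ (n * h))⁻¹ (φ n a))
        obtain ⟨z0, z1⟩ := ind_01 M ((φ g)⁻¹ a)
        obtain ⟨w0, w1⟩ := ind_01 M ((φ h)⁻¹ a)
        generalize ind M ((φ (n * g))⁻¹ (φ n a)) = x at *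
        generalize ind M ((φ (n * h))⁻¹ (φ n a)) = y at *
        generalize ind M ((φ g)⁻¹ a) = z at *
        generalize ind M ((φ h)⁻¹ a) = w at *
        have : x * y - z * w = (x - z) * y + z * (y - w) := by ring
        rw [this]
        refine (abs_add_le _ _).trans ?_
        rw [abs_mul, abs_mul, abs_of_nonneg y0, abs_of_nonneg z0]
        have := mul_le_of_le_one_right (abs_nonneg (x - z)) y1
        have := mul_le_of_le_one_left (abs_nonneg (y - w)) z1
        linarith
    _ ≤ 4 * badIn φ F M := by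
        rw [Finset.sum_add_distrib]
        have := diff_bad φ M n g F hn hg
        have := diff_bad φ M n h F hn hh
        linarith

private theorem bb_psd {A : Type} [Fintype A] (φ : N → Equiv.Perm A) (M : Finset A) (f : N →₀ ℂ) :
    0 ≤ (f.sum fun g z => f.sum fun h w => conj z * w * (bb φ M g h : ℂ)).re := by
  have h1 : (f.sum fun g z => f.sum fun h w => conj z * w * (bb φ M g h : ℂ)) =
      (((∑ a, Complex.normSq (f.sum fun h w => w * (ind M ((φ h)⁻¹ a) : ℂ))) / (M.card : ℝ) : ℝ) : ℂ) := by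
    have h2 : ∀ a, ((Complex.normSq (f.sum fun h w => w * (ind M ((φ h)⁻¹ a) : ℂ)) : ℝ) : ℂ) =
        f.sum fun g z => f.sum fun h w => conj z * w * ((ind M ((φ g)⁻¹ a) : ℂ) * (ind M ((φ h)⁻¹ a) : ℂ)) := by
      intro a
      rw [Complex.normSq_eq_conj_mul_self, map_finsuppSum, Finsupp.sum_mul]
      refine Finsupp.sum_congr fun g _ => ?_
      rw [Finsupp.mul_sum]
      refine Finsupp.sum_congr fun h _ => ?_
      rw [map_mul, Complex.conj_ofReal]
      ring
    rw [Complex.ofReal_div, Complex.ofReal_sum, Finset.sum_congr rfl fun a _ => h2 a]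
    unfold Finsupp.sum
    conv_rhs => rw [Finset.sum_comm, Finset.sum_div]
    refine Finset.sum_congr rfl fun g _ => ?_
    conv_rhs => rw [Finset.sum_comm, Finset.sum_div]
    refine Finset.sum_congr rfl fun h _ => ?_
    unfold bb
    push_cast
    rw [← Finset.mul_sum]
    ring
  rw [h1, Complex.ofReal_re]
  exact div_nonneg (Finset.sum_nonneg fun a _ => Complex.normSq_nonneg _) (Nat.cast_nonneg _)

private theorem quad {A : Type} [Fintype A] (φ : N → Equiv.Perm A) (M : Finset A) (Λ : Finset N)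
    (f : N → ℝ) : (∑ a : A, (∑ g ∈ Λ, f g * ind M ((φ g)⁻¹ a)) ^ 2) / (M.card : ℝ) =
      ∑ g ∈ Λ, ∑ h ∈ Λ, f g * f h * bb φ M g h := by
  have h1 : ∀ a : A, (∑ g ∈ Λ, f g * ind M ((φ g)⁻¹ a)) ^ 2 =
      ∑ g ∈ Λ, ∑ h ∈ Λ, f g * f h * (ind M ((φ g)⁻¹ a) * ind M ((φ h)⁻¹ a)) := by
    intro a
    rw [sq, Finset.sum_mul_sum]
    refine Finset.sum_congr rfl fun g _ => Finset.sum_congr rfl fun h _ => ?_
    ring
  rw [Finset.sum_congr rfl fun a _ => h1 a, Finset.sum_comm, Finset.sum_div]
  refine Finset.sum_congr rfl fun g _ => ?_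
  rw [Finset.sum_comm, Finset.sum_div]
  refine Finset.sum_congr rfl fun h _ => ?_
  unfold bb
  rw [← Finset.mul_sum]
  ring

theorem lim : S_Lim := by
  classical
  intro N ι _ U A _ φ M hM _ hbad
  have hex : ∀ g h : N, ∃ x : ℝ, Tendsto (fun i => bb (φ i) (M i) g h) U (𝓝 x) := by
    intro g h
    obtain ⟨x, _, hx⟩ := (isCompact_Icc (a := (0 : ℝ)) (b := 1)).ultrafilter_le_nhds
      (U.map fun i => bb (φ i) (M i) g h) (by
        rw [Filter.le_principal_iff, Ultrafilter.mem_coe, Ultrafilter.mem_map]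
        exact Filter.mem_of_superset Filter.univ_mem fun i _ => bb_mem (φ i) (M i) (hM i) g h)
    exact ⟨x, hx⟩
  choose k hk using hex
  have hsymm : ∀ g h, k g h = k h g := by
    intro g h
    refine tendsto_nhds_unique (hk g h) ?_
    refine (hk h g).congr fun i => ?_
    unfold bb
    congr 1
    exact Finset.sum_congr rfl fun a _ => mul_comm _ _
  have hpsd : ∀ f : N →₀ ℂ,
      0 ≤ (f.sum fun g z => f.sum fun h w => conj z * w * (k g h : ℂ)).re := by
    intro f
    have h1 : Tendsto (fun i => (f.sum fun g z => f.sum fun h w =>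
        conj z * w * (bb (φ i) (M i) g h : ℂ)).re) U
        (𝓝 (f.sum fun g z => f.sum fun h w => conj z * w * (k g h : ℂ)).re) := by
      refine (Complex.continuous_re.tendsto _).comp ?_
      unfold Finsupp.sum
      refine tendsto_finset_sum _ fun g _ => ?_
      refine tendsto_finset_sum _ fun h _ => ?_
      exact ((Complex.continuous_ofReal.tendsto _).comp (hk g h)).const_mul _
    exact ge_of_tendsto' h1 fun i => bb_psd (φ i) (M i) f
  have hinv : ∀ n g h, k (n * g) (n * h) = k g h := by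
    intro n g h
    have h1 : Tendsto (fun i => bb (φ i) (M i) (n * g) (n * h) - bb (φ i) (M i) g h) U
        (𝓝 (k (n * g) (n * h) - k g h)) := (hk _ _).sub (hk _ _)
    have h2 : Tendsto (fun i => bb (φ i) (M i) (n * g) (n * h) - bb (φ i) (M i) g h) U (𝓝 0) := by
      have h3 := (hbad {n, g, h}).const_mul 4
      rw [mul_zero] at h3
      refine squeeze_zero_norm (fun i => ?_) h3
      rw [Real.norm_eq_abs]
      exact bb_inv (φ i) (M i) (hM i) n g h {n, g, h} (by simp) (by simp) (by simp)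
    exact sub_eq_zero.1 (tendsto_nhds_unique h1 h2)
  set K : Ker N := ⟨k, hsymm, hpsd, hinv⟩ with hK
  refine ⟨VV K, inferInstance, inferInstance, inferInstance, rho K, xi K, fun Λ f => ?_⟩
  rw [rho_norm K Λ f]
  simp only [quad]
  refine tendsto_finset_sum _ fun g _ => ?_
  refine tendsto_finset_sum _ fun h _ => ?_
  exact (hk g h).const_mul _

end SoficAct.Kz
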