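import Pool.Agent.Lib.MP_2d1e68_al.Kz.Spec

/-!
# Mod: sofic model with a small bad set (helper82)
-/

open Finset Filter

noncomputable section

namespace SoficAct.Kz

/-- **Mod.** -/
theorem modd : S_Mod := by
  intro Γ _ hΓ D ε hε
  classical
  let D' : Finset Γ := insert 1 D
  let n : ℝ := (D'.card : ℝ)
  have hn : 0 ≤ n := Nat.cast_nonneg _
  have hK : 0 < n * (n * n + n) + 1 := by positivity
  let ε' : ℝ := ε / (n * (n * n + n) + 1)
  have hε' : 0 < ε' := div_pos hε hK
  obtain ⟨A, iA, nA, φ, h1, hmul, hfree⟩ := hΓ D' ε' hε'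
  let b : A → Prop := fun a => (∃ g ∈ D', ∃ h ∈ D', φ (g * h) a ≠ φ g (φ h a)) ∨
    ∃ g ∈ D', g ≠ 1 ∧ φ g a = a
  have hb1 : frac (fun a => ∃ g ∈ D', ∃ h ∈ D', φ (g * h) a ≠ φ g (φ h a)) ≤ n * (n * ε') := by
    refine frac_exists_le D' (fun g a => ∃ h ∈ D', φ (g * h) a ≠ φ g (φ h a)) _ fun g hg => ?_
    refine frac_exists_le D' (fun h a => φ (g * h) a ≠ φ g (φ h a)) _ fun h hh => ?_
    exact (hmul g hg h hh).le
  have hb2 : frac (fun a => ∃ g ∈ D', g ≠ 1 ∧ φ g a = a) ≤ n * ε' := by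
    refine frac_exists_le D' (fun g a => g ≠ 1 ∧ φ g a = a) _ fun g hg => ?_
    by_cases hg1 : g = 1
    · rw [frac_false fun a h => h.1 hg1]
      exact hε'.le
    · have h2 := hfree g hg hg1
      have h3 := frac_compl (fun a => φ g a = a)
      have h4 : hamming 1 (φ g) = frac (fun a => ¬ φ g a = a) := by
        unfold hamming
        congr 1
        funext a
        rw [Equiv.Perm.one_apply, ne_comm]
      rw [h4] at h2
      have h5 : frac (fun a => g ≠ 1 ∧ φ g a = a) ≤ frac (fun a => φ g a = a) :=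
        frac_mono fun a h => h.2
      linarith
  have hb : frac b ≤ (n * n + n) * ε' := by
    have h2 := frac_or (fun a => ∃ g ∈ D', ∃ h ∈ D', φ (g * h) a ≠ φ g (φ h a))
      (fun a => ∃ g ∈ D', g ≠ 1 ∧ φ g a = a)
    have h3 : frac b ≤ n * (n * ε') + n * ε' := h2.trans (add_le_add hb1 hb2)
    linarith [h3]
  have hB : frac (fun a => ∃ k ∈ D', b (φ k a)) ≤ ε := by
    refine (frac_exists_le D' (fun k a => b (φ k a)) ((n * n + n) * ε') fun k _ => ?_).trans ?_
    · rw [frac_perm b (φ k)]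
      exact hb
    · show n * ((n * n + n) * ε') ≤ ε
      have h2 : n * ((n * n + n) * ε') = (n * (n * n + n)) * ε' := by ring
      rw [h2]
      show (n * (n * n + n)) * (ε / (n * (n * n + n) + 1)) ≤ ε
      rw [mul_div_assoc', div_le_iff₀ hK]
      nlinarith
  refine ⟨A, iA, nA, φ, univ.filter fun a => ∃ k ∈ D', b (φ k a), h1, ?_, ?_, ?_⟩
  · exact card_filter_le_of_frac _ ε hB
  · intro a ha k hk g hg h hh
    by_contra hne
    apply ha
    rw [mem_filter]
    refine ⟨mem_univ _, k, mem_insert_of_mem hk, Or.inl ⟨g, mem_insert_of_mem hg, h,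
      mem_insert_of_mem hh, hne⟩⟩
  · intro a ha g hg hg1 hga
    apply ha
    rw [mem_filter]
    refine ⟨mem_univ _, 1, mem_insert_self _ _, Or.inr ⟨g, mem_insert_of_mem hg, hg1, ?_⟩⟩
    rw [h1, Equiv.Perm.one_apply]
    exact hga

end SoficAct.Kz
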