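import Pool.Agent.Lib.MP_2d1e68_al.Kz.Base

/-!
# Descent along normal subgroups with property (T): the statements, with proofs

THEOREM.  Let `H` act on `X` by `α`, let `G` be nontrivial and let `N` be a normal subgroup of `H` which acts
trivially on `X`, such that every finite subset of `N` lies in a normal subgroup `M ≤ N` of `H` with
property (T).  If `G ≀_α H` is sofic, then there is a normal subgroup `R` of `H`, `N ≤ R ≤ Ker α`, such that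
`G ≀ (H/R)` is sofic.  In particular, `α` is sofic if all `H_x / N` are amenable, and `H / N` is
sofic if `N = Ker α`.

IDEA.  Let `A` be a finite model of `W = G ≀_α H`.  Property (T) of `N` gives a division of `A` into pieces
`P i` which are almost `N`-invariant and expand (statements `Lim` to `DT`), and the almost
`N`-equivariant bijections between the pieces form, up to small changes, a finite set `E` (`Rep`) on which
`W` acts, `γ ↦ w γ h⁻¹` for `w = ω h`, `ω` in the lamp group, such that `N` acts trivially and the lamps act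
freely (`OP` to `Free`).  With suitable weights the action is almost measure preserving (`Mass`, `Loss`), which
gives finite models of `W` in which `N` acts trivially (`Uni`, `Core`).

All statements are independent of each other: the statements used are hypotheses of the theorem to
be proved.  Everything below is a complete proof.  In the counting arguments `S.card` is written `K`.
-/

open Finset Filter Topology

noncomputable section

namespace SoficAct.Kz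

/-! ## L. Property (T) for almost actions -/

/-- **Lim** (the limit representation; only Mathlib).
PROOF.  Let `E` be `N →₀ ℂ` (a type synonym).  For `f ∈ E` and `i : ι` put `f_i (a) = ∑_g f g * ind (M i)
((φ i g)⁻¹ a)`, a function `A i → ℂ`.  For `f, f' ∈ E` the numbers `B_i f f' = (∑_a conj (f_i a) * f'_i a) /
|M i|` are bounded by `(∑_g |f g|) (∑_g |f' g|)` (`∑_a ind (M i) (σ a) ind (M i) (τ a) ≤ |M i|` for permutations),
so they have a limit `B f f'` along the ultrafilter `U` (bounded sequences converge along ultrafilters: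
`IsCompact.ultrafilter_le_nhds` for a closed ball).  `B` is sesquilinear, hermitian and `B f f ≥ 0`, so it
is a `PreInnerProductSpace.Core`, which gives `E` a seminorm and an inner product; `V` is the completion
`UniformSpace.Completion E`.  `N` acts on `E` by `(n f) = ∑_g f g δ_(n g)` (`Finsupp.mapDomain (n * ·)`).  This action
preserves `B`: it suffices to show `B (δ_(n g)) (δ_(n h)) = B δ_g δ_h`, i.e. that the difference of
`#{a | (φ i (n g))⁻¹ a ∈ M i, (φ i (n h))⁻¹ a ∈ M i} = |φ i (n g) (M i) ∩ φ i (n h) (M i)|` and `|φ i g (M i) ∩ φ i h (M i)| =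
|φ i n φ i g (M i) ∩ φ i n φ i h (M i)|` is `o(|M i|)`; and indeed the images of `M i` under `φ i (n g)` and
`φ i n * φ i g` differ in at most `2 * badIn (φ i) {n, g} (M i)` elements (take `F = {n, g}` in the hypothesis), and
similarly for `h`.  The isometries of `E` extend to the completion (`UniformSpace.Completion.map`,
`LinearIsometryEquiv`), `ρ` is multiplicative and `ξ = δ_1`.  Then `ρ g ξ = δ_g` and `‖∑_(g ∈ Λ) f g δ_g‖² =
B f f = lim B_i f f`, which is the claim. -/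
def S_Lim : Prop :=
  ∀ (N ι : Type) [Group N] (U : Ultrafilter ι) (A : ι → Type) [∀ i, Fintype (A i)]
    (φ : ∀ i, N → Equiv.Perm (A i)) (M : ∀ i, Finset (A i)),
    (∀ i, (M i).Nonempty) → (∀ i, φ i 1 = 1) →
    (∀ F : Finset N, Tendsto (fun i => badIn (φ i) F (M i) / ((M i).card : ℝ)) U (𝓝 0)) →
    ∃ (V : Type) (_ : NormedAddCommGroup V) (_ : InnerProductSpace ℂ V) (_ : CompleteSpace V)
      (ρ : N →* (V ≃ₗᵢ[ℂ] V)) (ξ : V), ∀ (Λ : Finset N) (f : N → ℝ),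
      Tendsto (fun i => (∑ a : A i, (∑ g ∈ Λ, f g * ind (M i) ((φ i g)⁻¹ a)) ^ 2) /
        ((M i).card : ℝ)) U (𝓝 (‖∑ g ∈ Λ, (f g : ℂ) • ρ g ξ‖ ^ 2))

/-- **Gap** (only Mathlib).
PROOF.  `W = {v | ∀ n, ρ n v = v}` is a closed subspace, `ξ₀` the orthogonal projection of `ξ` to `W`, `u = ξ - ξ₀ ∈
Wᗮ`.  Each `ρ n` maps `W` to itself and is unitary, so it maps `Wᗮ` to itself, and `ρ` restricts to
`ρ' : N →* (Wᗮ ≃ₗᵢ[ℂ] Wᗮ)` (`Wᗮ` is complete).  `ρ'` has no nonzero invariant vector, because such a vector is in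
`W ⊓ Wᗮ = ⊥`.  If `u ≠ 0` then `IsKazhdan` (contrapositive, for `ρ'` and the unit vector `u / ‖u‖`) gives
`s ∈ S` with `‖ρ s u - u‖ > κ ‖u‖`.  But `ρ s u - u = ρ s ξ - ξ`, so `κ ‖u‖ < δ`. -/
def S_Gap : Prop :=
  ∀ (N : Type) [Group N] (S : Finset N) (κ : ℝ), 0 < κ → IsKazhdan S κ →
    ∀ (V : Type) [NormedAddCommGroup V] [InnerProductSpace ℂ V] [CompleteSpace V]
      (ρ : N →* (V ≃ₗᵢ[ℂ] V)) (ξ : V) (δ : ℝ), 0 ≤ δ → (∀ s ∈ S, ‖ρ s ξ - ξ‖ ≤ δ) →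
      ∃ ξ₀ : V, (∀ n, ρ n ξ₀ = ξ₀) ∧ ‖ξ - ξ₀‖ ≤ δ / κ ∧
        ∀ v : V, (∀ n, ρ n v = v) → inner ℂ v (ξ - ξ₀) = 0

/-- **Cvx** (only Mathlib).
PROOF.  Let `C` be the closure of the convex hull (over `ℝ`) of the orbit `{ρ n ξ}`.  It is nonempty, closed, hence
complete, and convex, so it has a point `v₀` of minimal norm (`exists_norm_eq_iInf_of_complete_convex`), and
it is unique (parallelogram law: two points of minimal norm have a midpoint in `C`).  `ρ n` maps the orbit to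
itself, hence maps `C` into `C`, and preserves the norm, so `ρ n v₀ = v₀` for all `n`.  For an invariant vector `w` one
has `⟪w, ρ n ξ - ξ₀⟫ = ⟪ρ n w, ρ n (ξ - ξ₀)⟫ = ⟪w, ξ - ξ₀⟫ = 0`, so `⟪w, v - ξ₀⟫ = 0` for all `v` in the convex hull, and
by continuity for all `v ∈ C`.  With `w = v₀ - ξ₀` (invariant) and `v = v₀` this gives `v₀ = ξ₀`.  So
`ξ₀ ∈ C`, and there is a point of the convex hull at distance at most `η` from `ξ₀`; such a point is a finite convex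
combination `∑ w_i ρ (n_i) ξ` (`mem_convexHull_iff_exists_fintype`, `convexHull_range_eq_exists_affineCombination` or
similar); put `f g = ∑_(n_i = g) w_i`, `Λ = {n_i}`. -/
def S_Cvx : Prop :=
  ∀ (N V : Type) [Group N] [NormedAddCommGroup V] [InnerProductSpace ℂ V] [CompleteSpace V]
    (ρ : N →* (V ≃ₗᵢ[ℂ] V)) (ξ ξ₀ : V), (∀ n, ρ n ξ₀ = ξ₀) →
    (∀ v : V, (∀ n, ρ n v = v) → inner ℂ v (ξ - ξ₀) = 0) → ∀ η : ℝ, 0 < η →
    ∃ (Λ : Finset N) (f : N → ℝ), (∀ g, 0 ≤ f g) ∧ ∑ g ∈ Λ, f g = 1 ∧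
      ‖(∑ g ∈ Λ, (f g : ℂ) • ρ g ξ) - ξ₀‖ ≤ η

/-- **TI1** (from `S_Lim`, `S_Gap`, `S_Cvx`).
PROOF.  By contradiction.  Fix `T, θ, η` such that no `(F, ε)` works.  For `i = (F, k) : Finset N × ℕ` take a
counterexample `(A i, φ i, M i)` for `F` and `ε = 1/(k+1)`.  Let `U = Ultrafilter.of atTop` on `Finset N × ℕ`.  For a fixed
`F₀` the number `badIn (φ i) F₀ (M i)` is at most `badIn (φ i) F (M i) ≤ |M i|/(k+1)` as soon as `F₀ ⊆ F`, so the
hypothesis of `S_Lim` holds; get `V, ρ, ξ`.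
For `s ∈ S`: `‖ρ s ξ - ξ‖² = lim (∑_a (ind (M i) ((φ i s)⁻¹ a) - ind (M i) a)²)/|M i|` (take `Λ = {s, 1}`, `f = δ_s - δ_1`
if `s ≠ 1`; `φ i 1 = 1`), and the sum is `|φ i s (M i) \ M i| + |M i \ φ i s (M i)| = 2 |bd (φ i s) (M i)| ≤ 2 θ |M i|`.  So
`‖ρ s ξ - ξ‖ ≤ δ := √(2θ)`.  `S_Gap` gives `ξ₀` with `‖ξ - ξ₀‖ ≤ δ/κ`.  Choose `η' > 0` with `4 η'^2 < η` (then also
`2 η'^2 < η`), and `Λ, f` by `S_Cvx` for `η'`.  Put `v = ∑ f g ρ g ξ ∈ V` and `v_i (a) = ∑_(g ∈ Λ) f g ind (M i) ((φ i g)⁻¹ a) ∈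
[0, 1]`.  Then:
(1) `lim (∑_a (v_i a - ind (M i) a)²)/|M i| = ‖v - ξ‖² ≤ (δ/κ + η')² ≤ 2 δ²/κ² + 2 η'^2 < 4θ/κ² + η`;
(2) for `t ∈ T`: `‖ρ t v - v‖ ≤ 2 η'` because `ρ t ξ₀ = ξ₀`; and `ρ t v - v = ∑ f g (ρ (t g) ξ - ρ g ξ)`, so
`lim (∑_a (v'_i a - v_i a)²)/|M i| ≤ 4 η'^2 < η` with `v'_i (a) = ∑ f g ind (M i) ((φ i (t g))⁻¹ a)`.  Compare with
`v_i ((φ i t)⁻¹ a) = ∑ f g ind (M i) ((φ i g)⁻¹ (φ i t)⁻¹ a)`: for each `g` the two indicator functions are those of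
`φ i (t g) (M i)` and `φ i t φ i g (M i)`, which differ in at most `2 badIn (φ i) {t, g} (M i) = o(|M i|)` points, and all
functions have values in `[0, 1]`, so `∑_a |v'_i a - v_i ((φ i t)⁻¹ a)| = o(|M i|)` and `∑_a (v_i ((φ i t)⁻¹ a) - v_i a)² ≤
∑_a (v'_i a - v_i a)² + o(|M i|)` (use `|x² - y²| ≤ 2 |x - y|` for `x, y ∈ [-1, 1]`).  Replace `a` by `φ i t a`:
`∑_a (v_i (φ i t a) - v_i a)² ≤ η |M i|` for `U`-almost all `i`.
So for `U`-almost all `i` the function `v_i` contradicts the choice of the counterexample. -/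
def S_TI1 : Prop :=
  ∀ (N : Type) [Group N] (S : Finset N) (κ : ℝ), 0 < κ → IsKazhdan S κ →
    ∀ (T : Finset N) (θ η : ℝ), 0 ≤ θ → 0 < η → ∃ (F : Finset N) (ε : ℝ), 0 < ε ∧
      ∀ (A : Type) [Fintype A] (φ : N → Equiv.Perm A) (M : Finset A), φ 1 = 1 → M.Nonempty →
        bs φ S M ≤ θ * (M.card : ℝ) → badIn φ F M ≤ ε * (M.card : ℝ) →
        ∃ v : A → ℝ, (∀ a, 0 ≤ v a ∧ v a ≤ 1) ∧
          ∑ a, (v a - ind M a) ^ 2 ≤ (4 * θ / κ ^ 2 + η) * (M.card : ℝ) ∧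
          ∀ t ∈ T, ∑ a, (v (φ t a) - v a) ^ 2 ≤ η * (M.card : ℝ)

/-- **Lev** (level sets; only Mathlib and `Base`).
PROOF.  For `r ∈ [1/9, 4/9]` put `M_r = {a | v a ^ 2 > r}`.  (1) If `a ∈ M \ M_r` then `v a ≤ 2/3`, so `(v a - 1)² ≥ 1/9`;
if `a ∈ M_r \ M` then `v a > 1/3`, so `(v a)² ≥ 1/9`.  Hence `dif M M_r + dif M_r M ≤ 9 δ`.  (2) For `t ∈ T` and `a`:
`a ∈ bd (φ t) M_r` iff `v (φ t a)^2 ≤ r < v a ^2`, so `∫_{1/9}^{4/9} |bd (φ t) M_r| dr ≤ ∑_a |v a ^2 - v (φ t a)^2| ≤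
√(∑_a (v a - v (φ t a))²) √(∑_a (v a + v (φ t a))²)` (Cauchy-Schwarz, `Finset.sum_mul_sq_le_sq_mul_sq`), and
`∑_a (v a + v (φ t a))² ≤ 2 ∑ (v a)² + 2 ∑ (v (φ t a))² = 4 ∑ (v a)² ≤ 8 ∑ (v a - ind M a)² + 8 |M| ≤ 8 (δ + |M|)`.  So
the integral over `r` of `bs φ T M_r` is at most `T.card * √(8 ζ (δ + |M|))`, and since the interval has length `1/3`
there is an `r` with `bs φ T M_r ≤ 3 * T.card * √(...)`.  (Instead of integrals: the function `r ↦ bs φ T M_r` is a finite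
sum of indicator functions of intervals; `MeasureTheory.exists_le_setAverage` or a direct argument.) -/
def S_Lev : Prop :=
  ∀ (N A : Type) [Fintype A] (φ : N → Equiv.Perm A) (T : Finset N) (M : Finset A) (v : A → ℝ)
    (δ ζ : ℝ), (∀ a, 0 ≤ v a ∧ v a ≤ 1) → ∑ a, (v a - ind M a) ^ 2 ≤ δ →
    (∀ t ∈ T, ∑ a, (v (φ t a) - v a) ^ 2 ≤ ζ) →
    ∃ M' : Finset A, dif M M' + dif M' M ≤ 9 * δ ∧
      bs φ T M' ≤ 3 * ((T.card : ℝ) * √(8 * ζ * (δ + (M.card : ℝ))))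

/-- **TI** (from `S_TI1`, `S_Lev`).
PROOF.  Let `C = 4 θ/κ² + 1`.  Choose `η₁ ∈ (0, 1]` with `9 η₁ ≤ η` and `3 * T.card * √(8 η₁ (C + 1)) ≤ η`.  Take `F, ε` from
`S_TI1` for `T, θ, η₁`, then `v`, and apply `S_Lev` with `δ = (4θ/κ² + η₁) |M|`, `ζ = η₁ |M|`:
`9 δ ≤ (36 θ/κ² + η) |M|` and `√(8 ζ (δ + |M|)) ≤ |M| √(8 η₁ (C + 1))`. -/
def S_TI : Prop :=
  ∀ (N : Type) [Group N] (S : Finset N) (κ : ℝ), 0 < κ → IsKazhdan S κ →
    ∀ (T : Finset N) (θ η : ℝ), 0 ≤ θ → 0 < η → ∃ (F : Finset N) (ε : ℝ), 0 < ε ∧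
      ∀ (A : Type) [Fintype A] (φ : N → Equiv.Perm A) (M : Finset A), φ 1 = 1 → M.Nonempty →
        bs φ S M ≤ θ * (M.card : ℝ) → badIn φ F M ≤ ε * (M.card : ℝ) →
        ∃ M' : Finset A, dif M M' + dif M' M ≤ (36 * θ / κ ^ 2 + η) * (M.card : ℝ) ∧
          bs φ T M' ≤ η * (M.card : ℝ)

/-! ## D. Division into pieces -/

/-- **Grd** (greedy division).
PROOF.  Strong induction on `R.card`.  If every nonempty `Y ⊆ R` has `θ |Y| < bs φ S Y`, take `n = 0`, `c = 0`, any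
`m` (`cell R c 0 = R`, and `cutc = 0`).  Otherwise let `M ⊆ R` be nonempty with `bs φ S M ≤ θ |M|` and of minimal
cardinality.
Case 1: `ε₁ |M| < olap M Bd`.  Let `R' = R \ M`, take `(n', c', m')` for `R'`, and put `n = n' + 1`, `c = n` on `M`, `c = c'`
elsewhere, `m = m'` (with any value at `n`).  The cells of `c` in `R` are those of `c'` in `R'` and `M`.  An edge
`(a, φ t a)` inside `R` which is cut has an end in `M` (at most `2 T.card |M|` of them, since `a ∈ M` or `φ t a ∈ M`), or is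
an edge inside `R'` cut by `c'`.  And `2 T.card |M| ≤ (2 T.card/ε₁) olap M Bd`, `olap M Bd + olap R' Bd = olap R Bd`.
Case 2: otherwise `Imp` gives `M'` (`100 dif M M' ≤ |M|`, `100 dif M' M ≤ |M|`, `bs φ T M' ≤ η₁ |M|`).  Let `P = M' ∩ R`,
`R' = R \ P`; `100 |P| ≥ 100 olap M M' ≥ 99 |M|` and `100 |P| ≤ 100 |M'| ≤ 101 |M|`, so `P` is nonempty and `m n = |M|` is fine:
for nonempty `Y ⊆ P` with `|Y| < |M|` one has `Y ⊆ R`, so `θ |Y| < bs φ S Y` by minimality.  An edge inside `R` with exactly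
one end in `P` has exactly one end in `M'`, so there are at most `2 bs φ T M' ≤ 2 η₁ |M| ≤ 4 η₁ |P|` of
them (`card_bd_inv` for the edges which enter `M'`); the other cut edges are inside `R'`, or inside `P` (and
these are not cut).  So `cutc ≤ 4 η₁ |P| + 4 η₁ |R'| + (2 T.card/ε₁) olap R' Bd`. -/
def S_Grd : Prop :=
  ∀ (N A : Type) [Fintype A] (φ : N → Equiv.Perm A) (S T : Finset N) (θ η₁ ε₁ : ℝ)
    (Bd : Finset A), S ⊆ T → 0 < θ → 0 < η₁ → 0 < ε₁ → Imp φ S T θ η₁ ε₁ Bd →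
    ∀ R : Finset A, ∃ (n : ℕ) (c : A → ℕ) (m : ℕ → ℕ), (∀ a, c a ≤ n) ∧
      (∀ k, 1 ≤ k → k ≤ n → (cell R c k).Nonempty ∧
        (ε₁ * ((cell R c k).card : ℝ) < olap (cell R c k) Bd ∨
          (99 * (m k : ℝ) ≤ 100 * ((cell R c k).card : ℝ) ∧
            100 * ((cell R c k).card : ℝ) ≤ 101 * (m k : ℝ) ∧
            ∀ Y ⊆ cell R c k, Y.Nonempty → Y.card < m k → θ * (Y.card : ℝ) < bs φ S Y))) ∧
      (∀ Y ⊆ cell R c 0, Y.Nonempty → θ * (Y.card : ℝ) < bs φ S Y) ∧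
      cutc φ T R c ≤ 4 * η₁ * (R.card : ℝ) + 2 * (T.card : ℝ) / ε₁ * olap R Bd

/-- **DT** (from `S_Grd`).
PROOF.  Let `x = min θ η`, `η₁ = η x / 32`; given `ε₁`, choose `ε > 0` with `(2 K/ε₁) ε (1/θ + 1/η) ≤ η/4` and
`ε / min η ε₁ ≤ η/4`.  Apply `S_Grd` with `R = univ`.  `|Bd| ≤ ε |A|`, so the number of cut edges is at most `y |A|` with
`y = 4 η₁ + 2 K ε/ε₁`.  An element of `bd (φ t) (cell k)` is an edge which is cut, so the sum over `k = 0, …, n` of `bs φ T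
(cell k)` is at most `y |A|`.  The cell `0`: if nonempty, `θ |cell 0| < bs φ S (cell 0) ≤ y |A|`.  Let `I` be the set of the `k ∈ [1, n]`
with `bs φ T (cell k) ≤ η |cell k|` and `olap (cell k) Bd ≤ min η ε₁ |cell k|` (as a subtype of `Fin (n+1)` or of `ℕ`).  For
`k ∈ I` the second alternative of `S_Grd` holds and `cell k` is a `Piece` (`98 |P| ≤ 100 m` and `100 m ≤ 102 |P|` from
`99 m ≤ 100 |P| ≤ 101 m`).  The cells which are not in `I`: `∑ |cell k|` over those with `bs φ T > η |cell k|` is at most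
`(y/η) |A|`; over those with `olap > min η ε₁ |cell k|` at most `|Bd| / min η ε₁ ≤ (η/4) |A|`.  So
`∑_(k ∈ I) |cell k| ≥ |A| (1 - y/θ - y/η - η/4) ≥ (1 - η) |A|`, because `4 η₁ (1/θ + 1/η) ≤ η/4`. -/
def S_DT : Prop :=
  ∀ (K : ℕ) (θ η : ℝ), 0 < θ → 0 < η → ∃ η₁ : ℝ, 0 < η₁ ∧ ∀ ε₁ : ℝ, 0 < ε₁ → ∃ ε : ℝ, 0 < ε ∧
    ∀ (N A : Type) [Fintype A] (φ : N → Equiv.Perm A) (S T : Finset N) (Bd : Finset A), S ⊆ T →
      T.card ≤ K → (Bd.card : ℝ) ≤ ε * (Fintype.card A : ℝ) → Imp φ S T θ η₁ ε₁ Bd →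
      ∃ (I : Type) (_ : Fintype I) (P : I → Finset A) (m : I → ℕ),
        (∀ i, Piece φ S T θ η (P i) (m i)) ∧ (∀ i j, i ≠ j → ∀ a, a ∈ P i → a ∉ P j) ∧
        (1 - η) * (Fintype.card A : ℝ) ≤ ∑ i, ((P i).card : ℝ) ∧
        ∀ i, olap (P i) Bd ≤ η * ((P i).card : ℝ)

/-- **Uq** (only `Base`).
PROOF.  Let `σ = φ t`, `U = uq M`, and let `p = (a, c) ∈ bd (dbl φ t) U`: `p ∈ U`, `p' = (σ a, σ c) ∉ U`.  Either `p' ∉ M`, and
`p ∈ bd (dbl φ t) M`.  Or `p' ∈ M` and there is `q ∈ M`, `q ≠ p'` with `q.1 = σ a`: then `(σ⁻¹ q.1, σ⁻¹ q.2) = (a, σ⁻¹ q.2)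
∉ M`, because otherwise it would be equal to `p` (`p ∈ U`), so `q ∈ bd (dbl φ t)⁻¹ M`; choose such a `q` for each
`p`: the map `p ↦ q` is injective on `U` because `a = σ⁻¹ q.1` and `p` is determined by `a`.  Or `p' ∈ M` and there is `q ∈ M`,
`q ≠ p'` with `q.2 = σ c`: the same.  So `|bd (dbl φ t) U| ≤ |bd (dbl φ t) M| + 2 |bd (dbl φ t)⁻¹ M| =
3 |bd (dbl φ t) M|` (`card_bd_inv`).  Sum over `t ∈ T`. -/
def S_Uq : Prop :=
  ∀ (N A : Type) (φ : N → Equiv.Perm A) (T : Finset N) (M : Finset (A × A)),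
    bs (dbl φ) T (uq M) ≤ 3 * bs (dbl φ) T M

/-- **GI0** (from `S_Uq`, `S_Sz`; `S_Sz` is below).
PROOF.  `S_Sz` (with `τ = θ/8`) gives `m ≤ |γ|`, `m' ≤ |γ|`, so `98 |P| ≤ 100 |γ|`, `98 |Q| ≤ 100 |γ|`.  Let `γ' = {p ∈ uq M' |
p.1 ∈ P, p.2 ∈ Q}`.  It is a partial injection in `P × Q` (`uq`).  (1) `olap γ γ' ≥ |γ| - dif γ M' - 2 dif M' γ`: if
`p ∈ γ ∩ M'` is not in `uq M'`, there is `q ∈ M'`, `q ≠ p` with `q.1 = p.1` or with `q.2 = p.2`; `q ∉ γ` because `γ` is a partial injection, and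
`p` is determined by `q` and the alternative.  So `100 olap γ γ' ≥ 97 |γ|`; in particular `γ'` is nonempty, `|γ| ≤ 2 olap γ γ'`
and `100 |γ'| ≥ 97 |γ|`.  (2) If `p ∈ γ'` and `dbl φ t p ∉ γ'` then `p ∈ bd (dbl φ t) (uq M')`, or `φ t p.1 ∉ P` (at most
`|bd (φ t) P|` such `p`, as `p` is determined by `p.1 ∈ P`), or `φ t p.2 ∉ Q` (at most `|bd (φ t) Q|`).  So
`bs (dbl φ) T γ' ≤ 3 bs (dbl φ) T M' + bs φ T P + bs φ T Q ≤ (3 θ/10000) |γ| + η (|P| + |Q|) ≤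
(θ/10000) (3 + 2 · 100/98) |γ| ≤ (θ/64) |γ'|`. -/
def S_GI0 : Prop :=
  ∀ (N A : Type) (φ : N → Equiv.Perm A) (S T : Finset N) (θ η : ℝ) (P Q : Finset A) (m m' : ℕ)
    (γ M' : Finset (A × A)), 0 < θ → θ ≤ 1 → S ⊆ T → 0 ≤ η → 10000 * η ≤ θ →
    Piece φ S T θ η P m → Piece φ S T θ η Q m' → Mor φ S (θ / 8) P Q γ →
    100 * dif γ M' ≤ (γ.card : ℝ) → 100 * dif M' γ ≤ (γ.card : ℝ) →
    10000 * bs (dbl φ) T M' ≤ θ * (γ.card : ℝ) →
    ∃ γ', Mor φ T (θ / 64) P Q γ' ∧ (γ.card : ℝ) ≤ 2 * olap γ γ'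

/-- **Mod** (only `Base`, definition of sofic groups).
PROOF.  Let `D' = D ∪ {1}` and let `ε'` be small (`(2 |D'|^2 + |D'| + 1) |D'| ε' ≤ ε`).  Take a model `φ` of `Γ` for `D'` and
`ε'`.  Let `B₀` be the set of all `a` such that `φ (g * h) a ≠ φ g (φ h a)` for some `g, h ∈ D'`, or `φ g a = a` for some
`g ∈ D'`, `g ≠ 1`: `|B₀| ≤ (|D'|^2 + |D'|) ε' |A|` (`hamming σ τ = frac (σ a ≠ τ a)`; `1 - ε' < hamming 1 (φ g)`, see
`frac_compl`).  Let `Bd = {a | ∃ k ∈ D', φ k a ∈ B₀}`, the union over `k ∈ D'` of the preimages, `|Bd| ≤ |D'| |B₀|`.  For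
`a ∉ Bd` and `k ∈ D'`: `φ k a ∉ B₀`, and `φ 1 a = a ∉ B₀`. -/
def S_Mod : Prop :=
  ∀ (Γ : Type) [Group Γ], IsSoficGroup Γ → ∀ (D : Finset Γ) (ε : ℝ), 0 < ε →
    ∃ (A : Type) (_ : Fintype A) (_ : Nonempty A) (φ : Γ → Equiv.Perm A) (Bd : Finset A),
      φ 1 = 1 ∧ (Bd.card : ℝ) ≤ ε * (Fintype.card A : ℝ) ∧
      (∀ a, a ∉ Bd → ∀ k ∈ D, ∀ g ∈ D, ∀ h ∈ D, φ (g * h) (φ k a) = φ g (φ h (φ k a))) ∧
      ∀ a, a ∉ Bd → ∀ g ∈ D, g ≠ 1 → φ g a ≠ a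

/-- **Ex** (from `S_TI`, `S_DT`, `S_GI0`, `S_Mod`).
PROOF.  Let `(S₀, κ)` be a Kazhdan pair of `N`, `S` the image of `S₀` in `Γ`, `θ = min 1 (κ²/7200)`, so `36 θ/κ² ≤ 1/200`.
Given `T, D, η`: let `T₀ : Finset N` be the preimage of `T`.
Constants: let `η₂ = min (1/200) (θ/10000)`, and `(F₂, ε₂)` from `S_TI` for `N, S₀, κ, T₀, θ, η₂`.  Let `η' = min η (min (ε₂/3)
(θ/10000))`.  Let `η₁` be given by `S_DT` for `K = T.card`, `θ, η'`; `(F₁, ε₁')` from `S_TI` for `T₀, θ, min (1/200) η₁`; put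
`ε₁ = ε₁'` and let `ε` be given by `S_DT`.  Let `D' = D ∪ T ∪ {1} ∪` images of `F₁, F₂` in `Γ`.  Take the model `(A, φ, Bd)` from
`S_Mod` for `D'` and `ε`.  Let `φ₀ = φ` restricted to `N`, a map `N → Perm A`; `bs φ₀ T₀ = bs φ T` and
`bs φ₀ S₀ = bs φ S` (the images of `T₀`, `S₀` are `T`, `S`).
`Imp φ₀ S₀ T₀ θ η₁ ε₁ Bd` holds: if `M` is nonempty, `bs φ₀ S₀ M ≤ θ |M|` and `olap M Bd ≤ ε₁ |M|`, then
`badIn φ₀ F₁ M ≤ olap M Bd` (for `a ∉ Bd` take `k = 1` in `mul`), and `S_TI` gives `M'` with `dif M M' + dif M' M ≤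
(1/200 + 1/200) |M|`, `bs φ₀ T₀ M' ≤ η₁ |M|`.
`S_DT` for `N`, `φ₀`, `S₀`, `T₀`, `η'` gives `I, P, m`.  `Piece φ₀ S₀ T₀ θ η'` implies `Piece φ S T θ η` and
`Piece φ S T θ η'`.  All properties of `Stage` with `η` are clear (`η' ≤ η`) except `gi`.
`gi`: let `γ` be in `Mor φ S (θ/8) (P i) (P j)`.  Apply `S_TI` (with `F₂, ε₂`) to `A × A`, `dbl φ₀`, the set `γ`:
`bs (dbl φ₀) S₀ γ = bs (dbl φ) S γ ≤ (θ/8) |γ| ≤ θ |γ|`, and `badIn (dbl φ₀) F₂ γ ≤ olap (P i) Bd + olap (P j) Bd` (a bad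
`p ∈ γ` has `p.1 ∈ Bd` or `p.2 ∈ Bd`, and `p` is determined by either coordinate) `≤ η' (|P i| + |P j|) ≤
η' (200/98) |γ| ≤ ε₂ |γ|`, where `98 |P i| ≤ 100 |γ|` is proved as in `S_Sz`, which may be used as well (add
it as a hypothesis).  So there is `M'` with `dif γ M' + dif M' γ ≤ |γ|/100` and `bs (dbl φ₀) T₀ M' ≤
(θ/10000) |γ|`, and `S_GI0` gives `γ'`. -/
def S_Ex : Prop :=
  ∀ (Γ : Type) [Group Γ] (N : Subgroup Γ), IsSoficGroup Γ → PropertyT N →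
    ∃ (S : Finset Γ) (θ : ℝ), 0 < θ ∧ θ ≤ 1 ∧ (∀ s ∈ S, s ∈ N) ∧
      ∀ (T D : Finset Γ) (η : ℝ), 0 < η → S ⊆ T → (∀ t ∈ T, t ∈ N) →
        ∃ (A I : Type) (_ : Fintype A) (_ : Fintype I) (_ : Nonempty A) (D' : Finset Γ)
          (φ : Γ → Equiv.Perm A) (P : I → Finset A) (m : I → ℕ) (Bd : Finset A),
          D ⊆ D' ∧ Stage S T D' θ η φ P m Bd

/-! ## M. Almost isomorphisms -/

/-- **Sz** (only `Base`).
PROOF.  Let `Y` be the set of first coordinates of `γ`; `|Y| = |γ|` (`inj1`), `Y ⊆ P`, nonempty.  For `s ∈ S`: if `a ∈ bd (φ s) Y`,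
`(a, b) ∈ γ`, then `dbl φ s (a, b) ∉ γ`, so `|bd (φ s) Y| ≤ |bd (dbl φ s) γ|` and `bs φ S Y ≤ bs (dbl φ) S γ ≤ τ |γ| ≤ θ |Y|`.  By
`Piece.ex` not `|Y| < m`.  The same for the second coordinates and `Q`.  `|γ| ≤ |P|`, `|γ| ≤ |Q|` by injectivity. -/
def S_Sz : Prop :=
  ∀ (N A : Type) (φ : N → Equiv.Perm A) (S T : Finset N) (θ η τ : ℝ) (P Q : Finset A)
    (m m' : ℕ) (γ : Finset (A × A)), 0 < θ → τ ≤ θ → Piece φ S T θ η P m →
    Piece φ S T θ η Q m' → Mor φ S τ P Q γ →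
    (m : ℝ) ≤ γ.card ∧ (m' : ℝ) ≤ γ.card ∧ (γ.card : ℝ) ≤ P.card ∧ (γ.card : ℝ) ≤ Q.card

/-- **Di** (dichotomy; only `Base`).
PROOF.  Let `Z = γ ∩ γ'` and `Y` the set of its first coordinates, `|Y| = |Z| = olap γ γ'`.  `Y` is nonempty because
`0 < |P| ≤ 4 olap γ γ'`.  For `s ∈ S` as in `S_Sz` `|bd (φ s) Y| ≤ |bd (dbl φ s) Z| ≤ |bd (dbl φ s) γ| + |bd (dbl φ s) γ'|`, so `bs φ S Y ≤
(θ/8) (|γ| + |γ'|) ≤ (θ/4) |P| ≤ θ |Y|`.  By `Piece.ex` not `|Y| < m`. -/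
def S_Di : Prop :=
  ∀ (N A : Type) (φ : N → Equiv.Perm A) (S T : Finset N) (θ η : ℝ) (P Q : Finset A) (m : ℕ)
    (γ γ' : Finset (A × A)), 0 < θ → Piece φ S T θ η P m → Mor φ S (θ / 8) P Q γ →
    Mor φ S (θ / 8) P Q γ' → (P.card : ℝ) ≤ 4 * olap γ γ' → (m : ℝ) ≤ olap γ γ'

/-- **Rep** (from `S_Sz`, `S_Di`).
PROOF.  All `γ` below are in `Mor φ T (θ/64)`, hence in `Mor φ S (θ/8)` (`Mor.mono`), between pieces.  Facts:
(1) `98 |P i| ≤ 100 |γ|` for `γ ∈ Mor φ S (θ/8) (P i) (P j)` (`S_Sz`, `Piece.lo`).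
(2) If `Sim γ γ'`, `γ ∈ Mor φ S (θ/8) (P i) (P j)`, `γ' ∈ Mor φ S (θ/8) (P i') (P j')` then `i = i'`, `j = j'` (a common element, `disj`)
and `98 |P i| ≤ 100 olap γ γ'`: `|P i| ≤ (100/98) 3 olap γ γ' ≤ 4 olap γ γ'`, then `S_Di`.
(3) `Sim` is reflexive, symmetric (`|γ'| ≤ |P i| ≤ (100/98) olap ≤ 3 olap`) and transitive (`olap_inter`: `olap γ γ'' ≥ olap γ' γ +
olap γ' γ'' - |γ'| ≥ (2 · 98/100 - 1) |P i|`) on these `γ`.
Let `X` be the (finite) type of triples `(i, j, γ)` with `Mor φ T (θ/64) (P i) (P j) γ`, `E` the quotient of `X` by `Sim`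
(or the image of `Quotient.out`), `γ e` a representative, `src e = i`, `tgt e = j`.  `uni`: by the definition of the
quotient.  `all`: for `δ ∈ Mor φ S (θ/8) (P i) (P j)` the property `gi` of the stage gives `γ' ∈ Mor φ T (θ/64) (P i) (P j)` with
`|δ| ≤ 2 olap δ γ'`, so `Sim δ γ'`; let `e` be the class of `γ'`; `Sim γ' (γ e)`, and as in (3) `Sim δ (γ e)`, so by (2)
`98 |P i| ≤ 100 olap δ (γ e)`. -/
def S_Rep : Prop :=
  ∀ (Γ : Type) [Group Γ] (S T D : Finset Γ) (θ η : ℝ) (A I : Type) [Fintype A] [Fintype I]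
    (φ : Γ → Equiv.Perm A) (P : I → Finset A) (m : I → ℕ) (Bd : Finset A), 0 < θ →
    Stage S T D θ η φ P m Bd →
    ∃ (E : Type) (_ : Fintype E) (src tgt : E → I) (γ : E → Finset (A × A)),
      Skel S T θ φ P src tgt γ

/-- **Comp** (from `S_Sz`).
PROOF.  By `S_Sz`: `m' ≤ |γ|`, `m' ≤ |γ'|` (the piece `Q` has `m'`), `|γ| ≤ |Q|`, `|γ'| ≤ |Q|`, `98 |Q| ≤ 100 m'`.  Each
`b ∈ Q` which is a second coordinate of `γ` and a first coordinate of `γ'` gives one element of `compo γ γ'`, different for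
different `b`, so `|compo γ γ'| ≥ |γ| + |γ'| - |Q|` and `100 |compo γ γ'| ≥ 96 |Q|`.  It is a partial injection in `P × R`.  If
`(a, c) ∈ compo γ γ'` through `b` and `(φ s a, φ s c) ∉ compo γ γ'` then `(a, b) ∈ bd (dbl φ s) γ` or `(b, c) ∈ bd (dbl φ s) γ'`, so
`bs (dbl φ) S (compo γ γ') ≤ (θ/64) (|γ| + |γ'|) ≤ (θ/32) |Q| ≤ (θ/8) |compo γ γ'|`. -/
def S_Comp : Prop :=
  ∀ (N A : Type) (φ : N → Equiv.Perm A) (S T : Finset N) (θ η : ℝ) (P Q R : Finset A)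
    (m m' m'' : ℕ) (γ γ' : Finset (A × A)), 0 < θ → S ⊆ T → Piece φ S T θ η P m →
    Piece φ S T θ η Q m' → Piece φ S T θ η R m'' → Mor φ T (θ / 64) P Q γ →
    Mor φ T (θ / 64) Q R γ' →
    Mor φ S (θ / 8) P R (compo γ γ') ∧ 96 * (Q.card : ℝ) ≤ 100 * ((compo γ γ').card : ℝ)

/-- **Cnt** (from `S_Sz`, `S_Comp`).
PROOF.  (1) The diagonal `{(a, a) | a ∈ P i}` is in `Mor φ S (θ/8) (P i) (P i)` (`bs (dbl φ) S = bs φ S (P i) ≤ η |P i|`), so `all` gives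
an `e` with source `i`.  (2) For `e : i → j` the set `γ e` with exchanged coordinates is in `Mor φ T (θ/64) (P j) (P i)`; `all` (with
`Mor.mono`) gives an `e'` with source `j` and target `i`.  Let `e : i → j`.  For `e₁` with source `j` let `F e₁` be an element of
`E` with source `i` (and target `tgt e₁`) and `98 |P i| ≤ 100 olap (compo (γ e) (γ e₁)) (γ (F e₁))` (`S_Comp`, `all`).  `F` is injective on the
elements with source `j`: if `F e₁ = F e₂ = e''` then `C₁ = compo (γ e) (γ e₁)` and `C₂ = compo (γ e) (γ e₂)` have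
`olap C₁ C₂ ≥ 2 (98/100) |P i| - |γ e''| ≥ (96/100) |P i|` (`olap_inter`); an element `(a, c)` of both goes through the
same `b` (`inj1` for `γ e`), so `(b, c) ∈ γ e₁` and `(b, c) ∈ γ e₂`, and different `(a, c)` give different `(b, c)` (`inj2` of `γ e`), so
`olap (γ e₁) (γ e₂) ≥ (96/100) |P i|`, and `|γ e₁| ≤ |P j| ≤ (100/98) |γ e| ≤ (100/98) |P i|`, so `Sim (γ e₁) (γ e₂)` and `e₁ = e₂`.  So
`cnt src j ≤ cnt src i`.  With an element `j → i` also `cnt src i ≤ cnt src j`.  (3) `cnt tgt j = cnt src j`: for `e` with target `j`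
let `G e` be the representative (source `j`) of the exchanged `γ e`: `98 |P j| ≤ 100 olap ((γ e)ᵒᵖ) (γ (G e))`.  `G` is injective: if
`G e₁ = G e₂` then `olap (γ e₁)ᵒᵖ (γ e₂)ᵒᵖ ≥ (96/100) |P j|` (`|γ (G e)| ≤ |P j|`), so `Sim (γ e₁) (γ e₂)` because `|γ e₁| ≤ |P j|`.  The
same in the other direction. -/
def S_Cnt : Prop :=
  ∀ (Γ : Type) [Group Γ] (S T D : Finset Γ) (θ η : ℝ) (A I E : Type) [Fintype A] [Fintype I]
    [Fintype E] (φ : Γ → Equiv.Perm A) (P : I → Finset A) (m : I → ℕ) (Bd : Finset A)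
    (src tgt : E → I) (γ : E → Finset (A × A)), 0 < θ → 8 * η ≤ θ →
    Stage S T D θ η φ P m Bd → Skel S T θ φ P src tgt γ →
    (∀ i, 1 ≤ cnt src i) ∧ (∀ e, cnt src (src e) = cnt src (tgt e)) ∧
      ∀ j, cnt tgt j = cnt src j

/-! ## P. The action on the pieces -/

/-- **PM** (only `Base`).
PROOF.  Let `Q i j = {a ∈ P i | φ g a ∈ P j}`, `q i j = |Q i j| = pass (φ g) (P i) (P j)`.
(1) `∑_(i,j) bs φ S (Q i j) ≤ (2 + K) η |A|`: let `a ∈ Q i j`, `s ∈ S`, `φ s a ∉ Q i j`.  Either `φ s a ∉ P i` (in total at most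
`∑_i bs φ S (P i) ≤ η ∑ |P i| ≤ η |A|`); or `a ∈ Bd` (in total at most `K ∑_i olap (P i) Bd ≤ K η |A|`); or `φ g (φ s a) ∉ P j` and
`a ∉ Bd`: then `φ g (φ s a) = φ (g * s) a = φ ((g * s * g⁻¹) * g) a = φ (g * s * g⁻¹) (φ g a)` (`mul` with `k = 1`), so
`φ g a ∈ bd (φ (g * s * g⁻¹)) (P j)`, in total at most `∑_j bs φ T (P j) ≤ η |A|` (`s ↦ g * s * g⁻¹` is injective into `T`, `a` is
determined by `φ g a`, and `i` by `a`).
(2) The same for the images: with `Q' i j = {φ g a | a ∈ Q i j} ⊆ P j`: `∑_(i,j) bs φ S (Q' i j) ≤ (2 + K) η |A|`: let `y = φ g a`,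
`a ∈ Q i j`, `φ s y ∉ Q' i j`.  Either `φ s y ∉ P j`; or `a ∈ Bd`; or `φ s y = φ s (φ g a) = φ (s * g) a = φ (g * (g⁻¹ * s * g)) a
= φ g (φ (g⁻¹ * s * g) a)`, and then `φ (g⁻¹ * s * g) a ∉ P i` (otherwise `φ s y ∈ P j` would be in `Q' i j`), `a ∈
bd (φ (g⁻¹ * s * g)) (P i)`.
(3) If `q i j < m i` and `Q i j` is nonempty then `θ q i j < bs φ S (Q i j)` (`Piece.ex`); if `q i j < m j` then
`θ q i j ≤ bs φ S (Q' i j)` (`|Q' i j| = q i j`).  Sum. -/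
def S_PM : Prop :=
  ∀ (Γ : Type) [Group Γ] (S T D : Finset Γ) (θ η : ℝ) (A I : Type) [Fintype A] [Fintype I]
    (φ : Γ → Equiv.Perm A) (P : I → Finset A) (m : I → ℕ) (Bd : Finset A) (g : Γ), 0 < θ →
    0 < η → Stage S T D θ η φ P m Bd → g ∈ D → (∀ s ∈ S, g⁻¹ * s * g ∈ T) →
    (∀ s ∈ S, g * s * g⁻¹ ∈ T) →
    θ * sumIf (fun q : I × I => pass (φ g) (P q.1) (P q.2) < m q.1 ∨
      pass (φ g) (P q.1) (P q.2) < m q.2) (fun q => pass (φ g) (P q.1) (P q.2)) ≤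
      2 * (2 + (S.card : ℝ)) * η * (Fintype.card A : ℝ)

/-- **Good** (from `S_PM`).
PROOF.  Let `q i j = pass (φ g) (P i) (P j)`.  `∑_(i,j) q i j ≥ (1 - 2η) |A|`: the points outside all pieces are at most
`η |A|`, and so are the points `a` with `φ g a` outside all pieces.  Call `(i, j)` big if `m i ≤ q i j` and `m j ≤ q i j`.  By
`S_PM` the sum of `q i j` over the big pairs is at least `(1 - x) |A|`, `x = 2η + 2 (2 + K) η/θ ≤ (6 + 2K) η/θ`, so `4 x ≤ ε²` by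
`Par.ηε`.  For each `i` there is at most one `j` with `(i, j)` big, and conversely: `q i j ≥ m i ≥ (98/100) |P i|` and the sets
`{a ∈ P i | φ g a ∈ P j}` for different `j` are disjoint subsets of `P i` (similarly in `P j`).  So the sum over the
big pairs of `|P i| - q i j`, plus the sum of `|P i|` over the `i` which are in no big pair, is at most `x |A|`, and the sum over the
big pairs of `|P j| - q i j` is at most `x |A|`.  If `i` has no `j` with `Mv φ ε g (P i) (P j)` then `i` is in no big pair, or in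
a big pair `(i, j)` with `|P i| - q i j > ε |P i|` or with `|P j| - q i j > ε |P j|`; in the last case
`|P i| ≤ (100/98) q i j ≤ (100/98) |P j|`.  So the sum of these `|P i|` is at most `x |A| + (x/ε) |A| + (100/98) (x/ε) |A| ≤
(4 x/ε) |A| ≤ ε |A|` (`ε ≤ 1/100`). -/
def S_Good : Prop :=
  ∀ (Γ : Type) [Group Γ] (S T D : Finset Γ) (θ η ε : ℝ) (A I : Type) [Fintype A] [Fintype I]
    (φ : Γ → Equiv.Perm A) (P : I → Finset A) (m : I → ℕ) (Bd : Finset A) (g : Γ),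
    Par S θ η ε → Stage S T D θ η φ P m Bd → g ∈ D → (∀ s ∈ S, g⁻¹ * s * g ∈ T) →
    (∀ s ∈ S, g * s * g⁻¹ ∈ T) →
    sumIf (fun i => ¬ ∃ j, Mv φ ε g (P i) (P j)) (fun i => ((P i).card : ℝ)) ≤
      ε * (Fintype.card A : ℝ)

/-! ## O. The action on the almost isomorphisms -/

/-- **OP** (transport; from `S_Sz`).
PROOF.  `98 |P i| ≤ 100 |γ|`, `98 |P j| ≤ 100 |γ|` (`S_Sz`, `Mor.mono`), `|γ| ≤ |P i|, |P j|`.  Let `γ'` be the set in the claim.  It is the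
injective image of `{q ∈ γ | φ g q.1 ∈ P i', φ w q.2 ∈ P j'}`, so `|γ'| ≥ |γ| - ε |P i| - ε |P j|` (`Mv`) `≥ (97/100) |γ|`.  It is a partial
injection in `P i' × P j'`.  Let `s ∈ S`, `p = (φ g a, φ w b) ∈ γ'`, `(a, b) ∈ γ`, and `(φ s p.1, φ s p.2) ∉ γ'`; put
`t = g⁻¹ * s * g = w⁻¹ * s * w ∈ T`.  If `a ∉ Bd`, `b ∉ Bd` then `φ s (φ g a) = φ (s * g) a = φ (g * t) a = φ g (φ t a)` and
`φ s (φ w b) = φ w (φ t b)` (`mul` with `k = 1`).  So `(φ t a, φ t b) ∉ γ`, or `φ s p.1 ∉ P i'`, or `φ s p.2 ∉ P j'`.  Therefore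
`|bd (dbl φ s) γ'| ≤ olap (P i) Bd + olap (P j) Bd + |bd (dbl φ t) γ| + |bd (φ s) (P i')| + |bd (φ s) (P j')|` and, since
`s ↦ g⁻¹ * s * g` is injective, `bs (dbl φ) S γ' ≤ K η (|P i| + |P j|) + (θ/64) |γ| + η (|P i'| + |P j'|)`.  By `Mv`
`(99/100) |P i'| ≤ |P i|` and `(99/100) |P j'| ≤ |P j|`.  With `Par.η1`, `Par.η2` the right side is at most `(θ/32) |γ| ≤
(θ/8) |γ'|`. -/
def S_OP : Prop :=
  ∀ (Γ : Type) [Group Γ] (S T D : Finset Γ) (θ η ε : ℝ) (A I : Type) [Fintype A] [Fintype I]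
    (φ : Γ → Equiv.Perm A) (P : I → Finset A) (m : I → ℕ) (Bd : Finset A) (g w : Γ)
    (i j i' j' : I) (γ : Finset (A × A)),
    Par S θ η ε → Stage S T D θ η φ P m Bd → Nrm S T D g w → Mv φ ε g (P i) (P i') →
    Mv φ ε w (P j) (P j') → Mor φ T (θ / 64) (P i) (P j) γ →
    ∃ γ' : Finset (A × A), Mor φ S (θ / 8) (P i') (P j') γ' ∧
      ∀ p ∈ γ', ∃ q ∈ γ, p = (φ g q.1, φ w q.2)

/-- **Ac** (from `S_OP`).
PROOF.  Let `γ'` be the set of `S_OP` for `γ e`, and `e'` the representative given by `Skel.all`: `src e' = i'`, `tgt e' = j'`,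
`98 |P i'| ≤ 100 olap γ' (γ e')`.  Each element of `γ' ∩ γ e'` is the image of a (unique) element of `γ e`, so
`pass2 φ g w (γ e) (γ e') ≥ olap γ' (γ e') ≥ (98/100) |P i'| ≥ (98/100) pass (φ g) (P (src e)) (P i') ≥ (98/100) (99/100) |P (src e)| ≥
(9/10) |γ e|`. -/
def S_Ac : Prop :=
  ∀ (Γ : Type) [Group Γ] (S T D : Finset Γ) (θ η ε : ℝ) (A I E : Type) [Fintype A] [Fintype I]
    [Fintype E] (φ : Γ → Equiv.Perm A) (P : I → Finset A) (m : I → ℕ) (Bd : Finset A)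
    (src tgt : E → I) (γ : E → Finset (A × A)) (g w : Γ) (e : E) (i' j' : I),
    Par S θ η ε → Stage S T D θ η φ P m Bd → Skel S T θ φ P src tgt γ → Nrm S T D g w →
    Mv φ ε g (P (src e)) (P i') → Mv φ ε w (P (tgt e)) (P j') →
    ∃ e', Act φ ε g w P src tgt γ e e' ∧ src e' = i' ∧ tgt e' = j'

/-- **Fun** (from `S_Sz`).
PROOF.  Sources: with `P = P (src e)` both `pass (φ g) P (P (src e')) ≥ (99/100) |P|` and `pass (φ g) P (P (src e'')) ≥ (99/100) |P|`; if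
`src e' ≠ src e''` these count disjoint subsets of the nonempty set `P`, a contradiction.  So `i' := src e' = src e''`.  At
least `(9/10 + 9/10 - 1) |γ e|` elements `q` of `γ e` have `(φ g q.1, φ w q.2)` in `γ e'` and in `γ e''`, so `olap (γ e') (γ e'') ≥
(8/10) |γ e|`.  And `|γ e'| ≤ |P i'| ≤ (100/99) |P| ≤ (100/99) (100/98) |γ e|` (`S_Sz` for `γ e`, `τ = θ/64`, with `Mor.mono`), so
`|γ e'| ≤ 3 olap (γ e') (γ e'')`, `e' = e''` by `Skel.uni`. -/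
def S_Fun : Prop :=
  ∀ (Γ : Type) [Group Γ] (S T D : Finset Γ) (θ η ε : ℝ) (A I E : Type) [Fintype A] [Fintype I]
    [Fintype E] (φ : Γ → Equiv.Perm A) (P : I → Finset A) (m : I → ℕ) (Bd : Finset A)
    (src tgt : E → I) (γ : E → Finset (A × A)) (g w : Γ) (e e' e'' : E),
    Par S θ η ε → Stage S T D θ η φ P m Bd → Skel S T θ φ P src tgt γ →
    Act φ ε g w P src tgt γ e e' → Act φ ε g w P src tgt γ e e'' → e' = e''

/-- **Inj** (from `S_Sz`).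
PROOF.  Sources: `pass (φ g) (P (src e₁)) (P (src e')) ≥ (99/100) |P (src e')|` and the same for `e₂`; if `src e₁ ≠ src e₂` the images
are disjoint subsets of `P (src e')`, a contradiction.  The same for the targets.  Let `P' = P (src e')`, `P₁ = P (src e₁)`.  The
sets `X_k = {(φ g q.1, φ w q.2) | q ∈ γ e_k} ∩ γ e'` (`k = 1, 2`) have at least `(9/10) |γ e_k|` elements, `|γ e'| ≤ |P'| ≤
(100/99) |P₁| ≤ (100/99) (100/98) |γ e_k|` (`S_Sz`).  So `|X₁ ∩ X₂| ≥ |X₁| + |X₂| - |γ e'| ≥ (18/10 - 10310/10000) |γ e₁| - …`; simply: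
`|γ e_k| ≥ (97/100) |γ e'|`, `|X_k| ≥ (87/100) |γ e'|`, `|X₁ ∩ X₂| ≥ (74/100) |γ e'|`.  An element of `X₁ ∩ X₂` comes from one `q ∈ γ e₁ ∩
γ e₂` (the map is injective), so `olap (γ e₁) (γ e₂) ≥ (74/100) |γ e'|`, while `|γ e₁| ≤ (10/9) |X₁| ≤ (10/9) |γ e'|`.  So
`Sim (γ e₁) (γ e₂)` and `e₁ = e₂`. -/
def S_Inj : Prop :=
  ∀ (Γ : Type) [Group Γ] (S T D : Finset Γ) (θ η ε : ℝ) (A I E : Type) [Fintype A] [Fintype I]
    [Fintype E] (φ : Γ → Equiv.Perm A) (P : I → Finset A) (m : I → ℕ) (Bd : Finset A)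
    (src tgt : E → I) (γ : E → Finset (A × A)) (g w : Γ) (e₁ e₂ e' : E),
    Par S θ η ε → Stage S T D θ η φ P m Bd → Skel S T θ φ P src tgt γ →
    Act φ ε g w P src tgt γ e₁ e' → Act φ ε g w P src tgt γ e₂ e' → e₁ = e₂

/-- **Mul** (from `S_Sz`).
PROOF.  Write `G = |γ e|`.  `|γ e'| ≤ |P (src e')| ≤ (100/99) |P (src e)| ≤ (100/99) (100/98) G ≤ (104/100) G` (`Mv`, `S_Sz`), and
similarly `|γ e₃| ≤ (104/100) G`.  Count the `q ∈ γ e` with: (a) `q' = (φ g' q.1, φ w' q.2) ∈ γ e'` (all but `G/10`), (b) `(φ g q'.1,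
φ w q'.2) ∈ γ e''` (all but `|γ e'|/10 ≤ (104/1000) G` of those in (a), since `q ↦ q'` is injective), (c) `(φ (g * g') q.1, φ (w * w')
q.2) ∈ γ e₃` (all but `G/10`), (d) `q.1 ∉ Bd`, `q.2 ∉ Bd` (all but `η (|P (src e)| + |P (tgt e)|) ≤ G/100`).  So at least `(6/10) G`
elements `q` have all these properties, and then `(φ (g * g') q.1, φ (w * w') q.2) = (φ g q'.1, φ w q'.2)` (`mul` with `k = 1`) is in
`γ e₃ ∩ γ e''`.  So `olap (γ e₃) (γ e'') ≥ (6/10) G` and `|γ e₃| ≤ 3 olap (γ e₃) (γ e'')`, so `e₃ = e''`. -/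
def S_Mul : Prop :=
  ∀ (Γ : Type) [Group Γ] (S T D : Finset Γ) (θ η ε : ℝ) (A I E : Type) [Fintype A] [Fintype I]
    [Fintype E] (φ : Γ → Equiv.Perm A) (P : I → Finset A) (m : I → ℕ) (Bd : Finset A)
    (src tgt : E → I) (γ : E → Finset (A × A)) (g w g' w' : Γ) (e e' e'' e₃ : E),
    Par S θ η ε → Stage S T D θ η φ P m Bd → Skel S T θ φ P src tgt γ → g ∈ D → w ∈ D →
    g' ∈ D → w' ∈ D → Act φ ε g' w' P src tgt γ e e' → Act φ ε g w P src tgt γ e' e'' →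
    Act φ ε (g * g') (w * w') P src tgt γ e e₃ → e₃ = e''

/-- **One** (from `S_Sz`).
PROOF.  (1) `Act (1, 1) e e`: `φ 1 = 1`, `pass 1 P P = |P|`, `pass2 = |γ e|`.  (2) Let `n ∈ T`, `Act (n, n) e e'`.  With `P = P (src e)`:
`pass (φ n) P P = |P| - |bd (φ n) P| ≥ (1 - η) |P|`; and `pass (φ n) P (P (src e')) ≥ (99/100) |P|`, so `src e' = src e` by disjointness.
`|bd (dbl φ n) (γ e)| ≤ (θ/64) |γ e|`, so all but `|γ e|/64` of the elements `q ∈ γ e` have `(φ n q.1, φ n q.2) ∈ γ e`, and all but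
`|γ e|/10` have it in `γ e'`: `olap (γ e') (γ e) ≥ (8/10) |γ e|`, `|γ e'| ≤ |P (src e')| = |P (src e)| ≤ (100/98) |γ e|`.  So
`Sim (γ e') (γ e)`, `e' = e`. -/
def S_One : Prop :=
  ∀ (Γ : Type) [Group Γ] (S T D : Finset Γ) (θ η ε : ℝ) (A I E : Type) [Fintype A] [Fintype I]
    [Fintype E] (φ : Γ → Equiv.Perm A) (P : I → Finset A) (m : I → ℕ) (Bd : Finset A)
    (src tgt : E → I) (γ : E → Finset (A × A)),
    Par S θ η ε → Stage S T D θ η φ P m Bd → Skel S T θ φ P src tgt γ →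
    (∀ e, Act φ ε 1 1 P src tgt γ e e) ∧
      ∀ n ∈ T, ∀ e e', Act φ ε n n P src tgt γ e e' → e' = e

/-- **Free** (from `S_Sz`).
PROOF.  Suppose `Act (1, c) e e`.  At least `(9/10) |γ e|` elements `q ∈ γ e` have `(φ 1 q.1, φ c q.2) = (q.1, φ c q.2) ∈ γ e`, so
`φ c q.2 = q.2` by `inj1`, hence `q.2 ∈ Bd` by `free`.  These `q` are at most `olap (P (tgt e)) Bd ≤ η |P (tgt e)| ≤ η (100/98) |γ e| <
(9/10) |γ e|`. -/
def S_Free : Prop :=
  ∀ (Γ : Type) [Group Γ] (S T D : Finset Γ) (θ η ε : ℝ) (A I E : Type) [Fintype A] [Fintype I]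
    [Fintype E] (φ : Γ → Equiv.Perm A) (P : I → Finset A) (m : I → ℕ) (Bd : Finset A)
    (src tgt : E → I) (γ : E → Finset (A × A)) (c : Γ) (e : E),
    Par S θ η ε → Stage S T D θ η φ P m Bd → Skel S T θ φ P src tgt γ → c ∈ D → c ≠ 1 →
    ¬ Act φ ε 1 c P src tgt γ e e

/-! ## W. Weights -/

/-- **Mass** (from `S_Sz`, `S_Cnt`).
PROOF.  For `e` with `tgt e = j`: `cnt src (src e) = cnt src j = cnt tgt j` (`S_Cnt`) and `|P (src e)| ≤ (100/98) |γ e| ≤ (100/98) |P j|`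
(`S_Sz`).  So the sum of `wt P src e` over the `cnt tgt j` elements `e` with target `j` is at most `(100/98) |P j|`.  Sum over `j ∈ J`. -/
def S_Mass : Prop :=
  ∀ (Γ : Type) [Group Γ] (S T D : Finset Γ) (θ η ε : ℝ) (A I E : Type) [Fintype A] [Fintype I]
    [Fintype E] (φ : Γ → Equiv.Perm A) (P : I → Finset A) (m : I → ℕ) (Bd : Finset A)
    (src tgt : E → I) (γ : E → Finset (A × A)) (J : I → Prop),
    Par S θ η ε → Stage S T D θ η φ P m Bd → Skel S T θ φ P src tgt γ →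
    sumIf (fun e => J (tgt e)) (wt P src) ≤ 2 * sumIf J (fun j => ((P j).card : ℝ))

/-- **LsA** (from `S_Ac`, `S_Mass`, `S_Cnt`).
PROOF.  By `S_Ac`, if no `e'` has `Act e e'` then `J₁ (src e)` or `J₂ (tgt e)`, where `J₁ i` means that no `i'` has `Mv φ ε g (P i)
(P i')` and `J₂ j` that no `j'` has `Mv φ ε w (P j) (P j')`.  The sum of `wt P src e` over the `e` with source `i` is `|P i|`
(`1 ≤ cnt src i`), so the sum over `J₁ (src e)` is `∑_(J₁ i) |P i| ≤ a`, and by `S_Mass` the sum over `J₂ (tgt e)` is at most `2 b`. -/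
def S_LsA : Prop :=
  ∀ (Γ : Type) [Group Γ] (S T D : Finset Γ) (θ η ε : ℝ) (A I E : Type) [Fintype A] [Fintype I]
    [Fintype E] (φ : Γ → Equiv.Perm A) (P : I → Finset A) (m : I → ℕ) (Bd : Finset A)
    (src tgt : E → I) (γ : E → Finset (A × A)) (g w : Γ),
    Par S θ η ε → Stage S T D θ η φ P m Bd → Skel S T θ φ P src tgt γ → Nrm S T D g w →
    sumIf (fun e => ¬ ∃ e', Act φ ε g w P src tgt γ e e') (wt P src) ≤
      sumIf (fun i => ¬ ∃ j, Mv φ ε g (P i) (P j)) (fun i => ((P i).card : ℝ)) +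
      2 * sumIf (fun i => ¬ ∃ j, Mv φ ε w (P i) (P j)) (fun i => ((P i).card : ℝ))

/-- **Ls** (from `S_LsA`, `S_Good`, `S_Inj`, `S_Fun`, `S_Cnt`).
PROOF.  `S_Good` for `g` and `w` (`Nrm.t1`, `Nrm.t2`; for `w` use `c1`, `c2`) and `S_LsA`: the sum of `wt P src e` over the `e` on
which `Act (g, w)` is not defined is at most `3 ε |A|`.  The same for `(g⁻¹, w⁻¹)` (`Nrm.inv`): with `X` the set of the `e` on which
`Act (g⁻¹, w⁻¹)` is not defined, `∑_(e ∈ X) wt e ≤ 3 ε |A|` (*).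
Now let `Act (g, w) e (f e)`, `i = src e`, `i' = src (f e)`, `a = cnt src i`, `a' = cnt src i'`, `p = |P i|`, `p' = |P i'|`.  `Mv φ ε g
(P i) (P i')`, so `(1 - ε) p ≤ p'` and `(1 - ε) p' ≤ p`, `p ≤ p' + 2 ε p'`.  `wt e - wt (f e) = p/a - p'/a' ≤ 2 ε p'/a + p' (a' - a)⁺/(a a')`.
For a fixed `i` there are at most `a` such `e`, and `i'` is the same for all of them (`Mv` determines it, disjointness of the pieces, as in `S_Fun`),
and different `i` have different `i'` (as in `S_Inj`).  So the sum over all these `e` of `(wt e - wt (f e))⁺` is at most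
`∑_(i → i') (2 ε p' + p' (a' - a)⁺/a') ≤ 2 ε |A| + ∑_(i → i') p' (a' - a)⁺/a'`.
Claim: `a' - a ≤ #{e₁ ∈ X | src e₁ = i'}`.  Indeed if `src e₁ = i'` and `Act (g⁻¹, w⁻¹) e₁ e₀` then `src e₀ = i`: at least
`(1 - ε) p'` elements `a₀ ∈ P i` have `φ g a₀ ∈ P i'`, at least `(1 - ε) p'` elements `y` of `P i'` have `φ g⁻¹ y ∈ P (src e₀)`, so
there is an `a₀ ∈ P i`, `a₀ ∉ Bd`, with `y = φ g a₀ ∈ P i'` and `φ g⁻¹ y ∈ P (src e₀)` (`(1 - 2ε) p' > η p`), and `φ g⁻¹ (φ g a₀) = a₀`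
(`mul`, `φ 1 = 1`), so `a₀ ∈ P i ∩ P (src e₀)`.  And `e₁ ↦ e₀` is injective (`S_Inj`), so at most `a` elements `e₁` with source `i'` are not in
`X`.  Therefore `∑_(i → i') p' (a' - a)⁺/a' ≤ ∑_(i') ∑_(e₁ ∈ X, src e₁ = i') wt e₁ ≤ 3 ε |A|` by (*).
Together: `loss ≤ (3 + 2 + 3) ε |A| = 8 ε |A|`, and `∑ wt e = ∑ |P i| ≥ (1 - η) |A| ≥ (8/9) |A|`. -/
def S_Ls : Prop :=
  ∀ (Γ : Type) [Group Γ] (S T D : Finset Γ) (θ η ε : ℝ) (A I E : Type) [Fintype A] [Fintype I]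
    [Fintype E] (φ : Γ → Equiv.Perm A) (P : I → Finset A) (m : I → ℕ) (Bd : Finset A)
    (src tgt : E → I) (γ : E → Finset (A × A)) (g w : Γ) (f : E → E),
    Par S θ η ε → Stage S T D θ η φ P m Bd → Skel S T θ φ P src tgt γ → Nrm S T D g w →
    (∀ e, (∃ e', Act φ ε g w P src tgt γ e e') → Act φ ε g w P src tgt γ e (f e)) →
    loss (wt P src) (Act φ ε g w P src tgt γ) f ≤ 9 * ε * ∑ e, wt P src e

/-! ## U. Uniform models -/

/-- **Uni** (only `Base`).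
PROOF.  `B = Σ e, Fin (ω e)`.  Let `w ∈ F`, `w ≠ 1` and let `f` be a choice function for `R w` (`f e = e` where `R w` is not defined).  Let
`B₁ = {(e, l) | R w e (f e), l < ω (f e)}` and `j (e, l) = (f e, l)` on `B₁`: it is injective (`R w e₁ e'`, `R w e₂ e'` imply `e₁ = e₂`), so there
is a permutation `ψ w` of `B` which agrees with `j` on `B₁` (`Equiv.extendSubtype`; `B` is finite).  Put `ψ w = 1` for `w = 1` and for
`w ∉ F`.  The number of elements of `B` outside `B₁` is `∑_e (ω e - min (ω e) (ω (f e)))` over the `e` with `R w e (f e)` plus `∑ ω e` over the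
others, i.e. `loss ω (R w) f ≤ δ |B|`, `|B| = ∑ ω e`.  On `B₁` the property in the claim holds.  For `w = 1 ∈ F` it holds
everywhere since `R 1 e e`. -/
def S_Uni : Prop :=
  ∀ (Γ E : Type) [Group Γ] [Fintype E] (ω : E → ℕ) (R : Γ → E → E → Prop) (F : Finset Γ)
    (δ : ℝ), 0 ≤ δ → (∀ w ∈ F, ∀ e₁ e₂ e', R w e₁ e' → R w e₂ e' → e₁ = e₂) →
    (∀ e, R 1 e e) →
    (∀ w ∈ F, ∀ f : E → E, (∀ e, (∃ e', R w e e') → R w e (f e)) →
      loss (fun e => (ω e : ℝ)) (R w) f ≤ δ * ∑ e, (ω e : ℝ)) →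
    ∃ ψ : Γ → Equiv.Perm (Σ e, Fin (ω e)), ψ 1 = 1 ∧
      ∀ w ∈ F, frac (fun b : (Σ e, Fin (ω e)) =>
        ¬ (R w b.1 (ψ w b).1 ∧ ((ψ w b).2 : ℕ) = (b.2 : ℕ))) ≤ δ

/-- **UM** (only `Base`).
PROOF.  Let `X_w` be the property in the hypothesis (`frac ≤ δ` for its failure).  If `b` has `X_(w * w')`, `b` has `X_(w')` and
`ψ w' b` has `X_w` then with `e = b.1`, `e' = (ψ w' b).1`, `e'' = (ψ w (ψ w' b)).1`, `e₃ = (ψ (w * w') b).1` the rule gives `e₃ = e''`, and the second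
coordinates have the same value `b.2`, so `ψ (w * w') b = ψ w (ψ w' b)` (`Sigma.ext`, `Fin.heq_ext_iff` or cases).  The failures are at
most `3 δ` (`frac_or`, and `frac_perm` for the property of `ψ w' b`). -/
def S_UM : Prop :=
  ∀ (Γ E : Type) [Group Γ] [Fintype E] (ω : E → ℕ) (R : Γ → E → E → Prop)
    (ψ : Γ → Equiv.Perm (Σ e, Fin (ω e))) (δ : ℝ) (w w' : Γ),
    (∀ v, v = w ∨ v = w' ∨ v = w * w' → frac (fun b : (Σ e, Fin (ω e)) =>
        ¬ (R v b.1 (ψ v b).1 ∧ ((ψ v b).2 : ℕ) = (b.2 : ℕ))) ≤ δ) →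
    (∀ e e' e'' e₃, R w' e e' → R w e' e'' → R (w * w') e e₃ → e₃ = e'') →
    frac (fun b : (Σ e, Fin (ω e)) => ψ (w * w') b ≠ ψ w (ψ w' b)) ≤ 3 * δ

/-- **Core** (from `S_Ex`, `S_Rep`, `S_Cnt`, `S_Fun`, `S_Inj`, `S_Mul`, `S_One`, `S_Free`, `S_Ls`, `S_Uni`, `S_UM`).
PROOF.  Let `S, θ` be given by `S_Ex` and `K = S.card`.  Given `F, ε` (we may assume `ε ≤ 1`): `F₁ = F ∪ {1}`, `F₂ = F₁ * F₁`, `F₃ = F₂ ∪ F₂⁻¹`.  Let
`ε₂ = ε/100` or smaller so that `27 ε₂ ≤ ε`, `ε₂ ≤ 1/100`; `η = θ ε₂^2/(24 + 8 K)`, so `Par S θ η ε₂`.  `T = S ∪ {x⁻¹ * s * x |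
x ∈ F₃ ∪ π F₃, s ∈ S} ∪ {n ∈ F₂ | n ∈ N}` (a subset of `N`, since `N` is normal), `D = F₃ ∪ π F₃`.  Take the stage `(A, …, D')` and the
skeleton (`S_Rep`).  For `w ∈ F₃` the pair `(π w, w)` satisfies `Nrm S T D' (π w) w`: `w * s * w⁻¹ = π w * s * (π w)⁻¹` for
`s ∈ S ⊆ N` by hypothesis, for `w` and `w⁻¹`.  Let `R w = Act φ ε₂ (π w) w P src tgt γ`, `Q = ∏_i cnt src i` (positive by `S_Cnt`), `ω e = (Q / cnt src (src e)) *
|P (src e)|` (an exact division), so `(ω e : ℝ) = Q * wt P src e`, and `loss` and the sum are multiplied by `Q`.  `S_Uni` (with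
`F₂`, `δ = 9 ε₂`, `S_Inj`, `S_One` (`π 1 = 1`), `S_Ls`) gives `ψ` on `B = Σ e, Fin (ω e)`.  `B` is nonempty: `A` is
nonempty, so `∑ |P i| ≥ (1 - η) |A| > 0`, there is an `i` with `P i` nonempty, `cnt src i ≥ 1`.
(1) `g, h ∈ F`: `S_UM` with `w = g`, `w' = h` (all of `g, h, g * h` are in `F₂`; `π (g * h) = π g * π h`; rule = `S_Mul`, where `π g, g, π h,
h ∈ D'`): `≤ 27 ε₂ ≤ ε`.
(2) `n ∈ F`, `n ∈ N`: `π n = n`, `n ∈ T`; for all `b` outside a set of proportion `9 ε₂`: `Act (n, n) b.1 (ψ n b).1`, so `(ψ n b).1 = b.1` by `S_One` and the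
second coordinates agree: `ψ n b = b`.
(3) `c ∈ F`, `π c = 1`, `c ≠ 1`: for all `b` outside a set of proportion `9 ε₂`: `Act (1, c) b.1 (ψ c b).1`, so `ψ c b ≠ b` by `S_Free`. -/
def S_Core : Prop :=
  ∀ (Γ : Type) [Group Γ] (N : Subgroup Γ) (π : Γ →* Γ), N.Normal → IsSoficGroup Γ →
    PropertyT N → (∀ n ∈ N, π n = n) → (∀ w, ∀ n ∈ N, w * n * w⁻¹ = π w * n * (π w)⁻¹) →
    ∀ (F : Finset Γ) (ε : ℝ), 0 < ε → ∃ (B : Type) (_ : Fintype B) (_ : Nonempty B)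
      (ψ : Γ → Equiv.Perm B), ψ 1 = 1 ∧
      (∀ g ∈ F, ∀ h ∈ F, frac (fun b => ψ (g * h) b ≠ ψ g (ψ h b)) ≤ ε) ∧
      (∀ n ∈ F, n ∈ N → frac (fun b => ψ n b ≠ b) ≤ ε) ∧
      ∀ c ∈ F, π c = 1 → c ≠ 1 → frac (fun b => ψ c b = b) ≤ ε

/-! ## Z. Wreath products -/

/-- **TEq** (only Mathlib and `Base`).  PROOF.  Transport a Kazhdan pair along the isomorphism: the image of `S`, the same `κ`, and
`ρ.comp e` for a representation `ρ` of `N'`. -/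
def S_TEq : Prop :=
  ∀ (N N' : Type) [Group N] [Group N'], (N ≃* N') → PropertyT N → PropertyT N'

/-- **Half** (from `S_Core`, `S_TEq`).
PROOF.  Let `W = GenWreath G α`, `N' = N.map inr` (`inr = SemidirectProduct.inr`), `π = inr ∘ rightHom`.  `N' ≃* N` has property (T)
(`S_TEq`).  For `w = inl ω * inr h` and `n ∈ N`: `w * inr n * w⁻¹ = inl ω * inr (h n h⁻¹) * inl ω⁻¹ = inr (h n h⁻¹)`, because
`h n h⁻¹ ∈ N` acts trivially on `X`, so `shiftHom` of it is `1` and `inr (h n h⁻¹)` commutes with `inl ω`.  So `N'` is normal and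
`w n' w⁻¹ = π w n' (π w)⁻¹`.  `π c = 1` iff `c = inl ω` for some `ω`.  Apply `S_Core` to a large finite set `F'` and a small `ε'`
(`ε' ≤ ε/10`) to be chosen.  The first three claims are clear.  The last one: for each `h` with `inr h ∈ F` and `α h ≠ 1` choose `x`
with `α h x ≠ x`, `g ≠ 1` in `G`, and `d = lamp α g x`, `d' = lamp α g (α h x)`: `d' * inr h = inr h * d` (`lamp_conj`), `c = d⁻¹ * d' ≠ 1`,
`π c = 1` (`lamp_injective`).  Let `F'` contain `F` and all these `d, d', d⁻¹, d'⁻¹, c, inr h` and their products of two.  Let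
`Z = {b | ψ (inr h) b = b}`.  If `b ∈ Z` and `ψ d b ∈ Z` and `b` is not in an exceptional set (proportion at most `4 ε'`, for the four
multiplications used) then `ψ d b = ψ (inr h) (ψ d b) = ψ (inr h * d) b = ψ (d' * inr h) b = ψ d' (ψ (inr h) b) = ψ d' b`, so
`ψ c b = ψ (d⁻¹ * d') b = ψ d⁻¹ (ψ d' b) = ψ d⁻¹ (ψ d b) = ψ 1 b = b`: proportion at most `ε'`.  So `frac (Z b ∧ Z (ψ d b)) ≤ 6 ε'`,
and `2 frac Z = frac Z + frac (Z ∘ ψ d) ≤ 1 + 6 ε'`. -/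
def S_Half : Prop :=
  ∀ (G H X : Type) [Group G] [Group H] (α : H →* Equiv.Perm X) (N : Subgroup H),
    (∃ g : G, g ≠ 1) → N.Normal → (∀ n ∈ N, α n = 1) → PropertyT N →
    IsSoficGroup (GenWreath G α) →
    ∀ (F : Finset (GenWreath G α)) (ε : ℝ), 0 < ε → ∃ (B : Type) (_ : Fintype B)
      (_ : Nonempty B) (ψ : GenWreath G α → Equiv.Perm B), ψ 1 = 1 ∧
      (∀ g ∈ F, ∀ h ∈ F, frac (fun b => ψ (g * h) b ≠ ψ g (ψ h b)) ≤ ε) ∧
      (∀ n ∈ N, (SemidirectProduct.inr n : GenWreath G α) ∈ F →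
        frac (fun b => ψ (SemidirectProduct.inr n) b ≠ b) ≤ ε) ∧
      (∀ c : DirectSum G X, c ≠ 1 → (SemidirectProduct.inl c : GenWreath G α) ∈ F →
        frac (fun b => ψ (SemidirectProduct.inl c) b = b) ≤ ε) ∧
      ∀ h : H, α h ≠ 1 → (SemidirectProduct.inr h : GenWreath G α) ∈ F →
        frac (fun b => ψ (SemidirectProduct.inr h) b = b) ≤ 1 / 2 + ε

/-- **Quo** (ultrafilter; only `Base`).
PROOF.  For `i = (F, k) : Finset Γ × ℕ` take the model `(B i, ψ i)` for `F` and `ε = 1/(k+1)`, and `U = Ultrafilter.of atTop`.  Put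
`d_i w = frac (ψ i w b ≠ b) ∈ [0, 1]`.  For all `g, h`: `frac (ψ i (g h) b ≠ ψ i g (ψ i h b)) → 0` along `U`.  Hence with `L w = lim_U d_i w` (exists
by compactness): `L 1 = 0`, `L (g h) ≤ L g + L h`, `L g⁻¹ = L g`, `L (g h g⁻¹) = L h`.  (For the last: `d_i` of a product of
permutations `ψ g ψ h (ψ g)⁻¹` is `d_i h`; `ψ g⁻¹` is close to `(ψ g)⁻¹`.)  Let `R = {w | L w = 0 ∧ L (π w) = 0}`: a normal subgroup.
`N ⊆ R`: `L n = 0`, `π n = n`.  Let `r ∈ R`, `h = π r`, `c = r h⁻¹`: `π c = π r (π (π r))⁻¹ = 1`, `L c ≤ L r + L h = 0`; if `c ≠ 1` then for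
`i` large `frac (ψ i c b = b) ≤ 3/4`, i.e. `d_i c ≥ 1/4` (`frac_compl`), a contradiction, so `r = π r`; if `r ∉ K` then
`d_i r ≥ 1/4` eventually (`π r = r`), a contradiction.
`Γ ⧸ R` is sofic: let `F̄` be a finite subset, `ε > 0`, `σ : Γ ⧸ R → Γ` a section with `σ 1 = 1`.  For `q ∈ F̄`, `q ≠ 1`, `w = σ q ∉ R`, so
`max (L w) (L (π w)) > 0`; let `c₀ > 0` be smaller than all these numbers (`c₀ ≤ 1`), and `k` with `(1 - c₀)^k < ε/2`.  On
`(B i × B i)^k` (functions `Fin k → B i × B i`) let `q` act by `ψ i (σ q) × ψ i (π (σ q))` in each coordinate.  For `q ∈ F̄`, `q ≠ 1` the proportion of fixed points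
in one coordinate is at most `1 - c₀` for `U`-almost all `i`, so in `k` coordinates less than `ε/2`.  Multiplicativity: for `q, q' ∈ F̄`,
`r = σ (q q')⁻¹ σ q σ q' ∈ R`, so `L r = L (π r) = 0` and `σ q σ q' = σ (q q') r`; so `frac (ψ (σ (q q')) b ≠ ψ (σ q) (ψ (σ q') b)) → 0`, and the same
with `π`; in `k` coordinates the error is at most `2 k` times this.  Choose such an `i`. -/
def S_Quo : Prop :=
  ∀ (Γ : Type) [Group Γ] (N K : Set Γ) (π : Γ →* Γ), (∀ w, π (π w) = π w) →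
    (∀ n ∈ N, π n = n) →
    (∀ (F : Finset Γ) (ε : ℝ), 0 < ε → ∃ (B : Type) (_ : Fintype B) (_ : Nonempty B)
      (ψ : Γ → Equiv.Perm B), ψ 1 = 1 ∧
      (∀ g ∈ F, ∀ h ∈ F, frac (fun b => ψ (g * h) b ≠ ψ g (ψ h b)) ≤ ε) ∧
      (∀ n ∈ N, n ∈ F → frac (fun b => ψ n b ≠ b) ≤ ε) ∧
      (∀ c ∈ F, π c = 1 → c ≠ 1 → frac (fun b => ψ c b = b) ≤ 3 / 4) ∧
      ∀ h ∈ F, π h = h → h ∉ K → frac (fun b => ψ h b = b) ≤ 3 / 4) →
    ∃ (R : Subgroup Γ) (_ : R.Normal), (∀ n ∈ N, n ∈ R) ∧ (∀ r ∈ R, π r = r ∧ r ∈ K) ∧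
      IsSoficGroup (Γ ⧸ R)

/-- **Iso** (only `Base`; `sofic_group_of_injective` is in `Reg` or `Asym`).
PROOF.  `R₀ = R.comap inr` is normal in `H`, `R₀ ≤ α.ker` (for `h ∈ R₀`: `inr h = inr h'` with `α h' = 1`, so `h = h'`).  The homomorphisms
`DirectSum G X → W ⧸ R`, `f ↦ mk (inl f)` and `H ⧸ R₀ → W ⧸ R` (lift of `h ↦ mk (inr h)`) are compatible with the action (check on
representatives: `shiftHom G (lift α) (mk h) = shiftHom G α h`), so `SemidirectProduct.lift` gives `GenWreath G (lift α) →* W ⧸ R`.  It is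
injective: if `(f, mk h)` is in the kernel then `inl f * inr h ∈ R`, so it is `inr h'` and `f = 1`, `h = h' ∈ R₀`.  So
`GenWreath G (lift α)` is sofic. -/
def S_Iso : Prop :=
  ∀ (G H X : Type) [Group G] [Group H] (α : H →* Equiv.Perm X)
    (R : Subgroup (GenWreath G α)) [R.Normal],
    (∀ r ∈ R, ∃ h : H, r = SemidirectProduct.inr h ∧ α h = 1) →
    IsSoficGroup (GenWreath G α ⧸ R) →
    ∃ (R₀ : Subgroup H) (_ : R₀.Normal) (hR : R₀ ≤ α.ker),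
      (∀ h : H, h ∈ R₀ ↔ (SemidirectProduct.inr h : GenWreath G α) ∈ R) ∧
      IsSoficGroup (GenWreath G (QuotientGroup.lift R₀ α hR))

/-- **AmQ** (only Mathlib and `Base`): quotients of amenable groups are amenable.
PROOF.  Let `f : K → L` be surjective, `F ⊆ L` finite, `ε > 0`; choose preimages `F' ⊆ K` of the elements of `F` (and of their inverses), and a
Følner set `D` for `F'` and `ε' = ε/(2 |F| + 1)`.  Let `u (y) = #{k ∈ D | f k = y}` on `L`, `∑ u = |D|`.  For `g ∈ F`, with `g'` the chosen preimage: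
`∑_y (u y - u (g y))⁺ ≤ #{k ∈ D | g' k ∉ D} ≤ ε' |D|`, because `k ↦ g' k` maps `{k ∈ D | f k = y, g' k ∈ D}` injectively into
`{k ∈ D | f k = g y}`.  For `r = 1, 2, …` let `Y_r = {y | u y ≥ r}` (finite), `∑_r |Y_r| = |D|`, and `∑_r #{y ∈ Y_r | g y ∉ Y_r} =
∑_y (u y - u (g y))⁺ ≤ ε' |D|`.  Summing over `g ∈ F`: `∑_r ∑_g #{y ∈ Y_r | g y ∉ Y_r} ≤ |F| ε' ∑_r |Y_r|`, so for some `r` with
`Y_r` nonempty `∑_g #{…} ≤ |F| ε' |Y_r| ≤ ε |Y_r|`. -/
def S_AmQ : Prop :=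
  ∀ (K L : Type) [Group K] [Group L] (f : K →* L), Function.Surjective f → IsAmenable K →
    IsAmenable L

/-- **Fin1** (from `S_Half`, `S_Quo`, `S_Iso`).
PROOF.  Let `W = GenWreath G α`, `π = inr ∘ rightHom`, `N' = {inr n | n ∈ N}`, `K = {w | ∃ h, w = inr h ∧ α h = 1}`.  For `(F, ε)` (w.l.o.g.
`ε ≤ 1/4`) let `M` be the subgroup given by the hypothesis for the finite set of the `n ∈ N` with `inr n ∈ F`, and take the model
of `S_Half` for `M`.  `π c = 1` means `c = inl _`, `π h = h` means `h = inr _`.  `S_Quo` gives `R`, `S_Iso` gives `R₀`, and `N ≤ R₀`. -/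
def S_Fin1 : Prop :=
  ∀ (G H X : Type) [Group G] [Group H] (α : H →* Equiv.Perm X) (N : Subgroup H),
    (∃ g : G, g ≠ 1) → (∀ n ∈ N, α n = 1) →
    (∀ F : Finset H, (∀ n ∈ F, n ∈ N) →
      ∃ M : Subgroup H, M.Normal ∧ (∀ n ∈ M, n ∈ N) ∧ (∀ n ∈ F, n ∈ M) ∧ PropertyT M) →
    IsSoficGroup (GenWreath G α) →
    ∃ (R : Subgroup H) (_ : R.Normal) (hR : R ≤ α.ker),
      N ≤ R ∧ IsSoficGroup (GenWreath G (QuotientGroup.lift R α hR))

/-- **Fin2** (from `S_AmQ`; uses `wreath_base`, `sofic_of_amenable_stab`, `sofic_pullback`).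
PROOF.  Let `β = QuotientGroup.lift R α hR : H ⧸ R →* Perm X`.  (1) `IsSoficAction β → IsSoficAction α`: `sofic_pullback` along
`QuotientGroup.mk' R` and `id`.  (2) If all `H_x / N` are amenable: `stab β x` is the image of `stab α x` under `mk' R`, and since
`N ≤ R` it is a quotient of `stab α x ⧸ N.subgroupOf (stab α x)`, so it is amenable by `S_AmQ`.  `H ⧸ R` is sofic by `wreath_base`, so
`β` is sofic by `sofic_of_amenable_stab`, and `α` is sofic by (1). -/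
def S_Fin2 : Prop :=
  ∀ (G H X : Type) [Group G] [Group H] (α : H →* Equiv.Perm X) (N R : Subgroup H) [N.Normal]
    [R.Normal] (hR : R ≤ α.ker), N ≤ R →
    IsSoficGroup (GenWreath G (QuotientGroup.lift R α hR)) →
    (IsSoficAction (QuotientGroup.lift R α hR) → IsSoficAction α) ∧
      ((∀ x, IsAmenable (stab α x ⧸ N.subgroupOf (stab α x))) → IsSoficAction α)

end SoficAct.Kz
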