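import Pool.Agent.Lib.MP_2d1e68_al.Kz.Spec

/-!
# 2d1e68, Kz/TEq: property (T) is invariant under isomorphisms (helper82)
-/

open Finset Filter

noncomputable section

namespace SoficAct.Kz

/-- **TEq.** -/
theorem teq : S_TEq := by
  classical
  rintro N N' _ _ e ⟨S, κ, hκ, h⟩
  refine ⟨S.image e, κ, hκ, ?_⟩
  rintro V _ _ _ ρ ⟨v, hv1, hv2⟩
  obtain ⟨w, hw, hw2⟩ := h V (ρ.comp e.toMonoidHom)
    ⟨v, hv1, fun s hs => hv2 (e s) (mem_image_of_mem _ hs)⟩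
  refine ⟨w, hw, fun n => ?_⟩
  have h1 := hw2 (e.symm n)
  simpa using h1

end SoficAct.Kz
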